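import Pool.Agent.Lib.MP_10e784_ag.QHall

/-! JOB GTHall (copy of `QHall.lean` with weights bounded by `M` instead of `1`).

`Σ W(n) log x ≤ Σ W(n) log n + Σ W(n) log (x/n)`, the second sum is `≤ x Σ W(n)/n`, and `log n = ∑_{p ∣ n} log p`; for `p ∣ n`, `n = p m`, `W n = w p * W m ≤ M * W m`, so the first sum is
`≤ M log 4 x Σ W(m)/m`.  `1 + M log 4 ≤ 3 M` for `M ≥ 1`. -/

namespace ZG

open Finset

private theorem gthall_pf_nonneg (w : ℕ → ℝ) (M : ℝ) (hw : ∀ p, p.Prime → 0 ≤ w p ∧ w p ≤ M) (n : ℕ) :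
    0 ≤ QT.pf w n := by
  unfold QT.pf
  apply prod_nonneg
  intro p hp
  exact (hw p (Nat.prime_of_mem_primeFactors hp)).1

private theorem gthall_pf_div (w : ℕ → ℝ) (M : ℝ) (hw : ∀ p, p.Prime → 0 ≤ w p ∧ w p ≤ M)
    {n p : ℕ} (hn : Squarefree n) (hp : p ∈ n.primeFactors) :
    QT.pf w n ≤ M * QT.pf w (n / p) := by
  have hpp := Nat.prime_of_mem_primeFactors hp
  have hdvd := Nat.dvd_of_mem_primeFactors hp
  have h1 : (n / p).primeFactors = n.primeFactors.erase p := by
    have hnp : n = p * (n / p) := (Nat.mul_div_cancel' hdvd).symm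
    have hcop : Nat.Coprime p (n / p) := by
      rw [hnp] at hn
      exact Nat.coprime_of_squarefree_mul hn
    have h2 : n.primeFactors = p.primeFactors ∪ (n / p).primeFactors := by
      conv_lhs => rw [hnp]
      exact hcop.primeFactors_mul
    rw [h2, hpp.primeFactors]
    ext q
    simp only [mem_erase, mem_union, mem_singleton]
    constructor
    · intro hq
      refine ⟨?_, Or.inr hq⟩
      rintro rfl
      have h3 := Nat.dvd_of_mem_primeFactors hq
      have h4 := Nat.dvd_gcd dvd_rfl h3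
      rw [hcop.gcd_eq_one] at h4
      exact hpp.one_lt.ne' (Nat.dvd_one.mp h4)
    · rintro ⟨h3, h4⟩
      rcases h4 with h4 | h4
      · exact absurd h4 h3
      · exact h4
  unfold QT.pf
  rw [h1, ← mul_prod_erase _ _ hp]
  have h5 : 0 ≤ ∏ q ∈ n.primeFactors.erase p, w q := by
    apply prod_nonneg
    intro q hq
    exact (hw q (Nat.prime_of_mem_primeFactors (mem_of_mem_erase hq))).1
  exact mul_le_mul_of_nonneg_right (hw p hpp).2 h5

theorem hall (w : ℕ → ℝ) (M : ℝ) (hM : 1 ≤ M) (hw : ∀ p, p.Prime → 0 ≤ w p ∧ w p ≤ M) (x : ℝ) (hx : 1 ≤ x) :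
    (∑ n ∈ (Icc 1 ⌊x⌋₊).filter Squarefree, QT.pf w n) * Real.log x ≤
      3 * M * x * ∑ n ∈ (Icc 1 ⌊x⌋₊).filter Squarefree, QT.pf w n / n := by
  classical
  have hx0 : 0 < x := by linarith
  set S := (Icc 1 ⌊x⌋₊).filter Squarefree with hS
  have hmem : ∀ n ∈ S, 1 ≤ n ∧ (n : ℝ) ≤ x ∧ Squarefree n := by
    intro n hn
    rw [hS, mem_filter, mem_Icc] at hn
    refine ⟨hn.1.1, ?_, hn.2⟩
    exact (Nat.cast_le.mpr hn.1.2).trans (Nat.floor_le hx0.le)
  -- split the logarithm
  have hsplit : (∑ n ∈ S, QT.pf w n) * Real.log x =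
      ∑ n ∈ S, QT.pf w n * Real.log n + ∑ n ∈ S, QT.pf w n * Real.log (x / n) := by
    rw [sum_mul, ← sum_add_distrib]
    apply sum_congr rfl
    intro n hn
    have hn1 := (hmem n hn).1
    have hn0 : (n : ℝ) ≠ 0 := by
      have : 0 < n := hn1
      positivity
    rw [Real.log_div hx0.ne' hn0]
    ring
  have hsecond : ∑ n ∈ S, QT.pf w n * Real.log (x / n) ≤ x * ∑ n ∈ S, QT.pf w n / n := by
    rw [mul_sum]
    apply sum_le_sum
    intro n hn
    have hn1 := (hmem n hn).1
    have hn0 : (0 : ℝ) < n := by exact_mod_cast hn1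
    have h1 : Real.log (x / n) ≤ x / n := Real.log_le_self (by positivity)
    calc QT.pf w n * Real.log (x / n) ≤ QT.pf w n * (x / n) :=
          mul_le_mul_of_nonneg_left h1 (gthall_pf_nonneg w M hw n)
      _ = x * (QT.pf w n / n) := by ring
  have hM0 : 0 ≤ M := by linarith
  have hfirst : ∑ n ∈ S, QT.pf w n * Real.log n ≤
      M * (Real.log 4 * x * ∑ n ∈ S, QT.pf w n / n) := by
    have e1 : ∀ n ∈ S, QT.pf w n * Real.log n ≤
        M * ∑ p ∈ n.primeFactors, QT.pf w (n / p) * Real.log p := by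
      intro n hn
      rw [QT.QHall_log_eq (hmem n hn).2.2, mul_sum, mul_sum]
      apply sum_le_sum
      intro p hp
      rw [← mul_assoc]
      apply mul_le_mul_of_nonneg_right (gthall_pf_div w M hw (hmem n hn).2.2 hp)
      have := (Nat.prime_of_mem_primeFactors hp).one_lt
      exact Real.log_nonneg (by exact_mod_cast this.le)
    have e2 : ∑ n ∈ S, ∑ p ∈ n.primeFactors, QT.pf w (n / p) * Real.log p ≤
        ∑ m ∈ S, ∑ p ∈ (Ioc 0 ⌊x / m⌋₊).filter Nat.Prime, QT.pf w m * Real.log p := by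
      rw [sum_sigma', sum_sigma']
      set T := S.sigma (fun m => (Ioc 0 ⌊x / m⌋₊).filter Nat.Prime) with hT
      have hinj : Set.InjOn (fun a : (_ : ℕ) × ℕ => (⟨a.1 / a.2, a.2⟩ : (_ : ℕ) × ℕ))
          (S.sigma fun n => n.primeFactors : Finset ((_ : ℕ) × ℕ)) := by
        rintro ⟨n, p⟩ h1 ⟨n', p'⟩ h2 h3
        simp only [coe_sigma, Set.mem_sigma_iff, mem_coe] at h1 h2
        simp only [Sigma.mk.injEq, heq_eq_eq] at h3
        obtain ⟨h4, rfl⟩ := h3
        have h5 := Nat.mul_div_cancel' (Nat.dvd_of_mem_primeFactors h1.2)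
        have h6 := Nat.mul_div_cancel' (Nat.dvd_of_mem_primeFactors h2.2)
        have : n = n' := by rw [← h5, ← h6, h4]
        subst this
        rfl
      have himg : ((S.sigma fun n => n.primeFactors).image
          (fun a : (_ : ℕ) × ℕ => (⟨a.1 / a.2, a.2⟩ : (_ : ℕ) × ℕ))) ⊆ T := by
        intro b hb
        rw [mem_image] at hb
        obtain ⟨⟨n, p⟩, ha, rfl⟩ := hb
        rw [mem_sigma] at ha
        obtain ⟨hn, hp⟩ := ha
        simp only at hn hp
        have hpp := Nat.prime_of_mem_primeFactors hp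
        have hdvd := Nat.dvd_of_mem_primeFactors hp
        obtain ⟨hn1, hnx, hnsq⟩ := hmem n hn
        rw [hT, mem_sigma]
        have hnp : n / p * p = n := Nat.div_mul_cancel hdvd
        have hpos : 0 < n / p := Nat.div_pos (Nat.le_of_dvd hn1 hdvd) hpp.pos
        constructor
        · rw [hS, mem_filter, mem_Icc]
          rw [hS, mem_filter, mem_Icc] at hn
          exact ⟨⟨hpos, (Nat.div_le_self n p).trans hn.1.2⟩,
            hnsq.squarefree_of_dvd (Nat.div_dvd_of_dvd hdvd)⟩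
        · rw [mem_filter, mem_Ioc]
          refine ⟨⟨hpp.pos, ?_⟩, hpp⟩
          apply Nat.le_floor
          simp only
          rw [le_div_iff₀ (by exact_mod_cast hpos)]
          calc (p : ℝ) * ((n / p : ℕ) : ℝ) = ((n / p * p : ℕ) : ℝ) := by push_cast; ring
            _ = n := by rw [hnp]
            _ ≤ x := hnx
      calc ∑ a ∈ S.sigma (fun n => n.primeFactors), QT.pf w (a.1 / a.2) * Real.log a.2
          = ∑ b ∈ (S.sigma fun n => n.primeFactors).image
              (fun a : (_ : ℕ) × ℕ => (⟨a.1 / a.2, a.2⟩ : (_ : ℕ) × ℕ)),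
              QT.pf w b.1 * Real.log b.2 := by
            rw [sum_image hinj]
        _ ≤ ∑ b ∈ T, QT.pf w b.1 * Real.log b.2 := by
            apply sum_le_sum_of_subset_of_nonneg himg
            intro b _ _
            apply mul_nonneg (gthall_pf_nonneg w M hw _)
            exact Real.log_natCast_nonneg _
    calc ∑ n ∈ S, QT.pf w n * Real.log n
        ≤ ∑ n ∈ S, M * ∑ p ∈ n.primeFactors, QT.pf w (n / p) * Real.log p := sum_le_sum e1
      _ = M * ∑ n ∈ S, ∑ p ∈ n.primeFactors, QT.pf w (n / p) * Real.log p := by rw [mul_sum]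
      _ ≤ M * ∑ m ∈ S, ∑ p ∈ (Ioc 0 ⌊x / m⌋₊).filter Nat.Prime, QT.pf w m * Real.log p :=
          mul_le_mul_of_nonneg_left e2 hM0
      _ = M * ∑ m ∈ S, QT.pf w m * Chebyshev.theta (x / m) := by
          congr 1
          apply sum_congr rfl
          intro m _
          rw [← mul_sum]
          rfl
      _ ≤ M * ∑ m ∈ S, QT.pf w m * (Real.log 4 * (x / m)) := by
          apply mul_le_mul_of_nonneg_left _ hM0
          apply sum_le_sum
          intro m _
          apply mul_le_mul_of_nonneg_left _ (gthall_pf_nonneg w M hw m)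
          exact Chebyshev.theta_le_log4_mul_x (by positivity)
      _ = M * (Real.log 4 * x * ∑ n ∈ S, QT.pf w n / n) := by
          congr 1
          rw [mul_sum]
          apply sum_congr rfl
          intro m _
          ring
  have hlog4 : Real.log 4 ≤ 2 := by
    have h1 : Real.log 4 = 2 * Real.log 2 := by
      rw [show (4 : ℝ) = 2 ^ 2 by norm_num, Real.log_pow]
      norm_num
    have h2 := Real.log_two_lt_d9
    linarith
  have hR : 0 ≤ ∑ n ∈ S, QT.pf w n / n := by
    apply sum_nonneg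
    intro n _
    exact div_nonneg (gthall_pf_nonneg w M hw n) (Nat.cast_nonneg n)
  rw [hsplit]
  have hxR : 0 ≤ x * ∑ n ∈ S, QT.pf w n / n := mul_nonneg hx0.le hR
  have h3 : M * (Real.log 4 * x * ∑ n ∈ S, QT.pf w n / n) ≤
      M * (2 * (x * ∑ n ∈ S, QT.pf w n / n)) := by
    apply mul_le_mul_of_nonneg_left _ hM0
    rw [mul_assoc]
    exact mul_le_mul_of_nonneg_right hlog4 hxR
  have h4 : x * ∑ n ∈ S, QT.pf w n / n ≤ M * (x * ∑ n ∈ S, QT.pf w n / n) :=
    le_mul_of_one_le_left hxR hM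
  have h5 : 3 * M * x * ∑ n ∈ S, QT.pf w n / n =
      M * (2 * (x * ∑ n ∈ S, QT.pf w n / n)) + M * (x * ∑ n ∈ S, QT.pf w n / n) := by ring
  rw [h5]
  linarith

end ZG
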