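import Pool.Agent.Lib.MP_1ad228_nt.ZDefs

/-! JOB ZBase.  Base change of a finite extension `K/F` to a bigger field `F'`: `K ⊗_F F'` is a finite product of finite extensions of `F'`.

Proof.  (characteristic zero)  Let `R = F' ⊗[F] K` (an `F'`-algebra, free of rank `n = [K:F]`).  It is reduced, because `K/F` is separable (primitive element: `K ≅ F[X]/(m)` with `m` separable, `R ≅ F'[X]/(m)`, `m` is squarefree over `F'`; or Mathlib:
`Algebra.FormallyEtale`, `Algebra.IsSeparable` base change results) and Artinian, so `R ≅ ∏_j R/𝔪_j` over its finitely many maximal ideals (`IsArtinianRing.equivPi`), each `L_j = R/𝔪_j` is a finite field extension of `F'`.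
`∑ [L_j:F'] = rank R = n` (`Module.finrank_pi_fintype`).  Norms: `N_{R/F'}(1 ⊗ x) = N_{K/F}(x)` (base change of a determinant: `Algebra.norm_eq_matrix_det`, `LinearMap.det_baseChange`, `Algebra.baseChange ...`) and the norm of a product algebra is the product of the norms
(`Algebra.norm` of a pi algebra; determinant of a block diagonal / `LinearMap.det_pi`..).
Alternative with polynomials: `K = F(x)`, `m = minpoly F x = ∏ m_j` over `F'` with distinct monic irreducible `m_j`, `L_j = AdjoinRoot m_j`, CRT for the linear map multiplication by h on `F'[X]/(m)`.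

`FExt F'` bundles a finite extension of `F'`. -/

namespace ZC

/-- a bundled finite extension of `F'`, with a ring homomorphism from `K` -/
structure FExt (K F' : Type) [Field K] [Field F'] where
  L : Type
  [field : Field L]
  [alg : Algebra F' L]
  [fin : FiniteDimensional F' L]
  φ : K →+* L

attribute [instance] FExt.field FExt.alg FExt.fin

open scoped TensorProduct

/-- splitting off one coordinate -/
private def ZBase_split {k : Type} [Field k] {I : Type} [DecidableEq I] (A : I → Type)
    [∀ i, Field (A i)] [∀ i, Algebra k (A i)] (i : I) :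
    (∀ j, A j) ≃ₗ[k] A i × ∀ j : {j // j ≠ i}, A j :=
  { Equiv.piSplitAt i A with
    map_add' := fun _ _ => rfl
    map_smul' := fun _ _ => rfl }

private lemma ZBase_norm_single {k : Type} [Field k] {I : Type} [Fintype I] [DecidableEq I] (A : I → Type)
    [∀ i, Field (A i)] [∀ i, Algebra k (A i)] [∀ i, FiniteDimensional k (A i)] (i : I) (a : A i) :
    Algebra.norm k (Pi.mulSingle i a : ∀ j, A j) = Algebra.norm k a := by
  rw [Algebra.norm_apply, Algebra.norm_apply]
  have h1 : ((ZBase_split (k := k) A i).toLinearMap ∘ₗ
      (LinearMap.mul k (∀ j, A j) (Pi.mulSingle i a)) ∘ₗ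
      (ZBase_split (k := k) A i).symm.toLinearMap) =
      LinearMap.prodMap (LinearMap.mul k (A i) a) LinearMap.id := by
    apply LinearMap.ext
    rintro ⟨b, c⟩
    apply Prod.ext
    · change (Pi.mulSingle i a : ∀ j, A j) i * ((ZBase_split (k := k) A i).symm (b, c)) i = a * b
      rw [Pi.mulSingle_eq_same]
      congr 1
      change (Equiv.piSplitAt i A).symm (b, c) i = b
      simp [Equiv.piSplitAt]
    · funext j
      change (Pi.mulSingle i a : ∀ j, A j) j * ((ZBase_split (k := k) A i).symm (b, c)) j = c j
      rw [Pi.mulSingle_eq_of_ne j.2, one_mul]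
      change (Equiv.piSplitAt i A).symm (b, c) j = c j
      simp [Equiv.piSplitAt, j.2]
  have h2 := LinearMap.det_conj (LinearMap.mul k (∀ j, A j) (Pi.mulSingle i a))
    (ZBase_split (k := k) A i)
  rw [h1, LinearMap.det_prodMap, LinearMap.det_id, mul_one] at h2
  exact h2.symm

private lemma ZBase_norm_pi {k : Type} [Field k] {I : Type} [Fintype I] [DecidableEq I] (A : I → Type)
    [∀ i, Field (A i)] [∀ i, Algebra k (A i)] [∀ i, FiniteDimensional k (A i)] (x : ∀ i, A i) :
    Algebra.norm k x = ∏ i, Algebra.norm k (x i) := by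
  conv_lhs => rw [← Finset.univ_prod_mulSingle x]
  rw [map_prod]
  exact Finset.prod_congr rfl fun i _ => ZBase_norm_single A i (x i)

private lemma ZBase_norm_tensor {F F' K : Type} [Field F] [Field F'] [Field K] [Algebra F F'] [Algebra F K]
    [FiniteDimensional F K] (x : K) :
    Algebra.norm F' ((1 : F') ⊗ₜ[F] x) = algebraMap F F' (Algebra.norm F x) := by
  rw [Algebra.norm_apply, Algebra.norm_apply, ← LinearMap.det_baseChange]
  congr 1
  ext y
  simp

theorem base_change (F F' K : Type) [Field F] [Field F'] [Field K] [CharZero F] [Algebra F F'] [Algebra F K]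
    [FiniteDimensional F K] :
    ∃ l : List (FExt K F'), (∀ E ∈ l, ∀ c : F, E.φ (algebraMap F K c) = algebraMap F' E.L (algebraMap F F' c)) ∧
      (l.map fun E => Module.finrank F' E.L).sum = Module.finrank F K ∧
      ∀ x : K, (l.map fun E => Algebra.norm F' (E.φ x)).prod = algebraMap F F' (Algebra.norm F x) := by
  classical
  have hsep : Algebra.IsSeparable F K := inferInstance
  have hfe : Algebra.FormallyEtale F K := Algebra.FormallyEtale.of_isSeparable F K
  have hfp : Algebra.FinitePresentation F K := Algebra.FinitePresentation.of_finiteType.mp inferInstance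
  have het : Algebra.Etale F K := ⟨hfe, hfp⟩
  have het' : Algebra.Etale F' (F' ⊗[F] K) := inferInstance
  obtain ⟨I, hI, A, hAf, hAa, e, hA⟩ := (Algebra.Etale.iff_exists_algEquiv_prod F' (F' ⊗[F] K)).1 het'
  have := Fintype.ofFinite I
  have hfin : ∀ i, FiniteDimensional F' (A i) := fun i => (hA i).1
  let E : I → FExt K F' := fun i =>
    { L := A i
      field := hAf i
      alg := hAa i
      fin := hfin i
      φ := ((Pi.evalRingHom A i).comp e.toRingEquiv.toRingHom).comp
        (Algebra.TensorProduct.includeRight : K →ₐ[F] F' ⊗[F] K).toRingHom }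
  have hφ : ∀ i x, (E i).φ x = e ((1 : F') ⊗ₜ[F] x) i := fun _ _ => rfl
  refine ⟨(Finset.univ : Finset I).toList.map E, ?_, ?_, ?_⟩
  · intro E' hE' c
    obtain ⟨i, _, rfl⟩ := List.mem_map.1 hE'
    rw [hφ]
    have h1 : ((1 : F') ⊗ₜ[F] (algebraMap F K c)) = algebraMap F' (F' ⊗[F] K) (algebraMap F F' c) := by
      rw [Algebra.TensorProduct.algebraMap_apply, Algebra.algebraMap_eq_smul_one,
        TensorProduct.tmul_smul, TensorProduct.smul_tmul', Algebra.smul_def, mul_one]
      rfl
    rw [h1, e.commutes]
    rfl
  · rw [List.map_map]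
    change ((Finset.univ : Finset I).toList.map (fun i => Module.finrank F' (A i))).sum = _
    rw [Finset.sum_map_toList, ← Module.finrank_pi_fintype F', ← LinearEquiv.finrank_eq e.toLinearEquiv,
      Module.finrank_baseChange]
  · intro x
    rw [List.map_map]
    change ((Finset.univ : Finset I).toList.map (fun i => Algebra.norm F' (e ((1 : F') ⊗ₜ[F] x) i))).prod = _
    rw [Finset.prod_map_toList, ← ZBase_norm_pi A (e ((1 : F') ⊗ₜ[F] x)), Algebra.norm_eq_of_algEquiv,
      ZBase_norm_tensor]

end ZC
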