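import Pool.Agent.Lib.MP_1ad228_nt.ZHgen

/-! JOB ZHtwo.  Conics over `ℚ_2`.

Tools: `t` with `‖t - 1‖ ≤ 1/8` is a square (Hensel: `F = X² - t`, `a = 1`, `‖F(1)‖ ≤ 1/8 < ‖F'(1)‖² = 1/4`).  Hence every `u ≠ 0` is `r s²` with
`s ≠ 0` and `r` one of the integers `1, -1, 5, -5, 2, -2, 10, -10` (write `u = 2^k ε`; the unit `ε` is congruent mod 8 to one of `1, 3, 5, 7`, i.e. to
`1, -5, 5, -1`).
So by `split_mul_sq`, `split_comm` everything reduces to the table of `Split ℚ_2 r r'` for these 8 integers: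
`Split r r'` iff `(-1)^(ε(r₁)ε(r₁') + a ω(r₁') + a' ω(r₁)) = 1`, `r = 2^a r₁`, `ε(x) = (x-1)/2`, `ω(x) = (x²-1)/8`.
Split cases: give integers `x, y, z`, `z ≠ 0`, with `(r x² + r' y²)/z² ≡ 1 mod 8` (a square then); e.g. `z` a power of 2.
Nonsplit cases: a solution can be scaled to one in `ℤ_2` with one of `x, y, z` a unit; reduce modulo `16` (or `32`): a finite check in `ZMod 16`
(`PadicInt.toZModPow 4`, `decide` on `ZMod 16`: no `(x,y,z)`, not all even, with `r x² + r' y² = z²`).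
`split_mul_two`: with the table it is a finite check (`8³` cases; better: `Split u β ↔ h(u,β) = 1` for an explicit bimultiplicative `h` on classes).
`two_units`, `two_even`: the same table (an odd integer is `≡ 1, -1, 5, -5 mod 8`, so it is one of them times a square).
`two_square`: even valuation: the class is `1, -1, 5` or `-5`; `(−1,−1)`, `(5,2)`, `(−5,−1)` are not split. -/

namespace ZC

/-- elements of `ℚ_2` close to `1` are squares -/
private theorem sq_close (t : ℚ_[2]) (ht : ‖t - 1‖ ≤ 1 / 8) : ∃ s : ℚ_[2], s ≠ 0 ∧ t = s ^ 2 := by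
  have ht1 : ‖t‖ ≤ 1 := by
    have h := Padic.nonarchimedean (t - 1) 1
    rw [sub_add_cancel] at h
    refine h.trans (max_le (ht.trans (by norm_num)) ?_)
    simp
  have ht0 : t ≠ 0 := by
    intro h
    rw [h] at ht
    simp at ht
    norm_num at ht
  set T : ℤ_[2] := ⟨t, ht1⟩ with hT
  have hn2 : ‖(2 : ℤ_[2])‖ = 1 / 2 := by
    have := @PadicInt.norm_p 2 _
    simpa using this
  have hF : ‖(Polynomial.X ^ 2 - Polynomial.C T : Polynomial ℤ_[2]).aeval (1 : ℤ_[2])‖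
      < ‖(Polynomial.X ^ 2 - Polynomial.C T : Polynomial ℤ_[2]).derivative.aeval (1 : ℤ_[2])‖ ^ 2 := by
    have e1 : (Polynomial.X ^ 2 - Polynomial.C T : Polynomial ℤ_[2]).aeval (1 : ℤ_[2]) = 1 - T := by
      simp
    have e2 : (Polynomial.X ^ 2 - Polynomial.C T : Polynomial ℤ_[2]).derivative.aeval (1 : ℤ_[2])
        = 2 := by
      simp
      norm_num
    rw [e1, e2, hn2, norm_sub_rev]
    have e3 : ‖T - 1‖ = ‖t - 1‖ := by
      rw [PadicInt.norm_def]
      simp [hT]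
    rw [e3]
    refine lt_of_le_of_lt ht ?_
    norm_num
  obtain ⟨z, hz, -⟩ := hensels_lemma hF
  have hz' : z ^ 2 = T := by
    have : z ^ 2 - T = 0 := by simpa using hz
    exact sub_eq_zero.1 this
  have hz2 : (z : ℚ_[2]) ^ 2 = t := by
    have := congrArg (fun w : ℤ_[2] => (w : ℚ_[2])) hz'
    simpa [hT] using this
  refine ⟨z, ?_, hz2.symm⟩
  intro h
  rw [h] at hz2
  apply ht0
  rw [← hz2]
  ring

private theorem norm_odd (m : ℤ) (hm : Odd m) : ‖(m : ℚ_[2])‖ = 1 := by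
  refine le_antisymm (Padic.norm_int_le_one m) ?_
  by_contra h
  have h1 : ‖(m : ℚ_[2])‖ < 1 := lt_of_not_ge h
  rw [Padic.norm_intCast_lt_one_iff] at h1
  obtain ⟨k, hk⟩ := hm
  push_cast at h1
  omega

private theorem norm_eight (m : ℤ) (hm : m % 8 = 0) : ‖(m : ℚ_[2])‖ ≤ 1 / 8 := by
  have h := (Padic.norm_int_le_pow_iff_dvd (p := 2) m 3).2 (by
    norm_num
    exact Int.dvd_of_emod_eq_zero hm)
  refine h.trans ?_
  norm_num

/-- a number close to an odd integer `r` is `r` times a square -/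
private theorem near_odd (t : ℚ_[2]) (r : ℤ) (hr : Odd r) (h : ‖t - r‖ ≤ 1 / 8) :
    ∃ s : ℚ_[2], s ≠ 0 ∧ t = r * s ^ 2 := by
  have hn := norm_odd r hr
  have hr0 : (r : ℚ_[2]) ≠ 0 := by
    intro h0
    rw [h0, norm_zero] at hn
    exact zero_ne_one hn
  have e : ‖t / r - 1‖ ≤ 1 / 8 := by
    have : t / r - 1 = (t - r) / r := by field_simp
    rw [this, norm_div, hn, div_one]
    exact h
  obtain ⟨s, hs, hs2⟩ := sq_close _ e
  refine ⟨s, hs, ?_⟩
  rw [← hs2]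
  field_simp

/-- the representatives of the square classes -/
private def rr (a e w : Bool) : ℤ := (if a then 2 else 1) * ((if e then -1 else 1) * (if w then 5 else 1))

/-- the symbol (`true` = not split) -/
private def hh (a e w a' e' w' : Bool) : Bool := (e && e') ^^ ((a && w') ^^ (a' && w))

private theorem rr_odd (e w : Bool) : Odd (rr false e w) := by
  revert e w
  decide

private theorem rr_ne (a e w : Bool) : ((rr a e w : ℤ) : ℚ_[2]) ≠ 0 := by
  rw [Int.cast_ne_zero]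
  revert a e w
  decide

private theorem rr_mul (a e w a' e' w' : Bool) : ∃ s : ℚ_[2], s ≠ 0 ∧
    ((rr a e w : ℤ) : ℚ_[2]) * ((rr a' e' w' : ℤ) : ℚ_[2]) = ((rr (a ^^ a') (e ^^ e') (w ^^ w') : ℤ) : ℚ_[2]) * s ^ 2 := by
  refine ⟨(((if a && a' then 2 else 1) * (if w && w' then 5 else 1) : ℤ) : ℚ_[2]), ?_, ?_⟩
  · rw [Int.cast_ne_zero]
    revert a a' w w'
    decide
  · rw [← Int.cast_mul, ← Int.cast_pow, ← Int.cast_mul, Int.cast_inj]
    revert a e w a' e' w'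
    decide

/-- the class of an odd integer -/
private theorem odd_rep (m : ℤ) (e w : Bool) (h : (m - rr false e w) % 8 = 0) :
    ∃ s : ℚ_[2], s ≠ 0 ∧ (m : ℚ_[2]) = ((rr false e w : ℤ) : ℚ_[2]) * s ^ 2 := by
  apply near_odd _ _ (rr_odd e w)
  have := norm_eight _ h
  push_cast at this
  exact this

private theorem odd_class (m : ℤ) (hm : Odd m) : ∃ e w : Bool, (m - rr false e w) % 8 = 0 := by
  obtain ⟨k, hk⟩ := hm
  have h8 : m % 8 = 1 ∨ m % 8 = 3 ∨ m % 8 = 5 ∨ m % 8 = 7 := by omega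
  rcases h8 with h | h | h | h
  · exact ⟨false, false, by simp [rr]; omega⟩
  · exact ⟨true, true, by simp [rr]; omega⟩
  · exact ⟨false, true, by simp [rr]; omega⟩
  · exact ⟨true, false, by simp [rr]; omega⟩

/-- the class of a unit -/
private theorem unit_rep (t : ℚ_[2]) (ht : ‖t‖ = 1) : ∃ (e w : Bool) (s : ℚ_[2]), s ≠ 0 ∧
    t = ((rr false e w : ℤ) : ℚ_[2]) * s ^ 2 := by
  set T : ℤ_[2] := ⟨t, ht.le⟩ with hT
  have h1 := PadicInt.appr_spec 3 T
  rw [← PadicInt.norm_le_pow_iff_mem_span_pow] at h1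
  set n : ℕ := T.appr 3 with hn
  have h2 : ‖t - ((n : ℤ) : ℚ_[2])‖ ≤ 1 / 8 := by
    have e3 : ‖T - (n : ℤ_[2])‖ = ‖t - ((n : ℤ) : ℚ_[2])‖ := by
      rw [PadicInt.norm_def]
      simp [hT]
    rw [← e3]
    refine h1.trans ?_
    norm_num
  have hodd : Odd (n : ℤ) := by
    rw [← Int.not_even_iff_odd]
    intro hev
    have h3 : ‖((n : ℤ) : ℚ_[2])‖ < 1 := by
      rw [Padic.norm_intCast_lt_one_iff]
      push_cast
      exact hev.two_dvd
    have h4 := Padic.nonarchimedean (t - ((n : ℤ) : ℚ_[2])) ((n : ℤ) : ℚ_[2])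
    rw [sub_add_cancel, ht] at h4
    rcases le_max_iff.1 h4 with h | h
    · linarith
    · linarith
  obtain ⟨e, w, hew⟩ := odd_class _ hodd
  refine ⟨e, w, near_odd t _ (rr_odd e w) ?_⟩
  have h5 := norm_eight _ hew
  push_cast at h5 h2 ⊢
  have h6 := Padic.nonarchimedean (t - (n : ℚ_[2])) ((n : ℚ_[2]) - (rr false e w : ℚ_[2]))
  rw [sub_add_sub_cancel] at h6
  exact h6.trans (max_le h2 h5)

/-- the class of a nonzero element -/
private theorem rep (u : ℚ_[2]) (hu : u ≠ 0) : ∃ (a e w : Bool) (s : ℚ_[2]), s ≠ 0 ∧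
    u = ((rr a e w : ℤ) : ℚ_[2]) * s ^ 2 ∧ (a = false ↔ Even u.valuation) := by
  have h2 : (2 : ℚ_[2]) ≠ 0 := two_ne_zero
  set k := u.valuation with hk
  have hnu : ‖u‖ = (2 : ℝ) ^ (-k) := by
    have := Padic.norm_eq_zpow_neg_valuation hu
    simpa using this
  have hn2 : ∀ n : ℤ, ‖(2 : ℚ_[2]) ^ n‖ = (2 : ℝ) ^ (-n) := by
    intro n
    have := Padic.norm_p_zpow (p := 2) n
    simpa using this
  have h1 : ‖u * 2 ^ (-k)‖ = 1 := by
    rw [norm_mul, hnu, hn2, ← zpow_add₀ (by norm_num : (2 : ℝ) ≠ 0)]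
    simp
  obtain ⟨e, w, s, hs, hs2⟩ := unit_rep _ h1
  have hu2 : u = ((rr false e w : ℤ) : ℚ_[2]) * s ^ 2 * 2 ^ k := by
    rw [← hs2, mul_assoc, ← zpow_add₀ h2]
    simp
  rcases Int.even_or_odd' k with ⟨j, hj | hj⟩
  · refine ⟨false, e, w, s * 2 ^ j, mul_ne_zero hs (zpow_ne_zero _ h2), ?_, ?_⟩
    · rw [hu2, hj, two_mul, zpow_add₀ h2]
      ring
    · rw [hj]
      simp
  · refine ⟨true, e, w, s * 2 ^ j, mul_ne_zero hs (zpow_ne_zero _ h2), ?_, ?_⟩
    · rw [hu2, hj, two_mul, zpow_add₀ h2, zpow_add₀ h2]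
      have : ((rr true e w : ℤ) : ℚ_[2]) = 2 * ((rr false e w : ℤ) : ℚ_[2]) := by
        cases e <;> cases w <;> norm_num [rr]
      rw [this]
      ring
    · rw [hj]
      simp

private theorem tab_split_aux : ∀ a e w a' e' w' : Bool, hh a e w a' e' w' = false →
    ∃ x : Fin 4, ∃ y : Fin 4, ∃ z : Fin 5, (x ≠ 0 ∨ y ≠ 0) ∧
      (rr a e w * (x.val : ℤ) ^ 2 + rr a' e' w' * (y.val : ℤ) ^ 2 - (z.val : ℤ) ^ 2) % (8 * (z.val : ℤ) ^ 2) = 0 := by
  decide +kernel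

private theorem tab_split (a e w a' e' w' : Bool) (h : hh a e w a' e' w' = false) :
    Split ℚ_[2] ((rr a e w : ℤ) : ℚ_[2]) ((rr a' e' w' : ℤ) : ℚ_[2]) := by
  obtain ⟨x, y, z, hxy, hz⟩ := tab_split_aux a e w a' e' w' h
  set r := rr a e w
  set r' := rr a' e' w'
  have hxy' : ((x.val : ℚ_[2]) ≠ 0 ∨ (y.val : ℚ_[2]) ≠ 0) := by
    rcases hxy with h | h
    · left
      rw [Nat.cast_ne_zero]
      intro h0
      exact h (Fin.ext h0)
    · right
      rw [Nat.cast_ne_zero]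
      intro h0
      exact h (Fin.ext h0)
  by_cases hz0 : z.val = 0
  · refine ⟨x.val, y.val, 0, ?_, ?_⟩
    · rintro ⟨h1, h2, -⟩
      rcases hxy' with h | h
      · exact h h1
      · exact h h2
    · rw [hz0] at hz
      have h1 : r * (x.val : ℤ) ^ 2 + r' * (y.val : ℤ) ^ 2 = 0 := by simpa using hz
      have := congrArg (fun m : ℤ => (m : ℚ_[2])) h1
      push_cast at this
      rw [this]
      ring
  · have hzq : (z.val : ℚ_[2]) ≠ 0 := by
      rw [Nat.cast_ne_zero]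
      exact hz0
    obtain ⟨c, hc⟩ := Int.dvd_of_emod_eq_zero hz
    have hc' := congrArg (fun m : ℤ => (m : ℚ_[2])) hc
    push_cast at hc'
    have h1 : ‖((r : ℚ_[2]) * (x.val : ℚ_[2]) ^ 2 + (r' : ℚ_[2]) * (y.val : ℚ_[2]) ^ 2) / (z.val : ℚ_[2]) ^ 2 - 1‖ ≤ 1 / 8 := by
      have e1 : ((r : ℚ_[2]) * (x.val : ℚ_[2]) ^ 2 + (r' : ℚ_[2]) * (y.val : ℚ_[2]) ^ 2) / (z.val : ℚ_[2]) ^ 2 - 1
          = ((8 * c : ℤ) : ℚ_[2]) := by
        push_cast
        field_simp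
        linear_combination hc'
      rw [e1]
      exact norm_eight _ (by omega)
    obtain ⟨s, hs, hs2⟩ := sq_close _ h1
    refine ⟨x.val, y.val, s * z.val, ?_, ?_⟩
    · rintro ⟨-, -, h3⟩
      exact mul_ne_zero hs hzq h3
    · rw [mul_pow, ← hs2]
      field_simp

private theorem tab_nonsplit_aux : ∀ a e w a' e' w' : Bool, hh a e w a' e' w' = true →
    ∀ A ∈ ([0, 1, 4, 9] : List (ZMod 16)), ∀ B ∈ ([0, 1, 4, 9] : List (ZMod 16)),
      ((rr a e w : ℤ) : ZMod 16) + ((rr a' e' w' : ℤ) : ZMod 16) * A ≠ B ∧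
      ((rr a e w : ℤ) : ZMod 16) * A + ((rr a' e' w' : ℤ) : ZMod 16) ≠ B ∧
      ((rr a e w : ℤ) : ZMod 16) * A + ((rr a' e' w' : ℤ) : ZMod 16) * B ≠ 1 := by
  decide +kernel

private theorem sq16 : ∀ X : ZMod 16, X ^ 2 ∈ ([0, 1, 4, 9] : List (ZMod 16)) := by
  decide

private theorem tab_nonsplit (a e w a' e' w' : Bool) (h : hh a e w a' e' w' = true) :
    ¬ Split ℚ_[2] ((rr a e w : ℤ) : ℚ_[2]) ((rr a' e' w' : ℤ) : ℚ_[2]) := by
  rintro ⟨x, y, z, hne, heq⟩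
  -- scale
  have key : ∀ X Y Z : ℤ_[2], ((rr a e w : ℤ) : ℤ_[2]) * X ^ 2 + ((rr a' e' w' : ℤ) : ℤ_[2]) * Y ^ 2 = Z ^ 2 →
      (X = 1 ∨ Y = 1 ∨ Z = 1) → False := by
    intro X Y Z hE hone
    have h1 := congrArg (PadicInt.toZModPow (p := 2) 4) hE
    simp only [map_add, map_mul, map_pow, map_intCast] at h1
    have hc := tab_nonsplit_aux a e w a' e' w' h
    rcases hone with h0 | h0 | h0
    · rw [h0, map_one] at h1
      have := (hc _ (sq16 (PadicInt.toZModPow (p := 2) 4 Y)) _ (sq16 (PadicInt.toZModPow (p := 2) 4 Z))).1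
      apply this
      simpa using h1
    · rw [h0, map_one] at h1
      have := (hc _ (sq16 (PadicInt.toZModPow (p := 2) 4 X)) _ (sq16 (PadicInt.toZModPow (p := 2) 4 Z))).2.1
      apply this
      simpa using h1
    · rw [h0, map_one] at h1
      have := (hc _ (sq16 (PadicInt.toZModPow (p := 2) 4 X)) _ (sq16 (PadicInt.toZModPow (p := 2) 4 Y))).2.2
      apply this
      simpa using h1
  have main : ∀ m : ℚ_[2], m ≠ 0 → ‖x‖ ≤ ‖m‖ → ‖y‖ ≤ ‖m‖ → ‖z‖ ≤ ‖m‖ → (x = m ∨ y = m ∨ z = m) → False := by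
    intro m hm hx hy hz hone
    have hm' : 0 < ‖m‖ := norm_pos_iff.2 hm
    have hX : ‖x / m‖ ≤ 1 := by rw [norm_div]; exact (div_le_one hm').2 hx
    have hY : ‖y / m‖ ≤ 1 := by rw [norm_div]; exact (div_le_one hm').2 hy
    have hZ : ‖z / m‖ ≤ 1 := by rw [norm_div]; exact (div_le_one hm').2 hz
    apply key ⟨x / m, hX⟩ ⟨y / m, hY⟩ ⟨z / m, hZ⟩
    · apply Subtype.ext
      push_cast
      have : ((rr a e w : ℤ) : ℚ_[2]) * (x / m) ^ 2 + ((rr a' e' w' : ℤ) : ℚ_[2]) * (y / m) ^ 2 = (z / m) ^ 2 := by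
        field_simp
        exact heq
      exact this
    · rcases hone with h0 | h0 | h0
      · left
        apply Subtype.ext
        show x / m = 1
        rw [h0]
        exact div_self hm
      · right; left
        apply Subtype.ext
        show y / m = 1
        rw [h0]
        exact div_self hm
      · right; right
        apply Subtype.ext
        show z / m = 1
        rw [h0]
        exact div_self hm
  rcases le_total ‖x‖ ‖y‖ with h1 | h1
  · rcases le_total ‖y‖ ‖z‖ with h2 | h2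
    · -- z maximal
      refine main z ?_ (h1.trans h2) h2 le_rfl (Or.inr (Or.inr rfl))
      intro hz0
      rw [hz0, norm_zero] at h2
      have hy0 : y = 0 := norm_le_zero_iff.1 h2
      rw [hy0, norm_zero] at h1
      exact hne ⟨norm_le_zero_iff.1 h1, hy0, hz0⟩
    · refine main y ?_ h1 le_rfl h2 (Or.inr (Or.inl rfl))
      intro hy0
      rw [hy0, norm_zero] at h1 h2
      exact hne ⟨norm_le_zero_iff.1 h1, hy0, norm_le_zero_iff.1 h2⟩
  · rcases le_total ‖x‖ ‖z‖ with h2 | h2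
    · refine main z ?_ h2 (h1.trans h2) le_rfl (Or.inr (Or.inr rfl))
      intro hz0
      rw [hz0, norm_zero] at h2
      have hx0 : x = 0 := norm_le_zero_iff.1 h2
      rw [hx0, norm_zero] at h1
      exact hne ⟨hx0, norm_le_zero_iff.1 h1, hz0⟩
    · refine main x ?_ le_rfl h1 h2 (Or.inl rfl)
      intro hx0
      rw [hx0, norm_zero] at h1 h2
      exact hne ⟨hx0, norm_le_zero_iff.1 h1, norm_le_zero_iff.1 h2⟩

private theorem tab (a e w a' e' w' : Bool) :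
    Split ℚ_[2] ((rr a e w : ℤ) : ℚ_[2]) ((rr a' e' w' : ℤ) : ℚ_[2]) ↔ hh a e w a' e' w' = false := by
  constructor
  · intro h
    by_contra hn
    have : hh a e w a' e' w' = true := by
      cases h' : hh a e w a' e' w'
      · exact absurd h' hn
      · rfl
    exact tab_nonsplit a e w a' e' w' this h
  · exact tab_split a e w a' e' w'

private theorem tab' (u β s t : ℚ_[2]) (a e w a' e' w' : Bool) (hs : s ≠ 0) (ht : t ≠ 0)
    (hu : u = ((rr a e w : ℤ) : ℚ_[2]) * s ^ 2) (hβ : β = ((rr a' e' w' : ℤ) : ℚ_[2]) * t ^ 2) :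
    Split ℚ_[2] u β ↔ hh a e w a' e' w' = false := by
  rw [hu, hβ, split_mul_sq _ _ _ hs, split_comm, split_mul_sq _ _ _ ht, split_comm]
  exact tab a e w a' e' w'

private theorem hh_mul : ∀ a e w a' e' w' b f v : Bool,
    (hh (a ^^ a') (e ^^ e') (w ^^ w') b f v = false) ↔
      ((hh a e w b f v = false) ↔ (hh a' e' w' b f v = false)) := by
  decide

theorem split_mul_two (u u' β : ℚ_[2]) (hu : u ≠ 0) (hu' : u' ≠ 0) (hβ : β ≠ 0) :
    Split ℚ_[2] (u * u') β ↔ (Split ℚ_[2] u β ↔ Split ℚ_[2] u' β) := by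
  obtain ⟨a, e, w, s, hs, hu1, -⟩ := rep u hu
  obtain ⟨a', e', w', s', hs', hu1', -⟩ := rep u' hu'
  obtain ⟨b, f, v, t, ht, hβ1, -⟩ := rep β hβ
  obtain ⟨r, hr, hr2⟩ := rr_mul a e w a' e' w'
  have h1 : u * u' = ((rr (a ^^ a') (e ^^ e') (w ^^ w') : ℤ) : ℚ_[2]) * (r * s * s') ^ 2 := by
    rw [hu1, hu1']
    linear_combination (s ^ 2 * s' ^ 2) * hr2
  rw [tab' _ _ _ _ _ _ _ _ _ _ (mul_ne_zero (mul_ne_zero hr hs) hs') ht h1 hβ1,
    tab' _ _ _ _ _ _ _ _ _ _ hs ht hu1 hβ1, tab' _ _ _ _ _ _ _ _ _ _ hs' ht hu1' hβ1]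
  exact hh_mul a e w a' e' w' b f v

private theorem two_rep : (2 : ℚ_[2]) = ((rr true false false : ℤ) : ℚ_[2]) * 1 ^ 2 := by
  simp [rr]

private theorem neg_one_rep : (-1 : ℚ_[2]) = ((rr false true false : ℤ) : ℚ_[2]) * 1 ^ 2 := by
  simp [rr]

theorem two_square (u : ℚ_[2]) (hu : u ≠ 0) (h : Even u.valuation) (h1 : Split ℚ_[2] u (-1))
    (h2 : Split ℚ_[2] u 2) : IsSquare u := by
  obtain ⟨a, e, w, s, hs, hu1, hev⟩ := rep u hu
  have ha : a = false := hev.2 h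
  subst ha
  rw [tab' _ _ _ _ _ _ _ _ _ _ hs one_ne_zero hu1 neg_one_rep] at h1
  rw [tab' _ _ _ _ _ _ _ _ _ _ hs one_ne_zero hu1 two_rep] at h2
  have he : e = false := by
    cases e
    · rfl
    · simp [hh] at h1
  have hw : w = false := by
    cases w
    · rfl
    · simp [hh] at h2
  subst he
  subst hw
  refine ⟨s, ?_⟩
  rw [hu1]
  simp [rr]
  ring

theorem two_units (m n : ℤ) (hm : Odd m) (hn : Odd n) :
    Split ℚ_[2] (m : ℚ_[2]) (n : ℚ_[2]) ↔ (m % 4 = 1 ∨ n % 4 = 1) := by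
  obtain ⟨e, w, hew⟩ := odd_class m hm
  obtain ⟨e', w', hew'⟩ := odd_class n hn
  obtain ⟨s, hs, h1⟩ := odd_rep m e w hew
  obtain ⟨t, ht, h2⟩ := odd_rep n e' w' hew'
  rw [tab' _ _ _ _ _ _ _ _ _ _ hs ht h1 h2]
  cases e <;> cases w <;> cases e' <;> cases w' <;> simp [rr, hh] at hew hew' ⊢ <;> omega

theorem two_even (n : ℤ) (hn : Odd n) : Split ℚ_[2] 2 (n : ℚ_[2]) ↔ (n % 8 = 1 ∨ n % 8 = 7) := by
  obtain ⟨e', w', hew'⟩ := odd_class n hn
  obtain ⟨t, ht, h2⟩ := odd_rep n e' w' hew'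
  rw [tab' _ _ _ _ _ _ _ _ _ _ one_ne_zero ht two_rep h2]
  cases e' <;> cases w' <;> simp [rr, hh] at hew' ⊢ <;> omega

end ZC
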