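import Pool.Agent.Lib.MP_1ad228_nt.ZHodd
import Pool.Agent.Lib.MP_1ad228_nt.ZHtwo

/-! JOB ZRecip.  Hilbert's reciprocity law over `ℚ`.

`SumZero.mul`: at every place `Split (c c') β ↔ (Split c β ↔ Split c' β)` (`split_mul_odd`, `split_mul_two`, `split_mul_real`), so the set of bad primes of the product is
the symmetric difference of the two sets; finite, and `ncard` is additive mod 2 (`Set.ncard` of a symmetric difference of finite sets:
`|A ∆ B| + 2 |A ∩ B| = |A| + |B|`).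
`recip`: `SumZero (u,u) β` for `u, β ∈ ℚ*`.  Symmetric in `u, β` (`split_comm`), multiplicative in `u` (`SumZero.mul`), unchanged if `u` or `β` is multiplied by a nonzero square
(`split_mul_sq`).  So (a rational is an integer up to squares: `q = n/d`, `q d² = n d`; induction on the factorisation of a natural number) it is enough to treat
`u, β ∈ {-1} ∪ {primes}`:
* `(-1,-1)`: split at all odd `p` (`split_even`), not at `2` (`two_units`), not over `ℝ`.
* `(-1,2)`, `(2,2)`: split everywhere, `x = y = 1`, `z = 1` resp. `2`.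
* `(-1,q)`, `q` odd: at `p ≠ 2, q` split; at `q`: iff `-1` is a square in `ℚ_q` (`split_odd_iff`) iff `q ≡ 1 mod 4` (`ZMod.exists_sq_eq_neg_one_iff`, `isSquare_int_iff`), at `2`: iff `q ≡ 1 mod 4`
  (`two_units`); over `ℝ` split.
* `(2,q)`: at `q` iff `2` is a square mod `q` iff `q ≡ ±1 mod 8` (`ZMod.exists_sq_eq_two_iff` / `jacobiSym.at_two`); at `2`: `two_even`.
* `(q,q)`: `(q,q) = (-q², q) = (-1,q)` at every place (`split_twist`, `split_mul_sq`).
* `(q,q')`, distinct odd primes: at `q`: `q'` square mod `q`; at `q'`: `q` square mod `q'`; at `2`: `q ≡ 1` or `q' ≡ 1 mod 4`; quadratic reciprocity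
  (`jacobiSym.quadratic_reciprocity`, or `ZMod` versions). -/

namespace ZC

private theorem zr_symm {A B : Set ℕ} (hA : A.Finite) (hB : B.Finite) :
    Even (symmDiff A B).ncard ↔ (Even A.ncard ↔ Even B.ncard) := by
  have h1 := Set.ncard_inter_add_ncard_sdiff_eq_ncard A B hA
  have h2 := Set.ncard_inter_add_ncard_sdiff_eq_ncard B A hB
  have h3 : (symmDiff A B).ncard = (A \ B).ncard + (B \ A).ncard := by
    have e : symmDiff A B = (A \ B) ∪ (B \ A) := rfl
    rw [e]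
    apply Set.ncard_union_eq
    · rw [Set.disjoint_left]
      intro x hx hx'
      exact hx'.2 hx.1
    · exact hA.subset Set.sdiff_subset
    · exact hB.subset Set.sdiff_subset
  rw [Set.inter_comm] at h2
  rw [h3, ← h1, ← h2, Nat.even_add, Nat.even_add, Nat.even_add]
  tauto

private theorem zr_mul {p : ℕ} [hp : Fact p.Prime] (u u' β : ℚ_[p]) (hu : u ≠ 0) (hu' : u' ≠ 0) (hβ : β ≠ 0) :
    Split ℚ_[p] (u * u') β ↔ (Split ℚ_[p] u β ↔ Split ℚ_[p] u' β) := by
  by_cases h : p = 2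
  · subst h
    exact split_mul_two u u' β hu hu' hβ
  · exact split_mul_odd h u u' β hu hu' hβ

private theorem zr_mem (c : ∀ (p : ℕ) [Fact p.Prime], ℚ_[p]) (β : ℚ) (p : ℕ) [hp : Fact p.Prime] :
    p ∈ badPrimes c β ↔ ¬ Split ℚ_[p] (c p) (β : ℚ_[p]) := by
  constructor
  · rintro ⟨h, h'⟩
    exact h'
  · intro h
    exact ⟨hp, h⟩

private theorem zr_not_mem (c : ∀ (p : ℕ) [Fact p.Prime], ℚ_[p]) (β : ℚ) (p : ℕ) (hp : ¬ p.Prime) :
    p ∉ badPrimes c β := by
  rintro ⟨h, h'⟩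
  exact hp h.out

theorem SumZero.mul {c c' : ∀ (p : ℕ) [Fact p.Prime], ℚ_[p]} {c₀ c₀' : ℝ} {β : ℚ}
    (hc : ∀ (p : ℕ) [Fact p.Prime], c p ≠ 0) (hc' : ∀ (p : ℕ) [Fact p.Prime], c' p ≠ 0)
    (h₀ : c₀ ≠ 0) (h₀' : c₀' ≠ 0) (hβ : β ≠ 0) (h : SumZero c c₀ β) (h' : SumZero c' c₀' β) :
    SumZero (fun p _ => c p * c' p) (c₀ * c₀') β := by
  have hset : badPrimes (fun p _ => c p * c' p) β = symmDiff (badPrimes c β) (badPrimes c' β) := by
    ext p
    by_cases hp : p.Prime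
    · haveI : Fact p.Prime := ⟨hp⟩
      have hβp : (β : ℚ_[p]) ≠ 0 := by exact_mod_cast hβ
      rw [Set.mem_symmDiff, zr_mem, zr_mem, zr_mem, zr_mul _ _ _ (hc p) (hc' p) hβp]
      tauto
    · rw [Set.mem_symmDiff]
      have h1 := zr_not_mem (fun p _ => c p * c' p) β p hp
      have h2 := zr_not_mem c β p hp
      have h3 := zr_not_mem c' β p hp
      tauto
  have hβ' : (β : ℝ) ≠ 0 := by exact_mod_cast hβ
  refine ⟨?_, ?_⟩
  · rw [hset]
    exact Set.Finite.subset (h.1.union h'.1) (fun x hx => by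
      rw [Set.mem_symmDiff] at hx
      rcases hx with hx | hx
      · exact Or.inl hx.1
      · exact Or.inr hx.1)
  · rw [hset, zr_symm h.1 h'.1, h.2, h'.2, split_mul_real _ _ _ h₀ h₀' hβ']

private theorem zr_congr {u β u' β' : ℚ} (h : ∀ (p : ℕ) [Fact p.Prime], Split ℚ_[p] (u : ℚ_[p]) (β : ℚ_[p]) ↔ Split ℚ_[p] (u' : ℚ_[p]) (β' : ℚ_[p]))
    (h₀ : Split ℝ (u : ℝ) (β : ℝ) ↔ Split ℝ (u' : ℝ) (β' : ℝ)) (H : SumZero (fun p _ => (u : ℚ_[p])) (u : ℝ) β) :
    SumZero (fun p _ => (u' : ℚ_[p])) (u' : ℝ) β' := by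
  have hset : badPrimes (fun p _ => (u' : ℚ_[p])) β' = badPrimes (fun p _ => (u : ℚ_[p])) β := by
    ext p
    by_cases hp : p.Prime
    · haveI : Fact p.Prime := ⟨hp⟩
      rw [zr_mem, zr_mem, h p]
    · have h1 := zr_not_mem (fun p _ => (u' : ℚ_[p])) β' p hp
      have h2 := zr_not_mem (fun p _ => (u : ℚ_[p])) β p hp
      tauto
  unfold SumZero at H ⊢
  rw [hset, ← h₀]
  exact H

private theorem zr_comm {u β : ℚ} (H : SumZero (fun p _ => (u : ℚ_[p])) (u : ℝ) β) :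
    SumZero (fun p _ => (β : ℚ_[p])) (β : ℝ) u :=
  zr_congr (fun _ _ => split_comm _ _) (split_comm _ _) H

private theorem zr_sq {u β s : ℚ} (hs : s ≠ 0) (H : SumZero (fun p _ => (u : ℚ_[p])) (u : ℝ) β) :
    SumZero (fun p _ => ((u * s ^ 2 : ℚ) : ℚ_[p])) ((u * s ^ 2 : ℚ) : ℝ) β := by
  refine zr_congr ?_ ?_ H
  · intro p hp
    have hs' : (s : ℚ_[p]) ≠ 0 := by exact_mod_cast hs
    push_cast
    exact (split_mul_sq _ _ _ hs').symm
  · have hs' : (s : ℝ) ≠ 0 := by exact_mod_cast hs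
    push_cast
    exact (split_mul_sq _ _ _ hs').symm

private theorem zr_mulQ {u v β : ℚ} (hu : u ≠ 0) (hv : v ≠ 0) (hβ : β ≠ 0)
    (H : SumZero (fun p _ => (u : ℚ_[p])) (u : ℝ) β) (H' : SumZero (fun p _ => (v : ℚ_[p])) (v : ℝ) β) :
    SumZero (fun p _ => ((u * v : ℚ) : ℚ_[p])) ((u * v : ℚ) : ℝ) β := by
  have h := SumZero.mul (c := fun p _ => (u : ℚ_[p])) (c' := fun p _ => (v : ℚ_[p])) (c₀ := (u : ℝ)) (c₀' := (v : ℝ)) (β := β)
    (fun p _ => by exact_mod_cast hu) (fun p _ => by exact_mod_cast hv) (by exact_mod_cast hu) (by exact_mod_cast hv) hβ H H'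
  have e1 : (fun (p : ℕ) (_ : Fact p.Prime) => ((u * v : ℚ) : ℚ_[p])) = fun (p : ℕ) (_ : Fact p.Prime) => (u : ℚ_[p]) * (v : ℚ_[p]) := by
    funext p _
    push_cast
    rfl
  have e2 : ((u * v : ℚ) : ℝ) = (u : ℝ) * (v : ℝ) := by push_cast; rfl
  rw [e1, e2]
  exact h

/-- the finite set of bad primes is given -/
private theorem zr_of_finset {u β : ℚ} (S : Finset ℕ) (hS : ∀ q ∈ S, q.Prime)
    (h : ∀ (p : ℕ) [Fact p.Prime], p ∈ S ↔ ¬ Split ℚ_[p] (u : ℚ_[p]) (β : ℚ_[p]))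
    (h₀ : Even S.card ↔ Split ℝ (u : ℝ) (β : ℝ)) :
    SumZero (fun p _ => (u : ℚ_[p])) (u : ℝ) β := by
  have hset : badPrimes (fun p _ => (u : ℚ_[p])) β = (S : Set ℕ) := by
    ext p
    by_cases hp : p.Prime
    · haveI : Fact p.Prime := ⟨hp⟩
      rw [zr_mem, Finset.mem_coe, h p]
    · have h1 := zr_not_mem (fun p _ => (u : ℚ_[p])) β p hp
      have h2 : p ∉ S := fun h => hp (hS p h)
      rw [Finset.mem_coe]
      tauto
  refine ⟨?_, ?_⟩
  · rw [hset]
    exact S.finite_toSet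
  · rw [hset, Set.ncard_coe_finset]
    exact h₀

/-- valuation of an integer prime to `p` -/
private theorem zr_val {p : ℕ} [hp : Fact p.Prime] (m : ℤ) (hm : ¬ (p : ℤ) ∣ m) : Even ((m : ℚ_[p])).valuation := by
  rw [Padic.valuation_intCast]
  have : padicValInt p m = 0 := padicValInt.eq_zero_of_not_dvd hm
  rw [this]
  exact ⟨0, by simp⟩

private theorem zr_split_unr {p : ℕ} [hp : Fact p.Prime] (h2 : p ≠ 2) (m n : ℤ) (hm : ¬ (p : ℤ) ∣ m) (hn : ¬ (p : ℤ) ∣ n) :
    Split ℚ_[p] (m : ℚ_[p]) (n : ℚ_[p]) := by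
  refine split_even h2 _ _ ?_ ?_ (zr_val m hm) (zr_val n hn)
  · intro h
    have : m = 0 := by exact_mod_cast h
    exact hm (this ▸ dvd_zero _)
  · intro h
    have : n = 0 := by exact_mod_cast h
    exact hn (this ▸ dvd_zero _)

private theorem zr_split_ram {q : ℕ} [hq : Fact q.Prime] (h2 : q ≠ 2) (m : ℤ) (hm : ¬ (q : ℤ) ∣ m) :
    Split ℚ_[q] (m : ℚ_[q]) ((q : ℤ) : ℚ_[q]) ↔ jacobiSym m q = 1 := by
  rw [← isSquare_int_iff h2 m hm]
  refine split_odd_iff h2 _ _ ?_ ?_ (zr_val m hm) ?_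
  · intro h
    have : m = 0 := by exact_mod_cast h
    exact hm (this ▸ dvd_zero _)
  · have := hq.out.ne_zero
    exact_mod_cast this
  · rw [Int.cast_natCast, Padic.valuation_p]
    exact odd_one

/-- `(m, q)`, `m = -1`, `2` or a prime different from the odd prime `q`: the sets of bad primes -/
private theorem zr_neg_one_neg_one : SumZero (fun p _ => ((-1 : ℚ) : ℚ_[p])) ((-1 : ℚ) : ℝ) (-1) := by
  refine zr_of_finset {2} ?_ ?_ ?_
  · intro q hq
    rw [Finset.mem_singleton] at hq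
    rw [hq]
    exact Nat.prime_two
  · intro p hp
    rw [Finset.mem_singleton]
    have e : ((-1 : ℚ) : ℚ_[p]) = ((-1 : ℤ) : ℚ_[p]) := by push_cast; rfl
    rw [e]
    constructor
    · intro h
      subst h
      have h1 := two_units (-1) (-1) (by decide) (by decide)
      rw [h1]
      decide
    · intro h
      by_contra h2
      apply h
      have h1 : ¬ (p : ℤ) ∣ (-1 : ℤ) := by
        intro h3
        rw [dvd_neg] at h3
        have h4 : p ∣ 1 := by exact_mod_cast h3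
        exact hp.out.one_lt.ne' (Nat.dvd_one.1 h4)
      exact zr_split_unr h2 _ _ h1 h1
  · rw [Finset.card_singleton, split_real _ _ (by norm_num) (by norm_num)]
    have h1 : ¬ Even 1 := by decide
    have h2 : ¬ (0 < ((-1 : ℚ) : ℝ) ∨ 0 < ((-1 : ℚ) : ℝ)) := by norm_num
    tauto

/-- a nontrivial rational solution -/
private theorem zr_of_sol {u β : ℚ} (x y z : ℚ) (hz : z ≠ 0) (h : u * x ^ 2 + β * y ^ 2 = z ^ 2) :
    SumZero (fun p _ => (u : ℚ_[p])) (u : ℝ) β := by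
  refine zr_of_finset ∅ ?_ ?_ ?_
  · intro q hq
    exact absurd hq (Finset.notMem_empty q)
  · intro p hp
    have : Split ℚ_[p] (u : ℚ_[p]) (β : ℚ_[p]) := by
      refine ⟨x, y, z, fun h' => hz (by exact_mod_cast h'.2.2), ?_⟩
      exact_mod_cast h
    simp [this]
  · have : Split ℝ (u : ℝ) (β : ℝ) := by
      refine ⟨x, y, z, fun h' => hz (by exact_mod_cast h'.2.2), ?_⟩
      exact_mod_cast h
    simp [this]

/-- the case of two integers which are prime to all `p ≠ 2, q`, where `q` is an odd prime dividing the second one exactly -/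
private theorem zr_two {q : ℕ} [hq : Fact q.Prime] (h2 : q ≠ 2) (m : ℤ) (hm : ¬ (q : ℤ) ∣ m)
    (hm' : ∀ p : ℕ, p.Prime → p ≠ 2 → ¬ (p : ℤ) ∣ m)
    (h : Split ℚ_[2] (m : ℚ_[2]) ((q : ℤ) : ℚ_[2]) ↔ jacobiSym m q = 1) :
    SumZero (fun p _ => ((m : ℚ) : ℚ_[p])) ((m : ℚ) : ℝ) (q : ℚ) := by
  classical
  have hq0 : (0 : ℝ) < q := by exact_mod_cast hq.out.pos
  have hm0 : m ≠ 0 := fun h => hm (h ▸ dvd_zero _)
  refine zr_of_finset (if jacobiSym m q = 1 then ∅ else {2, q}) ?_ ?_ ?_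
  · intro p hp
    split_ifs at hp with h1
    · exact absurd hp (Finset.notMem_empty p)
    · rw [Finset.mem_insert, Finset.mem_singleton] at hp
      rcases hp with rfl | rfl
      · exact Nat.prime_two
      · exact hq.out
  · intro p hp
    have e1 : ((m : ℚ) : ℚ_[p]) = (m : ℚ_[p]) := by push_cast; rfl
    have e2 : (((q : ℚ)) : ℚ_[p]) = ((q : ℤ) : ℚ_[p]) := by push_cast; rfl
    rw [e1, e2]
    by_cases hp2 : p = 2
    · subst hp2
      rw [h]
      split_ifs with h1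
      · simp [h1]
      · simp [h1]
    · by_cases hpq : p = q
      · subst hpq
        rw [zr_split_ram h2 m hm]
        split_ifs with h1
        · simp [h1]
        · simp [h1]
      · have h3 : Split ℚ_[p] (m : ℚ_[p]) ((q : ℤ) : ℚ_[p]) := by
          refine zr_split_unr hp2 _ _ (hm' p hp.out hp2) ?_
          intro h4
          have h5 : p ∣ q := by exact_mod_cast h4
          exact hpq ((Nat.prime_dvd_prime_iff_eq hp.out hq.out).1 h5)
        split_ifs with h1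
        · exact iff_of_false (Finset.notMem_empty p) (not_not.2 h3)
        · exact iff_of_false (by simp [hp2, hpq]) (not_not.2 h3)
  · have h4 : Split ℝ ((m : ℚ) : ℝ) (((q : ℚ)) : ℝ) := by
      rw [split_real _ _ (by exact_mod_cast hm0) (by exact_mod_cast hq.out.ne_zero)]
      right
      exact_mod_cast hq0
    split_ifs with h1
    · exact iff_of_true (by simp) h4
    · rw [Finset.card_pair (Ne.symm h2)]
      exact iff_of_true even_two h4

private theorem zr_prime_not_dvd_neg_one {p : ℕ} (hp : p.Prime) : ¬ (p : ℤ) ∣ (-1 : ℤ) := by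
  intro h3
  rw [dvd_neg] at h3
  have h4 : p ∣ 1 := by exact_mod_cast h3
  exact hp.one_lt.ne' (Nat.dvd_one.1 h4)

private theorem zr_neg_one_q {q : ℕ} [hq : Fact q.Prime] (h2 : q ≠ 2) :
    SumZero (fun p _ => ((-1 : ℚ) : ℚ_[p])) ((-1 : ℚ) : ℝ) (q : ℚ) := by
  have hodd : Odd q := hq.out.odd_of_ne_two h2
  have h := zr_two h2 (-1) (zr_prime_not_dvd_neg_one hq.out) (fun p hp _ => zr_prime_not_dvd_neg_one hp) (by
    rw [two_units (-1) q (by decide) (by exact_mod_cast hodd), jacobiSym.at_neg_one hodd]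
    rcases Nat.odd_mod_four_iff.1 (Nat.odd_iff.1 hodd) with h4 | h4
    · rw [ZMod.χ₄_nat_one_mod_four h4]
      have : (q : ℤ) % 4 = 1 := by omega
      simp [this]
    · rw [ZMod.χ₄_nat_three_mod_four h4]
      have : ¬ (q : ℤ) % 4 = 1 := by omega
      simp [this])
  have e : ((-1 : ℤ) : ℚ) = -1 := by norm_num
  rw [e] at h
  exact h

private theorem zr_two_q {q : ℕ} [hq : Fact q.Prime] (h2 : q ≠ 2) :
    SumZero (fun p _ => ((2 : ℚ) : ℚ_[p])) ((2 : ℚ) : ℝ) (q : ℚ) := by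
  have hodd : Odd q := hq.out.odd_of_ne_two h2
  have hnd : ∀ p : ℕ, p.Prime → p ≠ 2 → ¬ (p : ℤ) ∣ (2 : ℤ) := by
    intro p hp hp2 h
    have h5 : p ∣ 2 := by exact_mod_cast h
    exact hp2 ((Nat.prime_dvd_prime_iff_eq hp Nat.prime_two).1 h5)
  have h := zr_two h2 2 (hnd q hq.out h2) hnd (by
    have e : ((2 : ℤ) : ℚ_[2]) = 2 := by norm_num
    rw [e, two_even q (by exact_mod_cast hodd), jacobiSym.at_two hodd, ZMod.χ₈_nat_eq_if_mod_eight]
    have h3 := Nat.odd_iff.1 hodd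
    have h4 : ((q : ℤ) % 8 = 1 ∨ (q : ℤ) % 8 = 7) ↔ (q % 8 = 1 ∨ q % 8 = 7) := by omega
    rw [h4, if_neg (by omega)]
    split_ifs with h5
    · simp [h5]
    · simp [h5])
  have e : ((2 : ℤ) : ℚ) = 2 := by norm_num
  rw [e] at h
  exact h

private theorem zr_q_q {q : ℕ} [hq : Fact q.Prime] (h2 : q ≠ 2) :
    SumZero (fun p _ => ((q : ℚ) : ℚ_[p])) ((q : ℚ) : ℝ) (q : ℚ) := by
  have hq0 : (q : ℚ) ≠ 0 := by exact_mod_cast hq.out.ne_zero
  have h1 := zr_sq (s := (q : ℚ)) hq0 (zr_neg_one_q h2)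
  refine zr_congr ?_ ?_ h1
  · intro p hp
    have hq1 : ((q : ℚ) : ℚ_[p]) ≠ 0 := by exact_mod_cast hq0
    have e : ((-1 * (q : ℚ) ^ 2 : ℚ) : ℚ_[p]) = -(((q : ℚ) : ℚ_[p]) * ((q : ℚ) : ℚ_[p])) := by
      push_cast
      ring
    rw [e]
    exact (split_twist _ _ hq1).symm
  · have hq1 : ((q : ℚ) : ℝ) ≠ 0 := by exact_mod_cast hq0
    have e : ((-1 * (q : ℚ) ^ 2 : ℚ) : ℝ) = -(((q : ℚ) : ℝ) * ((q : ℚ) : ℝ)) := by
      push_cast
      ring
    rw [e]
    exact (split_twist _ _ hq1).symm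

private theorem zr_not_dvd {p q : ℕ} (hp : p.Prime) (hq : q.Prime) (h : p ≠ q) : ¬ (p : ℤ) ∣ (q : ℤ) := by
  intro h4
  have h5 : p ∣ q := by exact_mod_cast h4
  exact h ((Nat.prime_dvd_prime_iff_eq hp hq).1 h5)

private theorem zr_jac {q q' : ℕ} (hq : q.Prime) (hq' : q'.Prime) (h : q ≠ q') : jacobiSym q q' = 1 ∨ jacobiSym q q' = -1 := by
  rcases jacobiSym.trichotomy (q : ℤ) q' with h1 | h1 | h1
  · exfalso
    have h3 : Int.gcd (q : ℤ) (q' : ℤ) = 1 := by
      rw [Int.gcd_natCast_natCast]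
      exact (Nat.coprime_primes hq hq').2 h
    haveI : NeZero q' := ⟨hq'.ne_zero⟩
    exact jacobiSym.ne_zero h3 h1
  · exact Or.inl h1
  · exact Or.inr h1

private theorem zr_q_q' {q q' : ℕ} [hq : Fact q.Prime] [hq' : Fact q'.Prime] (h2 : q ≠ 2) (h2' : q' ≠ 2) (hne : q ≠ q') :
    SumZero (fun p _ => ((q : ℚ) : ℚ_[p])) ((q : ℚ) : ℝ) (q' : ℚ) := by
  classical
  have hodd : Odd q := hq.out.odd_of_ne_two h2
  have hodd' : Odd q' := hq'.out.odd_of_ne_two h2'
  have hq0 : (0 : ℝ) < q := by exact_mod_cast hq.out.pos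
  -- local descriptions
  have L2 : Split ℚ_[2] ((q : ℤ) : ℚ_[2]) ((q' : ℤ) : ℚ_[2]) ↔ (q % 4 = 1 ∨ q' % 4 = 1) := by
    rw [two_units q q' (by exact_mod_cast hodd) (by exact_mod_cast hodd')]
    omega
  have Lq' : Split ℚ_[q'] ((q : ℤ) : ℚ_[q']) ((q' : ℤ) : ℚ_[q']) ↔ jacobiSym q q' = 1 :=
    zr_split_ram h2' q (zr_not_dvd hq'.out hq.out hne.symm)
  have Lq : Split ℚ_[q] ((q : ℤ) : ℚ_[q]) ((q' : ℤ) : ℚ_[q]) ↔ jacobiSym q' q = 1 := by
    rw [split_comm]
    exact zr_split_ram h2 q' (zr_not_dvd hq.out hq'.out hne)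
  set S : Finset ℕ := (if q % 4 = 1 ∨ q' % 4 = 1 then ∅ else {2}) ∪ ((if jacobiSym q q' = 1 then ∅ else {q'}) ∪
    (if jacobiSym q' q = 1 then ∅ else {q})) with hS
  have hmem : ∀ p, p ∈ S ↔ (p = 2 ∧ ¬ (q % 4 = 1 ∨ q' % 4 = 1)) ∨ (p = q' ∧ ¬ jacobiSym q q' = 1) ∨ (p = q ∧ ¬ jacobiSym q' q = 1) := by
    intro p
    rw [hS, Finset.mem_union, Finset.mem_union]
    split_ifs <;> simp_all
  refine zr_of_finset S ?_ ?_ ?_
  · intro p hp
    rw [hmem] at hp
    rcases hp with h | h | h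
    · rw [h.1]; exact Nat.prime_two
    · rw [h.1]; exact hq'.out
    · rw [h.1]; exact hq.out
  · intro p hp
    have e1 : ((q : ℚ) : ℚ_[p]) = ((q : ℤ) : ℚ_[p]) := by push_cast; rfl
    have e2 : (((q' : ℚ)) : ℚ_[p]) = ((q' : ℤ) : ℚ_[p]) := by push_cast; rfl
    rw [e1, e2, hmem]
    by_cases hp2 : p = 2
    · subst hp2
      rw [L2]
      have h5 : ¬ 2 = q' := fun h => h2' h.symm
      have h6 : ¬ 2 = q := fun h => h2 h.symm
      simp [h5, h6]
    · by_cases hpq : p = q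
      · subst hpq
        rw [Lq]
        simp [hp2, hne]
      · by_cases hpq' : p = q'
        · subst hpq'
          rw [Lq']
          simp [hp2, hpq]
        · have h3 : Split ℚ_[p] ((q : ℤ) : ℚ_[p]) ((q' : ℤ) : ℚ_[p]) :=
            zr_split_unr hp2 _ _ (zr_not_dvd hp.out hq.out hpq) (zr_not_dvd hp.out hq'.out hpq')
          exact iff_of_false (by simp [hp2, hpq, hpq']) (not_not.2 h3)
  · have h4 : Split ℝ ((q : ℚ) : ℝ) (((q' : ℚ)) : ℝ) := by
      rw [split_real _ _ (by exact_mod_cast hq.out.ne_zero) (by exact_mod_cast hq'.out.ne_zero)]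
      left
      exact_mod_cast hq0
    have h5 : (2 : ℕ) ≠ q' := fun h => h2' h.symm
    have h6 : (2 : ℕ) ≠ q := fun h => h2 h.symm
    have hS' : Even S.card := by
      rcases Nat.odd_mod_four_iff.1 (Nat.odd_iff.1 hodd) with h7 | h7
      · have h8 := jacobiSym.quadratic_reciprocity_one_mod_four h7 hodd'
        rw [hS, h8, if_pos (Or.inl h7)]
        split_ifs
        · simp
        · rw [Finset.empty_union, Finset.card_union_of_disjoint (by simp [hne.symm])]
          simp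
      · rcases Nat.odd_mod_four_iff.1 (Nat.odd_iff.1 hodd') with h9 | h9
        · have h8 := jacobiSym.quadratic_reciprocity_one_mod_four h9 hodd
          rw [hS, h8, if_pos (Or.inr h9)]
          split_ifs
          · simp
          · rw [Finset.empty_union, Finset.card_union_of_disjoint (by simp [hne.symm])]
            simp
        · have h8 := jacobiSym.quadratic_reciprocity_three_mod_four h7 h9
          have h10 : ¬ (q % 4 = 1 ∨ q' % 4 = 1) := by omega
          rw [hS, if_neg h10]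
          rcases zr_jac hq'.out hq.out hne.symm with h11 | h11
          · rw [h8, h11]
            have h12 : ¬ (-1 : ℤ) = 1 := by decide
            rw [if_neg h12, if_pos rfl, Finset.union_empty, Finset.card_union_of_disjoint (by simp [h5])]
            simp
          · rw [h8, h11]
            have h12 : ¬ (-1 : ℤ) = 1 := by decide
            rw [if_neg h12, if_pos (by norm_num), Finset.empty_union, Finset.card_union_of_disjoint (by simp [h6])]
            simp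
    exact iff_of_true hS' h4

/-- a property of nonzero rationals which holds for `1`, `-1` and the primes and is multiplicative and invariant under squares -/
private theorem zr_gen (Q : ℚ → Prop) (h1 : Q 1) (hneg : Q (-1)) (hprime : ∀ p : ℕ, p.Prime → Q p)
    (hmul : ∀ u v : ℚ, u ≠ 0 → v ≠ 0 → Q u → Q v → Q (u * v))
    (hsq : ∀ u s : ℚ, s ≠ 0 → Q u → Q (u * s ^ 2)) : ∀ u : ℚ, u ≠ 0 → Q u := by
  have hnat : ∀ n : ℕ, n ≠ 0 → Q n := by
    intro n
    induction n using induction_on_primes with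
    | zero => intro h; exact absurd rfl h
    | one => intro _; simpa using h1
    | prime_mul p a hp ih =>
      intro h
      have ha : a ≠ 0 := fun h' => h (by rw [h', mul_zero])
      rw [Nat.cast_mul]
      exact hmul _ _ (by exact_mod_cast hp.ne_zero) (by exact_mod_cast ha) (hprime p hp) (ih ha)
  have hint : ∀ n : ℤ, n ≠ 0 → Q n := by
    intro n hn
    have h2 : Q (n.natAbs : ℚ) := hnat _ (Int.natAbs_ne_zero.2 hn)
    rcases Int.natAbs_eq n with h | h
    · have e : (n : ℚ) = (n.natAbs : ℚ) := by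
        rw [h]
        simp
      rw [e]
      exact h2
    · have e : (n : ℚ) = -1 * (n.natAbs : ℚ) := by
        have h' : (n : ℚ) = ((-(n.natAbs : ℤ) : ℤ) : ℚ) := by rw [← h]
        rw [h', Int.cast_neg, Int.cast_natCast, neg_one_mul]
      rw [e]
      exact hmul _ _ (by norm_num) (by exact_mod_cast Int.natAbs_ne_zero.2 hn) hneg h2
  intro u hu
  have hd : (u.den : ℚ) ≠ 0 := by exact_mod_cast u.den_ne_zero
  have e : u = ((u.num * u.den : ℤ) : ℚ) * ((u.den : ℚ)⁻¹) ^ 2 := by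
    conv_lhs => rw [← Rat.num_div_den u]
    push_cast
    field_simp
  rw [e]
  refine hsq _ _ (inv_ne_zero hd) (hint _ ?_)
  exact mul_ne_zero (Rat.num_ne_zero.2 hu) (by exact_mod_cast u.den_ne_zero)

private theorem zr_one (β : ℚ) : SumZero (fun p _ => ((1 : ℚ) : ℚ_[p])) ((1 : ℚ) : ℝ) β :=
  zr_of_sol 1 0 1 one_ne_zero (by norm_num)

/-- both entries in `{-1} ∪ primes` -/
private theorem zr_prime_prime (q q' : ℕ) (hq : q.Prime) (hq' : q'.Prime) :
    SumZero (fun p _ => ((q : ℚ) : ℚ_[p])) ((q : ℚ) : ℝ) (q' : ℚ) := by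
  haveI : Fact q.Prime := ⟨hq⟩
  haveI : Fact q'.Prime := ⟨hq'⟩
  by_cases h2 : q = 2
  · by_cases h2' : q' = 2
    · rw [h2, h2']
      exact zr_of_sol 1 1 2 two_ne_zero (by norm_num)
    · have h := zr_two_q (q := q') h2'
      rw [h2]
      exact_mod_cast h
  · by_cases h2' : q' = 2
    · have h := zr_comm (zr_two_q (q := q) h2)
      rw [h2']
      exact_mod_cast h
    · by_cases hne : q = q'
      · subst hne
        exact zr_q_q h2
      · exact zr_q_q' h2 h2' hne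

private theorem zr_neg_one_prime (q : ℕ) (hq : q.Prime) :
    SumZero (fun p _ => ((-1 : ℚ) : ℚ_[p])) ((-1 : ℚ) : ℝ) (q : ℚ) := by
  haveI : Fact q.Prime := ⟨hq⟩
  by_cases h2 : q = 2
  · rw [h2]
    exact zr_of_sol 1 1 1 one_ne_zero (by norm_num)
  · exact zr_neg_one_q h2

theorem recip (u β : ℚ) (hu : u ≠ 0) (hβ : β ≠ 0) :
    SumZero (fun p _ => (u : ℚ_[p])) (u : ℝ) β := by
  have step : ∀ β : ℚ, β ≠ 0 → SumZero (fun p _ => ((-1 : ℚ) : ℚ_[p])) ((-1 : ℚ) : ℝ) β →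
      (∀ q : ℕ, q.Prime → SumZero (fun p _ => ((q : ℚ) : ℚ_[p])) ((q : ℚ) : ℝ) β) →
      ∀ u : ℚ, u ≠ 0 → SumZero (fun p _ => (u : ℚ_[p])) (u : ℝ) β := by
    intro β hβ hn hpr
    exact zr_gen (fun u => SumZero (fun p _ => (u : ℚ_[p])) (u : ℝ) β) (zr_one β) hn hpr
      (fun u v hu hv h h' => zr_mulQ hu hv hβ h h') (fun u s hs h => zr_sq hs h)
  have hneg : ∀ β : ℚ, β ≠ 0 → SumZero (fun p _ => ((-1 : ℚ) : ℚ_[p])) ((-1 : ℚ) : ℝ) β := by
    intro β hβ
    exact zr_comm (step (-1) (by norm_num) zr_neg_one_neg_one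
      (fun q hq => zr_comm (zr_neg_one_prime q hq)) β hβ)
  have hprime : ∀ q : ℕ, q.Prime → ∀ β : ℚ, β ≠ 0 → SumZero (fun p _ => ((q : ℚ) : ℚ_[p])) ((q : ℚ) : ℝ) β := by
    intro q hq β hβ
    have hq0 : (q : ℚ) ≠ 0 := by exact_mod_cast hq.ne_zero
    exact zr_comm (step (q : ℚ) hq0 (zr_neg_one_prime q hq) (fun q' hq' => zr_prime_prime q' q hq' hq) β hβ)
  exact step β hβ (hneg β hβ) (fun q hq => hprime q hq β hβ) u hu

end ZC
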