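import Pool.Agent.Lib.MP_1ad228_nt.ZRecip

/-! JOB ZDual.  A family of local classes orthogonal to all `β ∈ ℚ*` comes from one rational number.

Proof.  `δ = ± ∏ p` over the primes `p ∈ T` with `(c p).valuation` odd, sign `= ` sign of `c₀`; squarefree.  Let `c' p = c p * δ`: all valuations are even
(`Padic.valuation_mul`, valuation of an integer prime to `p` is `0`), `c₀ δ > 0`, and by `SumZero.mul` and `recip`: `SumZero c' (c₀ δ) β` for all `β ≠ 0`.
* `β = -1`: at an odd `p` split (`split_even`), over `ℝ` split (`split_real`), so the number of bad primes is even and they are among `{2}`: `Split ℚ_2 (c' 2) (-1)`.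
* `β = 2`: at odd `p` both valuations are even: split; so again `Split ℚ_2 (c' 2) 2`.  Hence `c' 2` is a square (`two_square`).
* `β = q` an odd prime: at `p ≠ 2, q` odd: split (`split_even`); at `2`: `c' 2` is a square, so split (`split_of_isSquare`); so `q` is not bad either: `Split ℚ_q (c' q) q`,
  and `c' q` is a square by `split_odd_iff` (valuation of `q` is `1`). -/

namespace ZC

open Finset

private lemma ZDual_val_of_not_dvd {p : ℕ} [Fact p.Prime] {n : ℤ} (h : ¬ (p : ℤ) ∣ n) :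
    (n : ℚ_[p]).valuation = 0 := by
  rw [Padic.valuation_intCast, padicValInt.eq_zero_of_not_dvd h]
  rfl

private lemma ZDual_dvd {p : ℕ} (hp : p.Prime) (P : Finset ℕ) (hP : ∀ q ∈ P, q.Prime) (hpP : p ∉ P) :
    ¬ (p : ℤ) ∣ ∏ q ∈ P, (q : ℤ) := by
  intro h
  rw [Prime.dvd_finsetProd_iff (Nat.prime_iff_prime_int.1 hp)] at h
  obtain ⟨q, hq, hpq⟩ := h
  have h1 : p ∣ q := by exact_mod_cast hpq
  have h2 := (Nat.prime_dvd_prime_iff_eq hp (hP q hq)).1 h1
  exact hpP (h2 ▸ hq)

private lemma ZDual_ncard {S : Set ℕ} {q : ℕ} (hS : S ⊆ {q}) (he : Even S.ncard) : q ∉ S := by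
  intro hq
  have h1 : S = {q} := Set.Subset.antisymm hS (by simpa using hq)
  rw [h1, Set.ncard_singleton] at he
  exact absurd he (by decide)

/-- from the sum formula to splitting at the only possible bad prime -/
private lemma ZDual_split (c : ∀ (p : ℕ) [Fact p.Prime], ℚ_[p]) (c₀ : ℝ) (h₀ : 0 < c₀)
    (β : ℚ) (hβ : β ≠ 0) (hs : SumZero c c₀ β) (q : ℕ) [hq : Fact q.Prime]
    (hsp : ∀ (p : ℕ) [Fact p.Prime], p ≠ q → Split ℚ_[p] (c p) (β : ℚ_[p])) :
    Split ℚ_[q] (c q) (β : ℚ_[q]) := by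
  have hR : Split ℝ c₀ (β : ℝ) := (split_real _ _ h₀.ne' (by exact_mod_cast hβ)).2 (Or.inl h₀)
  have he : Even (badPrimes c β).ncard := hs.2.2 hR
  have hsub : badPrimes c β ⊆ {q} := by
    rintro p ⟨hp, hbad⟩
    rw [Set.mem_singleton_iff]
    by_contra hne
    exact hbad (hsp p hne)
  have h1 := ZDual_ncard hsub he
  by_contra hcon
  exact h1 ⟨hq, hcon⟩

theorem dual (c : ∀ (p : ℕ) [Fact p.Prime], ℚ_[p]) (c₀ : ℝ) (hc : ∀ (p : ℕ) [Fact p.Prime], c p ≠ 0)
    (h₀ : c₀ ≠ 0) (T : Finset ℕ) (hT : ∀ (p : ℕ) [Fact p.Prime], p ∉ T → Even (c p).valuation)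
    (h : ∀ β : ℚ, β ≠ 0 → SumZero c c₀ β) :
    ∃ δ : ℤ, Squarefree δ ∧ ∀ (p : ℕ) [Fact p.Prime], IsSquare (c p * (δ : ℚ_[p])) := by
  classical
  set P : Finset ℕ := T.filter (fun p => ∃ _ : Fact p.Prime, Odd (c p).valuation) with hP
  have hPp : ∀ q ∈ P, q.Prime := by
    intro q hq
    rw [hP, mem_filter] at hq
    obtain ⟨_, hq', _⟩ := hq
    exact hq'.out
  set Q : ℤ := ∏ q ∈ P, (q : ℤ) with hQ
  have hQpos : 0 < Q := Finset.prod_pos fun q hq => by exact_mod_cast (hPp q hq).pos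
  have hQsq : Squarefree Q := by
    refine Finset.squarefree_prod_of_pairwise_isCoprime ?_ ?_
    · intro a ha b hb hab
      have : Nat.Coprime a b := (Nat.coprime_primes (hPp a ha) (hPp b hb)).2 hab
      exact (Nat.isCoprime_iff_coprime.2 this).isRelPrime
    · intro a ha
      exact (Nat.prime_iff_prime_int.1 (hPp a ha)).squarefree
  set s : ℤ := if 0 < c₀ then 1 else -1 with hs
  have hsunit : IsUnit s := by
    rw [hs]
    split_ifs
    · exact isUnit_one
    · exact isUnit_one.neg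
  have hs0 : s ≠ 0 := hsunit.ne_zero
  have hδ0 : s * Q ≠ 0 := mul_ne_zero hs0 hQpos.ne'
  have hδsq : Squarefree (s * Q) := by
    have h1 : Associated Q (s * Q) := by
      obtain ⟨u, hu⟩ := hsunit
      refine ⟨u, ?_⟩
      rw [hu, mul_comm]
    exact h1.squarefree_iff.1 hQsq
  have hδpos : 0 < c₀ * (((s * Q : ℤ) : ℚ) : ℝ) := by
    have hQ' : (0 : ℝ) < (Q : ℝ) := by exact_mod_cast hQpos
    have e : (((s * Q : ℤ) : ℚ) : ℝ) = (s : ℝ) * (Q : ℝ) := by push_cast; ring
    rw [e, ← mul_assoc]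
    refine mul_pos ?_ hQ'
    rw [hs]
    split_ifs with h1
    · simpa using h1
    · have h2 : c₀ < 0 := lt_of_le_of_ne (not_lt.1 h1) h₀
      push_cast
      linarith
  -- valuations
  have hval : ∀ (p : ℕ) [Fact p.Prime], Even (c p * ((s * Q : ℤ) : ℚ_[p])).valuation := by
    intro p hp
    have hδp : ((s * Q : ℤ) : ℚ_[p]) ≠ 0 := by exact_mod_cast hδ0
    rw [Padic.valuation_mul (hc p) hδp]
    have hsval : (s : ℚ_[p]).valuation = 0 := by
      apply ZDual_val_of_not_dvd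
      intro h1
      have h2 : IsUnit (p : ℤ) := isUnit_of_dvd_unit h1 hsunit
      exact (Nat.prime_iff_prime_int.1 hp.out).not_isUnit h2
    have hs' : (s : ℚ_[p]) ≠ 0 := by exact_mod_cast hs0
    have hQ' : (Q : ℚ_[p]) ≠ 0 := by exact_mod_cast hQpos.ne'
    have e : ((s * Q : ℤ) : ℚ_[p]).valuation = (Q : ℚ_[p]).valuation := by
      rw [Int.cast_mul, Padic.valuation_mul hs' hQ', hsval, zero_add]
    rw [e]
    by_cases hpP : p ∈ P
    · have hodd : Odd (c p).valuation := by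
        have h1 := hpP
        rw [hP, mem_filter] at h1
        obtain ⟨_, _, h2⟩ := h1
        exact h2
      have hQp : Q = (p : ℤ) * ∏ q ∈ P.erase p, (q : ℤ) := by
        rw [hQ]
        exact (Finset.mul_prod_erase P (fun q : ℕ => (q : ℤ)) hpP).symm
      have hnd : ¬ (p : ℤ) ∣ ∏ q ∈ P.erase p, (q : ℤ) :=
        ZDual_dvd hp.out _ (fun q hq => hPp q (Finset.mem_of_mem_erase hq))
          (Finset.notMem_erase p P)
      have h1 : ((p : ℤ) : ℚ_[p]) ≠ 0 := by
        exact_mod_cast hp.out.ne_zero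
      have h2 : ((∏ q ∈ P.erase p, (q : ℤ) : ℤ) : ℚ_[p]) ≠ 0 := by
        intro h3
        have h4 : (∏ q ∈ P.erase p, (q : ℤ)) = 0 := by exact_mod_cast h3
        exact hnd (h4 ▸ dvd_zero _)
      have h3 : (Q : ℚ_[p]).valuation = 1 := by
        rw [hQp, Int.cast_mul, Padic.valuation_mul h1 h2, ZDual_val_of_not_dvd hnd, add_zero,
          Int.cast_natCast, Padic.valuation_p]
      rw [h3]
      exact hodd.add_one
    · have h3 : (Q : ℚ_[p]).valuation = 0 := ZDual_val_of_not_dvd (ZDual_dvd hp.out P hPp hpP)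
      rw [h3, add_zero]
      by_cases hpT : p ∈ T
      · by_contra hcon
        apply hpP
        rw [hP, mem_filter]
        exact ⟨hpT, hp, Int.not_even_iff_odd.1 hcon⟩
      · exact hT p hpT
  have hne : ∀ (p : ℕ) [Fact p.Prime], c p * ((s * Q : ℤ) : ℚ_[p]) ≠ 0 := by
    intro p hp
    exact mul_ne_zero (hc p) (by exact_mod_cast hδ0)
  have hsum : ∀ β : ℚ, β ≠ 0 → SumZero (fun p _ => c p * ((s * Q : ℤ) : ℚ_[p]))
      (c₀ * (((s * Q : ℤ) : ℚ) : ℝ)) β := by
    intro β hβ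
    have h1 := recip ((s * Q : ℤ) : ℚ) β (by exact_mod_cast hδ0) hβ
    have h2 := SumZero.mul (c := c) (c' := fun p _ => (((s * Q : ℤ) : ℚ) : ℚ_[p])) hc
      (fun p _ => by
        have : ((s * Q : ℤ) : ℚ_[p]) ≠ 0 := by exact_mod_cast hδ0
        simpa using this) h₀ (by
        have : ((s * Q : ℤ) : ℝ) ≠ 0 := by exact_mod_cast hδ0
        simpa using this) hβ (h β hβ) h1
    have e : (fun (p : ℕ) (_ : Fact p.Prime) => c p * (((s * Q : ℤ) : ℚ) : ℚ_[p])) =
        (fun (p : ℕ) (_ : Fact p.Prime) => c p * ((s * Q : ℤ) : ℚ_[p])) := by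
      funext p hp
      rw [Rat.cast_intCast]
    rw [e] at h2
    exact h2
  have hcast : ∀ (p : ℕ) [Fact p.Prime] (n : ℤ), ¬ (p : ℤ) ∣ n →
      Even (((n : ℚ) : ℚ_[p])).valuation := by
    intro p hp n hn
    rw [Rat.cast_intCast, ZDual_val_of_not_dvd hn]
    exact Even.zero
  -- at the prime 2
  have h2 : IsSquare (c 2 * ((s * Q : ℤ) : ℚ_[2])) := by
    have k1 : Split ℚ_[2] (c 2 * ((s * Q : ℤ) : ℚ_[2])) (((-1 : ℤ) : ℚ) : ℚ_[2]) := by
      apply ZDual_split (fun p _ => c p * ((s * Q : ℤ) : ℚ_[p])) _ hδpos ((-1 : ℤ) : ℚ)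
        (by norm_num) (hsum _ (by norm_num)) 2
      intro p hp hp2
      apply split_even hp2 _ _ (hne p) (by
        rw [Rat.cast_intCast]
        norm_num) (hval p)
      apply hcast p
      intro hd
      have : IsUnit (p : ℤ) := isUnit_of_dvd_unit hd isUnit_one.neg
      exact (Nat.prime_iff_prime_int.1 hp.out).not_isUnit this
    have k2 : Split ℚ_[2] (c 2 * ((s * Q : ℤ) : ℚ_[2])) (((2 : ℤ) : ℚ) : ℚ_[2]) := by
      apply ZDual_split (fun p _ => c p * ((s * Q : ℤ) : ℚ_[p])) _ hδpos ((2 : ℤ) : ℚ)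
        (by norm_num) (hsum _ (by norm_num)) 2
      intro p hp hp2
      apply split_even hp2 _ _ (hne p) (by
        rw [Rat.cast_intCast]
        norm_num) (hval p)
      apply hcast p
      intro hd
      have h3 : p ∣ 2 := by exact_mod_cast hd
      exact hp2 ((Nat.prime_dvd_prime_iff_eq hp.out Nat.prime_two).1 h3)
    rw [Rat.cast_intCast] at k1 k2
    push_cast at k1 k2
    have k3 := hval 2
    have k4 := hne 2
    push_cast at k3 k4 ⊢
    exact two_square _ k4 k3 k1 k2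
  refine ⟨s * Q, hδsq, ?_⟩
  intro q hq
  by_cases hq2 : q = 2
  · subst hq2
    exact h2
  · have k1 : Split ℚ_[q] (c q * ((s * Q : ℤ) : ℚ_[q])) (((q : ℤ) : ℚ) : ℚ_[q]) := by
      have hq0 : ((q : ℤ) : ℚ) ≠ 0 := by
        exact_mod_cast hq.out.ne_zero
      apply ZDual_split (fun p _ => c p * ((s * Q : ℤ) : ℚ_[p])) _ hδpos ((q : ℤ) : ℚ)
        hq0 (hsum _ hq0) q
      intro p hp hpq
      by_cases hp2 : p = 2
      · subst hp2
        exact split_of_isSquare _ _ h2
      · apply split_even hp2 _ _ (hne p) (by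
          rw [Rat.cast_intCast]
          exact_mod_cast hq.out.ne_zero) (hval p)
        apply hcast p
        intro hd
        have h3 : p ∣ q := by exact_mod_cast hd
        exact hpq ((Nat.prime_dvd_prime_iff_eq hp.out hq.out).1 h3)
    rw [Rat.cast_intCast, Int.cast_natCast] at k1
    refine (split_odd_iff hq2 _ _ (hne q) (by exact_mod_cast hq.out.ne_zero) (hval q) ?_).1 k1
    rw [Padic.valuation_p]
    exact odd_one

end ZC
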