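import Pool.Agent.Lib.MP_1ad228_nt.ZHgen

/-! JOB ZHodd.  Conics over `ℚ_p`, `p` odd.

Tools: an element `t` with `‖t - 1‖ < 1` is a square in `ℚ_p` (`p ≠ 2`): Hensel (`hensels_lemma` for `X² - C t` over `ℤ_[p]`).
Every `u ≠ 0` of even valuation is `ε s²` with `‖ε‖ = 1` (`s` a power of `p`); two units with the same residue mod `p` differ by a square.

`isSquare_int_iff`: an integer prime to `p` is a square in `ℚ_p` iff it is a square mod `p` (`legendreSym.eq_one_iff`, `jacobiSym.legendreSym.to_jacobiSym`).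
`isSquare_mul_iff`: for units the square class is given by the residue being a square in `ZMod p`, and the product of two non-squares of `ZMod p`
is a square (e.g. `quadraticChar`, `FiniteField.isSquare...`).
`split_even`: reduce to units `ε, η` (`split_mul_sq`, `split_comm`).  By `FiniteField.exists_root_sum_quadratic` (or `ZMod` version) there are integers `x, y` with
`ε x² + η y² ≡ 1 mod p`; so `ε x² + η y²` is a square `z²`, `z ≠ 0`.
`split_odd_iff`: `u = ε` unit, `β = p η` (up to squares).  `←`: `split_of_isSquare`.  `→`: scale a solution so that `max (‖x‖, ‖y‖, ‖z‖) = 1`.  If `‖x‖ < 1`, then `‖z‖ < 1`, so `‖p η y²‖ = ‖z² - ε x²‖ ≤ p⁻²`,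
`‖y‖ < 1`, contradiction.  So `‖x‖ = 1` and `(z/x)²/ε = 1 + p(..)`: `ε` is a square.
`split_mul_odd`: four cases by the parity of the valuations.  `β` even: `Split u β` is true for `u` even, and equivalent to `IsSquare β` for `u` odd (`split_comm`, `split_odd_iff`).  `β` odd:
`Split u β ↔ IsSquare u` for `u` even, `↔ IsSquare (-(u β))` for `u` odd (`split_twist`), and `isSquare_mul_iff`
(for `u, u'` odd: `(-(uβ)) (-(u'β)) = u u' β²`). -/

namespace ZC

variable {p : ℕ} [Fact p.Prime]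

/-- elements close to `1` are squares -/
theorem isSquare_of_close (hp : p ≠ 2) (t : ℚ_[p]) (ht : ‖t - 1‖ < 1) : IsSquare t := by
  have h1 : ‖t‖ ≤ 1 := by
    have : t = (t - 1) + 1 := by ring
    rw [this]
    refine (Padic.nonarchimedean _ _).trans (max_le ht.le ?_)
    simp
  set τ : ℤ_[p] := ⟨t, h1⟩ with hτ
  have h2 : ‖(2 : ℤ_[p])‖ = 1 := by
    have h3 := PadicInt.norm_le_one (2 : ℤ_[p])
    rcases h3.lt_or_eq with h | h
    · exfalso
      have h4 : ‖((2 : ℕ) : ℤ_[p])‖ < 1 := by simpa using h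
      rw [PadicInt.norm_natCast_lt_one_iff] at h4
      exact hp ((Nat.prime_dvd_prime_iff_eq Fact.out Nat.prime_two).1 h4)
    · exact h
  have h3 : ‖Polynomial.aeval (1 : ℤ_[p]) (Polynomial.X ^ 2 - Polynomial.C τ : Polynomial ℤ_[p])‖ <
      ‖Polynomial.aeval (1 : ℤ_[p]) (Polynomial.derivative (Polynomial.X ^ 2 - Polynomial.C τ : Polynomial ℤ_[p]))‖ ^ 2 := by
    have e1 : Polynomial.aeval (1 : ℤ_[p]) (Polynomial.X ^ 2 - Polynomial.C τ : Polynomial ℤ_[p]) = 1 - τ := by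
      simp
    have e2 : Polynomial.aeval (1 : ℤ_[p]) (Polynomial.derivative (Polynomial.X ^ 2 - Polynomial.C τ : Polynomial ℤ_[p])) = 2 := by
      simp
      norm_num
    rw [e1, e2, h2, one_pow, PadicInt.norm_def]
    have : ((1 - τ : ℤ_[p]) : ℚ_[p]) = -(t - 1) := by
      rw [PadicInt.coe_sub, hτ]
      simp
    rw [this, norm_neg]
    exact ht
  obtain ⟨z, hz, -⟩ := hensels_lemma h3
  have hz' : z ^ 2 = τ := by
    have : Polynomial.aeval z (Polynomial.X ^ 2 - Polynomial.C τ : Polynomial ℤ_[p]) = z ^ 2 - τ := by simp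
    rw [this] at hz
    exact sub_eq_zero.1 hz
  refine ⟨(z : ℚ_[p]), ?_⟩
  have : ((z ^ 2 : ℤ_[p]) : ℚ_[p]) = t := by rw [hz']
  rw [← this, PadicInt.coe_pow, sq]

private theorem ZHodd_toZMod_eq_zero (x : ℤ_[p]) : PadicInt.toZMod x = 0 ↔ ‖x‖ < 1 := by
  rw [← RingHom.mem_ker, PadicInt.ker_toZMod, IsLocalRing.mem_maximalIdeal, PadicInt.mem_nonunits]

/-- units: square class and residue -/
private theorem ZHodd_unit_iff (hp : p ≠ 2) (ε : ℤ_[p]) (hε : ‖ε‖ = 1) :
    IsSquare (ε : ℚ_[p]) ↔ IsSquare (PadicInt.toZMod ε) := by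
  constructor
  · rintro ⟨s, hs⟩
    have hs1 : ‖s‖ = 1 := by
      have h : ‖s‖ * ‖s‖ = 1 := by
        rw [← norm_mul, ← hs, ← PadicInt.norm_def, hε]
      nlinarith [norm_nonneg s]
    refine ⟨PadicInt.toZMod ⟨s, hs1.le⟩, ?_⟩
    rw [← map_mul]
    congr 1
    exact Subtype.ext hs
  · rintro ⟨r, hr⟩
    obtain ⟨s, hs⟩ := ZMod.ringHom_surjective (PadicInt.toZMod (p := p)) r
    have hε0 : PadicInt.toZMod ε ≠ 0 := by
      intro h
      rw [ZHodd_toZMod_eq_zero, hε] at h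
      exact lt_irrefl _ h
    have hr0 : r ≠ 0 := by
      rintro rfl
      exact hε0 (by rw [hr]; ring)
    have hs1 : ‖s‖ = 1 := by
      rcases (PadicInt.norm_le_one s).lt_or_eq with h | h
      · rw [← ZHodd_toZMod_eq_zero, hs] at h
        exact absurd h hr0
      · exact h
    have hd : ‖ε - s * s‖ < 1 := by
      rw [← ZHodd_toZMod_eq_zero, map_sub, map_mul, hs, hr, sub_self]
    have hs0 : (s : ℚ_[p]) ≠ 0 := by
      intro h
      rw [PadicInt.norm_def, h, norm_zero] at hs1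
      exact zero_ne_one hs1
    have h1 : ‖(ε : ℚ_[p]) / ((s : ℚ_[p]) * s) - 1‖ < 1 := by
      have e : (ε : ℚ_[p]) / ((s : ℚ_[p]) * s) - 1 = ((ε - s * s : ℤ_[p]) : ℚ_[p]) / ((s : ℚ_[p]) * s) := by
        rw [PadicInt.coe_sub, PadicInt.coe_mul]
        field_simp
      rw [e, norm_div, norm_mul, ← PadicInt.norm_def, ← PadicInt.norm_def, hs1, mul_one, div_one]
      exact hd
    obtain ⟨w, hw⟩ := isSquare_of_close hp _ h1
    refine ⟨w * s, ?_⟩
    have : (ε : ℚ_[p]) = (w * w) * (s * s) := by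
      rw [← hw]
      field_simp
    rw [this]
    ring

/-- elements of even valuation -/
private theorem ZHodd_even (u : ℚ_[p]) (hu : u ≠ 0) (h : Even u.valuation) :
    ∃ (ε : ℤ_[p]) (s : ℚ_[p]), ‖ε‖ = 1 ∧ s ≠ 0 ∧ u = ε * s ^ 2 := by
  obtain ⟨k, hk⟩ := h
  have hp0 : (p : ℚ_[p]) ≠ 0 := by exact_mod_cast (Fact.out : p.Prime).ne_zero
  have hs : ((p : ℚ_[p]) ^ k) ≠ 0 := zpow_ne_zero _ hp0
  have hpr : (p : ℝ) ≠ 0 := by exact_mod_cast (Fact.out : p.Prime).ne_zero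
  have hn : ‖u / ((p : ℚ_[p]) ^ k) ^ 2‖ = 1 := by
    rw [norm_div, norm_pow, Padic.norm_p_zpow, Padic.norm_eq_zpow_neg_valuation hu, hk, ← zpow_natCast, ← zpow_mul,
      ← zpow_sub₀ hpr]
    have : -(k + k) - -k * ((2 : ℕ) : ℤ) = 0 := by push_cast; ring
    rw [this, zpow_zero]
  refine ⟨⟨u / ((p : ℚ_[p]) ^ k) ^ 2, hn.le⟩, (p : ℚ_[p]) ^ k, ?_, hs, ?_⟩
  · rw [PadicInt.norm_def]
    exact hn
  · change u = u / ((p : ℚ_[p]) ^ k) ^ 2 * ((p : ℚ_[p]) ^ k) ^ 2
    rw [div_mul_cancel₀ _ (pow_ne_zero 2 hs)]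

private theorem ZHodd_isSquare_mul_sq (u s : ℚ_[p]) (hs : s ≠ 0) : IsSquare (u * s ^ 2) ↔ IsSquare u := by
  constructor
  · rintro ⟨r, hr⟩
    refine ⟨r / s, ?_⟩
    field_simp
    linear_combination hr
  · rintro ⟨r, hr⟩
    exact ⟨r * s, by rw [hr]; ring⟩

private theorem ZHodd_ne (ε : ℤ_[p]) (hε : ‖ε‖ = 1) : (ε : ℚ_[p]) ≠ 0 := by
  intro h
  rw [PadicInt.norm_def, h, norm_zero] at hε
  exact zero_ne_one hε

private theorem ZHodd_red (ε : ℤ_[p]) (hε : ‖ε‖ = 1) : PadicInt.toZMod ε ≠ 0 := by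
  intro h
  rw [ZHodd_toZMod_eq_zero, hε] at h
  exact lt_irrefl _ h

private theorem ZHodd_parity (x y : ℚ_[p]) (hx : x ≠ 0) (hy : y ≠ 0) (h : ‖x‖ ^ 2 = (p : ℝ)⁻¹ * ‖y‖ ^ 2) : False := by
  have hp1 : (1 : ℝ) < p := by exact_mod_cast (Fact.out : p.Prime).one_lt
  have hp0 : (p : ℝ) ≠ 0 := by positivity
  rw [Padic.norm_eq_zpow_neg_valuation hx, Padic.norm_eq_zpow_neg_valuation hy, ← zpow_neg_one, ← zpow_natCast,
    ← zpow_mul, ← zpow_natCast, ← zpow_mul, ← zpow_add₀ hp0] at h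
  have h2 := zpow_right_injective₀ (by positivity) hp1.ne' h
  push_cast at h2
  omega

private theorem ZHodd_core (hp : p ≠ 2) (ε η : ℤ_[p]) (hε : ‖ε‖ = 1) (hη : ‖η‖ = 1)
    (h : Split ℚ_[p] ε (p * η)) : IsSquare (ε : ℚ_[p]) := by
  obtain ⟨x, y, z, hne, e⟩ := h
  have hε0 := ZHodd_ne ε hε
  have hη0 := ZHodd_ne η hη
  have hp0 : (p : ℚ_[p]) ≠ 0 := by exact_mod_cast (Fact.out : p.Prime).ne_zero
  have hpr0 : (0 : ℝ) < (p : ℝ)⁻¹ := by
    have : (0 : ℝ) < p := by exact_mod_cast (Fact.out : p.Prime).pos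
    positivity
  have n1 : ‖(ε : ℚ_[p]) * x ^ 2‖ = ‖x‖ ^ 2 := by
    rw [norm_mul, norm_pow, ← PadicInt.norm_def, hε, one_mul]
  have n2 : ‖(p : ℚ_[p]) * η * y ^ 2‖ = (p : ℝ)⁻¹ * ‖y‖ ^ 2 := by
    rw [norm_mul, norm_mul, norm_pow, ← PadicInt.norm_def, hη, mul_one, Padic.norm_p]
  have e' : (p : ℚ_[p]) * η * y ^ 2 = z ^ 2 + -(ε * x ^ 2) := by linear_combination e
  by_cases hx : x = 0
  · exfalso
    by_cases hy : y = 0
    · apply hne
      refine ⟨hx, hy, ?_⟩
      rw [hx, hy] at e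
      have : z ^ 2 = 0 := by rw [← e]; ring
      exact pow_eq_zero_iff two_ne_zero |>.1 this
    · have hz : z ≠ 0 := by
        rintro rfl
        have h0 : (p : ℚ_[p]) * η * y ^ 2 = 0 := by rw [e', hx]; ring
        exact mul_ne_zero (mul_ne_zero hp0 hη0) (pow_ne_zero 2 hy) h0
      refine ZHodd_parity z y hz hy ?_
      rw [← n2, e', hx]
      simp
  · have hxn : 0 < ‖x‖ := norm_pos_iff.2 hx
    have key : ‖(z / x) ^ 2 / ε - 1‖ < 1 := by
      have e1 : (z / x) ^ 2 / ε - 1 = (z ^ 2 + -(ε * x ^ 2)) / (ε * x ^ 2) := by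
        field_simp
        ring
      rw [e1, ← e', norm_div, n1, n2, div_lt_one (by positivity)]
      by_contra hcon
      push Not at hcon
      by_cases hy : y = 0
      · rw [hy, norm_zero] at hcon
        have : (p : ℝ)⁻¹ * 0 ^ 2 = 0 := by ring
        rw [this] at hcon
        nlinarith [pow_pos hxn 2]
      · have hyn : 0 < ‖y‖ := norm_pos_iff.2 hy
        have hlt : ‖x‖ ^ 2 < (p : ℝ)⁻¹ * ‖y‖ ^ 2 := lt_of_le_of_ne hcon fun h => ZHodd_parity x y hx hy h
        have hz2 : ‖z ^ 2‖ = (p : ℝ)⁻¹ * ‖y‖ ^ 2 := by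
          have e2 : z ^ 2 = (p : ℚ_[p]) * η * y ^ 2 + ε * x ^ 2 := by linear_combination -e
          rw [e2, Padic.add_eq_max_of_ne (by rw [n1, n2]; exact hlt.ne'), n1, n2, max_eq_left hlt.le]
        have hz : z ≠ 0 := by
          rintro rfl
          rw [show (0 : ℚ_[p]) ^ 2 = 0 by ring, norm_zero] at hz2
          have : 0 < (p : ℝ)⁻¹ * ‖y‖ ^ 2 := by positivity
          exact absurd hz2 this.ne
        rw [norm_pow] at hz2
        exact ZHodd_parity z y hz hy hz2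
    obtain ⟨w, hw⟩ := isSquare_of_close hp _ key
    have hw0 : w ≠ 0 := by
      rintro rfl
      rw [mul_zero] at hw
      rw [hw] at key
      norm_num at key
    refine ⟨z / x / w, ?_⟩
    have h3 : (z / x) ^ 2 = w * w * ε := by
      rw [← hw]
      field_simp
    field_simp
    field_simp at h3
    linear_combination -h3

theorem isSquare_int_iff (hp : p ≠ 2) (m : ℤ) (hm : ¬ (p : ℤ) ∣ m) :
    IsSquare (m : ℚ_[p]) ↔ jacobiSym m p = 1 := by
  have h1 : ‖(m : ℤ_[p])‖ = 1 := by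
    rcases (PadicInt.norm_le_one (m : ℤ_[p])).lt_or_eq with h | h
    · exact absurd (PadicInt.norm_int_lt_one_iff_dvd m |>.1 h) hm
    · exact h
  have h2 := ZHodd_unit_iff hp (m : ℤ_[p]) h1
  have h3 : ((m : ℤ_[p]) : ℚ_[p]) = (m : ℚ_[p]) := by simp
  have h4 : PadicInt.toZMod (m : ℤ_[p]) = (m : ZMod p) := by simp
  have h5 : (m : ZMod p) ≠ 0 := by
    rw [Ne, ZMod.intCast_zmod_eq_zero_iff_dvd]
    exact hm
  rw [h3, h4] at h2
  rw [h2, ← jacobiSym.legendreSym.to_jacobiSym, legendreSym.eq_one_iff p h5]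

theorem isSquare_mul_iff (hp : p ≠ 2) (u u' : ℚ_[p]) (hu : u ≠ 0) (hu' : u' ≠ 0)
    (h : Even u.valuation) (h' : Even u'.valuation) :
    IsSquare (u * u') ↔ (IsSquare u ↔ IsSquare u') := by
  classical
  obtain ⟨ε, s, hε, hs, rfl⟩ := ZHodd_even u hu h
  obtain ⟨ε', s', hε', hs', rfl⟩ := ZHodd_even u' hu' h'
  have e : (ε : ℚ_[p]) * s ^ 2 * (ε' * s' ^ 2) = ((ε * ε' : ℤ_[p]) : ℚ_[p]) * (s * s') ^ 2 := by
    rw [PadicInt.coe_mul]
    ring
  have hεε : ‖ε * ε'‖ = 1 := by rw [norm_mul, hε, hε', mul_one]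
  rw [e, ZHodd_isSquare_mul_sq _ _ (mul_ne_zero hs hs'), ZHodd_isSquare_mul_sq _ _ hs, ZHodd_isSquare_mul_sq _ _ hs',
    ZHodd_unit_iff hp _ hε, ZHodd_unit_iff hp _ hε', ZHodd_unit_iff hp _ hεε]
  have r1 := ZHodd_red ε hε
  have r2 := ZHodd_red ε' hε'
  have r3 := ZHodd_red _ hεε
  rw [← quadraticChar_one_iff_isSquare r1, ← quadraticChar_one_iff_isSquare r2, ← quadraticChar_one_iff_isSquare r3,
    map_mul, map_mul]
  rcases quadraticChar_dichotomy r1 with h1 | h1 <;> rcases quadraticChar_dichotomy r2 with h2 | h2 <;>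
    rw [h1, h2] <;> norm_num

theorem split_even (hp : p ≠ 2) (u β : ℚ_[p]) (hu : u ≠ 0) (hβ : β ≠ 0)
    (h : Even u.valuation) (h' : Even β.valuation) : Split ℚ_[p] u β := by
  obtain ⟨ε, s, hε, hs, rfl⟩ := ZHodd_even u hu h
  obtain ⟨η, s', hη, hs', rfl⟩ := ZHodd_even β hβ h'
  rw [split_mul_sq _ _ _ hs, split_comm, split_mul_sq _ _ _ hs', split_comm]
  have r1 := ZHodd_red ε hε
  have r2 := ZHodd_red η hη
  have hf : (Polynomial.C (PadicInt.toZMod ε) * Polynomial.X ^ 2 - 1 : Polynomial (ZMod p)).degree = 2 := by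
    rw [Polynomial.degree_sub_eq_left_of_degree_lt]
    · exact Polynomial.degree_C_mul_X_pow 2 r1
    · rw [Polynomial.degree_C_mul_X_pow 2 r1, Polynomial.degree_one]
      norm_num
  have hg : (Polynomial.C (PadicInt.toZMod η) * Polynomial.X ^ 2 : Polynomial (ZMod p)).degree = 2 :=
    Polynomial.degree_C_mul_X_pow 2 r2
  obtain ⟨a, b, hab⟩ := FiniteField.exists_root_sum_quadratic hf hg (by
    rw [ZMod.card]
    exact Nat.odd_iff.1 ((Fact.out : p.Prime).odd_of_ne_two hp))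
  obtain ⟨x, hx⟩ := ZMod.ringHom_surjective (PadicInt.toZMod (p := p)) a
  obtain ⟨y, hy⟩ := ZMod.ringHom_surjective (PadicInt.toZMod (p := p)) b
  simp only [Polynomial.eval_sub, Polynomial.eval_mul, Polynomial.eval_C, Polynomial.eval_pow, Polynomial.eval_X,
    Polynomial.eval_one] at hab
  have hd : ‖ε * x ^ 2 + η * y ^ 2 - 1‖ < 1 := by
    rw [← ZHodd_toZMod_eq_zero, map_sub, map_add, map_mul, map_mul, map_pow, map_pow, hx, hy, map_one]
    linear_combination hab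
  have hd' : ‖((ε : ℚ_[p]) * (x : ℚ_[p]) ^ 2 + η * (y : ℚ_[p]) ^ 2) - 1‖ < 1 := by
    have e : ((ε : ℚ_[p]) * (x : ℚ_[p]) ^ 2 + η * (y : ℚ_[p]) ^ 2) - 1 = ((ε * x ^ 2 + η * y ^ 2 - 1 : ℤ_[p]) : ℚ_[p]) := by
      push_cast
      ring
    rw [e, ← PadicInt.norm_def]
    exact hd
  obtain ⟨w, hw⟩ := isSquare_of_close hp _ hd'
  refine ⟨x, y, w, ?_, by rw [hw]; ring⟩
  rintro ⟨h1, h2, -⟩
  rw [h1, h2] at hd'
  norm_num at hd'

theorem split_odd_iff (hp : p ≠ 2) (u β : ℚ_[p]) (hu : u ≠ 0) (hβ : β ≠ 0)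
    (h : Even u.valuation) (h' : Odd β.valuation) : Split ℚ_[p] u β ↔ IsSquare u := by
  have hp0 : (p : ℚ_[p]) ≠ 0 := by exact_mod_cast (Fact.out : p.Prime).ne_zero
  constructor
  · obtain ⟨ε, s, hε, hs, rfl⟩ := ZHodd_even u hu h
    have hv : Even (β / (p : ℚ_[p])).valuation := by
      have e : β = (β / (p : ℚ_[p])) * (p : ℚ_[p]) := by field_simp
      have e2 := Padic.valuation_mul (div_ne_zero hβ hp0) hp0
      rw [← e, Padic.valuation_p] at e2
      obtain ⟨k, hk⟩ := h'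
      exact ⟨k, by omega⟩
    obtain ⟨η, s', hη, hs', hβe⟩ := ZHodd_even (β / (p : ℚ_[p])) (div_ne_zero hβ hp0) hv
    have hβ' : β = (p : ℚ_[p]) * (η : ℚ_[p]) * s' ^ 2 := by
      rw [div_eq_iff hp0] at hβe
      rw [hβe]
      ring
    rw [hβ', split_mul_sq _ _ _ hs, split_comm, split_mul_sq _ _ _ hs', split_comm, ZHodd_isSquare_mul_sq _ _ hs]
    exact ZHodd_core hp ε η hε hη
  · exact split_of_isSquare u β

theorem split_mul_odd (hp : p ≠ 2) (u u' β : ℚ_[p]) (hu : u ≠ 0) (hu' : u' ≠ 0) (hβ : β ≠ 0) :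
    Split ℚ_[p] (u * u') β ↔ (Split ℚ_[p] u β ↔ Split ℚ_[p] u' β) := by
  have hvu := Padic.valuation_mul hu hu'
  have huu : u * u' ≠ 0 := mul_ne_zero hu hu'
  have hneg : ∀ x : ℚ_[p], x ≠ 0 → (-x).valuation = x.valuation := by
    intro x hx
    have h1 := Padic.norm_eq_zpow_neg_valuation (neg_ne_zero.2 hx)
    rw [norm_neg, Padic.norm_eq_zpow_neg_valuation hx] at h1
    have hp1 : (1 : ℝ) < p := by exact_mod_cast (Fact.out : p.Prime).one_lt
    have h2 := zpow_right_injective₀ (by positivity) hp1.ne' h1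
    simp only [neg_inj] at h2
    exact h2.symm
  rcases Int.even_or_odd β.valuation with hb | hb
  · -- `β` even
    have E : ∀ v : ℚ_[p], v ≠ 0 → Even v.valuation → Split ℚ_[p] v β := fun v hv h => split_even hp v β hv hβ h hb
    have O : ∀ v : ℚ_[p], v ≠ 0 → Odd v.valuation → (Split ℚ_[p] v β ↔ IsSquare β) := fun v hv h => by
      rw [split_comm]
      exact split_odd_iff hp β v hβ hv hb h
    rcases Int.even_or_odd u.valuation with h1 | h1 <;> rcases Int.even_or_odd u'.valuation with h2 | h2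
    · have := E u hu h1
      have := E u' hu' h2
      have := E (u * u') huu (by rw [hvu]; exact h1.add h2)
      tauto
    · have := E u hu h1
      have := O u' hu' h2
      have := O (u * u') huu (by rw [hvu]; exact h1.add_odd h2)
      tauto
    · have := O u hu h1
      have := E u' hu' h2
      have := O (u * u') huu (by rw [hvu]; exact h1.add_even h2)
      tauto
    · have := O u hu h1
      have := O u' hu' h2
      have := E (u * u') huu (by rw [hvu]; exact h1.add_odd h2)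
      tauto
  · -- `β` odd
    have E : ∀ v : ℚ_[p], v ≠ 0 → Even v.valuation → (Split ℚ_[p] v β ↔ IsSquare v) := fun v hv h =>
      split_odd_iff hp v β hv hβ h hb
    have V : ∀ v : ℚ_[p], v ≠ 0 → Odd v.valuation → Even (-(v * β)).valuation := fun v hv h => by
      rw [hneg _ (mul_ne_zero hv hβ), Padic.valuation_mul hv hβ]
      exact h.add_odd hb
    have O : ∀ v : ℚ_[p], v ≠ 0 → Odd v.valuation → (Split ℚ_[p] v β ↔ IsSquare (-(v * β))) := fun v hv h => by
      rw [split_twist v β hβ]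
      exact E _ (neg_ne_zero.2 (mul_ne_zero hv hβ)) (V v hv h)
    have N : ∀ v : ℚ_[p], v ≠ 0 → -(v * β) ≠ 0 := fun v hv => neg_ne_zero.2 (mul_ne_zero hv hβ)
    rcases Int.even_or_odd u.valuation with h1 | h1 <;> rcases Int.even_or_odd u'.valuation with h2 | h2
    · rw [E u hu h1, E u' hu' h2, E (u * u') huu (by rw [hvu]; exact h1.add h2)]
      exact isSquare_mul_iff hp u u' hu hu' h1 h2
    · rw [E u hu h1, O u' hu' h2, O (u * u') huu (by rw [hvu]; exact h1.add_odd h2)]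
      rw [← isSquare_mul_iff hp u _ hu (N u' hu') h1 (V u' hu' h2)]
      have e : -(u * u' * β) = u * -(u' * β) := by ring
      rw [e]
    · rw [O u hu h1, E u' hu' h2, O (u * u') huu (by rw [hvu]; exact h1.add_even h2)]
      rw [← isSquare_mul_iff hp _ u' (N u hu) hu' (V u hu h1) h2]
      have e : -(u * u' * β) = -(u * β) * u' := by ring
      rw [e]
    · rw [O u hu h1, O u' hu' h2, E (u * u') huu (by rw [hvu]; exact h1.add_odd h2)]
      rw [← isSquare_mul_iff hp _ _ (N u hu) (N u' hu') (V u hu h1) (V u' hu' h2)]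
      have e : -(u * β) * -(u' * β) = u * u' * β ^ 2 := by ring
      rw [e, ZHodd_isSquare_mul_sq _ _ hβ]

end ZC
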