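import Pool.Agent.Lib.MP_1ad228_nt.ZVal

/-! JOB ZRam.  If the ramification index of `K/ℚ_p` is even, norms of units are squares in `ℚ_p` (`p` odd).

Hypothesis: there is `w ∈ K` with `v(w)² = p`.  Claim: `v u = 1` implies that `N_{K/ℚ_p}(u)` is a square.

Proof.  Choose an intermediate field `F` of `K/ℚ_p` of maximal degree such that the values `v(y)`, `y ∈ F*`, are integral powers
of `p`.  Norm formula: `v(N_{K/F}(y)) = v(y)^[K:F]` for `y ∈ K`.
(i) If every `c ∈ F` with `v c = 1` is a square in `F`, apply this to `c = N_{K/F}(u)`.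
(ii) Otherwise take `c ∈ F`, `v c = 1`, not a square in `F`.
  (a) `c` is not a square in `K`: by `two_classes` `u = s²` or `u c = s²` with `s ∈ K`; `N_{K/F}(u) = N(s)²` or `N(s)² c^(-n)`, `n = [K:F]`.  And `n` is even: `v(N_{K/F}(w))² = v(w)^(2n) = p^n` and `v(N_{K/F}(w))` is an integral
      power of `p`.  So `N_{K/F}(u)` is a square.
  (b) `c = s²` with `s ∈ K`, `s ∉ F`: the field `F(s)` contradicts the maximality of `F`. -/

namespace ZC

open Polynomial

section

variable {p : ℕ} [Fact p.Prime] {K : Type} [Field K] [Algebra ℚ_[p] K]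

private lemma ZRam_one (L : LVal p K) : L.v 1 = 1 := by
  have h := L.ext 1
  rw [map_one, norm_one] at h
  exact h

private lemma ZRam_pow (L : LVal p K) (x : K) (n : ℕ) : L.v (x ^ n) = L.v x ^ n := by
  induction n with
  | zero => rw [pow_zero, pow_zero, ZRam_one L]
  | succ n ih => rw [pow_succ, pow_succ, L.mul, ih]

private lemma ZRam_inv (L : LVal p K) {x : K} (hx : x ≠ 0) : L.v x⁻¹ = (L.v x)⁻¹ := by
  have h := L.mul x x⁻¹
  rw [mul_inv_cancel₀ hx, ZRam_one L] at h
  exact eq_inv_of_mul_eq_one_right h.symm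

private lemma ZRam_neg (L : LVal p K) (x : K) : L.v (-x) = L.v x := by
  have h : L.v (-x) ^ 2 = L.v x ^ 2 := by
    rw [← ZRam_pow, ← ZRam_pow]
    congr 1
    ring
  exact (pow_left_inj₀ (L.nonneg _) (L.nonneg _) two_ne_zero).1 h

private lemma ZRam_add_eq (L : LVal p K) {x y : K} (h : L.v x < L.v y) : L.v (x + y) = L.v y := by
  apply le_antisymm
  · exact (L.add x y).trans (max_le h.le le_rfl)
  · have h1 := L.add (x + y) (-x)
    rw [ZRam_neg, show x + y + -x = y by ring] at h1
    rcases le_max_iff.1 h1 with h2 | h2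
    · exact h2
    · exact absurd h2 (not_le.2 h)

variable [FiniteDimensional ℚ_[p] K]

/-- the absolute value of an intermediate field agrees with the one of `K` -/
private lemma ZRam_agree (L : LVal p K) (F : IntermediateField ℚ_[p] K) (LF : LVal p F) (y : F) :
    LF.v y = L.v (y : K) := by
  have h1 : ‖Algebra.norm ℚ_[p] (y : K)‖ = L.v (y : K) ^ Module.finrank ℚ_[p] K := L.norm _
  have h2 : Algebra.norm ℚ_[p] (y : K) = (Algebra.norm ℚ_[p] y) ^ Module.finrank F K := by
    rw [← Algebra.norm_norm (R := ℚ_[p]) (S := F) (A := K) (a := (y : K))]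
    have h3 : Algebra.norm F (y : K) = y ^ Module.finrank F K := Algebra.norm_algebraMap y
    rw [h3, map_pow]
  rw [h2, norm_pow, LF.norm, ← pow_mul, Module.finrank_mul_finrank] at h1
  exact (pow_left_inj₀ (LF.nonneg _) (L.nonneg _) Module.finrank_pos.ne').1 h1

/-- the relative norm formula -/
private lemma ZRam_norm (L : LVal p K) (F : IntermediateField ℚ_[p] K) (y : K) :
    L.v ((Algebra.norm F y : F) : K) = L.v y ^ Module.finrank F K := by
  obtain ⟨LF⟩ := exists_lval p F
  rw [← ZRam_agree L F LF]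
  have h1 : ‖Algebra.norm ℚ_[p] (Algebra.norm F y)‖ =
      LF.v (Algebra.norm F y) ^ Module.finrank ℚ_[p] F := LF.norm _
  rw [Algebra.norm_norm, L.norm, ← Module.finrank_mul_finrank ℚ_[p] F K, mul_comm, pow_mul] at h1
  exact ((pow_left_inj₀ (pow_nonneg (L.nonneg _) _) (LF.nonneg _) Module.finrank_pos.ne').1 h1).symm

/-- the values are integral powers of `p` -/
private def ZRam_S (L : LVal p K) (F : IntermediateField ℚ_[p] K) : Prop :=
  ∀ y : K, y ∈ F → y ≠ 0 → ∃ m : ℤ, L.v y = (p : ℝ) ^ m

private lemma ZRam_bot (L : LVal p K) : ZRam_S L ⊥ := by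
  intro y hy hy0
  obtain ⟨c, rfl⟩ := IntermediateField.mem_bot.1 hy
  have hc : c ≠ 0 := by
    rintro rfl
    exact hy0 (map_zero _)
  exact ⟨-c.valuation, by rw [L.ext, Padic.norm_eq_zpow_neg_valuation hc]⟩

private lemma ZRam_max (L : LVal p K) : ∃ F : IntermediateField ℚ_[p] K, ZRam_S L F ∧
    ∀ E : IntermediateField ℚ_[p] K, ZRam_S L E → F ≤ E → E = F := by
  let T : Set ℕ := {n | ∃ F : IntermediateField ℚ_[p] K, ZRam_S L F ∧ Module.finrank ℚ_[p] F = n}
  have hne : T.Nonempty := ⟨_, ⊥, ZRam_bot L, rfl⟩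
  have hbdd : BddAbove T := by
    refine ⟨Module.finrank ℚ_[p] K, ?_⟩
    rintro n ⟨F, -, rfl⟩
    exact Submodule.finrank_le (F.toSubalgebra.toSubmodule)
  obtain ⟨F, hF, hFn⟩ := Nat.sSup_mem hne hbdd
  refine ⟨F, hF, fun E hE hFE => ?_⟩
  refine (IntermediateField.eq_of_le_of_finrank_le hFE ?_).symm
  rw [hFn]
  exact le_csSup hbdd ⟨E, hE, rfl⟩

/-- elements of `F(s)`, `s² ∈ F` -/
private lemma ZRam_mem_adjoin (F : IntermediateField ℚ_[p] K) (s : K) (c : F) (hs : s * s = c)
    (y : K) (hy : y ∈ IntermediateField.adjoin F {s}) : ∃ a b : F, y = a + b * s := by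
  have halg : IsAlgebraic F s := Algebra.IsAlgebraic.isAlgebraic s
  have h1 : y ∈ (IntermediateField.adjoin F {s}).toSubalgebra := hy
  rw [IntermediateField.adjoin_simple_toSubalgebra_of_isAlgebraic halg,
    Algebra.adjoin_singleton_eq_range_aeval] at h1
  obtain ⟨P, rfl⟩ := h1
  set q : F[X] := X ^ 2 - C c with hq
  have hqm : q.Monic := monic_X_pow_sub_C c two_ne_zero
  have hq0 : aeval s q = 0 := by
    rw [hq, map_sub, map_pow, aeval_X, aeval_C, pow_two, hs]
    exact sub_self _
  have h2 : aeval s (P %ₘ q) = aeval s P := aeval_modByMonic_eq_self_of_root hq0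
  have h3 : (P %ₘ q).natDegree ≤ 1 := by
    have h4 : (P %ₘ q).natDegree < q.natDegree := by
      apply natDegree_modByMonic_lt P hqm
      intro h5
      have : q.natDegree = 2 := natDegree_X_pow_sub_C
      rw [h5, natDegree_one] at this
      omega
    have h6 : q.natDegree = 2 := natDegree_X_pow_sub_C
    omega
  obtain ⟨b, a, hab⟩ := exists_eq_X_add_C_of_natDegree_le_one h3
  refine ⟨a, b, ?_⟩
  change aeval s P = _
  rw [← h2, hab, map_add, map_mul, aeval_C, aeval_C, aeval_X, add_comm]
  rfl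

/-- the quadratic unramified extension -/
private lemma ZRam_quad (hp : p ≠ 2) (L : LVal p K) (F : IntermediateField ℚ_[p] K) (hF : ZRam_S L F)
    (c : F) (hc1 : L.v (c : K) = 1) (hc : ¬ IsSquare c) (s : K) (hs : s * s = c) :
    ZRam_S L ((IntermediateField.adjoin F {s}).restrictScalars ℚ_[p]) := by
  have hvs : L.v s = 1 := by
    have h1 : L.v s ^ 2 = 1 ^ 2 := by
      rw [← ZRam_pow, pow_two s, hs, hc1, one_pow]
    exact (pow_left_inj₀ (L.nonneg _) zero_le_one two_ne_zero).1 h1
  have hs0 : s ≠ 0 := by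
    intro h
    rw [h, (L.zero_iff 0).2 rfl] at hvs
    exact zero_ne_one hvs
  have hc0 : (c : K) ≠ 0 := by
    rw [← hs]
    exact mul_ne_zero hs0 hs0
  -- the key case
  have key : ∀ t : F, ∃ m : ℤ, L.v ((t : K) + s) = (p : ℝ) ^ m := by
    intro t
    rcases lt_trichotomy (L.v (t : K)) 1 with h | h | h
    · refine ⟨0, ?_⟩
      rw [ZRam_add_eq L (by rw [hvs]; exact h), hvs, zpow_zero]
    · refine ⟨0, ?_⟩
      rw [zpow_zero]
      apply le_antisymm
      · refine (L.add _ _).trans ?_
        rw [h, hvs, max_self]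
      · by_contra hlt
        push Not at hlt
        obtain ⟨LF⟩ := exists_lval p F
        apply hc
        have ht0 : t ≠ 0 := by
          intro h0
          rw [h0, show ((0 : F) : K) = 0 from rfl, (L.zero_iff 0).2 rfl] at h
          exact zero_ne_one h
        have hcF : c ≠ 0 := fun h0 => hc0 (by rw [h0]; rfl)
        -- `t ^ 2 / c` is a square in `F`
        have hsq : IsSquare (t ^ 2 / c) := by
          apply LF.one_unit hp
          rw [ZRam_agree L F LF]
          have e1 : (((t ^ 2 / c - 1 : F)) : K) = ((t : K) + s) * ((t : K) - s) * (c : K)⁻¹ := by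
            push_cast
            field_simp
            linear_combination hs
          rw [e1, L.mul, L.mul, ZRam_inv L hc0, hc1, inv_one, mul_one]
          have e2 : L.v ((t : K) - s) ≤ 1 := by
            rw [sub_eq_add_neg]
            refine (L.add _ _).trans ?_
            rw [ZRam_neg, h, hvs, max_self]
          calc L.v ((t : K) + s) * L.v ((t : K) - s) ≤ L.v ((t : K) + s) * 1 :=
                mul_le_mul_of_nonneg_left e2 (L.nonneg _)
            _ < 1 := by rw [mul_one]; exact hlt
        have e3 : c = t ^ 2 / (t ^ 2 / c) := by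
          field_simp
        rw [e3]
        exact (IsSquare.sq t).div hsq
    · obtain ⟨m, hm⟩ := hF (t : K) t.2 (by
        intro h0
        rw [h0, (L.zero_iff 0).2 rfl] at h
        linarith)
      refine ⟨m, ?_⟩
      rw [add_comm, ZRam_add_eq L (by rw [hvs]; exact h), hm]
  intro y hy hy0
  obtain ⟨a, b, rfl⟩ := ZRam_mem_adjoin F s c hs y hy
  by_cases hb : b = 0
  · subst hb
    have e1 : ((a : K) + ((0 : F) : K) * s) = a := by
      rw [show ((0 : F) : K) = 0 from rfl, zero_mul, add_zero]
    rw [e1] at hy0 ⊢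
    exact hF _ a.2 hy0
  · have hbK : (b : K) ≠ 0 := fun h0 => hb (Subtype.ext h0)
    obtain ⟨m1, hm1⟩ := hF _ b.2 hbK
    obtain ⟨m2, hm2⟩ := key (a / b)
    refine ⟨m1 + m2, ?_⟩
    have e1 : ((a : K) + (b : K) * s) = (b : K) * (((a / b : F) : K) + s) := by
      push_cast
      field_simp
    have hp0 : (p : ℝ) ≠ 0 := by exact_mod_cast (Fact.out : p.Prime).ne_zero
    rw [e1, L.mul, hm1, hm2, zpow_add₀ hp0]

end

theorem norm_isSquare_of_ram (p : ℕ) [Fact p.Prime] (hp : p ≠ 2) (K : Type) [Field K] [Algebra ℚ_[p] K]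
    [FiniteDimensional ℚ_[p] K] (L : LVal p K) (w : K) (hw : L.v w ^ 2 = p) (u : K) (hu : L.v u = 1) :
    IsSquare (Algebra.norm ℚ_[p] u) := by
  obtain ⟨F, hF, hmax⟩ := ZRam_max L
  rw [← Algebra.norm_norm (R := ℚ_[p]) (S := F) (A := K) (a := u)]
  apply IsSquare.map
  have hN : L.v ((Algebra.norm F u : F) : K) = 1 := by rw [ZRam_norm, hu, one_pow]
  by_cases hall : ∀ c : F, L.v (c : K) = 1 → IsSquare c
  · exact hall _ hN
  push Not at hall
  obtain ⟨c, hc1, hc⟩ := hall
  have hcF : c ≠ 0 := by
    rintro rfl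
    exact hc ⟨0, by simp⟩
  by_cases hcK : IsSquare (c : K)
  · exfalso
    obtain ⟨s, hs⟩ := hcK
    have hE := hmax _ (ZRam_quad hp L F hF c hc1 hc s hs.symm) (by
      intro y hy
      change y ∈ IntermediateField.adjoin F {s}
      exact (IntermediateField.adjoin F {s}).algebraMap_mem ⟨y, hy⟩)
    have hsE : s ∈ (IntermediateField.adjoin F {s}).restrictScalars ℚ_[p] := by
      change s ∈ IntermediateField.adjoin F {s}
      exact IntermediateField.mem_adjoin_simple_self F s
    rw [hE] at hsE
    exact hc ⟨⟨s, hsE⟩, Subtype.ext hs⟩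
  · rcases L.two_classes hp u (c : K) hu hc1 hcK with h | h
    · exact IsSquare.map (Algebra.norm F) h
    · have h1 : IsSquare (Algebra.norm F (u * (c : K))) := IsSquare.map (Algebra.norm F) h
      have h2 : Algebra.norm F (c : K) = c ^ Module.finrank F K := Algebra.norm_algebraMap c
      rw [map_mul, h2] at h1
      -- the degree is even
      have heven : Even (Module.finrank F K) := by
        have hw0 : w ≠ 0 := by
          intro h0
          rw [h0, (L.zero_iff 0).2 rfl] at hw
          have : (p : ℝ) ≠ 0 := by exact_mod_cast (Fact.out : p.Prime).ne_zero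
          apply this
          rw [← hw]
          norm_num
        have hNw0 : ((Algebra.norm F w : F) : K) ≠ 0 := by
          intro h0
          exact (Algebra.norm_ne_zero_iff.2 hw0) (Subtype.ext h0)
        obtain ⟨m, hm⟩ := hF _ (Algebra.norm F w).2 hNw0
        rw [ZRam_norm] at hm
        have h3 : (p : ℝ) ^ ((Module.finrank F K : ℕ) : ℤ) = (p : ℝ) ^ (m + m) := by
          have hp0 : (p : ℝ) ≠ 0 := by exact_mod_cast (Fact.out : p.Prime).ne_zero
          rw [zpow_add₀ hp0, ← hm, zpow_natCast, ← hw]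
          ring
        have hp1 : (1 : ℝ) < p := by exact_mod_cast (Fact.out : p.Prime).one_lt
        have h4 := (zpow_right_inj₀ (by linarith) hp1.ne').1 h3
        have h5 : Even ((Module.finrank F K : ℕ) : ℤ) := ⟨m, h4⟩
        exact_mod_cast h5
      have h6 : IsSquare (c ^ Module.finrank F K) := heven.isSquare_pow c
      have h7 : Algebra.norm F u = Algebra.norm F u * c ^ Module.finrank F K / c ^ Module.finrank F K := by
        rw [mul_div_cancel_right₀]
        exact pow_ne_zero _ hcF
      rw [h7]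
      exact h1.div h6

end ZC
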