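import Pool.Agent.Lib.MP_1ad228_nt.GTDefs
import Pool.Agent.Lib.MP_1ad228_nt.ZRam

/-! Elementary facts about the absolute value `ZC.LVal` of a finite extension of `ℚ_p` (complete file). -/

namespace ZG

open Finset ZC

variable {p : ℕ} [Fact p.Prime]

section aux

variable {K : Type} [Field K] [Algebra ℚ_[p] K]

theorem v_one (L : LVal p K) : L.v 1 = 1 := by
  have h := L.mul 1 1
  have h0 : L.v 1 ≠ 0 := fun h0 => one_ne_zero ((L.zero_iff 1).1 h0)
  rw [mul_one] at h
  exact (mul_left_cancel₀ h0 (by rw [mul_one]; exact h)).symm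

/-- the absolute value as a monoid hom -/
noncomputable def vh (L : LVal p K) : K →* ℝ where
  toFun := L.v
  map_one' := v_one L
  map_mul' := L.mul

theorem v_pow (L : LVal p K) (x : K) (n : ℕ) : L.v (x ^ n) = L.v x ^ n := map_pow (vh L) x n

theorem v_prod (L : LVal p K) {κ : Type} (s : Finset κ) (f : κ → K) :
    L.v (∏ i ∈ s, f i) = ∏ i ∈ s, L.v (f i) := map_prod (vh L) f s

theorem v_neg (L : LVal p K) (x : K) : L.v (-x) = L.v x := by
  have h1 : L.v (-1) ^ 2 = 1 := by rw [← v_pow]; norm_num [v_one]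
  have h2 : L.v (-1) = 1 := by
    have := L.nonneg (-1)
    nlinarith [sq_nonneg (L.v (-1) - 1)]
  rw [← neg_one_mul, L.mul, h2, one_mul]

theorem v_sub (L : LVal p K) (x y : K) : L.v (x - y) ≤ max (L.v x) (L.v y) := by
  rw [sub_eq_add_neg, ← v_neg L y]
  exact L.add x (-y)

theorem v_inv (L : LVal p K) (x : K) : L.v (x⁻¹) = (L.v x)⁻¹ := by
  by_cases hx : x = 0
  · subst hx
    rw [inv_zero, (L.zero_iff 0).2 rfl, inv_zero]
  · have h := L.mul x x⁻¹
    rw [mul_inv_cancel₀ hx, v_one] at h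
    exact eq_inv_of_mul_eq_one_right h.symm

theorem v_div (L : LVal p K) (x y : K) : L.v (x / y) = L.v x / L.v y := by
  rw [div_eq_mul_inv, L.mul, v_inv, div_eq_mul_inv]

theorem v_int_le (L : LVal p K) (m : ℤ) : L.v (m : K) ≤ 1 := by
  have := L.ext (m : ℚ_[p])
  rw [map_intCast] at this
  rw [this]
  exact Padic.norm_int_le_one m

theorem v_int (L : LVal p K) {m : ℤ} (hm : ¬ (p : ℤ) ∣ m) : L.v (m : K) = 1 := by
  have := L.ext (m : ℚ_[p])
  rw [map_intCast] at this
  rw [this]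
  refine le_antisymm (Padic.norm_int_le_one m) ?_
  by_contra h
  exact hm (Padic.norm_intCast_lt_one_iff.1 (not_le.1 h))

theorem v_int_lt (L : LVal p K) {m : ℤ} (hm : (p : ℤ) ∣ m) : L.v (m : K) < 1 := by
  have := L.ext (m : ℚ_[p])
  rw [map_intCast] at this
  rw [this]
  exact Padic.norm_intCast_lt_one_iff.2 hm

theorem v_two (L : LVal p K) (hp : p ≠ 2) : L.v (2 : K) = 1 := by
  have h : ¬ (p : ℤ) ∣ (2 : ℤ) := by
    intro h
    have h2 : p ∣ 2 := by exact_mod_cast h
    exact hp ((Nat.prime_dvd_prime_iff_eq Fact.out Nat.prime_two).1 h2)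
  have := v_int L h
  simpa using this

theorem v_p (L : LVal p K) : L.v (p : K) = (p : ℝ)⁻¹ := by
  have := L.ext (p : ℚ_[p])
  rw [map_natCast] at this
  rw [this, Padic.norm_p]

theorem v_eq_of_close (L : LVal p K) {x y : K} (h : L.v (x - y) < L.v y) : L.v x = L.v y := by
  refine le_antisymm ?_ ?_
  · have h1 := L.add (x - y) y
    rw [sub_add_cancel] at h1
    exact h1.trans (max_le h.le le_rfl)
  · by_contra hlt
    push Not at hlt
    have h1 := v_sub L x (x - y)
    rw [sub_sub_cancel] at h1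
    exact absurd h1 (not_le.2 (max_lt hlt h))

/-- two units which are congruent have the same class modulo squares -/
theorem sq_of_close (L : LVal p K) (hp : p ≠ 2) {x y : K} (hy : L.v y = 1) (h : L.v (x - y) < 1) :
    IsSquare (x * y) := by
  have hy0 : y ≠ 0 := fun h0 => by
    rw [h0, (L.zero_iff 0).2 rfl] at hy
    exact zero_ne_one hy
  have h1 : L.v (x / y - 1) < 1 := by
    have e : x / y - 1 = (x - y) / y := by field_simp
    rw [e, v_div, hy, div_one]
    exact h
  obtain ⟨s, hs⟩ := L.one_unit hp _ h1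
  refine ⟨s * y, ?_⟩
  have e : x * y = (x / y) * (y * y) := by field_simp
  rw [e, hs]
  ring

theorem isSquare_of_mul {F : Type} [Field F] {x y : F} (h : IsSquare (x * y)) (hy : IsSquare y) (hy0 : y ≠ 0) :
    IsSquare x := by
  have e : x = (x * y) / y := by field_simp
  rw [e]
  exact h.div hy

/-- transitivity -/
theorem isSquare_trans {F : Type} [Field F] {x y z : F} (h : IsSquare (x * y)) (h' : IsSquare (y * z)) (hy0 : y ≠ 0) :
    IsSquare (x * z) := by
  have h1 := h.mul h'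
  have e : x * y * (y * z) = (x * z) * (y * y) := by ring
  rw [e] at h1
  exact isSquare_of_mul h1 ⟨y, rfl⟩ (mul_ne_zero hy0 hy0)

theorem isSquare_prod {F : Type} [Field F] {κ : Type} (s : Finset κ) (f : κ → F) (h : ∀ i ∈ s, IsSquare (f i)) :
    IsSquare (∏ i ∈ s, f i) := by
  classical
  induction s using Finset.induction_on with
  | empty => simp
  | insert i s hi ih =>
    rw [Finset.prod_insert hi]
    exact (h i (Finset.mem_insert_self i s)).mul (ih fun j hj => h j (Finset.mem_insert_of_mem hj))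

/-- equal absolute value of norm -/
theorem even_val (L : LVal p K) [FiniteDimensional ℚ_[p] K] {y l : K} (hy : y ≠ 0) (hl : l ≠ 0)
    (h : L.v y = L.v l ^ 2) : Even (Algebra.norm ℚ_[p] y).valuation := by
  have hy' : Algebra.norm ℚ_[p] y ≠ 0 := Algebra.norm_ne_zero_iff.2 hy
  have hl' : Algebra.norm ℚ_[p] l ≠ 0 := Algebra.norm_ne_zero_iff.2 hl
  have h1 : ‖Algebra.norm ℚ_[p] y‖ = ‖Algebra.norm ℚ_[p] l‖ ^ 2 := by
    rw [L.norm, L.norm, h, ← pow_mul, ← pow_mul, mul_comm]
  have hp1 : (1 : ℝ) < p := by exact_mod_cast (Fact.out : p.Prime).one_lt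
  rw [Padic.norm_eq_zpow_neg_valuation hy', Padic.norm_eq_zpow_neg_valuation hl', ← zpow_natCast,
    ← zpow_mul] at h1
  have h2 := zpow_right_injective₀ (zero_lt_one.trans hp1) hp1.ne' h1
  refine ⟨(Algebra.norm ℚ_[p] l).valuation, ?_⟩
  push_cast at h2
  linarith

/-- squares in `K` give squares of norms -/
theorem norm_sq [FiniteDimensional ℚ_[p] K] {y : K} {c : ℤ} (h : IsSquare (y * (c : K))) :
    IsSquare (Algebra.norm ℚ_[p] y * ((c : ℤ) : ℚ_[p]) ^ Module.finrank ℚ_[p] K) := by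
  have := h.map (Algebra.norm ℚ_[p])
  rw [map_mul] at this
  have e : (c : K) = algebraMap ℚ_[p] K (c : ℚ_[p]) := by rw [map_intCast]
  rw [e, Algebra.norm_algebraMap] at this
  exact this

theorem norm_sq_even [FiniteDimensional ℚ_[p] K] {y : K} {c : ℤ} (h : IsSquare (y * (c : K))) (hc : c ≠ 0)
    (hn : Even (Module.finrank ℚ_[p] K)) : IsSquare (Algebra.norm ℚ_[p] y) := by
  refine isSquare_of_mul (norm_sq (p := p) h) (hn.isSquare_pow _) (pow_ne_zero _ ?_)
  exact_mod_cast hc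

theorem norm_sq_odd [FiniteDimensional ℚ_[p] K] {y : K} {c : ℤ} (h : IsSquare (y * (c : K))) (hc : c ≠ 0)
    (hn : Odd (Module.finrank ℚ_[p] K)) : IsSquare (Algebra.norm ℚ_[p] y * (c : ℚ_[p])) := by
  have h1 := norm_sq (p := p) h
  obtain ⟨m, hm⟩ := hn
  have hc' : (c : ℚ_[p]) ≠ 0 := by exact_mod_cast hc
  have e : Algebra.norm ℚ_[p] y * ((c : ℤ) : ℚ_[p]) ^ Module.finrank ℚ_[p] K =
      (Algebra.norm ℚ_[p] y * (c : ℚ_[p])) * (c : ℚ_[p]) ^ (2 * m) := by
    rw [hm, pow_succ]
    ring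
  rw [e] at h1
  exact isSquare_of_mul h1 ((even_two_mul m).isSquare_pow _) (pow_ne_zero _ hc')

end aux

end ZG
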