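import Mathlib

/-! MP_1ad228_nt: zero-cycles of degree one on quadratic twists.  Definitions.

`C_D : D w² = ∏_i (x² - a_i z²)`. -/

namespace ZC

open Finset

/-- The conic `u x² + β y² = z²` has a point over `F`, i.e. the quaternion algebra `(u, β)` over `F` is split
(for `u, β ≠ 0`). -/
def Split (F : Type) [Field F] (u β : F) : Prop :=
  ∃ x y z : F, ¬ (x = 0 ∧ y = 0 ∧ z = 0) ∧ u * x ^ 2 + β * y ^ 2 = z ^ 2

/-- A point of the curve `D w² = ∏ (x² - a_i z²)` with coordinates in a finite extension `K` of `F`. -/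
structure Pt (F : Type) [Field F] {ι : Type} [Fintype ι] (a : ι → ℤ) (D : ℤ) where
  K : Type
  [field : Field K]
  [alg : Algebra F K]
  [fin : FiniteDimensional F K]
  x : K
  z : K
  w : K
  ne : ¬ (x = 0 ∧ z = 0)
  eq : (D : K) * w ^ 2 = ∏ i, (x ^ 2 - (a i : K) * z ^ 2)

attribute [instance] Pt.field Pt.alg Pt.fin

open Classical in
/-- The value at `P` of the function `g_i = x² - a_i z²`, up to squares.  (If `g_i` vanishes at `P` we use
`D ∏_{j ≠ i} g_j`, which is the same function up to squares, since `g_i * (D ∏_{j ≠ i} g_j) = (D w)²` on the curve.) -/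
noncomputable def Pt.val {F : Type} [Field F] {ι : Type} [Fintype ι] {a : ι → ℤ} {D : ℤ}
    (P : Pt F a D) (i : ι) : P.K :=
  if P.x ^ 2 - (a i : P.K) * P.z ^ 2 = 0 then (D : P.K) * ∏ j ∈ univ.erase i, (P.x ^ 2 - (a j : P.K) * P.z ^ 2)
  else P.x ^ 2 - (a i : P.K) * P.z ^ 2

/-- A zero-cycle on `C_D` over `F`: a formal integral combination of points over finite extensions. -/
abbrev Cyc (F : Type) [Field F] {ι : Type} [Fintype ι] (a : ι → ℤ) (D : ℤ) := List (ℤ × Pt F a D)

/-- The degree of a zero-cycle. -/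
noncomputable def Cyc.deg {F : Type} [Field F] {ι : Type} [Fintype ι] {a : ι → ℤ} {D : ℤ}
    (z : Cyc F a D) : ℤ :=
  (z.map fun q => q.1 * (Module.finrank F q.2.K : ℤ)).sum

/-- The value of the function `x² - a_i z²` at a zero-cycle, an element of `F*` modulo squares: for every `β ∈ F*` the value
of the Brauer class `(x² - a_i, β)` at the zero-cycle is the class of the quaternion algebra `(z.cls i, β)`. -/
noncomputable def Cyc.cls {F : Type} [Field F] {ι : Type} [Fintype ι] {a : ι → ℤ} {D : ℤ}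
    (z : Cyc F a D) (i : ι) : F :=
  (z.map fun q => (Algebra.norm F (q.2.val i)) ^ q.1).prod

/-- The primes at which the quaternion algebra `(c_p, β)` is not split. -/
def badPrimes (c : ∀ (p : ℕ) [Fact p.Prime], ℚ_[p]) (β : ℚ) : Set ℕ :=
  {p | ∃ _ : Fact p.Prime, ¬ Split ℚ_[p] (c p) (β : ℚ_[p])}

/-- The sum of the local invariants of `(c_v, β)` over all places is zero: only finitely many are nonzero, and the number
of the nonzero ones (real place included) is even. -/
def SumZero (c : ∀ (p : ℕ) [Fact p.Prime], ℚ_[p]) (c₀ : ℝ) (β : ℚ) : Prop :=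
  (badPrimes c β).Finite ∧ (Even (badPrimes c β).ncard ↔ Split ℝ c₀ (β : ℝ))

/-- There is a family of zero-cycles of degree one, one for each place of `ℚ`, which is orthogonal to all the Brauer
classes `(x² - a_i, β)`, `β ∈ ℚ*`. -/
def Adelic {ι : Type} [Fintype ι] (a : ι → ℤ) (D : ℤ) : Prop :=
  ∃ (z : ∀ (p : ℕ) [Fact p.Prime], Cyc ℚ_[p] a D) (z₀ : Cyc ℝ a D),
    (∀ (p : ℕ) [Fact p.Prime], (z p).deg = 1) ∧ z₀.deg = 1 ∧
    ∀ (i : ι) (β : ℚ), β ≠ 0 → SumZero (fun p _ => (z p).cls i) (z₀.cls i) β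

/-- There is a zero-cycle of degree one over `ℚ`. -/
def Global {ι : Type} [Fintype ι] (a : ι → ℤ) (D : ℤ) : Prop :=
  ∃ z : Cyc ℚ a D, z.deg = 1

/-- The constants of the local classes at the primes dividing `D`. -/
def cc {ι : Type} [Fintype ι] [DecidableEq ι] (a : ι → ℤ) (D : ℤ) (k i : ι) : ℤ :=
  if i = k then D * ∏ l ∈ univ.erase k, (a k - a l) else a k - a i

/-- The product of the bad primes (with multiplicities). -/
def Rb {ι : Type} [Fintype ι] [DecidableEq ι] (a : ι → ℤ) : ℕ :=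
  2 * (∏ i, (a i).natAbs) * ∏ i, ∏ j ∈ univ.erase i, (a i - a j).natAbs

/-- The sets of odd cardinality. -/
abbrev OddSet (ι : Type) := {U : Finset ι // Odd U.card}

/-- The local conditions satisfied by the factorisation `D = g ∏ e_U`. -/
def LocZ {ι : Type} [Fintype ι] [DecidableEq ι] (θ : OddSet ι → ι → ℤ) (a : ι → ℤ) (e : OddSet ι → ℕ) : Prop :=
  ∀ U : OddSet ι, ∀ p : ℕ, p.Prime → p ∣ e U →
    (∀ i, ¬ (p : ℤ) ∣ θ U i) ∧ (∀ k ∈ U.1, jacobiSym (a k) p = 1) ∧
    ∀ S : Finset ι, Even (S ∩ U.1).card →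
      jacobiSym ((∏ i ∈ S, θ U i) * ∏ U' : OddSet ι with Odd (S ∩ U'.1).card, (e U' : ℤ)) p = 1

/-- The coefficients `θ` which occur for `δ_i = s_i ∏_{U ∋ i} e_U`. -/
def theta {ι : Type} [Fintype ι] [DecidableEq ι] (a : ι → ℤ) (s : ι → ℤ) (U : OddSet ι) (i : ι) : ℤ :=
  s i * (∏ k ∈ U.1.erase i, (a k - a i)) * (if i ∈ U.1 then ∏ l ∈ univ.erase i, (a i - a l) else 1)

theorem Pt.val_ne {F : Type} [Field F] [CharZero F] {ι : Type} [Fintype ι] {a : ι → ℤ}
    (ha : Function.Injective a) {D : ℤ} (hD : D ≠ 0) (P : Pt F a D) (i : ι) : P.val i ≠ 0 := by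
  classical
  have : CharZero P.K := charZero_of_injective_algebraMap (algebraMap F P.K).injective
  unfold Pt.val
  split_ifs with h
  · have hz : P.z ≠ 0 := by
      intro hz
      rw [hz] at h
      apply P.ne
      refine ⟨?_, hz⟩
      have : P.x ^ 2 = 0 := by simpa using h
      exact pow_eq_zero_iff (two_ne_zero) |>.1 this
    refine mul_ne_zero (by exact_mod_cast hD) (Finset.prod_ne_zero_iff.2 fun j hj => ?_)
    have hji : j ≠ i := (Finset.mem_erase.1 hj).1
    have e : P.x ^ 2 - (a j : P.K) * P.z ^ 2 = ((a i - a j : ℤ) : P.K) * P.z ^ 2 := by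
      push_cast
      linear_combination h
    rw [e]
    refine mul_ne_zero ?_ (pow_ne_zero 2 hz)
    rw [Int.cast_ne_zero]
    intro h0
    exact hji (ha (by omega))
  · exact h

theorem Cyc.cls_ne {F : Type} [Field F] [CharZero F] {ι : Type} [Fintype ι] {a : ι → ℤ}
    (ha : Function.Injective a) {D : ℤ} (hD : D ≠ 0) (z : Cyc F a D) (i : ι) : z.cls i ≠ 0 := by
  unfold Cyc.cls
  apply List.prod_ne_zero
  intro h
  obtain ⟨q, _, hq⟩ := List.mem_map.1 h
  have : Algebra.norm F (q.2.val i) ≠ 0 := Algebra.norm_ne_zero_iff.2 (q.2.val_ne ha hD i)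
  exact zpow_ne_zero _ this hq

end ZC
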