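import Pool.Agent.Lib.MP_1ad228_nt.ZDefs

/-! JOB ZLin.  Linear algebra over `𝔽_2`: subsets of `ι` as vectors, `|S ∩ U|` mod 2 the scalar product.

Let `r = card ι`, `I` a nonempty set of odd subsets, `W ⊆ 𝔽_2^ι` the span of (the indicator vectors of) `I`, `d = dim W ≥ 1`, `m = d - 1`.
(1) `m + 1 ≤ r`.
(2) For `U ∈ I` and any `A`: the `S` with `|S ∩ U|` even and `{U' ∈ I : |S ∩ U'| odd} = A` are contained in a coset of `W^⊥`, which has `2^(r-d)` elements (nondegeneracy of the standard form: `dim W + dim W^⊥ = r`).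
(3) `|I| ≤ 2^m`: the members of `I` are vectors of `W` on which the linear form `|·|` mod 2 is `1`; this form is not zero on `W`, so `{w ∈ W : |w| odd}` has `2^(d-1)` elements.
(4) If `i` is in some member of `I`: `2 · #{U ∈ I : i ∉ U} ≤ 2^m`.  The linear form `w ↦ w_i` is not zero on `W`.  If it equals `|·|` on `W` then all the odd vectors of `W` contain `i` and the number is `0`.  Otherwise the two distinct nonzero
    forms are independent and `{w ∈ W : |w| = 1, w_i = 0}` has `2^(d-2)` elements.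
(Work in `ι → ZMod 2`, or avoid dimension theory: subgroups of a finite elementary abelian 2-group, `Subgroup.card_mul_index`, Lagrange; `|W| = 2^d` because it is a power of 2, kernels of nonzero forms have index 2;
`|W^⊥| |W| = 2^r`: the map `S ↦ (scalar product with the elements of a basis of W)` is onto.) -/

namespace ZC

open Finset

/-- the indicator vector -/
private def zlinInd {ι : Type} [DecidableEq ι] (S : Finset ι) : ι → ZMod 2 :=
  fun i => if i ∈ S then 1 else 0

private theorem zlinInd_inj {ι : Type} [DecidableEq ι] {S T : Finset ι}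
    (h : zlinInd S = zlinInd T) : S = T := by
  ext i
  have hi := congrFun h i
  unfold zlinInd at hi
  by_cases h1 : i ∈ S <;> by_cases h2 : i ∈ T <;> simp_all

private theorem zlinInd_dot {ι : Type} [Fintype ι] [DecidableEq ι] (S U : Finset ι) :
    dotProduct (zlinInd S) (zlinInd U) = ((S ∩ U).card : ZMod 2) := by
  unfold dotProduct zlinInd
  rw [Finset.card_eq_sum_ones, Nat.cast_sum]
  rw [← Finset.sum_filter_add_sum_filter_not univ (fun i => i ∈ S ∩ U)]
  have h1 : ∑ x ∈ univ with ¬ x ∈ S ∩ U, (if x ∈ S then (1 : ZMod 2) else 0) *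
      (if x ∈ U then 1 else 0) = 0 := by
    refine Finset.sum_eq_zero fun i hi => ?_
    rw [Finset.mem_filter, Finset.mem_inter, not_and_or] at hi
    rcases hi.2 with h | h
    · rw [if_neg h, zero_mul]
    · rw [if_neg h, mul_zero]
  rw [h1, add_zero]
  have h2 : (univ.filter fun x => x ∈ S ∩ U) = S ∩ U := by
    ext i
    simp
  rw [h2]
  refine Finset.sum_congr rfl fun i hi => ?_
  rw [Finset.mem_inter] at hi
  rw [if_pos hi.1, if_pos hi.2]
  simp

private theorem zlin_card {ι : Type} [Fintype ι] [DecidableEq ι]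
    (P : Submodule (ZMod 2) (ι → ZMod 2)) :
    Nat.card P = 2 ^ Module.finrank (ZMod 2) P := by
  rw [Module.natCard_eq_pow_finrank (K := ZMod 2) (V := P), Nat.card_zmod]

/-- a finset which embeds by differences in a submodule -/
private theorem zlin_le {ι : Type} [Fintype ι] [DecidableEq ι] {β : Type} (T : Finset β)
    (v : β → ι → ZMod 2) (hv : Set.InjOn v T) (P : Submodule (ZMod 2) (ι → ZMod 2)) (n : ℕ)
    (hP : Module.finrank (ZMod 2) P ≤ n)
    (h : ∀ S ∈ T, ∀ S' ∈ T, v S - v S' ∈ P) : T.card ≤ 2 ^ n := by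
  rcases T.eq_empty_or_nonempty with h0 | ⟨S₀, hS₀⟩
  · rw [h0]
    simp
  · let φ : T → P := fun S => ⟨v S.1 - v S₀, h S.1 S.2 S₀ hS₀⟩
    have hφ : Function.Injective φ := by
      intro S S' hSS
      have h1 : v S.1 - v S₀ = v S'.1 - v S₀ := congrArg Subtype.val hSS
      have h2 : v S.1 = v S'.1 := sub_left_injective h1
      exact Subtype.ext (hv S.2 S'.2 h2)
    have h3 := Nat.card_le_card_of_injective φ hφ
    rw [zlin_card, Nat.card_eq_fintype_card, Fintype.card_coe] at h3
    exact h3.trans (Nat.pow_le_pow_right (by norm_num) hP)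

theorem lin {ι : Type} [Fintype ι] [DecidableEq ι] (I : Finset (OddSet ι)) (hI : I.Nonempty) :
    ∃ m : ℕ, m + 1 ≤ Fintype.card ι ∧
      (∀ U ∈ I, ∀ A : Finset (OddSet ι),
        ((univ : Finset (Finset ι)).filter fun S => Even (S ∩ U.1).card ∧
          (I.filter fun U' => Odd (S ∩ U'.1).card) = A).card ≤ 2 ^ (Fintype.card ι - 1 - m)) ∧
      I.card ≤ 2 ^ m ∧
      ∀ i : ι, (∃ U ∈ I, i ∈ U.1) → 2 * (I.filter fun U => i ∉ U.1).card ≤ 2 ^ m := by
  classical
  let W : Submodule (ZMod 2) (ι → ZMod 2) :=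
    Submodule.span (ZMod 2) ((fun U : OddSet ι => zlinInd U.1) '' (I : Set (OddSet ι)))
  have hW : ∀ U ∈ I, zlinInd U.1 ∈ W := fun U hU => Submodule.subset_span ⟨U, hU, rfl⟩
  -- the form `|.|`
  let f : (ι → ZMod 2) →ₗ[ZMod 2] ZMod 2 := dotProductEquiv (ZMod 2) ι (fun _ => 1)
  have hf : ∀ v, f v = ∑ i, v i := by
    intro v
    show dotProduct (fun _ => (1 : ZMod 2)) v = _
    simp [dotProduct]
  have hfind : ∀ U : OddSet ι, f (zlinInd U.1) = 1 := by
    intro U
    rw [hf]
    have h1 : ∑ i, zlinInd U.1 i = dotProduct (zlinInd (univ : Finset ι)) (zlinInd U.1) := by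
      unfold dotProduct zlinInd
      simp
    rw [h1, zlinInd_dot, Finset.univ_inter, ZMod.natCast_eq_one_iff_odd]
    exact U.2
  obtain ⟨U₀, hU₀⟩ := hI
  let K' : Submodule (ZMod 2) (ι → ZMod 2) := W ⊓ LinearMap.ker f
  have hK' : K' < W := by
    refine lt_of_le_of_ne inf_le_left ?_
    intro hEq
    have h1 : zlinInd U₀.1 ∈ K' := by rw [hEq]; exact hW U₀ hU₀
    have h2 : f (zlinInd U₀.1) = 0 := (Submodule.mem_inf.1 h1).2
    rw [hfind] at h2
    exact one_ne_zero h2
  have hdK' : Module.finrank (ZMod 2) K' < Module.finrank (ZMod 2) W :=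
    Submodule.finrank_lt_finrank_of_lt hK'
  have hdW : Module.finrank (ZMod 2) W ≤ Fintype.card ι := by
    have := Submodule.finrank_le W
    rwa [Module.finrank_pi] at this
  obtain ⟨m, hm⟩ : ∃ m, Module.finrank (ZMod 2) W = m + 1 :=
    ⟨Module.finrank (ZMod 2) W - 1, by omega⟩
  have hinj : Function.Injective (fun U : OddSet ι => zlinInd U.1) := by
    intro U U' h
    exact Subtype.ext (zlinInd_inj h)
  have hdiff : ∀ U ∈ I, ∀ U' ∈ I, zlinInd U.1 - zlinInd U'.1 ∈ K' := by
    intro U hU U' hU'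
    refine Submodule.mem_inf.2 ⟨W.sub_mem (hW U hU) (hW U' hU'), ?_⟩
    rw [LinearMap.mem_ker, map_sub, hfind, hfind, sub_self]
  refine ⟨m, by omega, ?_, ?_, ?_⟩
  · intro U hU A
    let P : Submodule (ZMod 2) (ι → ZMod 2) :=
      (W.dualAnnihilator).map ((dotProductEquiv (ZMod 2) ι).symm : _ →ₗ[ZMod 2] _)
    have hP : Module.finrank (ZMod 2) P ≤ Fintype.card ι - 1 - m := by
      have h1 : Module.finrank (ZMod 2) P = Module.finrank (ZMod 2) W.dualAnnihilator :=
        LinearEquiv.finrank_map_eq (dotProductEquiv (ZMod 2) ι).symm W.dualAnnihilator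
      have h2 := Subspace.finrank_add_finrank_dualAnnihilator_eq W
      rw [Module.finrank_pi] at h2
      omega
    refine zlin_le _ zlinInd (fun S _ S' _ h => zlinInd_inj h) P _ hP ?_
    intro S hS S' hS'
    rw [Finset.mem_filter] at hS hS'
    have hSS : ∀ U' ∈ I, (Odd (S ∩ U'.1).card ↔ Odd (S' ∩ U'.1).card) := by
      intro U' hU'
      have h1 : U' ∈ (I.filter fun U' => Odd (S ∩ U'.1).card) ↔
          U' ∈ (I.filter fun U' => Odd (S' ∩ U'.1).card) := by
        rw [hS.2.2, hS'.2.2]
      simpa [hU'] using h1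
    refine Submodule.mem_map.2 ⟨dotProductEquiv (ZMod 2) ι (zlinInd S - zlinInd S'), ?_,
      LinearEquiv.symm_apply_apply _ _⟩
    rw [Submodule.mem_dualAnnihilator]
    intro w hw
    show dotProduct (zlinInd S - zlinInd S') w = 0
    induction hw using Submodule.span_induction with
    | mem x hx =>
      obtain ⟨U', hU', rfl⟩ := hx
      show dotProduct (zlinInd S - zlinInd S') (zlinInd U'.1) = 0
      rw [sub_dotProduct, zlinInd_dot, zlinInd_dot]
      have h1 := hSS U' hU'
      by_cases h2 : Odd (S ∩ U'.1).card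
      · rw [ZMod.natCast_eq_one_iff_odd.2 h2, ZMod.natCast_eq_one_iff_odd.2 (h1.1 h2), sub_self]
      · have h3 : ¬ Odd (S' ∩ U'.1).card := fun h => h2 (h1.2 h)
        rw [ZMod.natCast_eq_zero_iff_even.2 (Nat.not_odd_iff_even.1 h2),
          ZMod.natCast_eq_zero_iff_even.2 (Nat.not_odd_iff_even.1 h3), sub_self]
    | zero => exact dotProduct_zero _
    | add x y _ _ hx hy => rw [dotProduct_add, hx, hy, add_zero]
    | smul c x _ hx => rw [dotProduct_smul, hx, smul_zero]
  · exact zlin_le I (fun U : OddSet ι => zlinInd U.1) hinj.injOn K' m (by omega) hdiff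
  · rintro i ⟨U₁, hU₁, hi⟩
    rcases (I.filter fun U => i ∉ U.1).eq_empty_or_nonempty with h0 | ⟨U₂, hU₂⟩
    · rw [h0]
      simp
    · rw [Finset.mem_filter] at hU₂
      let K : Submodule (ZMod 2) (ι → ZMod 2) := K' ⊓ LinearMap.ker (LinearMap.proj i)
      have hK : K < K' := by
        refine lt_of_le_of_ne inf_le_left ?_
        intro hEq
        have h1 : zlinInd U₁.1 - zlinInd U₂.1 ∈ K := by
          rw [hEq]
          exact hdiff U₁ hU₁ U₂ hU₂.1
        have h2 : (zlinInd U₁.1 - zlinInd U₂.1) i = 0 := (Submodule.mem_inf.1 h1).2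
        have h3 : (zlinInd U₁.1 - zlinInd U₂.1) i = 1 := by
          simp [zlinInd, hi, hU₂.2]
        rw [h3] at h2
        exact one_ne_zero h2
      have hdK : Module.finrank (ZMod 2) K < Module.finrank (ZMod 2) K' :=
        Submodule.finrank_lt_finrank_of_lt hK
      obtain ⟨n, rfl⟩ : ∃ n, m = n + 1 := ⟨m - 1, by omega⟩
      have h4 := zlin_le (I.filter fun U => i ∉ U.1) (fun U : OddSet ι => zlinInd U.1)
        hinj.injOn K n (by omega) (by
          intro U hU U' hU'
          rw [Finset.mem_filter] at hU hU'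
          refine Submodule.mem_inf.2 ⟨hdiff U hU.1 U' hU'.1, ?_⟩
          show (zlinInd U.1 - zlinInd U'.1) i = 0
          simp [zlinInd, hU.2, hU'.2])
      rw [pow_succ]
      omega

end ZC
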