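import Pool.Agent.Lib.MP_10e784_ag.QDefs

/-! JOB GTAtyp (short).  Integers whose part supported on a set `S` of primes is small.

Proof.  Write `n = b m`, `b = ∏_{p ∣ n, S p} p ≤ τ`, `m = n / b` squarefree without prime factors in `S`, so `pf (1 - 1_S) m = 1`, and `m ≤ N / b`.  The number of `n` is at most `∑_{b ≤ τ} ∑_{m ≤ N/b, sqfree} pf (1 - 1_S) m ≤ ∑_{b ≤ τ} B (N/b) (log (N/b))^(-η)`
(real division `x = N / b`), and `b ≤ τ ≤ √N` gives `N/b ≥ √N ≥ 4`, `log (N/b) ≥ (log N)/2`, `(log (N/b))^(-η) ≤ 2^η (log N)^(-η) ≤ 2 (log N)^(-η)`.  `∑_{b ≤ τ} 1/b ≤ 1 + log τ` (`harmonic_floor_le_one_add_log`). -/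

namespace ZG

open Finset

open Classical in
private noncomputable def gtatyp_b (S : ℕ → Prop) (n : ℕ) : ℕ := ∏ p ∈ n.primeFactors with S p, p

open Classical in
private noncomputable def gtatyp_m (S : ℕ → Prop) (n : ℕ) : ℕ :=
  ∏ p ∈ n.primeFactors with ¬ S p, p

private theorem gtatyp_mul (S : ℕ → Prop) (n : ℕ) (hn : Squarefree n) :
    gtatyp_b S n * gtatyp_m S n = n := by
  classical
  unfold gtatyp_b gtatyp_m
  rw [Finset.prod_filter_mul_prod_filter_not]
  exact Nat.prod_primeFactors_of_squarefree hn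

open Classical in
private theorem gtatyp_pf (S : ℕ → Prop) (n : ℕ) :
    QT.pf (fun p => if S p then 0 else 1) (gtatyp_m S n) = 1 := by
  unfold QT.pf gtatyp_m
  have h : (∏ p ∈ n.primeFactors with ¬ S p, p).primeFactors =
      n.primeFactors.filter (fun p => ¬ S p) := by
    apply Nat.primeFactors_prod
    intro p hp
    exact Nat.prime_of_mem_primeFactors (Finset.mem_filter.mp hp).1
  rw [h]
  apply Finset.prod_eq_one
  intro p hp
  rw [if_neg (Finset.mem_filter.mp hp).2]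

open Classical in
private theorem gtatyp_fiber (S : ℕ → Prop) (N b : ℕ) (hb : 0 < b) :
    ((((Icc 1 N).filter fun n => Squarefree n ∧ gtatyp_b S n = b).card : ℕ) : ℝ) ≤
      ∑ n ∈ (Icc 1 ⌊(N : ℝ) / b⌋₊).filter Squarefree, QT.pf (fun p => if S p then 0 else 1) n := by
  set T : Finset ℕ := ((Icc 1 N).filter fun n => Squarefree n ∧ gtatyp_b S n = b).image
    (gtatyp_m S) with hT
  have hcard : ((Icc 1 N).filter fun n => Squarefree n ∧ gtatyp_b S n = b).card = T.card := by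
    rw [hT, Finset.card_image_of_injOn]
    intro x hx y hy hxy
    have hx' := (Finset.mem_filter.mp hx).2
    have hy' := (Finset.mem_filter.mp hy).2
    rw [← gtatyp_mul S x hx'.1, ← gtatyp_mul S y hy'.1, hx'.2, hy'.2, hxy]
  rw [hcard]
  have h1 : (T.card : ℝ) = ∑ n ∈ T, QT.pf (fun p => if S p then 0 else 1) n := by
    rw [Finset.card_eq_sum_ones]
    push_cast
    apply Finset.sum_congr rfl
    intro m hm
    obtain ⟨n, _, rfl⟩ := Finset.mem_image.mp hm
    exact (gtatyp_pf S n).symm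
  rw [h1]
  apply Finset.sum_le_sum_of_subset_of_nonneg
  · intro m hm
    obtain ⟨n, hn, rfl⟩ := Finset.mem_image.mp hm
    obtain ⟨hn1, hsq, hnb⟩ := Finset.mem_filter.mp hn
    rw [Finset.mem_Icc] at hn1
    have hmul := gtatyp_mul S n hsq
    have hm0 : gtatyp_m S n ≠ 0 := by
      intro h0
      rw [h0, mul_zero] at hmul
      omega
    rw [Finset.mem_filter, Finset.mem_Icc]
    refine ⟨⟨Nat.one_le_iff_ne_zero.mpr hm0, ?_⟩, ?_⟩
    · apply Nat.le_floor
      rw [le_div_iff₀ (by exact_mod_cast hb)]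
      rw [hnb] at hmul
      have : gtatyp_m S n * b ≤ N := by
        rw [mul_comm, hmul]
        exact hn1.2
      exact_mod_cast this
    · exact hsq.squarefree_of_dvd (Dvd.intro_left _ hmul)
  · intro m _ _
    unfold QT.pf
    apply Finset.prod_nonneg
    intro p _
    split_ifs <;> norm_num

open Classical in
theorem atyp (S : ℕ → Prop) (B η : ℝ) (hB : 0 < B) (hη0 : 0 ≤ η) (hη1 : η ≤ 1)
    (h : ∀ x : ℝ, 2 ≤ x → ∑ n ∈ (Icc 1 ⌊x⌋₊).filter Squarefree, QT.pf (fun p => if S p then 0 else 1) n ≤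
      B * x * Real.log x ^ (-η)) (N : ℕ) (τ : ℝ) (hN : 16 ≤ N) (hτ : 1 ≤ τ) (hτN : τ ^ 2 ≤ N) :
    (((Icc 1 N).filter fun n => Squarefree n ∧ ((∏ p ∈ n.primeFactors with S p, p : ℕ) : ℝ) ≤ τ).card : ℝ) ≤
      2 * B * N * (1 + Real.log τ) * Real.log N ^ (-η) := by
  have hNr : (16 : ℝ) ≤ N := by exact_mod_cast hN
  have hlogN : 0 < Real.log N := Real.log_pos (by linarith)
  set A : Finset ℕ := (Icc 1 N).filter fun n => Squarefree n ∧
    ((∏ p ∈ n.primeFactors with S p, p : ℕ) : ℝ) ≤ τ with hA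
  have hmaps : Set.MapsTo (gtatyp_b S) (A : Set ℕ) (Icc 1 ⌊τ⌋₊ : Finset ℕ) := by
    intro n hn
    obtain ⟨hn1, hsq, hnb⟩ := Finset.mem_filter.mp (Finset.mem_coe.mp hn)
    rw [Finset.mem_coe, Finset.mem_Icc]
    constructor
    · have hmul := gtatyp_mul S n hsq
      rw [Finset.mem_Icc] at hn1
      rw [Nat.one_le_iff_ne_zero]
      intro h0
      rw [h0, zero_mul] at hmul
      omega
    · exact Nat.le_floor hnb
  have hcard := Finset.card_eq_sum_card_fiberwise hmaps
  rw [hcard]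
  push_cast
  have hfib : ∀ b ∈ Icc 1 ⌊τ⌋₊, (((A.filter fun n => gtatyp_b S n = b).card : ℕ) : ℝ) ≤
      2 * B * N * Real.log N ^ (-η) * (b : ℝ)⁻¹ := by
    intro b hb
    rw [Finset.mem_Icc] at hb
    have hb0 : (0 : ℝ) < b := by
      have : 0 < b := hb.1
      exact_mod_cast this
    have hbτ : (b : ℝ) ≤ τ := (Nat.le_floor_iff (by linarith)).mp hb.2
    have h1 : (A.filter fun n => gtatyp_b S n = b) ⊆
        (Icc 1 N).filter fun n => Squarefree n ∧ gtatyp_b S n = b := by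
      intro n hn
      obtain ⟨hn1, hn2⟩ := Finset.mem_filter.mp hn
      obtain ⟨hn3, hn4, _⟩ := Finset.mem_filter.mp hn1
      exact Finset.mem_filter.mpr ⟨hn3, hn4, hn2⟩
    have h2 : (((A.filter fun n => gtatyp_b S n = b).card : ℕ) : ℝ) ≤
        ((((Icc 1 N).filter fun n => Squarefree n ∧ gtatyp_b S n = b).card : ℕ) : ℝ) := by
      exact_mod_cast Finset.card_le_card h1
    refine h2.trans ((gtatyp_fiber S N b hb.1).trans ?_)
    -- x = N / b
    have hsqrt : Real.sqrt N ≤ (N : ℝ) / b := by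
      rw [le_div_iff₀ hb0]
      have h3 : (b : ℝ) ≤ Real.sqrt N := by
        refine hbτ.trans ?_
        exact Real.le_sqrt_of_sq_le hτN
      calc Real.sqrt N * b ≤ Real.sqrt N * Real.sqrt N := by gcongr
        _ = N := Real.mul_self_sqrt (by linarith)
    have h4 : (4 : ℝ) ≤ Real.sqrt N := by
      apply Real.le_sqrt_of_sq_le
      linarith
    have hx2 : (2 : ℝ) ≤ (N : ℝ) / b := by linarith
    refine (h _ hx2).trans ?_
    have hlog : Real.log N / 2 ≤ Real.log ((N : ℝ) / b) := by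
      rw [← Real.log_sqrt (by linarith)]
      exact Real.log_le_log (by linarith) hsqrt
    have h5 : Real.log ((N : ℝ) / b) ^ (-η) ≤ 2 * Real.log N ^ (-η) := by
      calc Real.log ((N : ℝ) / b) ^ (-η) ≤ (Real.log N / 2) ^ (-η) :=
            Real.rpow_le_rpow_of_nonpos (by linarith) hlog (by linarith)
        _ = Real.log N ^ (-η) * 2 ^ η := by
            rw [Real.div_rpow hlogN.le (by norm_num), Real.rpow_neg (by norm_num : (0:ℝ) ≤ 2) η,
              div_inv_eq_mul]
        _ ≤ Real.log N ^ (-η) * 2 := by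
            apply mul_le_mul_of_nonneg_left _ (Real.rpow_nonneg hlogN.le _)
            calc (2 : ℝ) ^ η ≤ 2 ^ (1 : ℝ) :=
                  Real.rpow_le_rpow_of_exponent_le (by norm_num) hη1
              _ = 2 := Real.rpow_one _
        _ = 2 * Real.log N ^ (-η) := mul_comm _ _
    calc B * ((N : ℝ) / b) * Real.log ((N : ℝ) / b) ^ (-η)
        ≤ B * ((N : ℝ) / b) * (2 * Real.log N ^ (-η)) := by
          apply mul_le_mul_of_nonneg_left h5
          positivity
      _ = 2 * B * N * Real.log N ^ (-η) * (b : ℝ)⁻¹ := by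
          rw [div_eq_mul_inv]; ring
  refine (Finset.sum_le_sum hfib).trans ?_
  rw [← Finset.mul_sum]
  have hharm : ∑ b ∈ Icc 1 ⌊τ⌋₊, ((b : ℕ) : ℝ)⁻¹ ≤ 1 + Real.log τ := by
    have := harmonic_floor_le_one_add_log τ hτ
    rw [harmonic_eq_sum_Icc] at this
    push_cast at this
    exact this
  have hc0 : 0 ≤ 2 * B * N * Real.log N ^ (-η) := by
    have := Real.rpow_nonneg hlogN.le (-η)
    positivity
  calc 2 * B * N * Real.log N ^ (-η) * ∑ b ∈ Icc 1 ⌊τ⌋₊, ((b : ℕ) : ℝ)⁻¹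
      ≤ 2 * B * N * Real.log N ^ (-η) * (1 + Real.log τ) := mul_le_mul_of_nonneg_left hharm hc0
    _ = 2 * B * N * (1 + Real.log τ) * Real.log N ^ (-η) := by ring

end ZG
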