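import Pool.Agent.Lib.MP_10e784_ag.QCharB
import Pool.Agent.Lib.MP_10e784_ag.QJac

/-! JOB GTChi.  A lower bound for the real Dirichlet series of `chi b`, `b` not a square (`L(1, χ) ≠ 0`).

Proof.  Let `q = 4 * b.natAbs ≠ 0`.  Define a Dirichlet character `ψ : DirichletCharacter ℂ q` with `ψ (n : ZMod q) = (QT.chi b n : ℂ)` for all natural numbers `n`: the function `n ↦ QT.chi b n` is multiplicative (`QT.chi_mul`), is `q`-periodic
(`jacobiSym.mod_right`, see the private lemma `QCharSum_periodic` in `QCharSum.lean`; the parity of `n` is that of `n % q`), vanishes if `gcd(n, q) ≠ 1` (`n` even, or `jacobiSym.eq_zero_iff`), and is `1` at `1`.  (For instance take the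
`MulChar` with `toFun a = (QT.chi b a.val : ℂ)` and prove `map_nonunit'` by `ZMod.isUnit_iff_coprime` / `ZMod.val_coe_unit_coprime`.)  `ψ ≠ 1` because `QT.exists_jacobi_neg_one` gives an odd `n` with `jacobiSym b n = -1` (look at its exact
statement in `QJac.lean`).  For `σ > 1`: `DirichletCharacter.LFunction ψ σ = LSeries ψ σ = ∑' n, chi b n * n^(-σ)` (`DirichletCharacter.LFunction_eq_LSeries`, `LSeries`, `LSeries.term`, cast of a real `tsum`: `Complex.ofReal_tsum`).
The function `σ ↦ ‖LFunction ψ σ‖` is continuous on `[1, 2]` (`DirichletCharacter.differentiable_LFunction`) and nowhere zero there (`DirichletCharacter.LFunction_ne_zero_of_one_le_re`), so by compactness it is `≥ c > 0`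
(`IsCompact.exists_isMinOn`).  The real series is positive for `σ > 1` (hypothesis `hpos`), so it equals its absolute value, which is `≥ c`. -/

namespace ZG

open Finset

private theorem gtchi_periodic (b : ℤ) (n : ℕ) :
    QT.chi b (4 * b.natAbs + n) = QT.chi b n := by
  unfold QT.chi
  have hodd : Odd (4 * b.natAbs + n) ↔ Odd n := by
    rw [Nat.odd_iff, Nat.odd_iff]
    omega
  by_cases hn : Odd n
  · rw [if_pos (hodd.mpr hn), if_pos hn]
    rw [jacobiSym.mod_right b (hodd.mpr hn), jacobiSym.mod_right b hn]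
    congr 2
    exact Nat.add_mod_left _ _
  · rw [if_neg (fun h => hn (hodd.mp h)), if_neg hn]

private theorem gtchi_mul_periodic (b : ℤ) (k n : ℕ) :
    QT.chi b (4 * b.natAbs * k + n) = QT.chi b n := by
  induction k with
  | zero => simp
  | succ k ih =>
    have : 4 * b.natAbs * (k + 1) + n = 4 * b.natAbs + (4 * b.natAbs * k + n) := by ring
    rw [this, gtchi_periodic, ih]

private theorem gtchi_mod (b : ℤ) (n : ℕ) :
    QT.chi b (n % (4 * b.natAbs)) = QT.chi b n := by
  conv_rhs => rw [← Nat.div_add_mod n (4 * b.natAbs)]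
  rw [gtchi_mul_periodic]

private theorem gtchi_one (b : ℤ) : QT.chi b 1 = 1 := by simp [QT.chi]

private theorem gtchi_coprime (b : ℤ) (n : ℕ) (h : QT.chi b n ≠ 0) :
    Nat.Coprime n (4 * b.natAbs) := by
  unfold QT.chi at h
  by_cases hn : Odd n
  · rw [if_pos hn] at h
    have hj : jacobiSym b n ≠ 0 := by
      intro h0
      exact h (by rw [h0]; simp)
    have hn0 : n ≠ 0 := by rintro rfl; simp at hn
    have : NeZero n := ⟨hn0⟩
    have hg : b.gcd n = 1 := by
      by_contra hg
      exact hj (jacobiSym.eq_zero_iff_not_coprime.mpr hg)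
    have h1 : Nat.Coprime n b.natAbs := by
      have h2 : Nat.gcd b.natAbs n = 1 := by
        simpa [Int.gcd] using hg
      exact (Nat.coprime_comm).mp h2
    have h2 : Nat.Coprime n 4 := by
      have h3 : Nat.Coprime n 2 := by
        rw [Nat.coprime_comm, Nat.Prime.coprime_iff_not_dvd Nat.prime_two]
        rw [Nat.odd_iff] at hn
        omega
      have := Nat.Coprime.pow_right 2 h3
      simpa using this
    exact Nat.Coprime.mul_right h2 h1
  · rw [if_neg hn] at h
    exact absurd rfl h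

private noncomputable def gtchi_psi (b : ℤ) [NeZero (4 * b.natAbs)] :
    DirichletCharacter ℂ (4 * b.natAbs) where
  toFun a := ((QT.chi b a.val : ℝ) : ℂ)
  map_one' := by
    rw [ZMod.val_one_eq_one_mod, gtchi_mod, gtchi_one]
    simp
  map_mul' x y := by
    rw [ZMod.val_mul, gtchi_mod, QT.chi_mul]
    push_cast
    rfl
  map_nonunit' a ha := by
    by_contra h
    have h1 : QT.chi b a.val ≠ 0 := by
      intro h0
      exact h (by simp [h0])
    have h2 := gtchi_coprime b _ h1
    rw [← ZMod.isUnit_iff_coprime, ZMod.natCast_zmod_val] at h2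
    exact ha h2

private theorem gtchi_psi_apply (b : ℤ) [NeZero (4 * b.natAbs)] (n : ℕ) :
    gtchi_psi b (n : ZMod (4 * b.natAbs)) = ((QT.chi b n : ℝ) : ℂ) := by
  change ((QT.chi b (n : ZMod (4 * b.natAbs)).val : ℝ) : ℂ) = _
  rw [ZMod.val_natCast, gtchi_mod]

private theorem gtchi_psi_ne (b : ℤ) (hb : ¬ IsSquare b) [NeZero (4 * b.natAbs)] :
    gtchi_psi b ≠ 1 := by
  intro h
  obtain ⟨n, hn, hj⟩ := QT.exists_jacobi_neg_one b hb
  have h1 := gtchi_psi_apply b n
  have h2 : QT.chi b n = -1 := by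
    unfold QT.chi
    rw [if_pos hn, hj]
    simp
  rw [h2, h] at h1
  have h3 : Nat.Coprime n (4 * b.natAbs) := gtchi_coprime b n (by rw [h2]; norm_num)
  rw [← ZMod.isUnit_iff_coprime] at h3
  rw [MulChar.one_apply h3] at h1
  norm_num at h1

private theorem gtchi_L (b : ℤ) [NeZero (4 * b.natAbs)] (σ : ℝ) (hσ : 1 < σ) :
    DirichletCharacter.LFunction (gtchi_psi b) (σ : ℂ) =
      ((∑' n : ℕ, QT.chi b n * (n : ℝ) ^ (-σ) : ℝ) : ℂ) := by
  rw [DirichletCharacter.LFunction_eq_LSeries _ (by simpa using hσ), LSeries, Complex.ofReal_tsum]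
  apply tsum_congr
  intro n
  rw [LSeries.term]
  by_cases hn : n = 0
  · subst hn
    simp [QT.chi]
  · rw [if_neg hn, gtchi_psi_apply, div_eq_mul_inv]
    push_cast
    congr 1
    rw [Complex.ofReal_cpow (by positivity)]
    push_cast
    rw [Complex.cpow_neg]

theorem chi_lower (b : ℤ) (hb : ¬ IsSquare b)
    (hpos : ∀ σ : ℝ, 1 < σ → 0 < ∑' n : ℕ, QT.chi b n * (n : ℝ) ^ (-σ)) :
    ∃ c : ℝ, 0 < c ∧ ∀ σ : ℝ, 1 < σ → σ ≤ 2 → c ≤ ∑' n : ℕ, QT.chi b n * (n : ℝ) ^ (-σ) := by
  have hb0 : b ≠ 0 := by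
    rintro rfl
    exact hb ⟨0, by simp⟩
  have hq : NeZero (4 * b.natAbs) := ⟨by
    have := Int.natAbs_pos.mpr hb0
    omega⟩
  have hψ := gtchi_psi_ne b hb
  have hcont : Continuous fun σ : ℝ =>
      ‖DirichletCharacter.LFunction (gtchi_psi b) (σ : ℂ)‖ :=
    ((DirichletCharacter.differentiable_LFunction hψ).continuous.comp
      Complex.continuous_ofReal).norm
  obtain ⟨σ0, hσ0, hmin⟩ := (isCompact_Icc (a := (1 : ℝ)) (b := 2)).exists_isMinOn
    ⟨1, by constructor <;> norm_num⟩ hcont.continuousOn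
  refine ⟨‖DirichletCharacter.LFunction (gtchi_psi b) (σ0 : ℂ)‖, ?_, ?_⟩
  · rw [norm_pos_iff]
    exact DirichletCharacter.LFunction_ne_zero_of_one_le_re _ (Or.inl hψ) (by simpa using hσ0.1)
  · intro σ h1 h2
    have h3 := hmin (show σ ∈ Set.Icc (1 : ℝ) 2 from ⟨h1.le, h2⟩)
    simp only at h3
    have h4 : ‖DirichletCharacter.LFunction (gtchi_psi b) (σ : ℂ)‖ =
        ∑' n : ℕ, QT.chi b n * (n : ℝ) ^ (-σ) := by
      rw [gtchi_L b σ h1, Complex.norm_real, Real.norm_eq_abs, abs_of_pos (hpos σ h1)]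
    rw [← h4]
    exact h3

end ZG
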