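import Pool.Agent.Lib.MP_1ad228_nt.GTUbA
import Pool.Agent.Lib.MP_1ad228_nt.GTHall

/-! JOB GTUb.  Upper bounds for sums of multiplicative functions whose values at primes are bounded by combinations of quadratic characters.

WLOG `M ≥ 1`.  `L = log x > 0`; first assume `x ≥ 3` so that `L ≥ 1`, and put `σ = 1 + 1/L ∈ (1, 2]`.  By `hall`: `S L ≤ 3 M x ∑_{n ≤ x} pf F n / n` and `n^(σ-1) ≤ e` for `n ≤ x` (see `QUB.lean`), so
`∑ pf F n / n ≤ e ∑ pf F n n^(-σ) ≤ e ∏_{p ≤ x} (1 + F p p^(-σ)) ≤ e exp (∑_{p ≤ x} F p p^(-σ))` (the second step: private lemma `QEuler_sum_le_prod` in `QEuler.lean`, copy it).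
`F p ≤ c + ∑ γ_j chi (b_j) p + (if p ∣ R then M + ∑ |γ_j| else 0)` for every prime (`c ≥ 0`), so with `F ≥ 0` and `summable_primes`: `∑_{p ≤ x} F p p^(-σ) ≤ ∑'_p F p p^(-σ) ≤ c ∑' p^(-σ) + ∑_j γ_j ∑'_p chi (b_j) p p^(-σ) + (M + ∑ |γ_j|) * R`
(at most `R` primes divide `R ≠ 0`, `p^(-σ) ≤ 1`) `≤ c log (1/(σ-1)) + C' = c log L + C'` by `prime_sum_le` and `chi_sum` (choose the constants of `chi_sum` for every `j` first).  So `S L ≤ 3 M x e e^{C'} L^c`, `S ≤ B x L^(c-1)`.
For `2 ≤ x < 3`: `S` is at most `pf F 1 + pf F 2 ≤ 1 + M`, and `x * L^(c-1) ≥ L^(c-1) = exp ((c-1) log L) ≥ exp (-|c-1|)` because `|log L| ≤ 1` (`log 2 ≥ 0.69 ≥ exp (-1)`, `log 3 ≤ 1.1 ≤ e`). -/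

namespace ZG

open Finset

/-- the sum over squarefree numbers is bounded by the finite product -/
private lemma gtUb_sum_le_prod (w : ℕ → ℝ) (hw : ∀ p, p.Prime → 0 ≤ w p) (σ : ℝ) (M P : ℕ) (hP : M < P) :
    ∑ n ∈ (Icc 1 M).filter Squarefree, QT.pf w n * (n : ℝ) ^ (-σ) ≤
      ∏ p ∈ P.primesBelow, (1 + w p * (p : ℝ) ^ (-σ)) := by
  classical
  rw [Finset.prod_one_add]
  have hterm : ∀ n ∈ (Icc 1 M).filter Squarefree, QT.pf w n * (n : ℝ) ^ (-σ) =
      ∏ p ∈ n.primeFactors, (w p * (p : ℝ) ^ (-σ)) := by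
    intro n hn
    have hsq : Squarefree n := (Finset.mem_filter.mp hn).2
    have hprod : ∏ p ∈ n.primeFactors, p = n := Nat.prod_primeFactors_of_squarefree hsq
    rw [Finset.prod_mul_distrib]
    unfold QT.pf
    congr 1
    conv_lhs => rw [← hprod]
    push_cast
    rw [Real.finsetProd_rpow _ _ (fun i _ => by positivity)]
  rw [Finset.sum_congr rfl hterm]
  have hinj : Set.InjOn Nat.primeFactors ((Icc 1 M).filter Squarefree : Finset ℕ) := by
    intro a ha b hb hab
    have h1 : Squarefree a := (Finset.mem_filter.mp ha).2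
    have h2 : Squarefree b := (Finset.mem_filter.mp hb).2
    rw [← Nat.prod_primeFactors_of_squarefree h1, ← Nat.prod_primeFactors_of_squarefree h2, hab]
  rw [← Finset.sum_image (f := fun s : Finset ℕ => ∏ p ∈ s, (w p * (p : ℝ) ^ (-σ))) hinj]
  apply Finset.sum_le_sum_of_subset_of_nonneg
  · intro s hs
    obtain ⟨n, hn, rfl⟩ := Finset.mem_image.mp hs
    rw [Finset.mem_powerset]
    intro p hp
    rw [Nat.mem_primesBelow]
    have hn' := (Finset.mem_filter.mp hn).1
    rw [Finset.mem_Icc] at hn'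
    have := Nat.le_of_mem_primeFactors hp
    exact ⟨by omega, Nat.prime_of_mem_primeFactors hp⟩
  · intro s hs _
    apply Finset.prod_nonneg
    intro p hp
    have hpp : p.Prime := by
      have := (Finset.mem_powerset.mp hs) hp
      exact (Nat.mem_primesBelow.mp this).2
    exact mul_nonneg (hw p hpp) (by positivity)

private lemma gtUb_fin (T : Finset ℕ) :
    ∃ s : Finset Nat.Primes, (∀ p : Nat.Primes, p ∈ s ↔ (p : ℕ) ∈ T) ∧ s.card ≤ T.card := by
  refine ⟨(T.subtype Nat.Prime : Finset {p // Nat.Prime p}), fun p => Finset.mem_subtype, ?_⟩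
  exact (Finset.card_subtype Nat.Prime T).le.trans (Finset.card_filter_le _ _)

/-- the sum over the primes -/
private lemma gtUb_primes {κ : Type} [Fintype κ] (F : ℕ → ℝ) (M c : ℝ) (γ : κ → ℝ) (b : κ → ℤ) (R : ℕ)
    (hR : R ≠ 0) (hc : 0 ≤ c) (hM : 0 ≤ M) (hF0 : ∀ p, p.Prime → 0 ≤ F p) (hFM : ∀ p, p.Prime → F p ≤ M)
    (hF : ∀ p, p.Prime → ¬ p ∣ R → F p ≤ c + ∑ j, γ j * QT.chi (b j) p) (C : κ → ℝ)
    (hC : ∀ j, ∀ σ : ℝ, 1 < σ → σ ≤ 2 → |∑' p : Nat.Primes, QT.chi (b j) p * ((p : ℕ) : ℝ) ^ (-σ)| ≤ C j)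
    (σ : ℝ) (hσ : 1 < σ) (hσ2 : σ ≤ 2) (P : ℕ) :
    ∑ p ∈ P.primesBelow, F p * (p : ℝ) ^ (-σ) ≤
      c * (Real.log (1 / (σ - 1)) + 3) + ∑ j, |γ j| * C j + (M + ∑ j, |γ j|) * R := by
  classical
  set G : ℝ := ∑ j, |γ j| with hG
  have hG0 : 0 ≤ G := Finset.sum_nonneg fun j _ => abs_nonneg _
  set K : ℕ → ℝ := fun p => if p ∣ R then M + G else 0 with hK
  have hK0 : ∀ p, 0 ≤ K p := by
    intro p
    rw [hK]
    dsimp only
    split_ifs
    · linarith
    · exact le_rfl
  -- the majorant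
  set H : ℕ → ℝ := fun p => (c + ∑ j, γ j * QT.chi (b j) p) + K p with hH
  have hFH : ∀ p, p.Prime → F p ≤ H p := by
    intro p hp
    by_cases hpR : p ∣ R
    · have h1 : -G ≤ ∑ j, γ j * QT.chi (b j) p := by
        rw [hG, ← Finset.sum_neg_distrib]
        apply Finset.sum_le_sum
        intro j _
        have h2 : |γ j * QT.chi (b j) p| ≤ |γ j| := by
          rw [abs_mul]
          exact mul_le_of_le_one_right (abs_nonneg _) (QT.abs_chi_le (b j) p)
        linarith [neg_abs_le (γ j * QT.chi (b j) p)]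
      have h3 : K p = M + G := by rw [hK]; simp only; rw [if_pos hpR]
      have h4 := hFM p hp
      simp only [hH]
      rw [h3]
      linarith
    · have h1 := hF p hp hpR
      have h3 := hK0 p
      simp only [hH]
      linarith
  have hH0 : ∀ p, p.Prime → 0 ≤ H p := fun p hp => (hF0 p hp).trans (hFH p hp)
  have hs1 : Summable fun p : Nat.Primes => ((p : ℕ) : ℝ) ^ (-σ) := by
    have := summable_primes (fun _ => 1) (by intro n; simp) σ hσ
    simpa using this
  have hsj : ∀ j, Summable fun p : Nat.Primes => QT.chi (b j) p * ((p : ℕ) : ℝ) ^ (-σ) := fun j =>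
    summable_primes (QT.chi (b j)) (QT.abs_chi_le (b j)) σ hσ
  obtain ⟨s, hsm, hsc⟩ := gtUb_fin R.primeFactors
  have hKs : ∀ p : Nat.Primes, p ∉ s → K p * ((p : ℕ) : ℝ) ^ (-σ) = 0 := by
    intro p hp
    have : ¬ (p : ℕ) ∣ R := by
      intro h
      apply hp
      rw [hsm]
      exact Nat.mem_primeFactors.2 ⟨p.2, h, hR⟩
    rw [hK]
    simp only
    rw [if_neg this, zero_mul]
  have hsK : Summable fun p : Nat.Primes => K p * ((p : ℕ) : ℝ) ^ (-σ) :=
    summable_of_ne_finset_zero (s := s) (fun p hp => hKs p hp)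
  have hsS : Summable fun p : Nat.Primes => ∑ j, γ j * (QT.chi (b j) p * ((p : ℕ) : ℝ) ^ (-σ)) :=
    summable_sum fun j _ => (hsj j).mul_left _
  have hHeq : ∀ p : Nat.Primes, H p * ((p : ℕ) : ℝ) ^ (-σ) =
      (c * ((p : ℕ) : ℝ) ^ (-σ) + ∑ j, γ j * (QT.chi (b j) p * ((p : ℕ) : ℝ) ^ (-σ))) +
        K p * ((p : ℕ) : ℝ) ^ (-σ) := by
    intro p
    simp only [hH]
    rw [add_mul, add_mul, Finset.sum_mul]
    congr 2
    apply Finset.sum_congr rfl
    intro j _
    ring
  have hsH : Summable fun p : Nat.Primes => H p * ((p : ℕ) : ℝ) ^ (-σ) := by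
    simp_rw [hHeq]
    exact ((hs1.mul_left c).add hsS).add hsK
  have htK : ∑' p : Nat.Primes, K p * ((p : ℕ) : ℝ) ^ (-σ) ≤ (M + G) * R := by
    rw [tsum_eq_sum (s := s) (fun p hp => hKs p hp)]
    have h1 : ∀ p ∈ s, K p * ((p : ℕ) : ℝ) ^ (-σ) ≤ M + G := by
      intro p _
      have hp1 : (1 : ℝ) ≤ ((p : ℕ) : ℝ) := by exact_mod_cast p.2.one_lt.le
      have h2 : ((p : ℕ) : ℝ) ^ (-σ) ≤ 1 :=
        Real.rpow_le_one_of_one_le_of_nonpos hp1 (by linarith)
      have h3 : K p ≤ M + G := by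
        rw [hK]; simp only
        split_ifs
        · exact le_rfl
        · linarith
      calc K p * ((p : ℕ) : ℝ) ^ (-σ) ≤ K p * 1 :=
            mul_le_mul_of_nonneg_left h2 (hK0 _)
        _ ≤ M + G := by rw [mul_one]; exact h3
    refine (Finset.sum_le_sum h1).trans ?_
    rw [Finset.sum_const, nsmul_eq_mul, mul_comm]
    apply mul_le_mul_of_nonneg_left _ (by linarith)
    have h4 : s.card ≤ R := by
      have h5 : s.card ≤ R.primeFactors.card := hsc
      have h6 : R.primeFactors.card ≤ R := by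
        have h7 : R.primeFactors ⊆ Finset.Icc 1 R := by
          intro q hq
          rw [Finset.mem_Icc]
          exact ⟨(Nat.prime_of_mem_primeFactors hq).one_lt.le, Nat.le_of_mem_primeFactors hq⟩
        have h8 := Finset.card_le_card h7
        rw [Nat.card_Icc] at h8
        omega
      omega
    exact_mod_cast h4
  have htS : ∑' p : Nat.Primes, ∑ j, γ j * (QT.chi (b j) p * ((p : ℕ) : ℝ) ^ (-σ)) ≤
      ∑ j, |γ j| * C j := by
    rw [Summable.tsum_finsetSum (fun j _ => (hsj j).mul_left _)]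
    apply Finset.sum_le_sum
    intro j _
    rw [tsum_mul_left]
    calc γ j * ∑' p : Nat.Primes, QT.chi (b j) p * ((p : ℕ) : ℝ) ^ (-σ)
        ≤ |γ j * ∑' p : Nat.Primes, QT.chi (b j) p * ((p : ℕ) : ℝ) ^ (-σ)| := le_abs_self _
      _ = |γ j| * |∑' p : Nat.Primes, QT.chi (b j) p * ((p : ℕ) : ℝ) ^ (-σ)| := abs_mul _ _
      _ ≤ |γ j| * C j := mul_le_mul_of_nonneg_left (hC j σ hσ hσ2) (abs_nonneg _)
  have htH : ∑' p : Nat.Primes, H p * ((p : ℕ) : ℝ) ^ (-σ) ≤
      c * (Real.log (1 / (σ - 1)) + 3) + ∑ j, |γ j| * C j + (M + G) * R := by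
    simp_rw [hHeq]
    rw [((hs1.mul_left c).add hsS).tsum_add hsK, (hs1.mul_left c).tsum_add hsS, tsum_mul_left]
    have := mul_le_mul_of_nonneg_left (prime_sum_le σ hσ hσ2) hc
    linarith
  refine le_trans ?_ htH
  -- the partial sum
  have hpart : ∑ p ∈ P.primesBelow, F p * (p : ℝ) ^ (-σ) ≤
      ∑ p ∈ P.primesBelow.subtype Nat.Prime, H p * ((p : ℕ) : ℝ) ^ (-σ) := by
    rw [Finset.sum_subtype_eq_sum_filter (s := P.primesBelow) (p := Nat.Prime)
      (fun p : ℕ => H p * (p : ℝ) ^ (-σ))]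
    rw [Finset.filter_true_of_mem (fun p hp => (Nat.mem_primesBelow.1 hp).2)]
    apply Finset.sum_le_sum
    intro p hp
    exact mul_le_mul_of_nonneg_right (hFH p (Nat.mem_primesBelow.1 hp).2) (by positivity)
  refine hpart.trans ?_
  apply hsH.sum_le_tsum
  intro p _
  exact mul_nonneg (hH0 p p.2) (by positivity)

theorem ubG {κ : Type} [Fintype κ] (F : ℕ → ℝ) (M c : ℝ) (γ : κ → ℝ) (b : κ → ℤ) (hb : ∀ j, ¬ IsSquare (b j)) (R : ℕ)
    (hR : R ≠ 0) (hc : 0 ≤ c) (hF0 : ∀ p, p.Prime → 0 ≤ F p) (hFM : ∀ p, p.Prime → F p ≤ M)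
    (hF : ∀ p, p.Prime → ¬ p ∣ R → F p ≤ c + ∑ j, γ j * QT.chi (b j) p) :
    ∃ B : ℝ, 0 < B ∧ ∀ x : ℝ, 2 ≤ x →
      ∑ n ∈ (Icc 1 ⌊x⌋₊).filter Squarefree, QT.pf F n ≤ B * x * Real.log x ^ (c - 1) := by
  classical
  choose C hC using fun j => chi_sum (b j) (hb j)
  set M' : ℝ := max M 1 with hM'
  have hM1 : 1 ≤ M' := le_max_right _ _
  have hFM' : ∀ p, p.Prime → F p ≤ M' := fun p hp => (hFM p hp).trans (le_max_left _ _)
  set C' : ℝ := c * 3 + ∑ j, |γ j| * C j + (M' + ∑ j, |γ j|) * R with hC'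
  have hpf : ∀ n, 0 ≤ QT.pf F n := by
    intro n
    unfold QT.pf
    exact Finset.prod_nonneg fun p hp => hF0 p (Nat.prime_of_mem_primeFactors hp)
  have hB1 : 0 < 3 * M' * Real.exp 1 * Real.exp C' := by positivity
  have hB2 : 0 < (1 + M') * Real.exp |c - 1| := by positivity
  refine ⟨3 * M' * Real.exp 1 * Real.exp C' + (1 + M') * Real.exp |c - 1|, by positivity, ?_⟩
  intro x hx
  have hx0 : 0 < x := by linarith
  have hL : 0 < Real.log x := Real.log_pos (by linarith)
  have hLc : 0 < Real.log x ^ (c - 1) := Real.rpow_pos_of_pos hL _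
  by_cases hx3 : 3 ≤ x
  · have hL1 : 1 ≤ Real.log x := by
      rw [Real.le_log_iff_exp_le hx0]
      have := Real.exp_one_lt_d9
      linarith
    have h1 := hall F M' hM1 (fun p hp => ⟨hF0 p hp, hFM' p hp⟩) x (by linarith)
    have hσ : 1 < 1 + 1 / Real.log x := by
      have : 0 < 1 / Real.log x := one_div_pos.2 hL
      linarith
    have hσ2 : 1 + 1 / Real.log x ≤ 2 := by
      have : 1 / Real.log x ≤ 1 := by
        rw [div_le_one hL]; exact hL1
      linarith
    have h2 := gtUb_sum_le_prod F hF0 (1 + 1 / Real.log x) ⌊x⌋₊ (⌊x⌋₊ + 1) (Nat.lt_succ_self _)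
    have h3 := gtUb_primes F M' c γ b R hR hc (by linarith) hF0 hFM' hF C hC (1 + 1 / Real.log x) hσ hσ2
      (⌊x⌋₊ + 1)
    have e1 : 1 + 1 / Real.log x - 1 = 1 / Real.log x := by ring
    rw [e1, one_div_one_div] at h3
    have h4 : ∏ p ∈ (⌊x⌋₊ + 1).primesBelow, (1 + F p * (p : ℝ) ^ (-(1 + 1 / Real.log x))) ≤
        Real.exp (c * Real.log (Real.log x) + C') := by
      calc ∏ p ∈ (⌊x⌋₊ + 1).primesBelow, (1 + F p * (p : ℝ) ^ (-(1 + 1 / Real.log x)))
          ≤ ∏ p ∈ (⌊x⌋₊ + 1).primesBelow, Real.exp (F p * (p : ℝ) ^ (-(1 + 1 / Real.log x))) := by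
            apply Finset.prod_le_prod
            · intro p hp
              have := mul_nonneg (hF0 p (Nat.mem_primesBelow.1 hp).2)
                (show (0 : ℝ) ≤ (p : ℝ) ^ (-(1 + 1 / Real.log x)) by positivity)
              linarith
            · intro p _
              have := Real.add_one_le_exp (F p * (p : ℝ) ^ (-(1 + 1 / Real.log x)))
              linarith
        _ = Real.exp (∑ p ∈ (⌊x⌋₊ + 1).primesBelow, F p * (p : ℝ) ^ (-(1 + 1 / Real.log x))) := by
            rw [Real.exp_sum]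
        _ ≤ Real.exp (c * Real.log (Real.log x) + C') := by
            apply Real.exp_le_exp.2
            refine h3.trans (le_of_eq ?_)
            rw [hC']
            ring
    have h5 : Real.exp (c * Real.log (Real.log x) + C') = Real.log x ^ c * Real.exp C' := by
      rw [Real.exp_add, Real.rpow_def_of_pos hL, mul_comm c]
    have h6 : ∑ n ∈ (Icc 1 ⌊x⌋₊).filter Squarefree, QT.pf F n / n ≤
        Real.exp 1 * ∑ n ∈ (Icc 1 ⌊x⌋₊).filter Squarefree,
          QT.pf F n * (n : ℝ) ^ (-(1 + 1 / Real.log x)) := by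
      rw [Finset.mul_sum]
      refine Finset.sum_le_sum fun n hn => ?_
      rw [Finset.mem_filter, Finset.mem_Icc] at hn
      have hn0 : (0 : ℝ) < n := by
        have : 0 < n := by omega
        exact_mod_cast this
      have hnx : (n : ℝ) ≤ x := (Nat.le_floor_iff (by linarith)).1 hn.1.2
      have h4 : (n : ℝ) ^ (1 / Real.log x) ≤ Real.exp 1 := by
        refine (Real.rpow_le_rpow hn0.le hnx (by positivity)).trans (le_of_eq ?_)
        rw [Real.rpow_def_of_pos (by linarith), mul_one_div_cancel hL.ne']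
      have h5 : (n : ℝ)⁻¹ = (n : ℝ) ^ (-(1 + 1 / Real.log x)) * (n : ℝ) ^ (1 / Real.log x) := by
        rw [← Real.rpow_add hn0, ← Real.rpow_neg_one]
        congr 1
        ring
      have h6 : 0 ≤ QT.pf F n * (n : ℝ) ^ (-(1 + 1 / Real.log x)) :=
        mul_nonneg (hpf n) (Real.rpow_nonneg hn0.le _)
      calc QT.pf F n / n = (QT.pf F n * (n : ℝ) ^ (-(1 + 1 / Real.log x))) *
            (n : ℝ) ^ (1 / Real.log x) := by rw [div_eq_mul_inv, h5]; ring
        _ ≤ (QT.pf F n * (n : ℝ) ^ (-(1 + 1 / Real.log x))) * Real.exp 1 :=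
            mul_le_mul_of_nonneg_left h4 h6
        _ = _ := by ring
    have h7 : (∑ n ∈ (Icc 1 ⌊x⌋₊).filter Squarefree, QT.pf F n) * Real.log x ≤
        3 * M' * Real.exp 1 * Real.exp C' * x * Real.log x ^ c := by
      refine h1.trans ?_
      calc 3 * M' * x * ∑ n ∈ (Icc 1 ⌊x⌋₊).filter Squarefree, QT.pf F n / n
          ≤ 3 * M' * x * (Real.exp 1 * (Real.log x ^ c * Real.exp C')) := by
            refine mul_le_mul_of_nonneg_left (h6.trans ?_) (by positivity)
            rw [← h5]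
            exact mul_le_mul_of_nonneg_left (h2.trans h4) (Real.exp_pos 1).le
        _ = _ := by ring
    have h8 : Real.log x ^ c = Real.log x ^ (c - 1) * Real.log x := by
      rw [← Real.rpow_add_one hL.ne']
      ring_nf
    rw [h8] at h7
    have h9 : ∑ n ∈ (Icc 1 ⌊x⌋₊).filter Squarefree, QT.pf F n ≤
        3 * M' * Real.exp 1 * Real.exp C' * x * Real.log x ^ (c - 1) := by
      refine le_of_mul_le_mul_right ?_ hL
      refine h7.trans (le_of_eq ?_)
      ring
    refine h9.trans ?_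
    have h10 : 0 ≤ (1 + M') * Real.exp |c - 1| * x * Real.log x ^ (c - 1) := by positivity
    calc 3 * M' * Real.exp 1 * Real.exp C' * x * Real.log x ^ (c - 1)
        ≤ 3 * M' * Real.exp 1 * Real.exp C' * x * Real.log x ^ (c - 1) +
          (1 + M') * Real.exp |c - 1| * x * Real.log x ^ (c - 1) := by linarith
      _ = _ := by ring
  · push Not at hx3
    have hfl : ⌊x⌋₊ = 2 := by
      rw [Nat.floor_eq_iff hx0.le]
      constructor
      · exact_mod_cast hx
      · norm_num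
        exact hx3
    have hset : (Icc 1 2 : Finset ℕ).filter Squarefree = {1, 2} := by
      ext n
      simp only [mem_filter, mem_Icc, mem_insert, mem_singleton]
      constructor
      · rintro ⟨⟨h1, h2⟩, _⟩
        omega
      · rintro (rfl | rfl)
        · exact ⟨by omega, squarefree_one⟩
        · exact ⟨by omega, Nat.prime_two.prime.squarefree⟩
    have hS : ∑ n ∈ (Icc 1 ⌊x⌋₊).filter Squarefree, QT.pf F n ≤ 1 + M' := by
      rw [hfl, hset, Finset.sum_pair (by norm_num)]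
      have h1 : QT.pf F 1 = 1 := by unfold QT.pf; simp
      have h2 : QT.pf F 2 = F 2 := by
        unfold QT.pf
        rw [Nat.prime_two.primeFactors, Finset.prod_singleton]
      rw [h1, h2]
      have := hFM' 2 Nat.prime_two
      linarith
    have hLlog : |Real.log (Real.log x)| ≤ 1 := by
      rw [abs_le]
      have he2 : (2 : ℝ) ≤ Real.exp 1 := by
        have := Real.add_one_le_exp (1 : ℝ)
        linarith
      constructor
      · rw [Real.le_log_iff_exp_le hL]
        have h1 : Real.log 2 ≤ Real.log x := Real.log_le_log (by norm_num) hx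
        have h2 := Real.log_two_gt_d9
        have h3 : Real.exp (-1) ≤ 1 / 2 := by
          rw [Real.exp_neg, one_div]
          exact inv_anti₀ (by norm_num) he2
        linarith
      · rw [Real.log_le_iff_le_exp hL]
        have := Real.log_le_sub_one_of_pos hx0
        linarith
    have hlow : Real.exp (-|c - 1|) ≤ Real.log x ^ (c - 1) := by
      rw [Real.rpow_def_of_pos hL]
      apply Real.exp_le_exp.2
      have h1 : |Real.log (Real.log x) * (c - 1)| ≤ |c - 1| := by
        rw [abs_mul]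
        exact mul_le_of_le_one_left (abs_nonneg _) hLlog
      linarith [neg_abs_le (Real.log (Real.log x) * (c - 1))]
    have h1 : 1 ≤ Real.exp |c - 1| * x * Real.log x ^ (c - 1) := by
      calc (1 : ℝ) = Real.exp |c - 1| * 1 * Real.exp (-|c - 1|) := by
            rw [mul_one, ← Real.exp_add]; simp
        _ ≤ Real.exp |c - 1| * x * Real.log x ^ (c - 1) := by
            apply mul_le_mul _ hlow (Real.exp_pos _).le (by positivity)
            exact mul_le_mul_of_nonneg_left (by linarith) (Real.exp_pos _).le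
    have h2 : (1 + M') ≤ (1 + M') * Real.exp |c - 1| * x * Real.log x ^ (c - 1) := by
      have := mul_le_mul_of_nonneg_left h1 (show 0 ≤ 1 + M' by linarith)
      calc (1 + M') = (1 + M') * 1 := by ring
        _ ≤ (1 + M') * (Real.exp |c - 1| * x * Real.log x ^ (c - 1)) := this
        _ = _ := by ring
    have h3 : 0 ≤ 3 * M' * Real.exp 1 * Real.exp C' * x * Real.log x ^ (c - 1) := by positivity
    calc ∑ n ∈ (Icc 1 ⌊x⌋₊).filter Squarefree, QT.pf F n ≤ 1 + M' := hS
      _ ≤ (1 + M') * Real.exp |c - 1| * x * Real.log x ^ (c - 1) := h2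
      _ ≤ 3 * M' * Real.exp 1 * Real.exp C' * x * Real.log x ^ (c - 1) +
          (1 + M') * Real.exp |c - 1| * x * Real.log x ^ (c - 1) := by linarith
      _ = _ := by ring

end ZG
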