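import Pool.Agent.Lib.MP_1ad228_nt.GTDefs
import Pool.Agent.Lib.MP_1ad228_nt.GTUb

/-! JOB GTMeanS.  Two applications of `ubG`.

`R = Rb g ≠ 0` (`Rb_ne`; the discriminants are not `0` because they are not squares), `p` a prime not dividing `R` (so odd and good, `good_of_not_dvd`), `α_i = jacobiSym (g i).disc p = ±1` (`QT.chi b p = (jacobiSym b p : ℝ)` for odd `p`, it is `1` if `b` is a square prime to `p`,
`jacobiSym.mul_left`).
`mean_S` (here the product of the discriminants is a square, so `α_0 α_1 α_2 = 1`): for `p ∤ R`, with `j, l` the two indices different from `i`: `1_S = (1 - α_j)(1 - α_l)/4 = (1 - α_j - α_l + α_i)/4` where `S p` is the condition in the statement, so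
`1 - 1_S = 3/4 + (α_j + α_l - α_i)/4`, and `ubG` with `c = 3/4`, `M = 1`, `b = disc`, `R = Rb g`.
`mean_N` (here the product of the discriminants is NOT a square): `S p` says that all three are inert: `1_S = (1-α_0)(1-α_1)(1-α_2)/8`, `1 - 1_S = 7/8 + (1/8) ∑ α_i - (1/8) ∑_{i<j} α_i α_j + (1/8) α_0 α_1 α_2`; a square product `disc i * disc j` contributes
`-1/8 ≤ 0` (replace it by the coefficient `0` and the character of `2`), `disc 0 * disc 1 * disc 2` and the `disc i` are not squares; `ubG` with `c = 7/8`, `κ = Fin 7`. -/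

namespace ZG

open Finset

private theorem gtms_jac {a : ℤ} {p : ℕ} (hp : p.Prime) (h : ¬ (p : ℤ) ∣ a) :
    jacobiSym a p = 1 ∨ jacobiSym a p = -1 := by
  refine jacobiSym.eq_one_or_neg_one ?_
  have h1 : ¬ p ∣ a.natAbs := fun hd => h (Int.natCast_dvd.2 hd)
  have h2 := (Nat.Prime.coprime_iff_not_dvd hp).2 h1
  rw [Int.gcd_eq_natAbs, Int.natAbs_natCast]
  exact h2.symm

private theorem gtms_sq {a : ℤ} {p : ℕ} (hp : p.Prime) (h : ¬ (p : ℤ) ∣ a) (hs : IsSquare a) :
    jacobiSym a p = 1 := by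
  obtain ⟨r, rfl⟩ := hs
  have h1 : ¬ (p : ℤ) ∣ r := fun hd => h (Dvd.dvd.mul_right hd r)
  rw [jacobiSym.mul_left]
  rcases gtms_jac hp h1 with e | e <;> rw [e] <;> norm_num

private theorem gtms_odd {g : Fin 3 → BQ} {p : ℕ} (hp : p.Prime) (h : ¬ p ∣ Rb g) : Odd p :=
  hp.odd_of_ne_two (good_of_not_dvd g h).two

private theorem gtms_chi (b : ℤ) {p : ℕ} (hp : Odd p) : QT.chi b p = (jacobiSym b p : ℝ) := by
  unfold QT.chi
  rw [if_pos hp]

private theorem gtms_two : ¬ IsSquare (2 : ℤ) := by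
  rintro ⟨r, hr⟩
  have h1 : r.natAbs * r.natAbs = 2 := by
    rw [← Int.natAbs_mul, ← hr]
    rfl
  have h2 : r.natAbs < 2 := by
    by_contra hc
    push Not at hc
    nlinarith
  interval_cases h : r.natAbs <;> omega

private theorem gtms_prime_mul {a b : ℤ} {p : ℕ} (hp : p.Prime) (ha : ¬ (p : ℤ) ∣ a)
    (hb : ¬ (p : ℤ) ∣ b) : ¬ (p : ℤ) ∣ a * b := fun h =>
  ((Nat.prime_iff_prime_int.1 hp).dvd_or_dvd h).elim ha hb

open Classical in
theorem mean_S (g : Fin 3 → BQ) (hA : ∀ i, (g i).A ≠ 0) (hC : ∀ i, (g i).C ≠ 0)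
    (hR : ∀ i j, i ≠ j → (g i).res (g j) ≠ 0) (hsq : ∀ i, ¬ IsSquare (g i).disc)
    (hV : IsSquare ((g 0).disc * (g 1).disc * (g 2).disc)) (i : Fin 3) :
    ∃ B : ℝ, 0 < B ∧ ∀ x : ℝ, 2 ≤ x →
      ∑ n ∈ (Icc 1 ⌊x⌋₊).filter Squarefree, QT.pf (fun p => if ¬ p ∣ Rb g ∧ jacobiSym (g i).disc p = 1 ∧
        (∀ j, j ≠ i → jacobiSym (g j).disc p = -1) then 0 else 1) n ≤ B * x * Real.log x ^ (-(1 / 4) : ℝ) := by
  have hd : ∀ i, (g i).disc ≠ 0 := fun i e => hsq i (by rw [e]; exact ⟨0, by simp⟩)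
  have h := ubG (fun p => if ¬ p ∣ Rb g ∧ jacobiSym (g i).disc p = 1 ∧
        (∀ j, j ≠ i → jacobiSym (g j).disc p = -1) then 0 else 1) 1 (3 / 4)
    (fun j : Fin 3 => if j = i then -1 / 4 else 1 / 4) (fun j => (g j).disc) hsq (Rb g)
    (Rb_ne g hA hC hd hR) (by norm_num)
    (by intro p _; split_ifs <;> norm_num)
    (by intro p _; split_ifs <;> norm_num)
    (by
      intro p hp hpR
      have hodd := gtms_odd hp hpR
      have hg := good_of_not_dvd g hpR
      simp only [gtms_chi _ hodd]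
      have h3 : jacobiSym (g 0).disc p * jacobiSym (g 1).disc p * jacobiSym (g 2).disc p = 1 := by
        rw [← jacobiSym.mul_left, ← jacobiSym.mul_left]
        exact gtms_sq hp (gtms_prime_mul hp (gtms_prime_mul hp (hg.disc 0) (hg.disc 1))
          (hg.disc 2)) hV
      rcases gtms_jac hp (hg.disc 0) with e0 | e0 <;> rcases gtms_jac hp (hg.disc 1) with e1 | e1 <;>
        rcases gtms_jac hp (hg.disc 2) with e2 | e2 <;> rw [e0, e1, e2] at h3 <;>
        first
        | (exfalso; revert h3; norm_num; done)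
        | (fin_cases i <;> simp [Fin.sum_univ_three, Fin.forall_fin_succ, e0, e1, e2, hpR] <;> norm_num))
  have e : ((3 / 4 : ℝ) - 1) = -(1 / 4) := by norm_num
  rw [e] at h
  exact h

open Classical in
theorem mean_N (g : Fin 3 → BQ) (hA : ∀ i, (g i).A ≠ 0) (hC : ∀ i, (g i).C ≠ 0)
    (hR : ∀ i j, i ≠ j → (g i).res (g j) ≠ 0) (hsq : ∀ i, ¬ IsSquare (g i).disc)
    (hV : ¬ IsSquare ((g 0).disc * (g 1).disc * (g 2).disc)) :
    ∃ B : ℝ, 0 < B ∧ ∀ x : ℝ, 2 ≤ x →
      ∑ n ∈ (Icc 1 ⌊x⌋₊).filter Squarefree, QT.pf (fun p => if ¬ p ∣ Rb g ∧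
        (∀ j, jacobiSym (g j).disc p = -1) then 0 else 1) n ≤ B * x * Real.log x ^ (-(1 / 8) : ℝ) := by
  have hd : ∀ i, (g i).disc ≠ 0 := fun i e => hsq i (by rw [e]; exact ⟨0, by simp⟩)
  set q : ℤ → ℤ := fun b => if IsSquare b then 2 else b with hq
  set c : ℤ → ℝ := fun b => if IsSquare b then 0 else -1 / 8 with hc
  have hqn : ∀ b, ¬ IsSquare (q b) := by
    intro b
    rw [hq]
    dsimp only
    split_ifs with hb
    · exact gtms_two
    · exact hb
  have key : ∀ (a b : ℤ) {p : ℕ}, p.Prime → Odd p → ¬ (p : ℤ) ∣ a → ¬ (p : ℤ) ∣ b →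
      -1 / 8 * ((jacobiSym a p : ℝ) * (jacobiSym b p : ℝ)) ≤ c (a * b) * QT.chi (q (a * b)) p := by
    intro a b p hp hodd ha hb
    rw [hq, hc]
    dsimp only
    by_cases hs : IsSquare (a * b)
    · have h1 := gtms_sq hp (gtms_prime_mul hp ha hb) hs
      rw [jacobiSym.mul_left] at h1
      have h2 : (jacobiSym a p : ℝ) * (jacobiSym b p : ℝ) = 1 := by exact_mod_cast h1
      rw [h2, if_pos hs]
      norm_num
    · rw [if_neg hs, if_neg hs, gtms_chi _ hodd, jacobiSym.mul_left]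
      push_cast
      exact le_rfl
  have h := ubG (fun p => if ¬ p ∣ Rb g ∧ (∀ j, jacobiSym (g j).disc p = -1) then 0 else 1) 1 (7 / 8)
    (![1 / 8, 1 / 8, 1 / 8, c ((g 0).disc * (g 1).disc), c ((g 0).disc * (g 2).disc),
      c ((g 1).disc * (g 2).disc), 1 / 8] : Fin 7 → ℝ)
    (![(g 0).disc, (g 1).disc, (g 2).disc, q ((g 0).disc * (g 1).disc),
      q ((g 0).disc * (g 2).disc), q ((g 1).disc * (g 2).disc),
      (g 0).disc * (g 1).disc * (g 2).disc] : Fin 7 → ℤ)
    (by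
      intro j
      fin_cases j
      · exact hsq 0
      · exact hsq 1
      · exact hsq 2
      · exact hqn _
      · exact hqn _
      · exact hqn _
      · exact hV) (Rb g)
    (Rb_ne g hA hC hd hR) (by norm_num)
    (by intro p _; split_ifs <;> norm_num)
    (by intro p _; split_ifs <;> norm_num)
    (by
      intro p hp hpR
      have hodd := gtms_odd hp hpR
      have hg := good_of_not_dvd g hpR
      have k1 := key _ _ hp hodd (hg.disc 0) (hg.disc 1)
      have k2 := key _ _ hp hodd (hg.disc 0) (hg.disc 2)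
      have k3 := key _ _ hp hodd (hg.disc 1) (hg.disc 2)
      have hsum : ∀ (f : Fin 7 → ℝ) (b : Fin 7 → ℤ), ∑ j, f j * QT.chi (b j) p =
          f 0 * QT.chi (b 0) p + f 1 * QT.chi (b 1) p + f 2 * QT.chi (b 2) p +
          f 3 * QT.chi (b 3) p + f 4 * QT.chi (b 4) p + f 5 * QT.chi (b 5) p +
          f 6 * QT.chi (b 6) p := by
        intro f b
        rw [Fin.sum_univ_seven]
      rw [hsum]
      have e7 : QT.chi ((g 0).disc * (g 1).disc * (g 2).disc) p =
          (jacobiSym (g 0).disc p : ℝ) * (jacobiSym (g 1).disc p : ℝ) *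
            (jacobiSym (g 2).disc p : ℝ) := by
        rw [gtms_chi _ hodd, jacobiSym.mul_left, jacobiSym.mul_left]
        push_cast
        rfl
      have f0 : (![(g 0).disc, (g 1).disc, (g 2).disc, q ((g 0).disc * (g 1).disc),
        q ((g 0).disc * (g 2).disc), q ((g 1).disc * (g 2).disc),
        (g 0).disc * (g 1).disc * (g 2).disc] : Fin 7 → ℤ) 6 =
          (g 0).disc * (g 1).disc * (g 2).disc := rfl
      rw [f0, e7]
      have g0 := gtms_chi (g 0).disc hodd
      have g1 := gtms_chi (g 1).disc hodd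
      have g2 := gtms_chi (g 2).disc hodd
      refine le_trans ?_ (add_le_add_right (add_le_add_left (add_le_add (add_le_add
        (add_le_add_right k1 (1 / 8 * QT.chi (g 0).disc p + 1 / 8 * QT.chi (g 1).disc p +
          1 / 8 * QT.chi (g 2).disc p)) k2) k3)
        (1 / 8 * ((jacobiSym (g 0).disc p : ℝ) * (jacobiSym (g 1).disc p : ℝ) *
            (jacobiSym (g 2).disc p : ℝ)))) (7 / 8))
      rw [g0, g1, g2]
      rcases gtms_jac hp (hg.disc 0) with e0 | e0 <;> rcases gtms_jac hp (hg.disc 1) with e1 | e1 <;>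
        rcases gtms_jac hp (hg.disc 2) with e2 | e2 <;>
        simp [Fin.forall_fin_succ, e0, e1, e2, hpR] <;> norm_num)
  have e : ((7 / 8 : ℝ) - 1) = -(1 / 8) := by norm_num
  rw [e] at h
  exact h

end ZG
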