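import Pool.Agent.Lib.MP_1ad228_nt.GTWt
import Pool.Agent.Lib.MP_1ad228_nt.GTMeanS

/-! JOB GTCntN (short).

`one_le`: `pf (FW g) n = (49/48)^k`, `pf (WW g) n = (49/96)^k` with `k = ∑_{p ∣ n} ke g p` (integer powers; induction on the finite set of primes, `zpow_add₀`); if `k ≥ 0` the first is `≥ 1`, if `k < 0` the second is `(96/49)^|k| ≥ 1`; both are `> 0`.

`countN`: let `S p` be the condition in `mean_N`.  If `e` satisfies `LocG` and `p ∣ ∏ e_U` then `p ∣ e U` for some `U`, `U` is nonempty (odd cardinality) and some form is split at `p` (symbol `1`), so `S p` fails; hence `pf (1 - 1_S) n = 1` for all the integers `n = ∏ e_U` counted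
(`n ≤ N` squarefree by the definition of `QT.Box`), and their number is at most `∑_{n ≤ N, sqfree} pf (1 - 1_S) n ≤ B N (log N)^(-1/8)` (`mean_N` with `x = N`, `⌊(N:ℝ)⌋₊ = N`); compare with `(log N)^(-1/2000)`: for `2 ≤ N`, `log N ≥ log 2 ≥ 1/2`, and
`(log N)^(-1/8) = (log N)^(-1/2000) * (log N)^(-(1/8 - 1/2000)) ≤ 2 (log N)^(-1/2000)`. -/

namespace ZG

open Finset

private theorem gtcntn_pf (x : ℝ) (hx : x ≠ 0) (k : ℕ → ℤ) (n : ℕ) :
    QT.pf (fun p => x ^ k p) n = x ^ (∑ p ∈ n.primeFactors, k p) := by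
  unfold QT.pf
  induction n.primeFactors using Finset.induction_on with
  | empty => simp
  | insert a s ha ih => rw [Finset.prod_insert ha, Finset.sum_insert ha, ih, zpow_add₀ hx]

theorem one_le (g : Fin 3 → BQ) (n : ℕ) : 1 ≤ QT.pf (FW g) n + QT.pf (WW g) n := by
  have e1 : QT.pf (FW g) n = (49 / 48 : ℝ) ^ (∑ p ∈ n.primeFactors, ke g p) :=
    gtcntn_pf (49 / 48) (by norm_num) (ke g) n
  have e2 : QT.pf (WW g) n = (49 / 96 : ℝ) ^ (∑ p ∈ n.primeFactors, ke g p) :=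
    gtcntn_pf (49 / 96) (by norm_num) (ke g) n
  rw [e1, e2]
  set k := ∑ p ∈ n.primeFactors, ke g p
  have p1 : (0 : ℝ) < (49 / 48 : ℝ) ^ k := by positivity
  have p2 : (0 : ℝ) < (49 / 96 : ℝ) ^ k := by positivity
  rcases le_total 0 k with hk | hk
  · have : (1 : ℝ) ≤ (49 / 48 : ℝ) ^ k := one_le_zpow₀ (by norm_num) hk
    linarith
  · have : (1 : ℝ) ≤ (49 / 96 : ℝ) ^ k := by
      have h1 : (1 : ℝ) ≤ ((96 / 49 : ℝ)) ^ (-k) := one_le_zpow₀ (by norm_num) (by omega)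
      have h2 : ((96 / 49 : ℝ)) ^ (-k) = (49 / 96 : ℝ) ^ k := by
        rw [zpow_neg, ← inv_zpow]
        norm_num
      rw [← h2]
      exact h1
    linarith

open Classical in
theorem countN (g : Fin 3 → BQ) (hA : ∀ i, (g i).A ≠ 0) (hC : ∀ i, (g i).C ≠ 0)
    (hR : ∀ i j, i ≠ j → (g i).res (g j) ≠ 0) (hsq : ∀ i, ¬ IsSquare (g i).disc)
    (hV : ¬ IsSquare ((g 0).disc * (g 1).disc * (g 2).disc)) :
    ∃ C : ℝ, 0 < C ∧ ∀ (θ : ℕ → OddSet (Fin 3) → Fin 3 → ℤ) (N : ℕ), 2 ≤ N →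
      ((((QT.Box (OddSet (Fin 3)) N).filter fun e => LocG θ g e).image fun e => ∏ U, e U).card : ℝ) ≤
        C * N * Real.log N ^ (-(1 / 2000) : ℝ) := by
  obtain ⟨B, hB, hb⟩ := mean_N g hA hC hR hsq hV
  refine ⟨2 * B, by positivity, ?_⟩
  intro θ N hN
  have hN2 : (2 : ℝ) ≤ N := by exact_mod_cast hN
  set w : ℕ → ℝ := fun p => if ¬ p ∣ Rb g ∧ (∀ j, jacobiSym (g j).disc p = -1) then 0 else 1 with hw
  have hsub : (((QT.Box (OddSet (Fin 3)) N).filter fun e => LocG θ g e).image fun e => ∏ U, e U) ⊆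
      ((Icc 1 ⌊(N : ℝ)⌋₊).filter Squarefree).filter fun n => QT.pf w n = 1 := by
    intro n hn
    obtain ⟨e, he, rfl⟩ := Finset.mem_image.1 hn
    obtain ⟨hbox, hloc⟩ := Finset.mem_filter.1 he
    obtain ⟨h6, h7, h8⟩ := Finset.mem_filter.1 hbox
    rw [Finset.mem_filter, Finset.mem_filter, Finset.mem_Icc, Nat.floor_natCast]
    refine ⟨⟨⟨Nat.pos_of_ne_zero h8.ne_zero, h7⟩, h8⟩, ?_⟩
    unfold QT.pf
    apply Finset.prod_eq_one
    intro p hp
    have hpp : p.Prime := Nat.prime_of_mem_primeFactors hp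
    have hpd : p ∣ ∏ U, e U := Nat.dvd_of_mem_primeFactors hp
    obtain ⟨U, _, hU⟩ := (hpp.prime.dvd_finsetProd_iff _).1 hpd
    obtain ⟨-, -, h3, -⟩ := hloc U p hpp hU
    simp only [hw]
    rw [if_neg]
    rintro ⟨-, h4⟩
    obtain ⟨k, hk⟩ : U.1.Nonempty := by
      rw [Finset.nonempty_iff_ne_empty]
      intro h
      have := U.2
      rw [h] at this
      simp at this
    have h5 := h3 k hk
    rw [h4 k] at h5
    norm_num at h5
  have hnn : ∀ n ∈ (Icc 1 ⌊(N : ℝ)⌋₊).filter Squarefree, 0 ≤ QT.pf w n := by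
    intro n _
    unfold QT.pf
    apply Finset.prod_nonneg
    intro p _
    simp only [hw]
    split_ifs <;> norm_num
  have h1 : ((((QT.Box (OddSet (Fin 3)) N).filter fun e => LocG θ g e).image fun e => ∏ U, e U).card : ℝ) ≤
      ∑ n ∈ (Icc 1 ⌊(N : ℝ)⌋₊).filter Squarefree, QT.pf w n := by
    calc ((((QT.Box (OddSet (Fin 3)) N).filter fun e => LocG θ g e).image fun e => ∏ U, e U).card : ℝ)
        ≤ ((((Icc 1 ⌊(N : ℝ)⌋₊).filter Squarefree).filter fun n => QT.pf w n = 1).card : ℝ) := by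
          exact_mod_cast Finset.card_le_card hsub
      _ = ∑ n ∈ ((Icc 1 ⌊(N : ℝ)⌋₊).filter Squarefree).filter fun n => QT.pf w n = 1, QT.pf w n := by
          rw [Finset.card_eq_sum_ones, Nat.cast_sum]
          refine Finset.sum_congr rfl fun n hn => ?_
          rw [(Finset.mem_filter.1 hn).2]
          norm_num
      _ ≤ ∑ n ∈ (Icc 1 ⌊(N : ℝ)⌋₊).filter Squarefree, QT.pf w n := by
          apply Finset.sum_le_sum_of_subset_of_nonneg (Finset.filter_subset _ _)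
          intro n hn _
          exact hnn n hn
  refine h1.trans ((hb N hN2).trans ?_)
  have hl : (1 / 2 : ℝ) ≤ Real.log N := by
    have h2 := Real.log_two_gt_d9
    have h3 : Real.log 2 ≤ Real.log N := Real.log_le_log (by norm_num) hN2
    linarith
  have hl0 : 0 < Real.log N := by linarith
  have h4 : Real.log N ^ (-(1 / 8) : ℝ) ≤ 2 * Real.log N ^ (-(1 / 2000) : ℝ) := by
    have e : Real.log N ^ (-(1 / 8) : ℝ) = Real.log N ^ (-(1 / 8 - 1 / 2000) : ℝ) * Real.log N ^ (-(1 / 2000) : ℝ) := by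
      rw [← Real.rpow_add hl0]
      norm_num
    rw [e]
    apply mul_le_mul_of_nonneg_right _ (Real.rpow_nonneg hl0.le _)
    calc Real.log N ^ (-(1 / 8 - 1 / 2000) : ℝ) ≤ (1 / 2 : ℝ) ^ (-(1 / 8 - 1 / 2000) : ℝ) :=
          Real.rpow_le_rpow_of_nonpos (by norm_num) hl (by norm_num)
      _ ≤ (1 / 2 : ℝ) ^ (-1 : ℝ) :=
          Real.rpow_le_rpow_of_exponent_ge (by norm_num) (by norm_num) (by norm_num)
      _ = 2 := by
          rw [Real.rpow_neg_one]
          norm_num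
  calc B * (N : ℝ) * Real.log N ^ (-(1 / 8) : ℝ) ≤ B * N * (2 * Real.log N ^ (-(1 / 2000) : ℝ)) := by gcongr
    _ = 2 * B * N * Real.log N ^ (-(1 / 2000) : ℝ) := by ring

end ZG
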