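import Pool.Agent.Lib.MP_1ad228_nt.GTPat
import Pool.Agent.Lib.MP_1ad228_nt.GTUb

/-! JOB GTMeanF.  The average of the majorant.

`R = Rb g ≠ 0` (`Rb_ne`; the discriminants are not `0` because they are not squares), `p` a prime not dividing `R` (so odd and good, `good_of_not_dvd`).  `QT.chi b p = (jacobiSym b p : ℝ)` for odd `p`, it is `1` if `b` is a square prime to `p` (`jacobiSym.sq_one'` or similar),
and `chi (b b') = chi b chi b'` (`jacobiSym.mul_left`).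
`hV : IsSquare (disc 0 * disc 1 * disc 2)` implies `α_0 α_1 α_2 = 1` for the symbols `α_i = jacobiSym (g i).disc p = ±1`, so `α_0 + α_1 + α_2 ∈ {3, -1}` and by `ke_formula` (or `card_Kr`) `ke g p ∈ {-2, ..., 2}`.
For `k ∈ {-2,...,2}`, `(1+h)^k ≤ 1 + h k + 3 h²`, `h = 1/48` (five cases, `norm_num`).  By `ke_formula`, `ke g p = -1/8 + ∑_j γ_j chi (b_j) p` with ten characters: `γ = -3/8` for the three resultants `R01, R02, R12`, `-1/8` for the three products of two,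
`1/8` for `R01 R02 R12`, `1/2` for the three discriminants.  Apply `ubG` with `κ = Fin 10`, `b'_j = if IsSquare b_j then 2 else b_j` and `γ'_j = if IsSquare b_j then 0 else h γ_j`, `c = 1 + 3 h² - h/8 = 1 - 1/768`, `M = 2` (`ke ≤ 3` for every `p`):
for `p ∤ R`, `FW g p ≤ 1 + 3 h² - h/8 + h ∑_j γ_j chi (b_j) p` and the square `b_j` contribute `h ∑_{j square} γ_j ≤ 0`: the discriminants are not squares, and if `R01 R02 R12` is a square then by `hex` one of `R01, R02, R12` is a square, so the sum is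
`≤ 1/8 - 3/8 < 0`.  (`2` is not a square in `ℤ`.)  The result is `(log x)^(c-1) = (log x)^(-1/768)`. -/

namespace ZG

open Finset

private theorem gtmf_jac {a : ℤ} {p : ℕ} (hp : p.Prime) (h : ¬ (p : ℤ) ∣ a) :
    jacobiSym a p = 1 ∨ jacobiSym a p = -1 := by
  refine jacobiSym.eq_one_or_neg_one ?_
  have h1 : ¬ p ∣ a.natAbs := fun hd => h (Int.natCast_dvd.2 hd)
  have h2 := (Nat.Prime.coprime_iff_not_dvd hp).2 h1
  rw [Int.gcd_eq_natAbs, Int.natAbs_natCast]
  exact h2.symm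

private theorem gtmf_sq {a : ℤ} {p : ℕ} (hp : p.Prime) (h : ¬ (p : ℤ) ∣ a) (hs : IsSquare a) :
    jacobiSym a p = 1 := by
  obtain ⟨r, rfl⟩ := hs
  have h1 : ¬ (p : ℤ) ∣ r := fun hd => h (Dvd.dvd.mul_right hd r)
  rw [jacobiSym.mul_left]
  rcases gtmf_jac hp h1 with e | e <;> rw [e] <;> norm_num

private theorem gtmf_odd {g : Fin 3 → BQ} {p : ℕ} (hp : p.Prime) (h : ¬ p ∣ Rb g) : Odd p :=
  hp.odd_of_ne_two (good_of_not_dvd g h).two

private theorem gtmf_chi (b : ℤ) {p : ℕ} (hp : Odd p) : QT.chi b p = (jacobiSym b p : ℝ) := by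
  unfold QT.chi
  rw [if_pos hp]

private theorem gtmf_two : ¬ IsSquare (2 : ℤ) := by
  rintro ⟨r, hr⟩
  have h1 : r.natAbs * r.natAbs = 2 := by
    rw [← Int.natAbs_mul, ← hr]
    rfl
  have h2 : r.natAbs < 2 := by
    by_contra hc
    push Not at hc
    nlinarith
  interval_cases h : r.natAbs <;> omega

private theorem gtmf_prime_mul {a b : ℤ} {p : ℕ} (hp : p.Prime) (ha : ¬ (p : ℤ) ∣ a)
    (hb : ¬ (p : ℤ) ∣ b) : ¬ (p : ℤ) ∣ a * b := fun h =>
  ((Nat.prime_iff_prime_int.1 hp).dvd_or_dvd h).elim ha hb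

open Classical in
private noncomputable def gtmf_q (b : ℤ) : ℤ := if IsSquare b then 2 else b

open Classical in
private noncomputable def gtmf_c (γ : ℝ) (b : ℤ) : ℝ := if IsSquare b then 0 else γ

private theorem gtmf_qn (b : ℤ) : ¬ IsSquare (gtmf_q b) := by
  unfold gtmf_q
  split_ifs with hb
  · exact gtmf_two
  · exact hb

private theorem gtmf_key (γ : ℝ) (hγ : γ ≤ 0) (b : ℤ) {p : ℕ} (hp : p.Prime) (hodd : Odd p)
    (hb : ¬ (p : ℤ) ∣ b) : γ * (jacobiSym b p : ℝ) ≤ gtmf_c γ b * QT.chi (gtmf_q b) p := by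
  unfold gtmf_c gtmf_q
  by_cases hs : IsSquare b
  · rw [gtmf_sq hp hb hs, if_pos hs]
    simpa using hγ
  · rw [if_neg hs, if_neg hs, gtmf_chi _ hodd]

private theorem gtmf_zero (γ : ℝ) (b : ℤ) (hs : IsSquare b) (x : ℝ) :
    gtmf_c γ b * x = 0 := by
  unfold gtmf_c
  rw [if_pos hs, zero_mul]

private theorem gtmf_eq (γ : ℝ) (b : ℤ) (hs : ¬ IsSquare b) {p : ℕ} (hodd : Odd p) :
    gtmf_c γ b * QT.chi (gtmf_q b) p = γ * (jacobiSym b p : ℝ) := by
  unfold gtmf_c gtmf_q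
  rw [if_neg hs, if_neg hs, gtmf_chi _ hodd]

private theorem gtmf_pow {k : ℤ} (h : k = -2 ∨ k = -1 ∨ k = 0 ∨ k = 1 ∨ k = 2) :
    (49 / 48 : ℝ) ^ k ≤ 1 + 1 / 768 + (k : ℝ) / 48 := by
  rcases h with rfl | rfl | rfl | rfl | rfl <;> norm_num [zpow_neg, zpow_ofNat]

theorem mean_F (g : Fin 3 → BQ) (hA : ∀ i, (g i).A ≠ 0) (hC : ∀ i, (g i).C ≠ 0)
    (hR : ∀ i j, i ≠ j → (g i).res (g j) ≠ 0) (hsq : ∀ i, ¬ IsSquare (g i).disc)
    (hV : IsSquare ((g 0).disc * (g 1).disc * (g 2).disc))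
    (hex : IsSquare ((g 0).res (g 1) * (g 0).res (g 2) * (g 1).res (g 2)) →
      IsSquare ((g 0).res (g 1)) ∨ IsSquare ((g 0).res (g 2)) ∨ IsSquare ((g 1).res (g 2))) :
    ∃ B : ℝ, 0 < B ∧ ∀ x : ℝ, 2 ≤ x →
      ∑ n ∈ (Icc 1 ⌊x⌋₊).filter Squarefree, QT.pf (FW g) n ≤ B * x * Real.log x ^ (-(1 / 768) : ℝ) := by
  have hd : ∀ i, (g i).disc ≠ 0 := fun i e => hsq i (by rw [e]; exact ⟨0, by simp⟩)
  set a := (g 0).res (g 1) with ha
  set b := (g 0).res (g 2) with hb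
  set c := (g 1).res (g 2) with hc
  have h := ubG (κ := Fin 7 ⊕ Fin 3) (FW g) 2 (1 - 1 / 768)
    (Sum.elim (![gtmf_c (-(3 / 8) / 48) a, gtmf_c (-(3 / 8) / 48) b, gtmf_c (-(3 / 8) / 48) c,
      gtmf_c (-(1 / 8) / 48) (a * b), gtmf_c (-(1 / 8) / 48) (a * c),
      gtmf_c (-(1 / 8) / 48) (b * c), gtmf_c ((1 / 8) / 48) (a * b * c)] : Fin 7 → ℝ)
      (fun _ => (1 / 2) / 48))
    (Sum.elim (![gtmf_q a, gtmf_q b, gtmf_q c, gtmf_q (a * b), gtmf_q (a * c), gtmf_q (b * c),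
      gtmf_q (a * b * c)] : Fin 7 → ℤ) (fun i => (g i).disc))
    (by
      intro j
      rcases j with j | j
      · fin_cases j <;> exact gtmf_qn _
      · exact hsq j) (Rb g)
    (Rb_ne g hA hC hd hR) (by norm_num)
    (by
      intro p _
      unfold FW
      positivity)
    (by
      intro p _
      unfold FW
      have h1 : SN g p ≤ 3 := by
        unfold SN
        exact (Finset.card_le_univ _).trans (by simp)
      have h2 : ke g p ≤ 3 := by
        unfold ke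
        have : (SN g p : ℤ) ≤ 3 := by exact_mod_cast h1
        have h3 : (0 : ℤ) ≤ (Nat.log 2 (Kr g p).card : ℤ) := Int.natCast_nonneg _
        linarith
      calc (49 / 48 : ℝ) ^ (ke g p) ≤ (49 / 48 : ℝ) ^ (3 : ℤ) :=
            zpow_le_zpow_right₀ (by norm_num) h2
        _ ≤ 2 := by norm_num [zpow_ofNat])
    (by
      intro p hp hpR
      have hodd := gtmf_odd hp hpR
      have hg := good_of_not_dvd g hpR
      have na : ¬ (p : ℤ) ∣ a := hg.res 0 1 (by decide)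
      have nb : ¬ (p : ℤ) ∣ b := hg.res 0 2 (by decide)
      have nc : ¬ (p : ℤ) ∣ c := hg.res 1 2 (by decide)
      have kf := ke_formula g hp hpR
      rw [← ha, ← hb, ← hc] at kf
      have h3 : jacobiSym (g 0).disc p * jacobiSym (g 1).disc p * jacobiSym (g 2).disc p = 1 := by
        rw [← jacobiSym.mul_left, ← jacobiSym.mul_left]
        exact gtmf_sq hp (gtmf_prime_mul hp (gtmf_prime_mul hp (hg.disc 0) (hg.disc 1))
          (hg.disc 2)) hV
      have hk : ke g p = -2 ∨ ke g p = -1 ∨ ke g p = 0 ∨ ke g p = 1 ∨ ke g p = 2 := by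
        have hr : ((ke g p : ℤ) : ℝ) = -2 ∨ ((ke g p : ℤ) : ℝ) = -1 ∨ ((ke g p : ℤ) : ℝ) = 0 ∨
            ((ke g p : ℤ) : ℝ) = 1 ∨ ((ke g p : ℤ) : ℝ) = 2 := by
          rcases gtmf_jac hp (hg.disc 0) with e0 | e0 <;>
            rcases gtmf_jac hp (hg.disc 1) with e1 | e1 <;>
            rcases gtmf_jac hp (hg.disc 2) with e2 | e2 <;> rw [e0, e1, e2] at h3 <;>
            first
            | (exfalso; revert h3; norm_num; done)
            | (rw [e0, e1, e2] at kf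
               rcases gtmf_jac hp na with r0 | r0 <;> rcases gtmf_jac hp nb with r1 | r1 <;>
                rcases gtmf_jac hp nc with r2 | r2 <;> rw [r0, r1, r2] at kf <;>
                rw [kf] <;> norm_num)
        rcases hr with e | e | e | e | e
        · left; exact_mod_cast e
        · right; left; exact_mod_cast e
        · right; right; left; exact_mod_cast e
        · right; right; right; left; exact_mod_cast e
        · right; right; right; right; exact_mod_cast e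
      have hF : FW g p ≤ 1 + 1 / 768 + (ke g p : ℝ) / 48 := by
        unfold FW
        exact gtmf_pow hk
      refine hF.trans ?_
      rw [kf, Fintype.sum_sum_type, Fin.sum_univ_seven, Fin.sum_univ_three]
      simp only [Sum.elim_inl, Sum.elim_inr]
      have v0 : ∀ (x0 x1 x2 x3 x4 x5 x6 : ℝ), (![x0, x1, x2, x3, x4, x5, x6] : Fin 7 → ℝ) 6 = x6 :=
        fun _ _ _ _ _ _ _ => rfl
      have w0 : ∀ (x0 x1 x2 x3 x4 x5 x6 : ℤ), (![x0, x1, x2, x3, x4, x5, x6] : Fin 7 → ℤ) 6 = x6 :=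
        fun _ _ _ _ _ _ _ => rfl
      have v1 : ∀ (x0 x1 x2 x3 x4 x5 x6 : ℝ), (![x0, x1, x2, x3, x4, x5, x6] : Fin 7 → ℝ) 0 = x0 :=
        fun _ _ _ _ _ _ _ => rfl
      have w1 : ∀ (x0 x1 x2 x3 x4 x5 x6 : ℤ), (![x0, x1, x2, x3, x4, x5, x6] : Fin 7 → ℤ) 0 = x0 :=
        fun _ _ _ _ _ _ _ => rfl
      have v2 : ∀ (x0 x1 x2 x3 x4 x5 x6 : ℝ), (![x0, x1, x2, x3, x4, x5, x6] : Fin 7 → ℝ) 1 = x1 :=
        fun _ _ _ _ _ _ _ => rfl
      have w2 : ∀ (x0 x1 x2 x3 x4 x5 x6 : ℤ), (![x0, x1, x2, x3, x4, x5, x6] : Fin 7 → ℤ) 1 = x1 :=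
        fun _ _ _ _ _ _ _ => rfl
      have v3 : ∀ (x0 x1 x2 x3 x4 x5 x6 : ℝ), (![x0, x1, x2, x3, x4, x5, x6] : Fin 7 → ℝ) 2 = x2 :=
        fun _ _ _ _ _ _ _ => rfl
      have w3 : ∀ (x0 x1 x2 x3 x4 x5 x6 : ℤ), (![x0, x1, x2, x3, x4, x5, x6] : Fin 7 → ℤ) 2 = x2 :=
        fun _ _ _ _ _ _ _ => rfl
      have v4 : ∀ (x0 x1 x2 x3 x4 x5 x6 : ℝ), (![x0, x1, x2, x3, x4, x5, x6] : Fin 7 → ℝ) 3 = x3 :=
        fun _ _ _ _ _ _ _ => rfl
      have w4 : ∀ (x0 x1 x2 x3 x4 x5 x6 : ℤ), (![x0, x1, x2, x3, x4, x5, x6] : Fin 7 → ℤ) 3 = x3 :=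
        fun _ _ _ _ _ _ _ => rfl
      have v5 : ∀ (x0 x1 x2 x3 x4 x5 x6 : ℝ), (![x0, x1, x2, x3, x4, x5, x6] : Fin 7 → ℝ) 4 = x4 :=
        fun _ _ _ _ _ _ _ => rfl
      have w5 : ∀ (x0 x1 x2 x3 x4 x5 x6 : ℤ), (![x0, x1, x2, x3, x4, x5, x6] : Fin 7 → ℤ) 4 = x4 :=
        fun _ _ _ _ _ _ _ => rfl
      have v6 : ∀ (x0 x1 x2 x3 x4 x5 x6 : ℝ), (![x0, x1, x2, x3, x4, x5, x6] : Fin 7 → ℝ) 5 = x5 :=
        fun _ _ _ _ _ _ _ => rfl
      have w6 : ∀ (x0 x1 x2 x3 x4 x5 x6 : ℤ), (![x0, x1, x2, x3, x4, x5, x6] : Fin 7 → ℤ) 5 = x5 :=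
        fun _ _ _ _ _ _ _ => rfl
      rw [v0, w0, v1, w1, v2, w2, v3, w3, v4, w4, v5, w5, v6, w6]
      have ka := gtmf_key (-(3 / 8) / 48) (by norm_num) a hp hodd na
      have kb := gtmf_key (-(3 / 8) / 48) (by norm_num) b hp hodd nb
      have kc := gtmf_key (-(3 / 8) / 48) (by norm_num) c hp hodd nc
      have kab := gtmf_key (-(1 / 8) / 48) (by norm_num) (a * b) hp hodd (gtmf_prime_mul hp na nb)
      have kac := gtmf_key (-(1 / 8) / 48) (by norm_num) (a * c) hp hodd (gtmf_prime_mul hp na nc)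
      have kbc := gtmf_key (-(1 / 8) / 48) (by norm_num) (b * c) hp hodd (gtmf_prime_mul hp nb nc)
      rw [jacobiSym.mul_left] at kab kac kbc
      push_cast at kab kac kbc
      rw [gtmf_chi (g 0).disc hodd, gtmf_chi (g 1).disc hodd, gtmf_chi (g 2).disc hodd]
      by_cases hT : IsSquare (a * b * c)
      · have hz := gtmf_zero ((1 / 8) / 48) (a * b * c) hT (QT.chi (gtmf_q (a * b * c)) p)
        have hj := gtmf_sq hp (gtmf_prime_mul hp (gtmf_prime_mul hp na nb) nc) hT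
        rw [jacobiSym.mul_left, jacobiSym.mul_left] at hj
        have hj' : (jacobiSym a p : ℝ) * (jacobiSym b p : ℝ) * (jacobiSym c p : ℝ) = 1 := by
          exact_mod_cast hj
        rw [hz, hj']
        rcases hex hT with hs | hs | hs
        · have z := gtmf_zero (-(3 / 8) / 48) a hs (QT.chi (gtmf_q a) p)
          have j : (jacobiSym a p : ℝ) = 1 := by exact_mod_cast gtmf_sq hp na hs
          rw [j] at kab kac ⊢
          rw [z]
          linarith
        · have z := gtmf_zero (-(3 / 8) / 48) b hs (QT.chi (gtmf_q b) p)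
          have j : (jacobiSym b p : ℝ) = 1 := by exact_mod_cast gtmf_sq hp nb hs
          rw [j] at kab kbc ⊢
          rw [z]
          linarith
        · have z := gtmf_zero (-(3 / 8) / 48) c hs (QT.chi (gtmf_q c) p)
          have j : (jacobiSym c p : ℝ) = 1 := by exact_mod_cast gtmf_sq hp nc hs
          rw [j] at kac kbc ⊢
          rw [z]
          linarith
      · have hz := gtmf_eq ((1 / 8) / 48) (a * b * c) hT hodd
        rw [jacobiSym.mul_left, jacobiSym.mul_left] at hz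
        push_cast at hz
        rw [hz]
        linarith)
  have e : ((1 - 1 / 768 : ℝ) - 1) = -(1 / 768) := by norm_num
  rw [e] at h
  exact h

end ZG
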