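import Pool.Agent.Lib.MP_1ad228_nt.GTCase
import Pool.Agent.Lib.MP_1ad228_nt.GTAtyp
import Pool.Agent.Lib.MP_1ad228_nt.GTMeanF
import Pool.Agent.Lib.MP_1ad228_nt.GTCntN
import Pool.Agent.Lib.MP_10e784_ag.QChooseV

/-! JOB GTCount.  The counting theorem: the integers `n = ∏ e_U` coming from vectors with `LocG θ g e`.

Let `T = (Box N).filter (LocG θ g)`, `I_e = {U | τ < e U}`.  For `i : Fin 3` let `S_i p` be the condition in `mean_S`.  Let `n = ∏ e_U`, `e ∈ T`.  If `p ∣ n` and `S_i p`, then `p ∣ e U` for some `U` and by `LocG` all `k ∈ U` are split, so `U = {i}`: hence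
`∏_{p ∣ n, S_i p} p ∣ e {i}` (the primes are distinct; `n` is squarefree).  So either for some `i` the `S_i`-part of `n` is `≤ τ` (at most `∑_i 2 B_i N (1 + log τ) (log N)^(-1/4)` integers `n ≤ N` by `atyp` and `mean_S`), or `e {i} > τ` for all `i`, i.e. `I_e` contains the
singletons.  For the integers `n` of the second kind choose a vector `e(n) ∈ T` with product `n`: their number is at most `∑_n (pf (FW g) n + pf (WW g) n) ≤ ∑_{n ≤ N, sqfree} pf (FW g) n + ∑_{I ⊇ singletons} ∑_{e ∈ T, I_e = I} pf (WW g) (∏ e)`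
(`one_le` in `GTCntN`), bounded by `mean_F` and `case_G` (with `Wt g (WW g) (FW g) B (1/768)`: `ww_le`, `wt_one`, `wt_sum`, `mean_F`; `C, K` of `case_G` do not depend on `θ`).
Choice of the parameters for `N ≥ N0`: `K` larger than all the constants (`≥ 4`), `QT.chooseV (1/4 - 1/1536) _ K` gives `V` with `(V^K)^K ≤ N`, `(1 + log N)^K V^(-1/16) (1 + log V^K)^K ≤ C (log N)^(-(1/4 - 1/1536))` and
`(log N)^(-1/4) (1 + log V^K)^K ≤ C (log N)^(-(1/4 - 1/1536))`, i.e. `(1 + log τ)^K ≤ C (log N)^(1/1536)` with `τ = V^K`; so everything is `≤ C' N (log N)^(-1/1536) ≤ C' N (log N)^(-1/2000)` (for `log N ≥ 1`).  See `countZ` in `ZCount.lean` for the bookkeeping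
(the constants with a larger `K` remain valid; `N < N0`: the number of `n` is at most `N0` and `N (log N)^(-1/2000) ≥ c > 0`). -/

namespace ZG

open Finset

private theorem gtcount_image {α : Type} [DecidableEq α] (T : Finset α) (f : α → ℕ) (w : ℕ → ℝ)
    (hw : ∀ a ∈ T, 0 ≤ w (f a)) : ∑ n ∈ T.image f, w n ≤ ∑ a ∈ T, w (f a) := by
  classical
  induction T using Finset.induction_on with
  | empty => simp
  | insert a s ha ih =>
    rw [Finset.image_insert, Finset.sum_insert ha]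
    have ih' := ih fun b hb => hw b (Finset.mem_insert_of_mem hb)
    have h0 := hw a (Finset.mem_insert_self a s)
    by_cases h : f a ∈ s.image f
    · rw [Finset.insert_eq_of_mem h]
      linarith
    · rw [Finset.sum_insert h]
      linarith

/-- the singleton -/
private def sg (i : Fin 3) : OddSet (Fin 3) := ⟨{i}, by simp⟩

open Classical in
private theorem gtcount_part (g : Fin 3 → BQ) (I : Finset (OddSet (Fin 3))) :
    ∃ (C : ℝ) (K : ℕ), 0 < C ∧ ((∀ i, sg i ∈ I) → ∀ (W F : ℕ → ℝ) (B η : ℝ), Wt g W F B η →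
    ∀ (θ : ℕ → OddSet (Fin 3) → Fin 3 → ℤ) (N : ℕ) (V τ : ℝ), 65536 ≤ N → 1 ≤ V → V ^ K ≤ τ → τ ^ K ≤ N →
    ∑ e ∈ (QT.Box (OddSet (Fin 3)) N).filter (fun e => (∀ U, τ < e U ↔ U ∈ I) ∧ LocG θ g e), QT.pf W (∏ U, e U) ≤
      C * N * ((1 + Real.log N) ^ K * V ^ (-(1 / 16) : ℝ) + B * Real.log N ^ (-η)) * (1 + Real.log τ) ^ K) := by
  by_cases hI : ∀ i, sg i ∈ I
  · obtain ⟨C, K, hC, h⟩ := case_G g I hI ⟨sg 0, hI 0⟩
    exact ⟨C, K, hC, fun _ => h⟩
  · exact ⟨1, 0, one_pos, fun h => absurd h hI⟩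

/-- `S_i` -/
private def Si (g : Fin 3 → BQ) (i : Fin 3) (p : ℕ) : Prop :=
  ¬ p ∣ Rb g ∧ jacobiSym (g i).disc p = 1 ∧ (∀ j, j ≠ i → jacobiSym (g j).disc p = -1)

open Classical in
/-- the `S_i`-part of `n` divides `e {i}` -/
private theorem gtcount_dvd (g : Fin 3 → BQ) (θ : ℕ → OddSet (Fin 3) → Fin 3 → ℤ) (e : OddSet (Fin 3) → ℕ)
    (hloc : LocG θ g e) (i : Fin 3) :
    (∏ p ∈ (∏ U, e U).primeFactors with Si g i p, p) ∣ e (sg i) := by
  apply Finset.prod_primes_dvd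
  · intro p hp
    exact (Nat.prime_of_mem_primeFactors (Finset.mem_filter.1 hp).1).prime
  · intro p hp
    obtain ⟨hp1, hp2⟩ := Finset.mem_filter.1 hp
    have hpp : p.Prime := Nat.prime_of_mem_primeFactors hp1
    have hpd : p ∣ ∏ U, e U := Nat.dvd_of_mem_primeFactors hp1
    obtain ⟨U, _, hU⟩ := (hpp.prime.dvd_finsetProd_iff _).1 hpd
    obtain ⟨-, -, h3, -⟩ := hloc U p hpp hU
    have hsub : U.1 ⊆ {i} := by
      intro k hk
      rw [Finset.mem_singleton]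
      by_contra hki
      have h4 := h3 k hk
      rw [hp2.2.2 k hki] at h4
      norm_num at h4
    have hne : U.1.Nonempty := by
      rw [Finset.nonempty_iff_ne_empty]
      intro h
      have := U.2
      rw [h] at this
      simp at this
    have hU1 : U.1 = {i} := (Finset.subset_singleton_iff.1 hsub).resolve_left hne.ne_empty
    have hU2 : U = sg i := Subtype.ext hU1
    rw [← hU2]
    exact hU

open Classical in
/-- splitting of the sum over the typical vectors -/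
private theorem gtcount_split (g : Fin 3 → BQ) (θ : ℕ → OddSet (Fin 3) → Fin 3 → ℤ) (N : ℕ) (τ : ℝ)
    (w : (OddSet (Fin 3) → ℕ) → ℝ) (hw : ∀ e, 0 ≤ w e) :
    ∑ e ∈ (QT.Box (OddSet (Fin 3)) N).filter (fun e => LocG θ g e ∧ ∀ i, τ < e (sg i)), w e ≤
      ∑ I : Finset (OddSet (Fin 3)), if (∀ i, sg i ∈ I) then
        ∑ e ∈ (QT.Box (OddSet (Fin 3)) N).filter (fun e => (∀ U, τ < e U ↔ U ∈ I) ∧ LocG θ g e), w e else 0 := by
  rw [← Finset.sum_fiberwise _ (fun e : OddSet (Fin 3) → ℕ => Finset.univ.filter fun U => τ < (e U : ℝ)) w]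
  apply Finset.sum_le_sum
  intro I _
  split_ifs with hI
  · apply Finset.sum_le_sum_of_subset_of_nonneg
    · intro e he
      rw [Finset.mem_filter, Finset.mem_filter] at he
      obtain ⟨⟨h1, h2, h3⟩, h4⟩ := he
      rw [Finset.mem_filter]
      refine ⟨h1, fun U => ?_, h2⟩
      rw [← h4, Finset.mem_filter]
      exact ⟨fun h => ⟨Finset.mem_univ _, h⟩, fun h => h.2⟩
    · intro e _ _
      exact hw e
  · apply le_of_eq
    apply Finset.sum_eq_zero
    intro e he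
    exfalso
    rw [Finset.mem_filter, Finset.mem_filter] at he
    obtain ⟨⟨h1, h2, h3⟩, h4⟩ := he
    apply hI
    intro i
    rw [← h4, Finset.mem_filter]
    exact ⟨Finset.mem_univ _, h3 i⟩

open Classical in
/-- the combinatorial inequality -/
private theorem gtcount_main (g : Fin 3 → BQ) (θ : ℕ → OddSet (Fin 3) → Fin 3 → ℤ) (N : ℕ) (τ : ℝ) :
    ((((QT.Box (OddSet (Fin 3)) N).filter fun e => LocG θ g e).image fun e => ∏ U, e U).card : ℝ) ≤
      (∑ i : Fin 3, (((Icc 1 N).filter fun n => Squarefree n ∧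
        ((∏ p ∈ n.primeFactors with Si g i p, p : ℕ) : ℝ) ≤ τ).card : ℝ)) +
      (∑ n ∈ (Icc 1 ⌊(N : ℝ)⌋₊).filter Squarefree, QT.pf (FW g) n) +
      ∑ I : Finset (OddSet (Fin 3)), if (∀ i, sg i ∈ I) then
        ∑ e ∈ (QT.Box (OddSet (Fin 3)) N).filter (fun e => (∀ U, τ < e U ↔ U ∈ I) ∧ LocG θ g e),
          QT.pf (WW g) (∏ U, e U) else 0 := by
  have hWp : ∀ p, 0 ≤ WW g p := fun p => by unfold WW; positivity
  have hFp : ∀ p, 0 ≤ FW g p := fun p => by unfold FW; positivity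
  have hW : ∀ n, 0 ≤ QT.pf (WW g) n := fun n => Finset.prod_nonneg fun p _ => hWp p
  have hF : ∀ n, 0 ≤ QT.pf (FW g) n := fun n => Finset.prod_nonneg fun p _ => hFp p
  set At : Fin 3 → Finset ℕ := fun i => (Icc 1 N).filter fun n => Squarefree n ∧
        ((∏ p ∈ n.primeFactors with Si g i p, p : ℕ) : ℝ) ≤ τ with hAt
  set T' := (QT.Box (OddSet (Fin 3)) N).filter (fun e => LocG θ g e ∧ ∀ i, τ < e (sg i)) with hT'
  have hsub : (((QT.Box (OddSet (Fin 3)) N).filter fun e => LocG θ g e).image fun e => ∏ U, e U) ⊆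
      (Finset.univ.biUnion At) ∪ T'.image fun e => ∏ U, e U := by
    intro n hn
    obtain ⟨e, he, rfl⟩ := Finset.mem_image.1 hn
    obtain ⟨hbox, hloc⟩ := Finset.mem_filter.1 he
    obtain ⟨h6, h7, h8⟩ := Finset.mem_filter.1 hbox
    by_cases hty : ∀ i, τ < ((∏ p ∈ (∏ U, e U).primeFactors with Si g i p, p : ℕ) : ℝ)
    · apply Finset.mem_union_right
      refine Finset.mem_image.2 ⟨e, Finset.mem_filter.2 ⟨hbox, hloc, fun i => ?_⟩, rfl⟩
      refine (hty i).trans_le ?_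
      have hpos : 0 < e (sg i) := by
        rw [Nat.pos_iff_ne_zero]
        intro h0
        exact h8.ne_zero (Finset.prod_eq_zero (Finset.mem_univ (sg i)) h0)
      exact_mod_cast Nat.le_of_dvd hpos (gtcount_dvd g θ e hloc i)
    · push Not at hty
      obtain ⟨i, hi⟩ := hty
      apply Finset.mem_union_left
      rw [Finset.mem_biUnion]
      refine ⟨i, Finset.mem_univ _, ?_⟩
      rw [hAt]
      simp only [Finset.mem_filter, Finset.mem_Icc]
      exact ⟨⟨Nat.pos_of_ne_zero h8.ne_zero, h7⟩, h8, hi⟩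
  have h1 : ((((QT.Box (OddSet (Fin 3)) N).filter fun e => LocG θ g e).image fun e => ∏ U, e U).card : ℝ) ≤
      (∑ i : Fin 3, ((At i).card : ℝ)) + ((T'.image fun e => ∏ U, e U).card : ℝ) := by
    have h2 := (Finset.card_le_card hsub).trans (Finset.card_union_le _ _)
    have h3 : (Finset.univ.biUnion At).card ≤ ∑ i : Fin 3, (At i).card := Finset.card_biUnion_le
    have h4 := h2.trans (Nat.add_le_add_right h3 _)
    exact_mod_cast h4
  have hmem : ∀ e ∈ T', ∏ U, e U ∈ (Icc 1 ⌊(N : ℝ)⌋₊).filter Squarefree := by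
    intro e he
    obtain ⟨hbox, -⟩ := Finset.mem_filter.1 he
    obtain ⟨h6, h7, h8⟩ := Finset.mem_filter.1 hbox
    rw [Finset.mem_filter, Finset.mem_Icc, Nat.floor_natCast]
    exact ⟨⟨Nat.pos_of_ne_zero h8.ne_zero, h7⟩, h8⟩
  have h5 : ((T'.image fun e => ∏ U, e U).card : ℝ) ≤
      (∑ n ∈ (Icc 1 ⌊(N : ℝ)⌋₊).filter Squarefree, QT.pf (FW g) n) + ∑ e ∈ T', QT.pf (WW g) (∏ U, e U) := by
    calc ((T'.image fun e => ∏ U, e U).card : ℝ) = ∑ n ∈ (T'.image fun e => ∏ U, e U), (1 : ℝ) := by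
          rw [Finset.sum_const, nsmul_eq_mul, mul_one]
      _ ≤ ∑ n ∈ (T'.image fun e => ∏ U, e U), (QT.pf (FW g) n + QT.pf (WW g) n) :=
          Finset.sum_le_sum fun n _ => one_le g n
      _ = (∑ n ∈ (T'.image fun e => ∏ U, e U), QT.pf (FW g) n) +
          ∑ n ∈ (T'.image fun e => ∏ U, e U), QT.pf (WW g) n := Finset.sum_add_distrib
      _ ≤ _ := by
          apply add_le_add
          · apply Finset.sum_le_sum_of_subset_of_nonneg
            · intro n hn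
              obtain ⟨e, he, rfl⟩ := Finset.mem_image.1 hn
              exact hmem e he
            · intro n _ _
              exact hF n
          · exact gtcount_image T' (fun e => ∏ U, e U) (fun n => QT.pf (WW g) n) fun e _ => hW _
  have h6 := gtcount_split g θ N τ (fun e => QT.pf (WW g) (∏ U, e U)) fun e => hW _
  linarith

/-- the choice of the parameters -/
private theorem gtcount_ana {κ : Type} [Fintype κ] [Nonempty κ] (Cf : κ → ℝ) (Kf : κ → ℕ) (hCf : ∀ I, 0 < Cf I)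
    (B S0 : ℝ) (hB : 0 < B) (hS0pos : 0 ≤ S0) :
    ∃ C : ℝ, 0 < C ∧ ∀ (N : ℕ) (a : ℝ), 2 ≤ N → a ≤ N →
      (∀ V τ : ℝ, 65536 ≤ N → 1 ≤ V → 1 ≤ τ → (∀ I, V ^ Kf I ≤ τ) → (∀ I, τ ^ Kf I ≤ N) → τ ^ 2 ≤ N →
        a ≤ S0 * (N * (1 + Real.log τ) * Real.log N ^ (-(1 / 4) : ℝ)) + B * N * Real.log N ^ (-(1 / 768) : ℝ) +
          ∑ I, Cf I * N * ((1 + Real.log N) ^ Kf I * V ^ (-(1 / 16) : ℝ) + B * Real.log N ^ (-(1 / 768) : ℝ)) *
            (1 + Real.log τ) ^ Kf I) →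
      a ≤ C * N * Real.log N ^ (-(1 / 2000) : ℝ) := by
  obtain ⟨K, hK4, hKf⟩ : ∃ K : ℕ, 4 ≤ K ∧ ∀ I, Kf I ≤ K :=
    ⟨(∑ I, Kf I) + 4, Nat.le_add_left _ _, fun I =>
      (Finset.single_le_sum (f := Kf) (fun _ _ => Nat.zero_le _) (Finset.mem_univ I)).trans (Nat.le_add_right _ _)⟩
  obtain ⟨C0, hC0⟩ : ∃ C0 : ℝ, C0 = ∑ I, Cf I := ⟨_, rfl⟩
  have hC0pos : 0 < C0 := by
    rw [hC0]
    exact Finset.sum_pos (fun I _ => hCf I) Finset.univ_nonempty
  obtain ⟨C1, N0, hC1, hch⟩ := QT.chooseV (1 / 4 - 1 / 1536) (by norm_num) K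
  obtain ⟨N1, hN1⟩ : ∃ N1 : ℕ, N1 = N0 + 65536 := ⟨_, rfl⟩
  have hlogN1 : 0 < Real.log N1 := by
    apply Real.log_pos
    have : 1 < N1 := by omega
    exact_mod_cast this
  obtain ⟨c, hc⟩ : ∃ c : ℝ, c = Real.log N1 ^ (-(1 / 2000) : ℝ) := ⟨_, rfl⟩
  have hcpos : 0 < c := by rw [hc]; exact Real.rpow_pos_of_pos hlogN1 _
  refine ⟨S0 * C1 + B + C0 * (C1 * (1 + B)) + N1 / c, by positivity, ?_⟩
  intro N a hN2 haN hmain
  have hNr : (1 : ℝ) < N := by
    have : 1 < N := by omega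
    exact_mod_cast this
  have hlogN : 0 < Real.log N := Real.log_pos hNr
  have hq8 : 0 < Real.log N ^ (-(1 / 2000) : ℝ) := Real.rpow_pos_of_pos hlogN _
  by_cases hNN : N < N1
  · -- small `N`
    have hcard : a ≤ N1 := haN.trans (by exact_mod_cast hNN.le)
    have hmono : c ≤ Real.log N ^ (-(1 / 2000) : ℝ) := by
      rw [hc]
      apply Real.rpow_le_rpow_of_nonpos hlogN _ (by norm_num)
      apply Real.log_le_log (by linarith)
      exact_mod_cast hNN.le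
    have h1 : (N1 : ℝ) ≤ N1 / c * N * Real.log N ^ (-(1 / 2000) : ℝ) := by
      have e1 : (N1 : ℝ) = N1 / c * 1 * c := by
        field_simp
      calc (N1 : ℝ) = N1 / c * 1 * c := e1
        _ ≤ N1 / c * N * Real.log N ^ (-(1 / 2000) : ℝ) := by
          apply mul_le_mul _ hmono hcpos.le (by positivity)
          apply mul_le_mul_of_nonneg_left hNr.le (by positivity)
    have h2 : 0 ≤ (S0 * C1 + B + C0 * (C1 * (1 + B))) * N * Real.log N ^ (-(1 / 2000) : ℝ) := by positivity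
    have e3 : (S0 * C1 + B + C0 * (C1 * (1 + B)) + N1 / c) * N * Real.log N ^ (-(1 / 2000) : ℝ) =
        (S0 * C1 + B + C0 * (C1 * (1 + B))) * N * Real.log N ^ (-(1 / 2000) : ℝ) +
          N1 / c * N * Real.log N ^ (-(1 / 2000) : ℝ) := by
      ring
    rw [e3]
    linarith
  · push Not at hNN
    have hN65 : 65536 ≤ N := by omega
    have hNr' : (65536 : ℝ) ≤ N := by exact_mod_cast hN65
    have hlog1 : 1 ≤ Real.log N := by
      have h1 : Real.log 65536 ≤ Real.log N := Real.log_le_log (by norm_num) hNr'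
      have h2 : Real.log 65536 = 16 * Real.log 2 := by
        rw [show (65536 : ℝ) = 2 ^ 16 by norm_num, Real.log_pow]
        norm_num
      have h3 := Real.log_two_gt_d9
      linarith
    obtain ⟨V, hV, hVN, hb1, hb2⟩ := hch N (by omega)
    obtain ⟨τ, hτ⟩ : ∃ τ : ℝ, τ = V ^ K := ⟨_, rfl⟩
    rw [← hτ] at hVN hb1 hb2
    have hτ1 : 1 ≤ τ := by rw [hτ]; exact one_le_pow₀ hV
    have hlogτ : 0 ≤ Real.log τ := Real.log_nonneg hτ1
    obtain ⟨L, hL⟩ : ∃ L : ℝ, L = Real.log N := ⟨_, rfl⟩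
    rw [← hL] at hlogN hlog1 hb1 hb2 hq8
    -- comparison of powers of `L`
    have hmonoL : ∀ a : ℝ, a ≤ -(1 / 2000) → L ^ a ≤ L ^ (-(1 / 2000) : ℝ) := fun a ha =>
      Real.rpow_le_rpow_of_exponent_le hlog1 ha
    have hPK : (1 + Real.log τ) ^ K ≤ C1 * L ^ (1 / 1536 : ℝ) := by
      have h1 : L ^ (1 / 4 : ℝ) * (L ^ (-(1 / 4) : ℝ) * (1 + Real.log τ) ^ K) ≤
          L ^ (1 / 4 : ℝ) * (C1 * L ^ (-(1 / 4 - 1 / 1536) : ℝ)) :=
        mul_le_mul_of_nonneg_left hb2 (Real.rpow_nonneg hlogN.le _)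
      have h2 : L ^ (1 / 4 : ℝ) * L ^ (-(1 / 4) : ℝ) = 1 := by
        rw [← Real.rpow_add hlogN]
        norm_num
      have h3 : L ^ (1 / 4 : ℝ) * L ^ (-(1 / 4 - 1 / 1536) : ℝ) = L ^ (1 / 1536 : ℝ) := by
        rw [← Real.rpow_add hlogN]
        norm_num
      calc (1 + Real.log τ) ^ K = L ^ (1 / 4 : ℝ) * L ^ (-(1 / 4) : ℝ) * (1 + Real.log τ) ^ K := by
            rw [h2, one_mul]
        _ = L ^ (1 / 4 : ℝ) * (L ^ (-(1 / 4) : ℝ) * (1 + Real.log τ) ^ K) := by ring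
        _ ≤ _ := h1
        _ = C1 * (L ^ (1 / 4 : ℝ) * L ^ (-(1 / 4 - 1 / 1536) : ℝ)) := by ring
        _ = C1 * L ^ (1 / 1536 : ℝ) := by rw [h3]
    have hm := hmain V τ hN65 hV hτ1 (fun I => by rw [hτ]; exact pow_le_pow_right₀ hV (hKf I))
      (fun I => (pow_le_pow_right₀ hτ1 (hKf I)).trans hVN) ((pow_le_pow_right₀ hτ1 (by omega)).trans hVN)
    rw [← hL] at hm ⊢
    -- first part
    have hp1 : S0 * (N * (1 + Real.log τ) * L ^ (-(1 / 4) : ℝ)) ≤ S0 * C1 * N * L ^ (-(1 / 2000) : ℝ) := by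
      have h2 : 1 + Real.log τ ≤ (1 + Real.log τ) ^ K := by
        calc 1 + Real.log τ = (1 + Real.log τ) ^ 1 := (pow_one _).symm
          _ ≤ (1 + Real.log τ) ^ K := pow_le_pow_right₀ (by linarith) (by omega)
      have h3 : (1 + Real.log τ) * L ^ (-(1 / 4) : ℝ) ≤ C1 * L ^ (-(1 / 2000) : ℝ) := by
        calc (1 + Real.log τ) * L ^ (-(1 / 4) : ℝ) ≤ (C1 * L ^ (1 / 1536 : ℝ)) * L ^ (-(1 / 4) : ℝ) :=
              mul_le_mul_of_nonneg_right (h2.trans hPK) (Real.rpow_nonneg hlogN.le _)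
          _ = C1 * L ^ (1 / 1536 + -(1 / 4) : ℝ) := by rw [mul_assoc, ← Real.rpow_add hlogN]
          _ ≤ C1 * L ^ (-(1 / 2000) : ℝ) := mul_le_mul_of_nonneg_left (hmonoL _ (by norm_num)) hC1.le
      calc S0 * (N * (1 + Real.log τ) * L ^ (-(1 / 4) : ℝ)) =
          S0 * N * ((1 + Real.log τ) * L ^ (-(1 / 4) : ℝ)) := by ring
        _ ≤ S0 * N * (C1 * L ^ (-(1 / 2000) : ℝ)) := mul_le_mul_of_nonneg_left h3 (by positivity)
        _ = _ := by ring
    -- second part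
    have hp2 : B * N * L ^ (-(1 / 768) : ℝ) ≤ B * N * L ^ (-(1 / 2000) : ℝ) := by
      apply mul_le_mul_of_nonneg_left (hmonoL _ (by norm_num))
      positivity
    -- third part
    have hp3 : (∑ I, Cf I * N * ((1 + L) ^ Kf I * V ^ (-(1 / 16) : ℝ) + B * L ^ (-(1 / 768) : ℝ)) *
            (1 + Real.log τ) ^ Kf I) ≤ C0 * (C1 * (1 + B)) * N * L ^ (-(1 / 2000) : ℝ) := by
      have hterm : ∀ I, Cf I * N * ((1 + L) ^ Kf I * V ^ (-(1 / 16) : ℝ) + B * L ^ (-(1 / 768) : ℝ)) *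
            (1 + Real.log τ) ^ Kf I ≤ Cf I * ((C1 * (1 + B)) * N * L ^ (-(1 / 2000) : ℝ)) := by
        intro I
        have hCI := hCf I
        have a1 : (1 + L) ^ Kf I ≤ (1 + L) ^ K := pow_le_pow_right₀ (by linarith) (hKf I)
        have a2 : (1 + Real.log τ) ^ Kf I ≤ (1 + Real.log τ) ^ K :=
          pow_le_pow_right₀ (by linarith) (hKf I)
        have a3 : 0 ≤ V ^ (-(1 / 16) : ℝ) := Real.rpow_nonneg (by linarith) _
        have a4 : 0 ≤ (1 + Real.log τ) ^ Kf I := by positivity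
        have g1 : (1 + L) ^ Kf I * V ^ (-(1 / 16) : ℝ) * (1 + Real.log τ) ^ Kf I ≤
            C1 * L ^ (-(1 / 2000) : ℝ) := by
          calc (1 + L) ^ Kf I * V ^ (-(1 / 16) : ℝ) * (1 + Real.log τ) ^ Kf I ≤
              (1 + L) ^ K * V ^ (-(1 / 16) : ℝ) * (1 + Real.log τ) ^ K :=
                mul_le_mul (mul_le_mul_of_nonneg_right a1 a3) a2 a4 (by positivity)
            _ ≤ C1 * L ^ (-(1 / 4 - 1 / 1536) : ℝ) := hb1
            _ ≤ C1 * L ^ (-(1 / 2000) : ℝ) := mul_le_mul_of_nonneg_left (hmonoL _ (by norm_num)) hC1.le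
        have g2 : L ^ (-(1 / 768) : ℝ) * (1 + Real.log τ) ^ Kf I ≤ C1 * L ^ (-(1 / 2000) : ℝ) := by
          calc L ^ (-(1 / 768) : ℝ) * (1 + Real.log τ) ^ Kf I ≤
              L ^ (-(1 / 768) : ℝ) * (C1 * L ^ (1 / 1536 : ℝ)) :=
                mul_le_mul_of_nonneg_left (a2.trans hPK) (Real.rpow_nonneg hlogN.le _)
            _ = C1 * (L ^ (-(1 / 768) : ℝ) * L ^ (1 / 1536 : ℝ)) := by ring
            _ = C1 * L ^ (-(1 / 768) + 1 / 1536 : ℝ) := by rw [← Real.rpow_add hlogN]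
            _ ≤ C1 * L ^ (-(1 / 2000) : ℝ) := mul_le_mul_of_nonneg_left (hmonoL _ (by norm_num)) hC1.le
        have e1 : Cf I * N * ((1 + L) ^ Kf I * V ^ (-(1 / 16) : ℝ) + B * L ^ (-(1 / 768) : ℝ)) *
            (1 + Real.log τ) ^ Kf I = Cf I * (N * ((1 + L) ^ Kf I * V ^ (-(1 / 16) : ℝ) *
              (1 + Real.log τ) ^ Kf I + B * (L ^ (-(1 / 768) : ℝ) * (1 + Real.log τ) ^ Kf I))) := by ring
        have e2 : Cf I * ((C1 * (1 + B)) * N * L ^ (-(1 / 2000) : ℝ)) =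
            Cf I * (N * (C1 * L ^ (-(1 / 2000) : ℝ) + B * (C1 * L ^ (-(1 / 2000) : ℝ)))) := by ring
        rw [e1, e2]
        gcongr
      calc _ ≤ ∑ I, Cf I * ((C1 * (1 + B)) * N * L ^ (-(1 / 2000) : ℝ)) :=
            Finset.sum_le_sum fun I _ => hterm I
        _ = C0 * (C1 * (1 + B)) * N * L ^ (-(1 / 2000) : ℝ) := by
          rw [← Finset.sum_mul, ← hC0]
          ring
    have hlast : 0 ≤ N1 / c * N * L ^ (-(1 / 2000) : ℝ) := by positivity
    have e : (S0 * C1 + B + C0 * (C1 * (1 + B)) + N1 / c) * N * L ^ (-(1 / 2000) : ℝ) =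
            S0 * C1 * N * L ^ (-(1 / 2000) : ℝ) + B * N * L ^ (-(1 / 2000) : ℝ) +
            C0 * (C1 * (1 + B)) * N * L ^ (-(1 / 2000) : ℝ) + N1 / c * N * L ^ (-(1 / 2000) : ℝ) := by ring
    rw [e]
    linarith

open Classical in
/-- `mean_S` with the predicate `Si` -/
private theorem gtcount_meanS (g : Fin 3 → BQ) (hA : ∀ i, (g i).A ≠ 0) (hC : ∀ i, (g i).C ≠ 0)
    (hR : ∀ i j, i ≠ j → (g i).res (g j) ≠ 0) (hsq : ∀ i, ¬ IsSquare (g i).disc)
    (hV : IsSquare ((g 0).disc * (g 1).disc * (g 2).disc)) (i : Fin 3) :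
    ∃ B : ℝ, 0 < B ∧ ∀ x : ℝ, 2 ≤ x →
      ∑ n ∈ (Icc 1 ⌊x⌋₊).filter Squarefree, QT.pf (fun p => if Si g i p then 0 else 1) n ≤
        B * x * Real.log x ^ (-(1 / 4) : ℝ) := by
  obtain ⟨B, hB, hb⟩ := mean_S g hA hC hR hsq hV i
  refine ⟨B, hB, fun x hx => le_trans (le_of_eq ?_) (hb x hx)⟩
  refine Finset.sum_congr rfl fun n _ => ?_
  unfold QT.pf
  refine Finset.prod_congr rfl fun p _ => ?_
  have hiff : Si g i p ↔ (¬ p ∣ Rb g ∧ jacobiSym (g i).disc p = 1 ∧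
      (∀ j, j ≠ i → jacobiSym (g j).disc p = -1)) := Iff.rfl
  exact if_congr hiff rfl rfl

open Classical in
theorem countV (g : Fin 3 → BQ) (hA : ∀ i, (g i).A ≠ 0) (hC : ∀ i, (g i).C ≠ 0)
    (hR : ∀ i j, i ≠ j → (g i).res (g j) ≠ 0) (hsq : ∀ i, ¬ IsSquare (g i).disc)
    (hV : IsSquare ((g 0).disc * (g 1).disc * (g 2).disc))
    (hex : IsSquare ((g 0).res (g 1) * (g 0).res (g 2) * (g 1).res (g 2)) →
      IsSquare ((g 0).res (g 1)) ∨ IsSquare ((g 0).res (g 2)) ∨ IsSquare ((g 1).res (g 2))) :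
    ∃ C : ℝ, 0 < C ∧ ∀ (θ : ℕ → OddSet (Fin 3) → Fin 3 → ℤ) (N : ℕ), 2 ≤ N →
      ((((QT.Box (OddSet (Fin 3)) N).filter fun e => LocG θ g e).image fun e => ∏ U, e U).card : ℝ) ≤
        C * N * Real.log N ^ (-(1 / 2000) : ℝ) := by
  obtain ⟨B, hB, hBF⟩ := mean_F g hA hC hR hsq hV hex
  choose BS hBS hbS using gtcount_meanS g hA hC hR hsq hV
  have hwt : Wt g (WW g) (FW g) B (1 / 768) :=
    { W0 := fun p => by unfold WW; positivity
      W8 := ww_le g
      one := fun p hp h U hU => wt_one g hp h U hU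
      sum := fun p hp h => by
        refine le_trans (le_of_eq ?_) (wt_sum g hp h)
        congr 3
        exact Finset.filter_congr_decidable _ _ _
      F0 := fun p _ => by unfold FW; positivity
      B0 := hB
      η0 := by norm_num
      η1 := by norm_num
      bound := hBF }
  choose Cf Kf hCf hbf using gtcount_part g
  have : Nonempty (Finset (OddSet (Fin 3))) := ⟨∅⟩
  obtain ⟨C, hCpos, hCb⟩ := gtcount_ana Cf Kf hCf B (∑ i : Fin 3, 2 * BS i) hB
    (Finset.sum_nonneg fun i _ => by have := hBS i; positivity)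
  refine ⟨C, hCpos, ?_⟩
  intro θ N hN2
  apply hCb N _ hN2
  · have h1 : (((QT.Box (OddSet (Fin 3)) N).filter fun e => LocG θ g e).image fun e => ∏ U, e U) ⊆ Icc 1 N := by
      intro n hn
      obtain ⟨e, he, rfl⟩ := Finset.mem_image.1 hn
      obtain ⟨hbox, -⟩ := Finset.mem_filter.1 he
      obtain ⟨h6, h7, h8⟩ := Finset.mem_filter.1 hbox
      rw [Finset.mem_Icc]
      exact ⟨Nat.pos_of_ne_zero h8.ne_zero, h7⟩
    have h2 := Finset.card_le_card h1
    rw [Nat.card_Icc, Nat.add_sub_cancel] at h2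
    exact_mod_cast h2
  · intro V τ hN65 hV1 hτ1 hVτ hτN hτ2
    refine (gtcount_main g θ N τ).trans (add_le_add (add_le_add ?_ ?_) ?_)
    · rw [Finset.sum_mul]
      apply Finset.sum_le_sum
      intro i _
      have h1 := atyp (Si g i) (BS i) (1 / 4) (hBS i) (by norm_num) (by norm_num) (hbS i) N τ (by omega) hτ1 hτ2
      refine h1.trans (le_of_eq ?_)
      ring
    · have hN1 : (2 : ℝ) ≤ N := by exact_mod_cast hN2
      exact hBF N hN1
    · apply Finset.sum_le_sum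
      intro I _
      split_ifs with hI
      · exact hbf I hI (WW g) (FW g) B (1 / 768) hwt θ N V τ hN65 hV1 (hVτ I) (hτN I)
      · have hCI := hCf I
        have hlogτ : 0 ≤ Real.log τ := Real.log_nonneg hτ1
        have hlogN : 0 ≤ Real.log N := Real.log_natCast_nonneg _
        have hVp : 0 ≤ V ^ (-(1 / 16) : ℝ) := Real.rpow_nonneg (by linarith) _
        positivity

end ZG
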