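import Pool.Agent.Lib.MP_1ad228_nt.GTData

/-! JOB GTUnr.  The class of one point over a finite extension of `ℚ_p`, `p` good, `p ∤ D`.

Model: `ZC.point_unr` in `ZPoint.lean` (word for word the same proof, with `data` of `GTData`; helper lemmas `v_pow`, `v_prod`, `v_div`, `v_int`, `even_val` are in `GTVal`). -/

namespace ZG

open Finset ZC

variable {p : ℕ} [Fact p.Prime] {ι : Type} [Fintype ι] [DecidableEq ι]

private theorem gtunr_val_zero {F : Type} [Field F] {g : ι → BQ} {D : ℤ} (P : Pt F g D) (i : ι)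
    (h : (g i).ev P.x P.z = 0) :
    P.val i = (D : P.K) * ∏ j ∈ univ.erase i, (g j).ev P.x P.z := by
  unfold Pt.val
  rw [if_pos h]
  refine congrArg (fun t => (D : P.K) * t) (Finset.prod_congr ?_ fun _ _ => rfl)
  ext x
  exact (@Finset.mem_erase ι (fun a b => Classical.propDecidable (a = b)) x i univ).trans
    (Finset.mem_erase (a := x) (b := i) (s := univ)).symm

theorem point_unr (g : ι → BQ) (hg : Good g p) (D : ℤ) (hD : ¬ (p : ℤ) ∣ D) (P : Pt ℚ_[p] g D) (i : ι) :
    Even (Algebra.norm ℚ_[p] (P.val i)).valuation := by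
  obtain ⟨L⟩ := exists_lval p P.K
  obtain ⟨rho, lam, hrho, hlam, hle, hdich⟩ := data g D hg P L
  have hlam0 : lam ≠ 0 := fun h => by
    rw [h, (L.zero_iff 0).2 rfl] at hlam
    exact hrho.ne hlam
  have hvD : L.v (D : P.K) = 1 := v_int L hD
  have hval : ∀ i, L.v ((g i).ev P.x P.z) = rho ^ 2 → P.val i = (g i).ev P.x P.z ∧
      (g i).ev P.x P.z ≠ 0 := by
    intro i hi
    have h0 : (g i).ev P.x P.z ≠ 0 := fun h => by
      rw [h, (L.zero_iff 0).2 rfl] at hi
      exact (pow_pos hrho 2).ne hi
    refine ⟨?_, h0⟩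
    unfold Pt.val
    rw [if_neg h0]
  have hgood : L.v ((g i).ev P.x P.z) = rho ^ 2 → Even (Algebra.norm ℚ_[p] (P.val i)).valuation := by
    intro hi
    obtain ⟨e, h0⟩ := hval i hi
    rw [e]
    exact even_val L h0 hlam0 (by rw [hi, hlam])
  rcases hdich with hA | ⟨k, hk, hx, hz, hj⟩
  · exact hgood (hA i)
  · by_cases hik : i = k
    · subst hik
      have hz0 : P.z ≠ 0 := fun h => by
        rw [h, (L.zero_iff 0).2 rfl] at hz
        exact hrho.ne hz
      have hprod : L.v (∏ j ∈ univ.erase i, (g j).ev P.x P.z) =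
          rho ^ (2 * (univ.erase i).card) := by
        rw [v_prod, Finset.prod_congr rfl fun j hj' => hj j (Finset.mem_erase.1 hj').1, Finset.prod_const,
          ← pow_mul]
      by_cases h : (g i).ev P.x P.z = 0
      · have e : P.val i = (D : P.K) * ∏ j ∈ univ.erase i, (g j).ev P.x P.z :=
          gtunr_val_zero P i h
        rw [e]
        have hv : L.v ((D : P.K) * ∏ j ∈ univ.erase i, (g j).ev P.x P.z) =
            L.v (P.z ^ (univ.erase i).card) ^ 2 := by
          rw [L.mul, hvD, one_mul, hprod, v_pow, hz, ← pow_mul, mul_comm]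
        refine even_val L ?_ (pow_ne_zero _ hz0) hv
        intro h'
        rw [h', (L.zero_iff 0).2 rfl, v_pow, hz, ← pow_mul] at hv
        exact (pow_pos hrho _).ne hv
      · have e : P.val i = (g i).ev P.x P.z := by
          unfold Pt.val
          rw [if_neg h]
        rw [e]
        have h1 : L.v ((D : P.K) * P.w ^ 2) = L.v ((g i).ev P.x P.z) *
            rho ^ (2 * (univ.erase i).card) := by
          rw [P.eq, ← Finset.mul_prod_erase univ _ (Finset.mem_univ i), L.mul, hprod]
        rw [L.mul, hvD, one_mul, v_pow] at h1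
        have hv : L.v ((g i).ev P.x P.z) = L.v (P.w / P.z ^ (univ.erase i).card) ^ 2 := by
          rw [v_div, v_pow, hz, div_pow, h1, ← pow_mul, mul_comm (univ.erase i).card 2]
          field_simp
        refine even_val L h ?_ hv
        intro h'
        rw [h', (L.zero_iff 0).2 rfl] at hv
        have : L.v ((g i).ev P.x P.z) = 0 := by rw [hv]; norm_num
        exact h ((L.zero_iff _).1 this)
    · exact hgood (hj i hik)

end ZG
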