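import Pool.Agent.Lib.MP_1ad228_nt.GTPoint
import Pool.Agent.Lib.MP_1ad228_nt.GTUnr

/-! JOB GTCycle.  The class of a zero-cycle of degree one over `ℚ_p`, `p` good.

Model: `ZCycle.lean` (the same induction on the list, but with the three alternatives of `point_ram`).
`cycle_ram_aux`: induction on the list.  `[]`: `U = T = ∅`.  `(m, P) :: z`, `n = [P.K:ℚ_p]`, `U, T` from the induction hypothesis; `deg = m n + deg z`, `cls i = N(val i)^m * cls z i`.  `point_ram`: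
 (i) `n` even and all `N(val i)` squares: keep `U, T`.
 (ii) `n` odd, `a_k` a square, `N(val i) cc_i RR_i^ε` a square for all `i`.  The integers `cc g D p k i`, `RR g k i` are not zero (`Gk_unit`, `root_dvd`, `D ≠ 0`, `hg.res`).  If `m` is even: keep `U, T`.  If `m` is odd: `N(val i)^m * (cc_i RR_i^ε)` is a square;
   take `U' = symmDiff U {k}` and, if `ε` is odd, `T' = symmDiff T {k}` (if `ε` is even keep `T`): when `k ∈ U` remove it (`cc_i` occurs twice, a nonzero square), when `k ∉ U` insert it; the same for `T`.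
   The parity of `U.card` changes by one and the parity of the degree too.
 (iii) `n` even, `N(val i) RR g k i` a square for all `i`.  `m` even: keep; `m` odd: keep `U`, `T' = symmDiff T {k}`.
It may be convenient to prove first: for `T : Finset ι`, `k`, `f : ι → ℚ_[p]` with `f k ≠ 0` and `x`: `IsSquare (x * ∏ l ∈ T, f l)` implies `IsSquare (x * f k * ∏ l ∈ symmDiff T {k}, f l)`.
`cycle_ram`: degree `1` is odd, so `U.card` is odd.
`cycle_unr`: `Padic.valuation_mul`, `valuation_zpow`, `point_unr`, induction on the list (as in `ZCycle.lean`). -/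

namespace ZG

open Finset ZC

variable {p : ℕ} [Fact p.Prime] {ι : Type} [Fintype ι] [DecidableEq ι]

private theorem gtCycle_sq_zpow {F : Type} [Field F] {x : F} (h : IsSquare x) (m : ℤ) : IsSquare (x ^ m) := by
  obtain ⟨s, rfl⟩ := h
  exact ⟨s ^ m, mul_zpow s s m⟩

private theorem gtCycle_sq_even {F : Type} [Field F] {c : F} {m : ℤ} (h : Even m) : IsSquare (c ^ m) := by
  by_cases hc : c = 0
  · subst hc
    by_cases hm : m = 0
    · subst hm; exact ⟨1, by simp⟩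
    · rw [zero_zpow m hm]; exact ⟨0, by simp⟩
  obtain ⟨r, rfl⟩ := h
  exact ⟨c ^ r, zpow_add₀ hc r r⟩

/-- odd power times a nonzero element: reduce the exponent -/
private theorem gtCycle_sq_odd {F : Type} [Field F] {x c : F} {m : ℤ} (hm : Odd m) (hc : c ≠ 0)
    (h : IsSquare (x * c)) : IsSquare (x ^ m * c) := by
  have h1 := gtCycle_sq_zpow h m
  rw [mul_zpow] at h1
  have h2 : c ^ m = c * c ^ (m - 1) := by
    rw [zpow_sub_one₀ hc]
    field_simp [hc]
  rw [h2, ← mul_assoc] at h1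
  exact isSquare_of_mul h1 (gtCycle_sq_even (Odd.sub_odd hm odd_one)) (zpow_ne_zero _ hc)

/-- toggling an element -/
private def gtCycle_tog (T : Finset ι) (k : ι) : Finset ι := if k ∈ T then T.erase k else insert k T

private theorem gtCycle_tog_sq (T : Finset ι) (k : ι) {F : Type} [Field F] (f : ι → F) (hf : f k ≠ 0) {x : F}
    (h : IsSquare (x * ∏ l ∈ T, f l)) : IsSquare (x * f k * ∏ l ∈ gtCycle_tog T k, f l) := by
  unfold gtCycle_tog
  split_ifs with hk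
  · rw [← Finset.mul_prod_erase T _ hk] at h
    have e : x * f k * ∏ l ∈ T.erase k, f l = x * (f k * ∏ l ∈ T.erase k, f l) := by ring
    rw [e]
    exact h
  · rw [Finset.prod_insert hk]
    have e : x * f k * (f k * ∏ l ∈ T, f l) = (x * ∏ l ∈ T, f l) * (f k * f k) := by ring
    rw [e]
    exact h.mul ⟨f k, rfl⟩

private theorem gtCycle_tog_card (T : Finset ι) (k : ι) :
    Odd (gtCycle_tog T k).card ↔ ¬ Odd T.card := by
  unfold gtCycle_tog
  split_ifs with hk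
  · rw [Finset.card_erase_of_mem hk]
    have hcard : 0 < T.card := Finset.card_pos.2 ⟨k, hk⟩
    constructor
    · intro h h'
      obtain ⟨r, hr⟩ := h
      obtain ⟨s, hs⟩ := h'
      omega
    · intro h
      rw [Nat.not_odd_iff_even] at h
      obtain ⟨r, hr⟩ := h
      exact ⟨r - 1, by omega⟩
  · rw [Finset.card_insert_of_notMem hk, Nat.odd_add_one]

private theorem gtCycle_tog_mem {T : Finset ι} {k l : ι} (h : l ∈ gtCycle_tog T k) : l ∈ T ∨ l = k := by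
  unfold gtCycle_tog at h
  split_ifs at h with hk
  · exact Or.inl (Finset.mem_of_mem_erase h)
  · rcases Finset.mem_insert.1 h with h | h
    · exact Or.inr h
    · exact Or.inl h

private theorem gtCycle_RR_ne (g : ι → BQ) (hg : Good g p) (k i : ι) : RR g k i ≠ 0 := by
  have h0 : ∀ a b, a ≠ b → (g a).res (g b) ≠ 0 := by
    intro a b hab h
    exact hg.res a b hab (by rw [h]; exact dvd_zero _)
  unfold RR
  split_ifs with h
  · apply Finset.prod_ne_zero_iff.2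
    intro l hl
    exact h0 k l (Finset.mem_erase.1 hl).1.symm
  · exact h0 k i (fun h' => h h'.symm)

private theorem gtCycle_cc_ne (g : ι → BQ) (hg : Good g p) (D : ℤ) (hD0 : D ≠ 0) (k i : ι)
    (hk : IsSquare (((g k).disc : ℤ) : ℚ_[p])) : cc g D p k i ≠ 0 := by
  have hr := root_dvd g hg k hk
  have h0 : ∀ i, i ≠ k → Gk g p k i ≠ 0 := by
    intro i hik h
    exact Gk_unit g hg hik hr (by rw [h]; exact dvd_zero _)
  unfold cc
  split_ifs with h
  · apply mul_ne_zero hD0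
    apply Finset.prod_ne_zero_iff.2
    intro l hl
    exact h0 l (Finset.mem_erase.1 hl).1
  · exact h0 i h

/-- The case of a class which is a square after multiplication with a constant. -/
theorem cycle_ram_aux (g : ι → BQ) (hg : Good g p) (D : ℤ) (hD : (p : ℤ) ∣ D) (hD2 : ¬ (p : ℤ) ^ 2 ∣ D) (hD0 : D ≠ 0)
    (z : Cyc ℚ_[p] g D) :
    ∃ U T : Finset ι, (Odd z.deg ↔ Odd U.card) ∧ (∀ k ∈ U, IsSquare (((g k).disc : ℤ) : ℚ_[p])) ∧
      ∀ i, IsSquare (z.cls i * (∏ k ∈ U, ((cc g D p k i : ℤ) : ℚ_[p])) * ∏ k ∈ T, ((RR g k i : ℤ) : ℚ_[p])) := by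
  induction z with
  | nil =>
    refine ⟨∅, ∅, ?_, ?_, ?_⟩
    · simp [Cyc.deg]
    · intro k hk; simp at hk
    · intro i; simp [Cyc.cls]
  | cons q z ih =>
    obtain ⟨U, T, hU1, hU2, hU3⟩ := ih
    obtain ⟨m, P⟩ := q
    have hdeg : Cyc.deg ((m, P) :: z : Cyc ℚ_[p] g D) = m * (Module.finrank ℚ_[p] P.K : ℤ) + Cyc.deg z := by
      simp [Cyc.deg]
    have hcls : ∀ i, Cyc.cls ((m, P) :: z : Cyc ℚ_[p] g D) i =
        (Algebra.norm ℚ_[p] (P.val i)) ^ m * Cyc.cls z i := by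
      intro i
      simp [Cyc.cls]
    set n : ℕ := Module.finrank ℚ_[p] P.K with hn
    have hkeep : Even (m * (n : ℤ)) →
        (Odd (Cyc.deg ((m, P) :: z : Cyc ℚ_[p] g D)) ↔ Odd U.card) := by
      intro h1
      rw [hdeg, ← hU1, Int.odd_add']
      exact ⟨fun h => h.2 h1, fun h => ⟨fun _ => h1, fun _ => h⟩⟩
    have hsqkeep : (∀ i, IsSquare ((Algebra.norm ℚ_[p] (P.val i)) ^ m)) →
        ∀ i, IsSquare (Cyc.cls ((m, P) :: z : Cyc ℚ_[p] g D) i *
          (∏ k ∈ U, ((cc g D p k i : ℤ) : ℚ_[p])) * ∏ k ∈ T, ((RR g k i : ℤ) : ℚ_[p])) := by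
      intro h i
      rw [hcls]
      have e : (Algebra.norm ℚ_[p] (P.val i)) ^ m * Cyc.cls z i *
          (∏ k ∈ U, ((cc g D p k i : ℤ) : ℚ_[p])) * ∏ k ∈ T, ((RR g k i : ℤ) : ℚ_[p]) =
          (Algebra.norm ℚ_[p] (P.val i)) ^ m * (Cyc.cls z i *
          (∏ k ∈ U, ((cc g D p k i : ℤ) : ℚ_[p])) * ∏ k ∈ T, ((RR g k i : ℤ) : ℚ_[p])) := by ring
      rw [e]
      exact (h i).mul (hU3 i)
    rcases point_ram g hg D hD hD2 P with ⟨he, hsq⟩ | ⟨k, hod, hk1, ε, hk2⟩ | ⟨k, he, hk2⟩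
    · refine ⟨U, T, hkeep ?_, hU2, hsqkeep fun i => gtCycle_sq_zpow (hsq i) m⟩
      apply Even.mul_left
      exact_mod_cast he
    · rcases Int.even_or_odd m with hev | hmo
      · exact ⟨U, T, hkeep (hev.mul_right _), hU2, hsqkeep fun i => gtCycle_sq_even hev⟩
      · have hc0 : ∀ i, ((cc g D p k i : ℤ) : ℚ_[p]) ≠ 0 := fun i =>
          Int.cast_ne_zero.2 (gtCycle_cc_ne g hg D hD0 k i hk1)
        have hR0 : ∀ i, ((RR g k i : ℤ) : ℚ_[p]) ≠ 0 := fun i =>
          Int.cast_ne_zero.2 (gtCycle_RR_ne g hg k i)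
        have hodd : Odd (m * (n : ℤ)) := hmo.mul (by exact_mod_cast hod)
        -- N ^ m * cc * RR ^ ε is a square
        have h1 : ∀ i, IsSquare ((Algebra.norm ℚ_[p] (P.val i)) ^ m *
            (((cc g D p k i : ℤ) : ℚ_[p]) * ((RR g k i : ℤ) : ℚ_[p]) ^ ε)) := by
          intro i
          apply gtCycle_sq_odd hmo (mul_ne_zero (hc0 i) (pow_ne_zero _ (hR0 i)))
          have := hk2 i
          push_cast at this
          exact this
        have hdeg' : (Odd (Cyc.deg ((m, P) :: z : Cyc ℚ_[p] g D)) ↔ Odd (gtCycle_tog U k).card) := by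
          rw [hdeg, gtCycle_tog_card, ← hU1, Int.odd_add, Int.not_odd_iff_even]
          exact ⟨fun h => h.1 hodd, fun h => ⟨fun _ => h, fun _ => hodd⟩⟩
        have hU2' : ∀ l ∈ gtCycle_tog U k, IsSquare (((g l).disc : ℤ) : ℚ_[p]) := by
          intro l hl
          rcases gtCycle_tog_mem hl with hl | rfl
          · exact hU2 l hl
          · exact hk1
        -- toggling U
        have h2 : ∀ i, IsSquare ((Algebra.norm ℚ_[p] (P.val i)) ^ m * ((RR g k i : ℤ) : ℚ_[p]) ^ ε * Cyc.cls z i *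
            (∏ l ∈ gtCycle_tog U k, ((cc g D p l i : ℤ) : ℚ_[p])) * ∏ l ∈ T, ((RR g l i : ℤ) : ℚ_[p])) := by
          intro i
          have h3 : IsSquare ((Cyc.cls z i * ∏ l ∈ T, ((RR g l i : ℤ) : ℚ_[p])) *
              ∏ l ∈ U, ((cc g D p l i : ℤ) : ℚ_[p])) := by
            have e : (Cyc.cls z i * ∏ l ∈ T, ((RR g l i : ℤ) : ℚ_[p])) *
              ∏ l ∈ U, ((cc g D p l i : ℤ) : ℚ_[p]) = Cyc.cls z i *
              (∏ l ∈ U, ((cc g D p l i : ℤ) : ℚ_[p])) * ∏ l ∈ T, ((RR g l i : ℤ) : ℚ_[p]) := by ring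
            rw [e]
            exact hU3 i
          have h4 := gtCycle_tog_sq U k (fun l => ((cc g D p l i : ℤ) : ℚ_[p])) (hc0 i) h3
          have h5 := (h1 i).mul h4
          have e : (Algebra.norm ℚ_[p] (P.val i)) ^ m *
              (((cc g D p k i : ℤ) : ℚ_[p]) * ((RR g k i : ℤ) : ℚ_[p]) ^ ε) *
              ((Cyc.cls z i * ∏ l ∈ T, ((RR g l i : ℤ) : ℚ_[p])) * ((cc g D p k i : ℤ) : ℚ_[p]) *
                ∏ l ∈ gtCycle_tog U k, ((cc g D p l i : ℤ) : ℚ_[p])) =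
              ((Algebra.norm ℚ_[p] (P.val i)) ^ m * ((RR g k i : ℤ) : ℚ_[p]) ^ ε * Cyc.cls z i *
              (∏ l ∈ gtCycle_tog U k, ((cc g D p l i : ℤ) : ℚ_[p])) * ∏ l ∈ T, ((RR g l i : ℤ) : ℚ_[p])) *
              (((cc g D p k i : ℤ) : ℚ_[p]) * ((cc g D p k i : ℤ) : ℚ_[p])) := by ring
          rw [e] at h5
          exact isSquare_of_mul h5 ⟨_, rfl⟩ (mul_ne_zero (hc0 i) (hc0 i))
        rcases Nat.even_or_odd ε with hε | hε
        · refine ⟨gtCycle_tog U k, T, hdeg', hU2', ?_⟩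
          intro i
          rw [hcls]
          have h6 := h2 i
          have e : (Algebra.norm ℚ_[p] (P.val i)) ^ m * ((RR g k i : ℤ) : ℚ_[p]) ^ ε * Cyc.cls z i *
            (∏ l ∈ gtCycle_tog U k, ((cc g D p l i : ℤ) : ℚ_[p])) * ∏ l ∈ T, ((RR g l i : ℤ) : ℚ_[p]) =
            ((Algebra.norm ℚ_[p] (P.val i)) ^ m * Cyc.cls z i *
            (∏ l ∈ gtCycle_tog U k, ((cc g D p l i : ℤ) : ℚ_[p])) * ∏ l ∈ T, ((RR g l i : ℤ) : ℚ_[p])) *
            ((RR g k i : ℤ) : ℚ_[p]) ^ ε := by ring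
          rw [e] at h6
          exact isSquare_of_mul h6 (hε.isSquare_pow _) (pow_ne_zero _ (hR0 i))
        · refine ⟨gtCycle_tog U k, gtCycle_tog T k, hdeg', hU2', ?_⟩
          intro i
          rw [hcls]
          have h6 : IsSquare (((Algebra.norm ℚ_[p] (P.val i)) ^ m * ((RR g k i : ℤ) : ℚ_[p]) ^ ε * Cyc.cls z i *
            (∏ l ∈ gtCycle_tog U k, ((cc g D p l i : ℤ) : ℚ_[p]))) * ∏ l ∈ T, ((RR g l i : ℤ) : ℚ_[p])) := h2 i
          have h7 := gtCycle_tog_sq T k (fun l => ((RR g l i : ℤ) : ℚ_[p])) (hR0 i) h6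
          obtain ⟨r, hr⟩ := hε
          have e : (Algebra.norm ℚ_[p] (P.val i)) ^ m * ((RR g k i : ℤ) : ℚ_[p]) ^ ε * Cyc.cls z i *
            (∏ l ∈ gtCycle_tog U k, ((cc g D p l i : ℤ) : ℚ_[p])) * ((RR g k i : ℤ) : ℚ_[p]) *
            ∏ l ∈ gtCycle_tog T k, ((RR g l i : ℤ) : ℚ_[p]) =
            ((Algebra.norm ℚ_[p] (P.val i)) ^ m * Cyc.cls z i *
            (∏ l ∈ gtCycle_tog U k, ((cc g D p l i : ℤ) : ℚ_[p])) *
            ∏ l ∈ gtCycle_tog T k, ((RR g l i : ℤ) : ℚ_[p])) *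
            (((RR g k i : ℤ) : ℚ_[p]) ^ (r + 1) * ((RR g k i : ℤ) : ℚ_[p]) ^ (r + 1)) := by
            rw [hr]; ring
          rw [e] at h7
          exact isSquare_of_mul h7 ⟨_, rfl⟩ (mul_ne_zero (pow_ne_zero _ (hR0 i)) (pow_ne_zero _ (hR0 i)))
    · rcases Int.even_or_odd m with hev | hmo
      · exact ⟨U, T, hkeep (hev.mul_right _), hU2, hsqkeep fun i => gtCycle_sq_even hev⟩
      · have hR0 : ∀ i, ((RR g k i : ℤ) : ℚ_[p]) ≠ 0 := fun i =>
          Int.cast_ne_zero.2 (gtCycle_RR_ne g hg k i)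
        have heven : Even (m * (n : ℤ)) := by
          apply Even.mul_left
          exact_mod_cast he
        refine ⟨U, gtCycle_tog T k, hkeep heven, hU2, ?_⟩
        intro i
        rw [hcls]
        have h1 := gtCycle_sq_odd hmo (hR0 i) (hk2 i)
        have h7 := gtCycle_tog_sq T k (fun l => ((RR g l i : ℤ) : ℚ_[p])) (hR0 i) (hU3 i)
        have h8 := h1.mul h7
        have e : (Algebra.norm ℚ_[p] (P.val i)) ^ m * ((RR g k i : ℤ) : ℚ_[p]) *
            (Cyc.cls z i * (∏ k ∈ U, ((cc g D p k i : ℤ) : ℚ_[p])) * ((RR g k i : ℤ) : ℚ_[p]) *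
            ∏ l ∈ gtCycle_tog T k, ((RR g l i : ℤ) : ℚ_[p])) =
            ((Algebra.norm ℚ_[p] (P.val i)) ^ m * Cyc.cls z i *
            (∏ k ∈ U, ((cc g D p k i : ℤ) : ℚ_[p])) *
            ∏ l ∈ gtCycle_tog T k, ((RR g l i : ℤ) : ℚ_[p])) *
            (((RR g k i : ℤ) : ℚ_[p]) * ((RR g k i : ℤ) : ℚ_[p])) := by ring
        rw [e] at h8
        exact isSquare_of_mul h8 ⟨_, rfl⟩ (mul_ne_zero (hR0 i) (hR0 i))

theorem cycle_ram (g : ι → BQ) (hg : Good g p) (D : ℤ) (hD : (p : ℤ) ∣ D) (hD2 : ¬ (p : ℤ) ^ 2 ∣ D) (hD0 : D ≠ 0)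
    (z : Cyc ℚ_[p] g D) (hz : z.deg = 1) :
    ∃ (U : OddSet ι) (T : Finset ι), (∀ k ∈ U.1, IsSquare (((g k).disc : ℤ) : ℚ_[p])) ∧
      ∀ i, IsSquare (z.cls i * (∏ k ∈ U.1, ((cc g D p k i : ℤ) : ℚ_[p])) * ∏ k ∈ T, ((RR g k i : ℤ) : ℚ_[p])) := by
  obtain ⟨U, T, h1, h2, h3⟩ := cycle_ram_aux g hg D hD hD2 hD0 z
  exact ⟨⟨U, h1.1 (by rw [hz]; exact odd_one)⟩, T, h2, h3⟩

theorem cycle_unr (g : ι → BQ) (hg : Good g p) (hR : ∀ i j, i ≠ j → (g i).res (g j) ≠ 0) (D : ℤ)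
    (hD : ¬ (p : ℤ) ∣ D) (hD0 : D ≠ 0) (z : Cyc ℚ_[p] g D) (i : ι) : Even (z.cls i).valuation := by
  induction z with
  | nil => simp [Cyc.cls]
  | cons q z ih =>
    obtain ⟨m, P⟩ := q
    have hcls : Cyc.cls ((m, P) :: z : Cyc ℚ_[p] g D) i =
        (Algebra.norm ℚ_[p] (P.val i)) ^ m * Cyc.cls z i := by
      simp [Cyc.cls]
    have hz0 : Cyc.cls z i ≠ 0 := Cyc.cls_ne hR hD0 z i
    have hN0 : Algebra.norm ℚ_[p] (P.val i) ≠ 0 := Algebra.norm_ne_zero_iff.2 (P.val_ne hR hD0 i)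
    rw [hcls, Padic.valuation_mul (zpow_ne_zero _ hN0) hz0, Padic.valuation_zpow]
    exact (Even.mul_left (point_unr g hg D hD P i) m).add ih

end ZG
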