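import Pool.Agent.Lib.MP_1ad228_nt.GTVal

/-! JOB GTData.  The sizes of the values `g_i(x, z)` at a point over a finite extension of `ℚ_p`, `p` good.

This is the analogue of the private structure `Data` and the private theorem `data` of `ZPoint.lean` (there `g_i = x² - a_i z²`).
Write `ρ = max (v x) (v z) > 0`.
* `v (g_i) ≤ ρ²` because the coefficients are integers (`v_int_le`) and `L.add`.
* For `i ≠ j`: `ρ² ≤ max (v g_i) (v g_j)`.  Use the identities `BQ.res_z` and `BQ.res_x` of `GTDefs` (with `g = g i`, `h = g j`): the coefficients `A, B, C` and their polynomial combinations are integers, of absolute value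
  `≤ 1` (write them as casts of integers, e.g. `((g.A * h.C - h.A * g.C : ℤ) : K)`), and `v (res) = 1` (`v_int`, `hg.res`).  With `m = max (v g_i) (v g_j)`: `v z ^ 3 = v (res * z^3) ≤ ρ * m`
  and in the same way `v x ^ 3 ≤ ρ * m`.  One of `v x, v z` is `ρ`, so `ρ^3 ≤ ρ m`.
* so either all `v (g_i) = ρ²` or there is `k` with `v (g_k) < ρ²`, and then `v (g_j) = ρ²` for `j ≠ k`.  In the latter case `v x = v z = ρ`: if `v x < ρ` then `v z = ρ` and in
  `g_k = C z² + (A x + B z) x` the first term has absolute value `ρ²` (`v C = 1`, `hg.C`) and the second is smaller, so `v (g_k) = ρ²` (`v_eq_of_close`); if `v z < ρ`: the same with `A x²` (`hg.A`). -/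

namespace ZG

open Finset ZC

variable {p : ℕ} [Fact p.Prime] {ι : Type} [Fintype ι]

/-- everything about the point -/
structure Data (g : ι → BQ) (D : ℤ) (P : Pt ℚ_[p] g D) (L : LVal p P.K) (rho : ℝ) (lam : P.K) : Prop where
  rho_pos : 0 < rho
  v_lam : L.v lam = rho
  le : ∀ i, L.v ((g i).ev P.x P.z) ≤ rho ^ 2
  dich : (∀ i, L.v ((g i).ev P.x P.z) = rho ^ 2) ∨
    ∃ k, L.v ((g k).ev P.x P.z) < rho ^ 2 ∧ L.v P.x = rho ∧ L.v P.z = rho ∧
      ∀ j, j ≠ k → L.v ((g j).ev P.x P.z) = rho ^ 2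

section aux

variable {K : Type} [Field K] [Algebra ℚ_[p] K]

private theorem gtdata_cmul (L : LVal p K) {a y : K} {r : ℝ} (ha : L.v a ≤ 1) (hy : L.v y ≤ r) (hr : 0 ≤ r) :
    L.v (a * y) ≤ r := by
  rw [L.mul]
  calc L.v a * L.v y ≤ 1 * r := mul_le_mul ha hy (L.nonneg _) zero_le_one
    _ = r := one_mul r

private theorem gtdata_bil (L : LVal p K) {a b x y : K} {r : ℝ} (ha : L.v a ≤ 1) (hb : L.v b ≤ 1)
    (hx : L.v x ≤ r) (hy : L.v y ≤ r) (hr : 0 ≤ r) : L.v (a * x - b * y) ≤ r :=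
  (v_sub L _ _).trans (max_le (gtdata_cmul L ha hx hr) (gtdata_cmul L hb hy hr))

private theorem gtdata_det (L : LVal p K) (a b c d : ℤ) : L.v ((a : K) * b - (c : K) * d) ≤ 1 := by
  have := v_int_le L (a * b - c * d)
  push_cast at this
  exact this

private theorem gtdata_pair (L : LVal p K) (g h : BQ) (hres : ¬ (p : ℤ) ∣ g.res h) (x z : K) (rho m : ℝ)
    (hx : L.v x ≤ rho) (hz : L.v z ≤ rho) (hm : L.v (g.ev x z) ≤ m) (hm' : L.v (h.ev x z) ≤ m) :
    L.v z ^ 3 ≤ rho * m ∧ L.v x ^ 3 ≤ rho * m := by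
  have hrho : 0 ≤ rho := (L.nonneg _).trans hx
  have hm0 : 0 ≤ m := (L.nonneg _).trans hm
  constructor
  · have e := BQ.res_z g h x z
    have h1 : L.v ((g.res h : K) * z ^ 3) = L.v z ^ 3 := by rw [L.mul, v_int L hres, one_mul, v_pow]
    rw [← h1, e]
    refine (L.add _ _).trans (max_le ?_ ?_)
    · rw [L.mul]
      exact mul_le_mul (gtdata_bil L (gtdata_det L _ _ _ _) (gtdata_det L _ _ _ _) hz hx hrho)
        (gtdata_bil L (v_int_le L _) (v_int_le L _) hm' hm hm0) (L.nonneg _) hrho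
    · rw [L.mul]
      exact mul_le_mul (gtdata_cmul L (gtdata_det L _ _ _ _) hz hrho)
        (gtdata_bil L (v_int_le L _) (v_int_le L _) hm hm' hm0) (L.nonneg _) hrho
  · have e := BQ.res_x g h x z
    have h1 : L.v ((g.res h : K) * x ^ 3) = L.v x ^ 3 := by rw [L.mul, v_int L hres, one_mul, v_pow]
    rw [← h1, e]
    refine (v_sub L _ _).trans (max_le ?_ ?_)
    · rw [L.mul]
      exact mul_le_mul (gtdata_bil L (gtdata_det L _ _ _ _) (gtdata_det L _ _ _ _) hx hz hrho)
        (gtdata_bil L (v_int_le L _) (v_int_le L _) hm hm' hm0) (L.nonneg _) hrho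
    · rw [L.mul]
      exact mul_le_mul (gtdata_cmul L (gtdata_det L _ _ _ _) hx hrho)
        (gtdata_bil L (v_int_le L _) (v_int_le L _) hm hm' hm0) (L.nonneg _) hrho

end aux

theorem data (g : ι → BQ) (D : ℤ) (hg : Good g p) (P : Pt ℚ_[p] g D) (L : LVal p P.K) :
    ∃ rho lam, Data g D P L rho lam := by
  set rho := max (L.v P.x) (L.v P.z) with hrho
  have hpos : 0 < rho := by
    by_contra h
    have h1 : L.v P.x ≤ 0 := (le_max_left _ _).trans (not_lt.1 h)
    have h2 : L.v P.z ≤ 0 := (le_max_right _ _).trans (not_lt.1 h)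
    exact P.ne ⟨(L.zero_iff _).1 (le_antisymm h1 (L.nonneg _)), (L.zero_iff _).1 (le_antisymm h2 (L.nonneg _))⟩
  have hxr : L.v P.x ≤ rho := le_max_left _ _
  have hzr : L.v P.z ≤ rho := le_max_right _ _
  have hx0 := L.nonneg P.x
  have hz0 := L.nonneg P.z
  have hlin : ∀ (a b : ℤ), L.v ((a : P.K) * P.x + (b : P.K) * P.z) ≤ rho := fun a b =>
    (L.add _ _).trans (max_le (gtdata_cmul L (v_int_le L _) hxr hpos.le) (gtdata_cmul L (v_int_le L _) hzr hpos.le))
  have e1 : ∀ i, (g i).ev P.x P.z = (((g i).A : P.K) * P.x + ((g i).B : P.K) * P.z) * P.x + ((g i).C : P.K) * P.z ^ 2 := by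
    intro i
    unfold BQ.ev
    ring
  have e2 : ∀ i, (g i).ev P.x P.z = (((g i).B : P.K) * P.x + ((g i).C : P.K) * P.z) * P.z + ((g i).A : P.K) * P.x ^ 2 := by
    intro i
    unfold BQ.ev
    ring
  have hle : ∀ i, L.v ((g i).ev P.x P.z) ≤ rho ^ 2 := by
    intro i
    rw [e1 i]
    refine (L.add _ _).trans (max_le ?_ ?_)
    · rw [L.mul, pow_two]
      exact mul_le_mul (hlin _ _) hxr hx0 hpos.le
    · refine gtdata_cmul L (v_int_le L _) ?_ (pow_nonneg hpos.le 2)
      rw [v_pow]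
      exact pow_le_pow_left₀ hz0 hzr 2
  have hge : ∀ i j, i ≠ j → rho ^ 2 ≤ max (L.v ((g i).ev P.x P.z)) (L.v ((g j).ev P.x P.z)) := by
    intro i j hij
    obtain ⟨h1, h2⟩ := gtdata_pair L (g i) (g j) (hg.res i j hij) P.x P.z rho _ hxr hzr (le_max_left _ _)
      (le_max_right _ _)
    have h3 : rho ^ 3 ≤ rho * max (L.v ((g i).ev P.x P.z)) (L.v ((g j).ev P.x P.z)) := by
      rcases max_choice (L.v P.x) (L.v P.z) with h | h
      · rw [← hrho] at h
        rw [← h] at h2
        exact h2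
      · rw [← hrho] at h
        rw [← h] at h1
        exact h1
    rw [show rho ^ 3 = rho * rho ^ 2 by ring] at h3
    exact le_of_mul_le_mul_left h3 hpos
  obtain ⟨lam, hlam⟩ : ∃ lam, L.v lam = rho := by
    rcases max_choice (L.v P.x) (L.v P.z) with h | h
    · exact ⟨P.x, by rw [hrho, h]⟩
    · exact ⟨P.z, by rw [hrho, h]⟩
  refine ⟨rho, lam, hpos, hlam, hle, ?_⟩
  by_cases hA : ∀ i, L.v ((g i).ev P.x P.z) = rho ^ 2
  · exact Or.inl hA
  · push Not at hA
    obtain ⟨k, hk⟩ := hA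
    have hk' := lt_of_le_of_ne (hle k) hk
    refine Or.inr ⟨k, hk', ?_, ?_, ?_⟩
    · by_contra hx
      have hx' : L.v P.x < rho := lt_of_le_of_ne hxr hx
      have hz : L.v P.z = rho := by
        rcases max_choice (L.v P.x) (L.v P.z) with h | h
        · exact absurd (by rw [hrho, h]) hx
        · rw [hrho, h]
      apply hk
      have h1 : L.v (((g k).C : P.K) * P.z ^ 2) = rho ^ 2 := by
        rw [L.mul, v_int L (hg.C k), one_mul, v_pow, hz]
      rw [← h1]
      apply v_eq_of_close L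
      rw [h1, e1 k, add_sub_cancel_right, L.mul, pow_two]
      calc L.v (((g k).A : P.K) * P.x + ((g k).B : P.K) * P.z) * L.v P.x ≤ rho * L.v P.x :=
            mul_le_mul_of_nonneg_right (hlin _ _) hx0
        _ < rho * rho := mul_lt_mul_of_pos_left hx' hpos
    · by_contra hz
      have hz' : L.v P.z < rho := lt_of_le_of_ne hzr hz
      have hx : L.v P.x = rho := by
        rcases max_choice (L.v P.x) (L.v P.z) with h | h
        · rw [hrho, h]
        · exact absurd (by rw [hrho, h]) hz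
      apply hk
      have h1 : L.v (((g k).A : P.K) * P.x ^ 2) = rho ^ 2 := by
        rw [L.mul, v_int L (hg.A k), one_mul, v_pow, hx]
      rw [← h1]
      apply v_eq_of_close L
      rw [h1, e2 k, add_sub_cancel_right, L.mul, pow_two]
      calc L.v (((g k).B : P.K) * P.x + ((g k).C : P.K) * P.z) * L.v P.z ≤ rho * L.v P.z :=
            mul_le_mul_of_nonneg_right (hlin _ _) hz0
        _ < rho * rho := mul_lt_mul_of_pos_left hz' hpos
    · intro j hj
      refine le_antisymm (hle j) ?_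
      rcases le_max_iff.1 (hge j k hj) with h | h
      · exact h
      · exact absurd h (not_le.2 hk')

end ZG
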