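import Pool.Agent.Lib.MP_1ad228_nt.ZDefs

/-! MP_1ad228_nt: zero-cycles of degree one on the quadratic twists of the curves `w² = g_1 g_2 ... g_r`, where the
`g_i(x, z)` are binary quadratic forms with integer coefficients (arbitrary middle terms).  Definitions. -/

namespace ZG

open Finset

/-- A binary quadratic form `A x² + B x z + C z²` with integer coefficients. -/
structure BQ where
  A : ℤ
  B : ℤ
  C : ℤ

/-- The value of the form at `(x, z)`. -/
def BQ.ev {F : Type} [CommRing F] (g : BQ) (x z : F) : F :=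
  (g.A : F) * x ^ 2 + (g.B : F) * x * z + (g.C : F) * z ^ 2

/-- The discriminant of the form. -/
def BQ.disc (g : BQ) : ℤ := g.B ^ 2 - 4 * g.A * g.C

/-- The resultant of two forms. -/
def BQ.res (g h : BQ) : ℤ :=
  (g.A * h.C - h.A * g.C) ^ 2 - (g.A * h.B - h.A * g.B) * (g.B * h.C - h.B * g.C)

/-- A point of the curve `D w² = ∏ g_i(x, z)` with coordinates in a finite extension `K` of `F`. -/
structure Pt (F : Type) [Field F] {ι : Type} [Fintype ι] (g : ι → BQ) (D : ℤ) where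
  K : Type
  [field : Field K]
  [alg : Algebra F K]
  [fin : FiniteDimensional F K]
  x : K
  z : K
  w : K
  ne : ¬ (x = 0 ∧ z = 0)
  eq : (D : K) * w ^ 2 = ∏ i, (g i).ev x z

attribute [instance] Pt.field Pt.alg Pt.fin

open Classical in
/-- The value at `P` of the function `g_i`, up to squares.  (If `g_i` vanishes at `P` we use
`D ∏_{j ≠ i} g_j`, which is the same function up to squares, since `g_i * (D ∏_{j ≠ i} g_j) = (D w)²` on the curve.) -/
noncomputable def Pt.val {F : Type} [Field F] {ι : Type} [Fintype ι] {g : ι → BQ} {D : ℤ}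
    (P : Pt F g D) (i : ι) : P.K :=
  if (g i).ev P.x P.z = 0 then (D : P.K) * ∏ j ∈ univ.erase i, (g j).ev P.x P.z
  else (g i).ev P.x P.z

/-- A zero-cycle on `D w² = ∏ g_i` over `F`: a formal integral combination of points over finite extensions. -/
abbrev Cyc (F : Type) [Field F] {ι : Type} [Fintype ι] (g : ι → BQ) (D : ℤ) := List (ℤ × Pt F g D)

/-- The degree of a zero-cycle. -/
noncomputable def Cyc.deg {F : Type} [Field F] {ι : Type} [Fintype ι] {g : ι → BQ} {D : ℤ}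
    (z : Cyc F g D) : ℤ :=
  (z.map fun q => q.1 * (Module.finrank F q.2.K : ℤ)).sum

/-- The value of the function `g_i` at a zero-cycle, an element of `F*` modulo squares: for every `β ∈ F*` the value
of the Brauer class `(g_i, β)` at the zero-cycle is the class of the quaternion algebra `(z.cls i, β)`. -/
noncomputable def Cyc.cls {F : Type} [Field F] {ι : Type} [Fintype ι] {g : ι → BQ} {D : ℤ}
    (z : Cyc F g D) (i : ι) : F :=
  (z.map fun q => (Algebra.norm F (q.2.val i)) ^ q.1).prod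

/-- There is a family of zero-cycles of degree one, one for each place of `ℚ`, which is orthogonal to all the Brauer
classes `(g_i, β)`, `β ∈ ℚ*`. -/
def Adelic {ι : Type} [Fintype ι] (g : ι → BQ) (D : ℤ) : Prop :=
  ∃ (z : ∀ (p : ℕ) [Fact p.Prime], Cyc ℚ_[p] g D) (z₀ : Cyc ℝ g D),
    (∀ (p : ℕ) [Fact p.Prime], (z p).deg = 1) ∧ z₀.deg = 1 ∧
    ∀ (i : ι) (β : ℚ), β ≠ 0 → ZC.SumZero (fun p _ => (z p).cls i) (z₀.cls i) β

/-- There is a zero-cycle of degree one over `ℚ`. -/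
def Global {ι : Type} [Fintype ι] (g : ι → BQ) (D : ℤ) : Prop :=
  ∃ z : Cyc ℚ g D, z.deg = 1

/-- The sets of odd cardinality. -/
abbrev OddSet (ι : Type) := ZC.OddSet ι

/-- The product of the bad primes (with multiplicities). -/
def Rb {ι : Type} [Fintype ι] [DecidableEq ι] (g : ι → BQ) : ℕ :=
  2 * (∏ i, (g i).A.natAbs) * (∏ i, (g i).C.natAbs) * (∏ i, (g i).disc.natAbs) *
    ∏ i, ∏ j ∈ univ.erase i, ((g i).res (g j)).natAbs

/-- The good primes. -/
structure Good {ι : Type} (g : ι → BQ) (p : ℕ) : Prop where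
  two : p ≠ 2
  A : ∀ i, ¬ (p : ℤ) ∣ (g i).A
  C : ∀ i, ¬ (p : ℤ) ∣ (g i).C
  disc : ∀ i, ¬ (p : ℤ) ∣ (g i).disc
  res : ∀ i j, i ≠ j → ¬ (p : ℤ) ∣ (g i).res (g j)

/-- The entries of the matrix of resultants (multiplicative Laplacian). -/
def RR {ι : Type} [Fintype ι] [DecidableEq ι] (g : ι → BQ) (k i : ι) : ℤ :=
  if i = k then ∏ l ∈ univ.erase k, (g k).res (g l) else (g k).res (g i)

open Classical in
/-- A square root of `a` modulo `p`, if there is one. -/
noncomputable def rootInt (a : ℤ) (p : ℕ) : ℤ :=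
  if h : ∃ s : ℤ, (p : ℤ) ∣ s ^ 2 - a then h.choose else 0

/-- The value of `g_i` at the root `(s - B_k, 2 A_k)` of `g_k` modulo `p`. -/
noncomputable def Gk {ι : Type} (g : ι → BQ) (p : ℕ) (k i : ι) : ℤ :=
  (g i).ev (rootInt (g k).disc p - (g k).B) (2 * (g k).A)

/-- The constants of the local classes at the primes dividing `D`. -/
noncomputable def cc {ι : Type} [Fintype ι] [DecidableEq ι] (g : ι → BQ) (D : ℤ) (p : ℕ) (k i : ι) : ℤ :=
  if i = k then D * ∏ l ∈ univ.erase k, Gk g p k l else Gk g p k i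

/-- The part of the constants prime to `p`. -/
noncomputable def th {ι : Type} [Fintype ι] [DecidableEq ι] (g : ι → BQ) (p : ℕ) (U : Finset ι) (i : ι) : ℤ :=
  (∏ k ∈ U.erase i, Gk g p k i) * (if i ∈ U then ∏ l ∈ univ.erase i, Gk g p i l else 1)

/-- The coefficients which occur for `δ_i = s_i ∏_{U ∋ i} e_U`. -/
noncomputable def theta {ι : Type} [Fintype ι] [DecidableEq ι] (g : ι → BQ) (s : ι → ℤ) (p : ℕ) (U : OddSet ι)
    (i : ι) : ℤ := s i * th g p U.1 i

/-- The kernel (modulo 2) of the Laplacian of the graph of non-residue resultants, as a family of subsets. -/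
def Kr {ι : Type} [Fintype ι] [DecidableEq ι] (g : ι → BQ) (p : ℕ) : Finset (Finset ι) :=
  univ.filter fun S => ∀ k, jacobiSym (∏ i ∈ S, RR g k i) p = 1

/-- The local conditions satisfied by the factorisation `D = g ∏ e_U`. -/
def LocG {ι : Type} [Fintype ι] [DecidableEq ι] (θ : ℕ → OddSet ι → ι → ℤ) (g : ι → BQ) (e : OddSet ι → ℕ) : Prop :=
  ∀ U : OddSet ι, ∀ p : ℕ, p.Prime → p ∣ e U →
    ¬ p ∣ Rb g ∧ (∀ i, ¬ (p : ℤ) ∣ θ p U i) ∧ (∀ k ∈ U.1, jacobiSym (g k).disc p = 1) ∧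
    ∀ S ∈ Kr g p, Even (S ∩ U.1).card →
      jacobiSym ((∏ i ∈ S, θ p U i) * ∏ U' : OddSet ι with Odd (S ∩ U'.1).card, (e U' : ℤ)) p = 1

theorem BQ.ev_map {F F' : Type} [CommRing F] [CommRing F'] (φ : F →+* F') (g : BQ) (x z : F) :
    φ (g.ev x z) = g.ev (φ x) (φ z) := by
  unfold BQ.ev
  simp only [map_add, map_mul, map_pow, map_intCast]

theorem BQ.ev_cast {F : Type} [CommRing F] (g : BQ) (x z : ℤ) : ((g.ev x z : ℤ) : F) = g.ev (x : F) (z : F) := by
  have h := BQ.ev_map (Int.castRingHom F) g x z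
  simpa using h

theorem BQ.ev_smul {F : Type} [CommRing F] (g : BQ) (c x z : F) : g.ev (c * x) (c * z) = c ^ 2 * g.ev x z := by
  unfold BQ.ev
  ring

/-- the discriminant identity -/
theorem BQ.four_A {F : Type} [CommRing F] (g : BQ) (x z : F) :
    4 * (g.A : F) * g.ev x z = (2 * (g.A : F) * x + (g.B : F) * z) ^ 2 - (g.disc : F) * z ^ 2 := by
  unfold BQ.ev BQ.disc
  push_cast
  ring

theorem BQ.res_z {F : Type} [CommRing F] (g h : BQ) (x z : F) :
    (g.res h : F) * z ^ 3 =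
      (((g.A : F) * h.C - h.A * g.C) * z - ((g.A : F) * h.B - h.A * g.B) * x) *
        ((g.A : F) * h.ev x z - (h.A : F) * g.ev x z) +
      ((g.A : F) * h.B - h.A * g.B) * z * ((h.B : F) * g.ev x z - (g.B : F) * h.ev x z) := by
  unfold BQ.res BQ.ev
  push_cast
  ring

theorem BQ.res_x {F : Type} [CommRing F] (g h : BQ) (x z : F) :
    (g.res h : F) * x ^ 3 =
      (((g.A : F) * h.C - h.A * g.C) * x - ((g.B : F) * h.C - h.B * g.C) * z) *
        ((h.C : F) * g.ev x z - (g.C : F) * h.ev x z) -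
      ((g.B : F) * h.C - h.B * g.C) * x * ((h.B : F) * g.ev x z - (g.B : F) * h.ev x z) := by
  unfold BQ.res BQ.ev
  push_cast
  ring

/-- the product of the values of `h` at the two roots of `g` -/
theorem BQ.root_prod {F : Type} [CommRing F] (g h : BQ) (s : F) (hs : s ^ 2 = (g.disc : F)) :
    h.ev (s - (g.B : F)) (2 * (g.A : F)) * h.ev (-s - (g.B : F)) (2 * (g.A : F)) =
      16 * (g.A : F) ^ 2 * (g.res h : F) := by
  have h1 : s ^ 2 = (g.B : F) ^ 2 - 4 * (g.A : F) * (g.C : F) := by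
    rw [hs]
    unfold BQ.disc
    push_cast
    ring
  have h4 : s ^ 4 = ((g.B : F) ^ 2 - 4 * (g.A : F) * (g.C : F)) ^ 2 := by rw [← h1]; ring
  unfold BQ.ev BQ.res
  push_cast
  linear_combination (exp := 1) (h.A : F) ^ 2 * h4 + (-2 * (h.A : F) ^ 2 * (g.B : F) ^ 2 +
    4 * (h.A : F) * (g.A : F) * (g.B : F) * (h.B : F) - 4 * (g.A : F) ^ 2 * (h.B : F) ^ 2 +
    8 * (g.A : F) ^ 2 * (h.A : F) * (h.C : F)) * h1

/-- the same with the error term, for `s` arbitrary -/
theorem BQ.root_prod_mod (g h : BQ) (s : ℤ) : (s ^ 2 - g.disc) ∣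
    h.ev (s - g.B) (2 * g.A) * h.ev (-s - g.B) (2 * g.A) - 16 * g.A ^ 2 * g.res h := by
  refine ⟨h.A ^ 2 * (s ^ 2 + g.disc) + (-2 * h.A ^ 2 * g.B ^ 2 + 4 * h.A * g.A * g.B * h.B - 4 * g.A ^ 2 * h.B ^ 2 +
    8 * g.A ^ 2 * h.A * h.C), ?_⟩
  unfold BQ.ev BQ.res BQ.disc
  push_cast
  ring

theorem BQ.root_self {F : Type} [CommRing F] (g : BQ) (s : F) (hs : s ^ 2 = (g.disc : F)) :
    g.ev (s - (g.B : F)) (2 * (g.A : F)) = 0 := by
  have h1 : s ^ 2 = (g.B : F) ^ 2 - 4 * (g.A : F) * (g.C : F) := by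
    rw [hs]
    unfold BQ.disc
    push_cast
    ring
  unfold BQ.ev
  linear_combination (g.A : F) * h1

theorem BQ.res_comm (g h : BQ) : g.res h = h.res g := by
  unfold BQ.res
  ring

theorem rootInt_spec {a : ℤ} {p : ℕ} (h : ∃ s : ℤ, (p : ℤ) ∣ s ^ 2 - a) : (p : ℤ) ∣ rootInt a p ^ 2 - a := by
  unfold rootInt
  rw [dif_pos h]
  exact h.choose_spec

/-- two forms without common zero: in particular both do not vanish at a point -/
theorem BQ.res_zero {F : Type} [Field F] (g h : BQ) (x z : F) (hne : ¬ (x = 0 ∧ z = 0)) (hr : (g.res h : F) ≠ 0)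
    (hg : g.ev x z = 0) : h.ev x z ≠ 0 := by
  intro hh
  have h1 := BQ.res_z g h x z
  have h2 := BQ.res_x g h x z
  rw [hg, hh] at h1 h2
  simp only [mul_zero, sub_zero, add_zero, mul_eq_zero, hr, false_or] at h1 h2
  exact hne ⟨pow_eq_zero_iff three_ne_zero |>.1 h2, pow_eq_zero_iff three_ne_zero |>.1 h1⟩

theorem Pt.val_ne {F : Type} [Field F] [CharZero F] {ι : Type} [Fintype ι] {g : ι → BQ}
    (hR : ∀ i j, i ≠ j → (g i).res (g j) ≠ 0) {D : ℤ} (hD : D ≠ 0) (P : Pt F g D) (i : ι) : P.val i ≠ 0 := by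
  classical
  have : CharZero P.K := charZero_of_injective_algebraMap (algebraMap F P.K).injective
  unfold Pt.val
  split_ifs with h
  · refine mul_ne_zero (by exact_mod_cast hD) (Finset.prod_ne_zero_iff.2 fun j hj => ?_)
    have hji : j ≠ i := (Finset.mem_erase.1 hj).1
    exact BQ.res_zero (g i) (g j) P.x P.z P.ne (by exact_mod_cast hR i j hji.symm) h
  · exact h

theorem Cyc.cls_ne {F : Type} [Field F] [CharZero F] {ι : Type} [Fintype ι] {g : ι → BQ}
    (hR : ∀ i j, i ≠ j → (g i).res (g j) ≠ 0) {D : ℤ} (hD : D ≠ 0) (z : Cyc F g D) (i : ι) : z.cls i ≠ 0 := by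
  unfold Cyc.cls
  apply List.prod_ne_zero
  intro h
  obtain ⟨q, _, hq⟩ := List.mem_map.1 h
  have : Algebra.norm F (q.2.val i) ≠ 0 := Algebra.norm_ne_zero_iff.2 (q.2.val_ne hR hD i)
  exact zpow_ne_zero _ this hq

section Rb

variable {ι : Type} [Fintype ι] [DecidableEq ι] (g : ι → BQ)

theorem Rb_ne (hA : ∀ i, (g i).A ≠ 0) (hC : ∀ i, (g i).C ≠ 0) (hd : ∀ i, (g i).disc ≠ 0)
    (hR : ∀ i j, i ≠ j → (g i).res (g j) ≠ 0) : Rb g ≠ 0 := by
  unfold Rb
  refine mul_ne_zero (mul_ne_zero (mul_ne_zero (mul_ne_zero two_ne_zero ?_) ?_) ?_) ?_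
  · exact Finset.prod_ne_zero_iff.2 fun i _ => Int.natAbs_ne_zero.2 (hA i)
  · exact Finset.prod_ne_zero_iff.2 fun i _ => Int.natAbs_ne_zero.2 (hC i)
  · exact Finset.prod_ne_zero_iff.2 fun i _ => Int.natAbs_ne_zero.2 (hd i)
  · refine Finset.prod_ne_zero_iff.2 fun i _ => Finset.prod_ne_zero_iff.2 fun j hj => ?_
    exact Int.natAbs_ne_zero.2 (hR i j (Finset.mem_erase.1 hj).1.symm)

theorem two_dvd_Rb : 2 ∣ Rb g := by
  unfold Rb
  exact (((dvd_mul_right 2 _).mul_right _).mul_right _).mul_right _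

theorem good_of_not_dvd {p : ℕ} (h : ¬ p ∣ Rb g) : Good g p := by
  have key : ∀ {n : ℤ} {m : ℕ}, n.natAbs ∣ m → m ∣ Rb g → ¬ (p : ℤ) ∣ n := by
    intro n m h1 h2 h3
    exact h ((Int.natCast_dvd.1 h3).trans (h1.trans h2))
  refine ⟨?_, ?_, ?_, ?_, ?_⟩
  · rintro rfl
    exact h (two_dvd_Rb g)
  · intro i
    refine key (Finset.dvd_prod_of_mem (fun i => (g i).A.natAbs) (Finset.mem_univ i)) ?_
    unfold Rb
    exact (((dvd_mul_left _ 2).mul_right _).mul_right _).mul_right _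
  · intro i
    refine key (Finset.dvd_prod_of_mem (fun i => (g i).C.natAbs) (Finset.mem_univ i)) ?_
    unfold Rb
    exact ((dvd_mul_left _ _).mul_right _).mul_right _
  · intro i
    refine key (Finset.dvd_prod_of_mem (fun i => (g i).disc.natAbs) (Finset.mem_univ i)) ?_
    unfold Rb
    exact (dvd_mul_left _ _).mul_right _
  · intro i j hij
    have h1 : ((g i).res (g j)).natAbs ∣ ∏ i, ∏ j ∈ univ.erase i, ((g i).res (g j)).natAbs :=
      (Finset.dvd_prod_of_mem (fun j => ((g i).res (g j)).natAbs)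
        (Finset.mem_erase.2 ⟨hij.symm, Finset.mem_univ j⟩)).trans
      (Finset.dvd_prod_of_mem (fun i => ∏ j ∈ univ.erase i, ((g i).res (g j)).natAbs) (Finset.mem_univ i))
    refine key h1 ?_
    unfold Rb
    exact dvd_mul_left _ _

end Rb

end ZG
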