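import Pool.Agent.Lib.MP_10e784_ag.QEuler

/-! JOB GTEul.  The logarithm of an Euler product.

Proof.  Let `f : ℕ →*₀ ℝ` be `n ↦ χ n * n^(-σ)` (see the proof of `QT.euler_ub` in `QEuler.lean`, where it is called `g`), `|f n| ≤ n^(-σ)`, summable (`Real.summable_nat_rpow`).
`EulerProduct.eulerProduct_completely_multiplicative_hasProd`: `HasProd (fun p : Nat.Primes => (1 - f p)⁻¹) (∑' n, f n)`.  For a prime `|f p| ≤ p^(-σ) ≤ 1/2`, so `(1 - f p)⁻¹ > 0`.
`0 < ∑' f`: e.g. from the product: all partial products are `≥ ∏ (1 + p^(-σ))⁻¹ ≥ exp (- ∑' p^(-σ)) > 0` (`1 + t ≤ exp t`), and the limit of numbers `≥ c` is `≥ c`.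
Logarithm: by continuity of `log` at the (positive) limit, `HasSum (fun p : Nat.Primes => - Real.log (1 - f p)) (Real.log (∑' n, f n))` (`Filter.Tendsto.log`, `Real.log_prod`).
For `|y| ≤ 1/2`: `|-log (1 - y) - y| ≤ y²` (`Real.abs_log_sub_add_sum_range_le` or `Real.add_one_le_exp`/`Real.log_le_sub_one_of_pos` type inequalities:  `y ≤ -log(1-y)` and `-log(1-y) = log(1/(1-y)) ≤ y/(1-y) = y + y²/(1-y) ≤ y + 2 y²`;
so one gets `|-log(1-y) - y| ≤ 2 y²`).  `∑_p (f p)² ≤ ∑_{n ≥ 2} n^(-2) ≤ 1` (telescoping, or compare with `∑_{n≥2} 1/(n(n-1)) = 1`; or `hasSum_zeta_two`: `π²/6 - 1 < 1`).  So the difference is at most `2`. -/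

namespace ZG

open Finset

private lemma gteul_rpow_le_half (p : ℕ) (hp : p.Prime) (σ : ℝ) (hσ : 1 < σ) :
    0 < (p : ℝ) ^ (-σ) ∧ (p : ℝ) ^ (-σ) ≤ 1 / 2 := by
  have hp2 : (2 : ℝ) ≤ p := by exact_mod_cast hp.two_le
  refine ⟨Real.rpow_pos_of_pos (by linarith) _, ?_⟩
  rw [Real.rpow_neg (by linarith), one_div]
  apply inv_anti₀ (by norm_num)
  calc (2 : ℝ) ≤ p := hp2
    _ = (p : ℝ) ^ (1 : ℝ) := (Real.rpow_one _).symm
    _ ≤ (p : ℝ) ^ σ := Real.rpow_le_rpow_of_exponent_le (by linarith) hσ.le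

private lemma gteul_step (N : ℕ) (hN : 2 ≤ N) (σ : ℝ) (hσ : 1 < σ) :
    (N : ℝ) ^ (-σ) ≤ (((N : ℝ) - 1) ^ (1 - σ) - (N : ℝ) ^ (1 - σ)) / (σ - 1) := by
  have hN' : (2 : ℝ) ≤ N := by exact_mod_cast hN
  have h0 : (0 : ℝ) < N := by linarith
  have h1 : (0 : ℝ) < (N : ℝ) - 1 := by linarith
  rw [le_div_iff₀ (by linarith)]
  have hfac : ((N : ℝ) - 1) ^ (1 - σ) = (N : ℝ) ^ (1 - σ) * (((N : ℝ) - 1) / N) ^ (1 - σ) := by
    rw [← Real.mul_rpow h0.le (by positivity)]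
    congr 1
    field_simp
  have hN2 : (N : ℝ) ^ (-σ) = (N : ℝ) ^ (1 - σ) * (1 / N) := by
    rw [one_div, ← Real.rpow_neg_one, ← Real.rpow_add h0]
    congr 1
    ring
  have hb : 1 + (σ - 1) * (1 / N) ≤ (((N : ℝ) - 1) / N) ^ (1 - σ) := by
    rw [Real.rpow_def_of_pos (by positivity)]
    have hlog : 1 / (N : ℝ) ≤ - Real.log (((N : ℝ) - 1) / N) := by
      have := Real.log_le_sub_one_of_pos (show (0 : ℝ) < ((N : ℝ) - 1) / N by positivity)
      have h3 : ((N : ℝ) - 1) / N - 1 = - (1 / N) := by field_simp; ring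
      linarith
    have h4 := Real.add_one_le_exp (Real.log (((N : ℝ) - 1) / N) * (1 - σ))
    have h5 : (σ - 1) * (1 / N) ≤ Real.log (((N : ℝ) - 1) / N) * (1 - σ) := by
      have := mul_le_mul_of_nonneg_left hlog (show (0 : ℝ) ≤ σ - 1 by linarith)
      nlinarith
    linarith
  rw [hfac, hN2]
  have hpos : (0 : ℝ) < (N : ℝ) ^ (1 - σ) := Real.rpow_pos_of_pos h0 _
  nlinarith [mul_le_mul_of_nonneg_left hb hpos.le]

private lemma gteul_summable (σ : ℝ) (hσ : 1 < σ) : Summable fun n : ℕ => (n : ℝ) ^ (-σ) := by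
  exact Real.summable_nat_rpow.mpr (by linarith)

private lemma gteul_zeta_le (σ : ℝ) (hσ : 1 < σ) : ∑' n : ℕ, (n : ℝ) ^ (-σ) ≤ 1 + 1 / (σ - 1) := by
  have hpart : ∀ N : ℕ, 2 ≤ N → ∑ n ∈ range N, (n : ℝ) ^ (-σ) ≤
      1 + (1 - ((N : ℝ) - 1) ^ (1 - σ)) / (σ - 1) := by
    intro N hN
    induction N, hN using Nat.le_induction with
    | base =>
      rw [Finset.sum_range_succ, Finset.sum_range_one]
      have h0 : ((0 : ℕ) : ℝ) ^ (-σ) = 0 := by
        rw [Nat.cast_zero, Real.zero_rpow (by linarith)]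
      have h1 : ((1 : ℕ) : ℝ) ^ (-σ) = 1 := by rw [Nat.cast_one, Real.one_rpow]
      rw [h0, h1]
      have h2 : (((2 : ℕ) : ℝ) - 1) ^ (1 - σ) = 1 := by
        norm_num
      rw [h2]
      simp
    | succ n hn ih =>
      rw [Finset.sum_range_succ]
      have hs := gteul_step n hn σ hσ
      push_cast
      have h3 : (1 - ((n : ℝ) + 1 - 1) ^ (1 - σ)) / (σ - 1) =
          (1 - ((n : ℝ) - 1) ^ (1 - σ)) / (σ - 1) +
            (((n : ℝ) - 1) ^ (1 - σ) - (n : ℝ) ^ (1 - σ)) / (σ - 1) := by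
        rw [add_sub_cancel_right]
        ring
      rw [h3]
      linarith
  apply (gteul_summable σ hσ).tsum_le_of_sum_range_le
  intro N
  by_cases hN : 2 ≤ N
  · refine (hpart N hN).trans ?_
    have h1 : (0 : ℝ) < (N : ℝ) - 1 := by
      have : (2 : ℝ) ≤ N := by exact_mod_cast hN
      linarith
    have h2 : (0 : ℝ) < ((N : ℝ) - 1) ^ (1 - σ) := Real.rpow_pos_of_pos h1 _
    have h3 : (1 - ((N : ℝ) - 1) ^ (1 - σ)) / (σ - 1) ≤ 1 / (σ - 1) :=
      div_le_div_of_nonneg_right (by linarith) (by linarith)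
    linarith
  · have hle : ∑ n ∈ range N, (n : ℝ) ^ (-σ) ≤ ∑ n ∈ range 2, (n : ℝ) ^ (-σ) := by
      apply Finset.sum_le_sum_of_subset_of_nonneg
      · intro x hx
        rw [Finset.mem_range] at hx ⊢
        omega
      · intro i _ _
        positivity
    refine hle.trans ((hpart 2 le_rfl).trans ?_)
    have h3 : (1 - (((2 : ℕ) : ℝ) - 1) ^ (1 - σ)) / (σ - 1) ≤ 1 / (σ - 1) := by
      apply div_le_div_of_nonneg_right _ (by linarith)
      have : (0 : ℝ) ≤ (((2 : ℕ) : ℝ) - 1) ^ (1 - σ) := by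
        apply Real.rpow_nonneg; norm_num
      linarith
    linarith

private theorem gteul_sum_sq (N : ℕ) :
    ∑ k ∈ range N, 1 / ((k : ℝ) + 2) ^ 2 ≤ 1 - 1 / ((N : ℝ) + 1) := by
  induction N with
  | zero => simp
  | succ N ih =>
    rw [Finset.sum_range_succ]
    have h1 : 1 / ((N : ℝ) + 2) ^ 2 ≤ 1 / ((N : ℝ) + 1) - 1 / ((N : ℝ) + 2) := by
      have hN : (0 : ℝ) ≤ N := Nat.cast_nonneg N
      rw [div_sub_div _ _ (by positivity) (by positivity), div_le_div_iff₀ (by positivity)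
        (by positivity)]
      nlinarith
    have h2 : ((N + 1 : ℕ) : ℝ) + 1 = (N : ℝ) + 2 := by push_cast; ring
    rw [h2]
    linarith

private theorem gteul_primes_sq (s : Finset Nat.Primes) :
    ∑ p ∈ s, 1 / ((p : ℕ) : ℝ) ^ 2 ≤ 1 := by
  classical
  obtain ⟨N, hN⟩ : ∃ N : ℕ, ∀ p ∈ s, (p : ℕ) < N := by
    refine ⟨(s.sup fun p => (p : ℕ)) + 1, fun p hp => ?_⟩
    have := Finset.le_sup (f := fun p : Nat.Primes => (p : ℕ)) hp
    exact Nat.lt_succ_of_le this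
  have h1 : ∑ p ∈ s, 1 / ((p : ℕ) : ℝ) ^ 2 ≤ ∑ k ∈ range N, 1 / ((k : ℝ) + 2) ^ 2 := by
    have hinj : Set.InjOn (fun p : Nat.Primes => (p : ℕ) - 2) (s : Set Nat.Primes) := by
      intro p _ q _ hpq
      have h3 := p.2.two_le
      have h4 := q.2.two_le
      have hpq' : (p : ℕ) - 2 = (q : ℕ) - 2 := hpq
      apply Subtype.ext
      change (p : ℕ) = (q : ℕ)
      have h3' : 2 ≤ (p : ℕ) := h3
      have h4' : 2 ≤ (q : ℕ) := h4
      omega
    have h2 : ∑ p ∈ s, 1 / ((p : ℕ) : ℝ) ^ 2 =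
        ∑ k ∈ s.image (fun p : Nat.Primes => (p : ℕ) - 2), 1 / ((k : ℝ) + 2) ^ 2 := by
      rw [Finset.sum_image hinj]
      apply Finset.sum_congr rfl
      intro p _
      have h3 := p.2.two_le
      have h3' : 2 ≤ (p : ℕ) := h3
      rw [Nat.cast_sub h3']
      congr 2
      push_cast
      ring
    rw [h2]
    apply Finset.sum_le_sum_of_subset_of_nonneg
    · intro k hk
      obtain ⟨p, hp, rfl⟩ := Finset.mem_image.mp hk
      rw [Finset.mem_range]
      have := hN p hp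
      omega
    · intro k _ _
      positivity
  refine h1.trans ((gteul_sum_sq N).trans ?_)
  have : (0 : ℝ) ≤ 1 / ((N : ℝ) + 1) := by positivity
  linarith

private theorem gteul_summable_sq : Summable fun p : Nat.Primes => 1 / ((p : ℕ) : ℝ) ^ 2 :=
  summable_of_sum_le (fun p => by positivity) gteul_primes_sq

private theorem gteul_log (y : ℝ) (hy : |y| ≤ 1 / 2) : |-Real.log (1 - y) - y| ≤ 2 * y ^ 2 := by
  have h := abs_le.mp hy
  have h1 : 0 < 1 - y := by linarith [h.2]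
  have h2 : Real.log (1 - y) ≤ -y := by
    have := Real.log_le_sub_one_of_pos h1
    linarith
  have h3 : -Real.log (1 - y) ≤ y + 2 * y ^ 2 := by
    rw [← Real.log_inv]
    have h4 := Real.log_le_sub_one_of_pos (inv_pos.mpr h1)
    refine h4.trans ?_
    rw [sub_le_iff_le_add, inv_le_iff_one_le_mul₀ h1]
    nlinarith [sq_nonneg y, h.2, mul_nonneg (sq_nonneg y) (show (0:ℝ) ≤ 1 - 2 * y by linarith [h.2])]
  rw [abs_le]
  constructor
  · nlinarith [sq_nonneg y]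
  · linarith

theorem summable_primes (χ : ℕ → ℝ) (hle : ∀ n, |χ n| ≤ 1) (σ : ℝ) (hσ : 1 < σ) :
    Summable fun p : Nat.Primes => χ p * ((p : ℕ) : ℝ) ^ (-σ) := by
  have h1 : Summable fun n : ℕ => χ n * (n : ℝ) ^ (-σ) := by
    apply Summable.of_norm_bounded (gteul_summable σ hσ)
    intro n
    rw [norm_mul, Real.norm_eq_abs, Real.norm_of_nonneg (by positivity : (0 : ℝ) ≤ (n : ℝ) ^ (-σ))]
    calc |χ n| * (n : ℝ) ^ (-σ) ≤ 1 * (n : ℝ) ^ (-σ) := by
          apply mul_le_mul_of_nonneg_right (hle n) (by positivity)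
      _ = _ := one_mul _
  exact h1.comp_injective (i := fun p : Nat.Primes => (p : ℕ)) Subtype.val_injective

theorem log_L (χ : ℕ → ℝ) (h0 : χ 0 = 0) (h1 : χ 1 = 1) (hmul : ∀ m n, χ (m * n) = χ m * χ n)
    (hle : ∀ n, |χ n| ≤ 1) (σ : ℝ) (hσ : 1 < σ) :
    0 < ∑' n : ℕ, χ n * (n : ℝ) ^ (-σ) ∧
    |Real.log (∑' n : ℕ, χ n * (n : ℝ) ^ (-σ)) - ∑' p : Nat.Primes, χ p * ((p : ℕ) : ℝ) ^ (-σ)| ≤ 2 := by
  let g : ℕ →*₀ ℝ :=
    { toFun := fun n => χ n * (n : ℝ) ^ (-σ)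
      map_zero' := by
        show χ 0 * ((0 : ℕ) : ℝ) ^ (-σ) = 0
        rw [h0, zero_mul]
      map_one' := by
        show χ 1 * ((1 : ℕ) : ℝ) ^ (-σ) = 1
        rw [h1, Nat.cast_one, Real.one_rpow, mul_one]
      map_mul' := by
        intro a b
        show χ (a * b) * ((a * b : ℕ) : ℝ) ^ (-σ) = χ a * (a : ℝ) ^ (-σ) * (χ b * (b : ℝ) ^ (-σ))
        rw [hmul, Nat.cast_mul, Real.mul_rpow (by positivity) (by positivity)]
        ring }
  have hg : ∀ n, g n = χ n * (n : ℝ) ^ (-σ) := fun n => rfl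
  have hsumg : Summable (fun n => ‖g n‖) := by
    apply Summable.of_nonneg_of_le (fun n => norm_nonneg _) _ (gteul_summable σ hσ)
    intro n
    rw [hg, norm_mul, Real.norm_of_nonneg (by positivity : (0 : ℝ) ≤ (n : ℝ) ^ (-σ))]
    calc ‖χ n‖ * (n : ℝ) ^ (-σ) ≤ 1 * (n : ℝ) ^ (-σ) := by
          apply mul_le_mul_of_nonneg_right _ (by positivity)
          rw [Real.norm_eq_abs]; exact hle n
      _ = _ := one_mul _
  have hprod := EulerProduct.eulerProduct_completely_multiplicative_hasProd hsumg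
  set y : Nat.Primes → ℝ := fun p => χ p * ((p : ℕ) : ℝ) ^ (-σ) with hy
  set u : Nat.Primes → ℝ := fun p => -Real.log (1 - y p) with hu
  have hyle : ∀ p, |y p| ≤ ((p : ℕ) : ℝ) ^ (-σ) := by
    intro p
    rw [hy]
    simp only
    rw [abs_mul, abs_of_nonneg (by positivity : (0 : ℝ) ≤ ((p : ℕ) : ℝ) ^ (-σ))]
    calc |χ p| * ((p : ℕ) : ℝ) ^ (-σ) ≤ 1 * ((p : ℕ) : ℝ) ^ (-σ) := by
          apply mul_le_mul_of_nonneg_right (hle _) (by positivity)
      _ = _ := one_mul _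
  have hyhalf : ∀ p, |y p| ≤ 1 / 2 := fun p =>
    (hyle p).trans (gteul_rpow_le_half p p.2 σ hσ).2
  have hysq : ∀ p, y p ^ 2 ≤ 1 / ((p : ℕ) : ℝ) ^ 2 := by
    intro p
    have hp1 : (1 : ℝ) ≤ ((p : ℕ) : ℝ) := by
      have := p.2.one_le
      exact_mod_cast this
    have hp2 : ((p : ℕ) : ℝ) ^ (-σ) ≤ 1 / ((p : ℕ) : ℝ) := by
      rw [Real.rpow_neg (by linarith), one_div]
      apply inv_anti₀ (by linarith)
      calc ((p : ℕ) : ℝ) = ((p : ℕ) : ℝ) ^ (1 : ℝ) := (Real.rpow_one _).symm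
        _ ≤ ((p : ℕ) : ℝ) ^ σ := Real.rpow_le_rpow_of_exponent_le hp1 hσ.le
    have h3 : |y p| ≤ 1 / ((p : ℕ) : ℝ) := (hyle p).trans hp2
    calc y p ^ 2 = |y p| ^ 2 := (sq_abs _).symm
      _ ≤ (1 / ((p : ℕ) : ℝ)) ^ 2 := pow_le_pow_left₀ (abs_nonneg _) h3 2
      _ = 1 / ((p : ℕ) : ℝ) ^ 2 := by rw [div_pow, one_pow]
  have hdiff : ∀ p, |u p - y p| ≤ 2 * (1 / ((p : ℕ) : ℝ) ^ 2) := by
    intro p
    refine (gteul_log (y p) (hyhalf p)).trans ?_
    linarith [hysq p]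
  have hysum : Summable y := summable_primes χ hle σ hσ
  have hdsum : Summable fun p => u p - y p :=
    Summable.of_norm_bounded (gteul_summable_sq.mul_left 2) fun p => by
      rw [Real.norm_eq_abs]; exact hdiff p
  have husum : Summable u := by
    have := hdsum.add hysum
    have e : (fun p => u p - y p + y p) = u := by funext p; ring
    rwa [e] at this
  have hexp : HasProd (fun p : Nat.Primes => (1 - g p)⁻¹) (Real.exp (∑' p, u p)) := by
    have h2 := husum.hasSum.rexp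
    have e : (Real.exp ∘ u) = fun p : Nat.Primes => (1 - g p)⁻¹ := by
      funext p
      have h3 : 0 < 1 - y p := by
        have := (abs_le.mp (hyhalf p)).2
        linarith
      rw [Function.comp, hu]
      simp only
      rw [Real.exp_neg, Real.exp_log h3, hg]
    rwa [e] at h2
  have heq : ∑' n, g n = Real.exp (∑' p, u p) := hprod.unique hexp
  have heq' : ∑' n : ℕ, χ n * (n : ℝ) ^ (-σ) = Real.exp (∑' p, u p) := heq
  refine ⟨by rw [heq']; exact Real.exp_pos _, ?_⟩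
  rw [heq', Real.log_exp]
  have e2 : (∑' p, u p) - ∑' p : Nat.Primes, y p = ∑' p, (u p - y p) :=
    (husum.tsum_sub hysum).symm
  change |(∑' p, u p) - ∑' p : Nat.Primes, y p| ≤ 2
  rw [e2]
  have hnorm : Summable fun p => ‖u p - y p‖ :=
    Summable.of_nonneg_of_le (fun p => norm_nonneg _) (fun p => by
      rw [Real.norm_eq_abs]; exact hdiff p) (gteul_summable_sq.mul_left 2)
  calc |∑' p, (u p - y p)| = ‖∑' p, (u p - y p)‖ := (Real.norm_eq_abs _).symm
    _ ≤ ∑' p, ‖u p - y p‖ := norm_tsum_le_tsum_norm hnorm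
    _ ≤ ∑' p : Nat.Primes, 2 * (1 / ((p : ℕ) : ℝ) ^ 2) :=
        hnorm.tsum_le_tsum (fun p => by rw [Real.norm_eq_abs]; exact hdiff p)
          (gteul_summable_sq.mul_left 2)
    _ = 2 * ∑' p : Nat.Primes, 1 / ((p : ℕ) : ℝ) ^ 2 := tsum_mul_left
    _ ≤ 2 * 1 := by
        apply mul_le_mul_of_nonneg_left _ (by norm_num)
        exact gteul_summable_sq.tsum_le_of_sum_le gteul_primes_sq
    _ = 2 := by norm_num

/-- `∑_p p^(-σ) ≤ log (1/(σ-1)) + 3`: apply `log_L` to `χ n = if n = 0 then 0 else 1`; the series is at most `1 + 1/(σ-1)` (private lemma `QEuler_zeta_le` in `QEuler.lean`, copy its proof), which is `≤ 2/(σ-1)` for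
`σ ≤ 2`, and `log 2 ≤ 1`. -/
theorem prime_sum_le (σ : ℝ) (hσ : 1 < σ) (hσ2 : σ ≤ 2) :
    ∑' p : Nat.Primes, ((p : ℕ) : ℝ) ^ (-σ) ≤ Real.log (1 / (σ - 1)) + 3 := by
  set χ : ℕ → ℝ := fun n => if n = 0 then 0 else 1 with hχ
  have h := log_L χ (by simp [hχ]) (by simp [hχ])
    (by
      intro m n
      simp only [hχ]
      by_cases hm : m = 0
      · simp [hm]
      · by_cases hn : n = 0
        · simp [hn]
        · simp [hm, hn])
    (by
      intro n
      simp only [hχ]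
      split_ifs <;> simp) σ hσ
  have e1 : ∑' n : ℕ, χ n * (n : ℝ) ^ (-σ) = ∑' n : ℕ, (n : ℝ) ^ (-σ) := by
    apply tsum_congr
    intro n
    by_cases hn : n = 0
    · subst hn
      rw [Nat.cast_zero, Real.zero_rpow (by linarith)]
      simp
    · simp [hχ, hn]
  have e2 : ∑' p : Nat.Primes, χ p * ((p : ℕ) : ℝ) ^ (-σ) =
      ∑' p : Nat.Primes, ((p : ℕ) : ℝ) ^ (-σ) := by
    apply tsum_congr
    intro p
    have hp : (p : ℕ) ≠ 0 := p.2.ne_zero
    simp [hχ, hp]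
  rw [e1, e2] at h
  obtain ⟨hpos, habs⟩ := h
  have h1 := (abs_le.mp habs).1
  have h2 : ∑' n : ℕ, (n : ℝ) ^ (-σ) ≤ 2 * (1 / (σ - 1)) := by
    refine (gteul_zeta_le σ hσ).trans ?_
    have : 1 ≤ 1 / (σ - 1) := by
      rw [le_div_iff₀ (by linarith)]
      linarith
    linarith
  have h3 : Real.log (∑' n : ℕ, (n : ℝ) ^ (-σ)) ≤ Real.log 2 + Real.log (1 / (σ - 1)) := by
    rw [← Real.log_mul (by norm_num) (by
      have : 0 < σ - 1 := by linarith
      positivity)]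
    exact Real.log_le_log hpos h2
  have h4 : Real.log 2 ≤ 1 := by
    have := Real.log_two_lt_d9
    linarith
  linarith

end ZG
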