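import Pool.Agent.Lib.MP_1ad228_nt.ZDefs

/-! JOB ZGlue.  Integers assembled from prime data.

Proof.  `e U = ∏ p` over the primes `p ∣ D`, `p ∤ R`, `Up p = U` (`D.natAbs.primeFactors.filter ..`), `g = sign D · ∏ p` over the primes `p ∣ D`, `p ∣ R`; `D = g ∏_U e U` since `D` is squarefree
(`Nat.prod_primeFactors_of_squarefree`, `Int.sign_mul_natAbs`, `Finset.prod_fiberwise`).  `g.natAbs ∣ R`: it is squarefree and all its primes divide `R`.
`s i = sign (δ i) · ∏ p` over the primes `p ∣ δ i`, `p ∣ R`; a prime `p ∣ δ i` with `p ∤ R` divides `D` (second hypothesis) and then `i ∈ Up p`; conversely.  So `δ i = s i * ∏_{U ∋ i} e U`. -/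

namespace ZC

open Finset

private theorem zglue_split (a : ℤ) (ha : Squarefree a) (R : ℕ) :
    a = (a.sign * ((∏ p ∈ a.natAbs.primeFactors with p ∣ R, p : ℕ) : ℤ)) *
      ((∏ p ∈ a.natAbs.primeFactors with ¬ p ∣ R, p : ℕ) : ℤ) := by
  have h1 : ∏ p ∈ a.natAbs.primeFactors, p = a.natAbs :=
    Nat.prod_primeFactors_of_squarefree (Int.squarefree_natAbs.2 ha)
  rw [mul_assoc, ← Nat.cast_mul, Finset.prod_filter_mul_prod_filter_not, h1, Int.sign_mul_natAbs]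

private theorem zglue_natAbs (a : ℤ) (ha : a ≠ 0) (R : ℕ) (hR : R ≠ 0) :
    (a.sign * ((∏ p ∈ a.natAbs.primeFactors with p ∣ R, p : ℕ) : ℤ)).natAbs ∣ R := by
  rw [Int.natAbs_mul, Int.natAbs_natCast, Int.natAbs_sign_of_ne_zero ha, one_mul]
  refine Finset.prod_primes_dvd _ ?_ ?_
  · intro p hp
    exact (Nat.prime_of_mem_primeFactors (mem_filter.1 hp).1).prime
  · intro p hp
    exact (mem_filter.1 hp).2

theorem glue {ι : Type} [Fintype ι] [DecidableEq ι] (R : ℕ) (hR : R ≠ 0) (D : ℤ) (hD : Squarefree D) (δ : ι → ℤ)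
    (hδ : ∀ i, Squarefree (δ i)) (Up : ℕ → OddSet ι)
    (h1 : ∀ p : ℕ, p.Prime → ¬ p ∣ R → (p : ℤ) ∣ D → ∀ i, ((p : ℤ) ∣ δ i ↔ i ∈ (Up p).1))
    (h2 : ∀ p : ℕ, p.Prime → ¬ p ∣ R → ¬ (p : ℤ) ∣ D → ∀ i, ¬ (p : ℤ) ∣ δ i) :
    ∃ (g : ℤ) (s : ι → ℤ) (e : OddSet ι → ℕ), g.natAbs ∣ R ∧ (∀ i, (s i).natAbs ∣ R) ∧
      D = g * ∏ U, (e U : ℤ) ∧ (∀ i, δ i = s i * ∏ U : OddSet ι with i ∈ U.1, (e U : ℤ)) ∧
      Squarefree (∏ U, e U) ∧ Nat.Coprime (∏ U, e U) R ∧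
      ∀ (U : OddSet ι) (p : ℕ), p.Prime → (p ∣ e U ↔ (p : ℤ) ∣ D ∧ ¬ p ∣ R ∧ Up p = U) := by
  classical
  have hD0 : D ≠ 0 := hD.ne_zero
  have hmem : ∀ (a : ℤ), a ≠ 0 → ∀ p : ℕ, (p ∈ a.natAbs.primeFactors ↔ p.Prime ∧ (p : ℤ) ∣ a) := by
    intro a ha p
    rw [Nat.mem_primeFactors_of_ne_zero (Int.natAbs_ne_zero.2 ha), ← Int.natCast_dvd]
  set PD : Finset ℕ := D.natAbs.primeFactors with hPD
  set e : OddSet ι → ℕ := fun U => ∏ p ∈ PD with ¬ p ∣ R ∧ Up p = U, p with he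
  have hprod : ∏ U, e U = ∏ p ∈ PD with ¬ p ∣ R, p := by
    rw [← Finset.prod_fiberwise (PD.filter fun p => ¬ p ∣ R) Up (fun p => p)]
    refine Finset.prod_congr rfl fun U _ => ?_
    rw [he, Finset.filter_filter]
  refine ⟨D.sign * ((∏ p ∈ PD with p ∣ R, p : ℕ) : ℤ),
    fun i => (δ i).sign * ((∏ p ∈ (δ i).natAbs.primeFactors with p ∣ R, p : ℕ) : ℤ), e,
    zglue_natAbs D hD0 R hR, fun i => zglue_natAbs (δ i) (hδ i).ne_zero R hR, ?_, ?_, ?_, ?_, ?_⟩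
  · rw [← Nat.cast_prod, hprod]
    exact zglue_split D hD R
  · intro i
    rw [← Nat.cast_prod]
    have key : ∏ U : OddSet ι with i ∈ U.1, e U = ∏ p ∈ (δ i).natAbs.primeFactors with ¬ p ∣ R, p := by
      have hF : ∀ p, p ∈ (δ i).natAbs.primeFactors.filter (fun p => ¬ p ∣ R) ↔
          (p ∈ PD ∧ ¬ p ∣ R) ∧ i ∈ (Up p).1 := by
        intro p
        rw [mem_filter, hmem (δ i) (hδ i).ne_zero, hPD, hmem D hD0]
        constructor
        · rintro ⟨⟨hp, hpd⟩, hpR⟩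
          have hpD : (p : ℤ) ∣ D := by
            by_contra hcon
            exact h2 p hp hpR hcon i hpd
          exact ⟨⟨⟨hp, hpD⟩, hpR⟩, (h1 p hp hpR hpD i).1 hpd⟩
        · rintro ⟨⟨⟨hp, hpD⟩, hpR⟩, hi⟩
          exact ⟨⟨hp, (h1 p hp hpR hpD i).2 hi⟩, hpR⟩
      rw [← Finset.prod_fiberwise_of_maps_to (t := univ.filter fun U : OddSet ι => i ∈ U.1) (g := Up)
        (fun p hp => mem_filter.2 ⟨mem_univ _, ((hF p).1 hp).2⟩) (fun p => p)]
      refine Finset.prod_congr rfl fun U hU => ?_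
      rw [he]
      refine Finset.prod_congr ?_ fun _ _ => rfl
      ext p
      rw [mem_filter (p := fun p => Up p = U), hF, mem_filter]
      constructor
      · rintro ⟨ha, hb, hc⟩
        refine ⟨⟨⟨ha, hb⟩, ?_⟩, hc⟩
        rw [hc]
        exact (mem_filter.1 hU).2
      · rintro ⟨⟨⟨ha, hb⟩, _⟩, hc⟩
        exact ⟨ha, hb, hc⟩
    rw [key]
    exact zglue_split (δ i) (hδ i) R
  · rw [hprod]
    refine Squarefree.squarefree_of_dvd ?_ (Int.squarefree_natAbs.2 hD)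
    have h3 : ∏ p ∈ PD, p = D.natAbs :=
      Nat.prod_primeFactors_of_squarefree (Int.squarefree_natAbs.2 hD)
    rw [← h3]
    exact Finset.prod_dvd_prod_of_subset _ _ _ (filter_subset _ _)
  · rw [hprod]
    refine Nat.Coprime.prod_left fun p hp => ?_
    obtain ⟨hp1, hp2⟩ := mem_filter.1 hp
    exact (Nat.Prime.coprime_iff_not_dvd (Nat.prime_of_mem_primeFactors hp1)).2 hp2
  · intro U p hp
    rw [he]
    simp only
    rw [Prime.dvd_finset_prod_iff hp.prime]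
    constructor
    · rintro ⟨q, hq, hpq⟩
      obtain ⟨hq1, hq2, hq3⟩ := mem_filter.1 hq
      have hqp : q.Prime := Nat.prime_of_mem_primeFactors hq1
      have : p = q := (Nat.prime_dvd_prime_iff_eq hp hqp).1 hpq
      subst this
      exact ⟨((hmem D hD0 p).1 hq1).2, hq2, hq3⟩
    · rintro ⟨ha, hb, hc⟩
      exact ⟨p, mem_filter.2 ⟨(hmem D hD0 p).2 ⟨hp, ha⟩, hb, hc⟩, dvd_rfl⟩

end ZC
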