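import Pool.Agent.Lib.MP_1ad228_nt.GTCycle
import Pool.Agent.Lib.MP_1ad228_nt.ZDual
import Pool.Agent.Lib.MP_1ad228_nt.ZGlue

/-! JOB GTFam.  From an orthogonal family to the factorisation data.

Model: `ZC.family_desc` in `ZFam.lean` (read it first; copy its private lemmas `val_p_mul`, `not_sq_p_mul`, `prime_split`, `not_dvd_prod`, `isSquare_of_mul_sq`, `regroup`).  `ZC.dual`, `ZC.glue` are used unchanged.
Let `z, z₀` be the family, `R = Rb g ≠ 0` (`Rb_ne`).  A prime `p ∤ R` is `Good` (`good_of_not_dvd`).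
* For a prime `p ∤ R`, `p ∣ D` (`p² ∤ D`): `cycle_ram` gives `Up p : OddSet ι`, `Tp p : Finset ι` with `a_k` a square in `ℚ_p` for `k ∈ Up p` and `IsSquare (cls_i * ∏_{k∈Up p} cc g D p k i * ∏_{k∈Tp p} RR g k i)`.
  The integers `RR g k i` are prime to `p`; for `k ∈ Up p` and `i ≠ k`, `Gk g p k i` is prime to `p` (`Gk_unit`, `root_dvd`).
* For a prime `p ∤ R`, `p ∤ D`: `cls_i` has even valuation (`cycle_unr`).
* `dual` (for each `i`, `T = (R * D.natAbs).primeFactors`): `δ_i` squarefree with `IsSquare (cls_i(p) * δ_i)` in every `ℚ_p`.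
* `∏_{k∈U} cc g D p k i = (if i ∈ U then D else 1) * th g p U i`.  As in `ZFam`: for `p ∤ R`, `p ∣ D`: `p ∣ δ_i ↔ i ∈ Up p` (because `δ_i * (if i ∈ U then D else 1) * th g p U i * ∏_{k∈T} RR g k i` is a square in `ℚ_p` and the last two
  factors are prime to `p`); for `p ∤ R`, `p ∤ D`: `p ∤ δ_i`.  Apply `glue`.
* `LocG (theta g s) g e`: let `p ∣ e U`, so `p ∣ D`, `p ∤ R`, `Up p = U`.  `p ∤ theta g s p U i`: `s i ∣ R` and `p ∤ th g p U i`.  `jacobiSym (g k).disc p = 1` for `k ∈ U` by `isSquare_int_iff`.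
  For `S ∈ Kr g p` with `|S ∩ U|` even: the product over `i ∈ S` of `δ_i ∏_{k∈U} cc_k,i ∏_{k∈T} RR g k i` is a square in `ℚ_p`; `∏_{i∈S} ∏_{k∈T} RR g k i = ∏_{k∈T} ∏_{i∈S} RR g k i` and every `∏_{i∈S} RR g k i` is an integer prime to `p`
  with `jacobiSym = 1` (definition of `Kr`), so it is a nonzero square in `ℚ_p` (`isSquare_int_iff`).  So the product over `i ∈ S` of `δ_i ∏_{k∈U} cc` is a square, and the rest is as in `ZFam`. -/

namespace ZG

open Finset ZC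

private theorem gtfam_val_p_mul {p : ℕ} [hp : Fact p.Prime] {m : ℤ} (hm : ¬ (p : ℤ) ∣ m) :
    (((p * m : ℤ) : ℤ) : ℚ_[p]).valuation = 1 := by
  have h1 : ((p : ℤ) : ℚ_[p]) ≠ 0 := by
    exact_mod_cast hp.out.ne_zero
  have h2 : (m : ℚ_[p]) ≠ 0 := by
    rw [Int.cast_ne_zero]
    rintro rfl
    exact hm (dvd_zero _)
  rw [Int.cast_mul, Padic.valuation_mul h1 h2, Int.cast_natCast, Padic.valuation_p,
    Padic.valuation_intCast, padicValInt.eq_zero_of_not_dvd hm]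
  norm_num

private theorem gtfam_not_sq_p_mul {p : ℕ} [hp : Fact p.Prime] {m : ℤ} (hm : ¬ (p : ℤ) ∣ m) :
    ¬ IsSquare (((p * m : ℤ) : ℤ) : ℚ_[p]) := by
  rintro ⟨y, hy⟩
  have h1 := gtfam_val_p_mul hm
  have hy0 : y ≠ 0 := by
    rintro rfl
    rw [hy] at h1
    simp at h1
  rw [hy, Padic.valuation_mul hy0 hy0] at h1
  omega

private theorem gtfam_prime_split {p : ℕ} (hp : p.Prime) {n : ℤ} (hn : Squarefree n) (h : (p : ℤ) ∣ n) :
    ∃ m, n = p * m ∧ ¬ (p : ℤ) ∣ m := by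
  obtain ⟨m, hm⟩ := h
  refine ⟨m, hm, ?_⟩
  rintro ⟨k, hk⟩
  have h1 : (p : ℤ) * p ∣ n := ⟨k, by rw [hm, hk]; ring⟩
  have h2 := hn _ h1
  exact (Nat.prime_iff_prime_int.1 hp).not_isUnit h2

private theorem gtfam_not_dvd_prod {κ : Type} {p : ℕ} (hp : p.Prime) (S : Finset κ) (f : κ → ℤ)
    (h : ∀ x ∈ S, ¬ (p : ℤ) ∣ f x) : ¬ (p : ℤ) ∣ ∏ x ∈ S, f x := by
  intro h1
  obtain ⟨x, hx, h2⟩ := (Nat.prime_iff_prime_int.1 hp).exists_mem_finset_dvd h1
  exact h x hx h2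

private theorem gtfam_RR_unit {ι : Type} [Fintype ι] [DecidableEq ι] {g : ι → BQ} {p : ℕ} (hp : p.Prime)
    (hg : Good g p) (k i : ι) : ¬ (p : ℤ) ∣ RR g k i := by
  unfold RR
  split_ifs with h
  · exact gtfam_not_dvd_prod hp _ _ fun l hl => hg.res k l (Finset.mem_erase.1 hl).1.symm
  · exact hg.res k i fun h' => h h'.symm

/-- the product of the constants at `i` -/
private theorem gtfam_prod_cc {ι : Type} [Fintype ι] [DecidableEq ι] (g : ι → BQ) (D : ℤ) (p : ℕ) (U : Finset ι) (i : ι) :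
    ∏ k ∈ U, cc g D p k i = (if i ∈ U then D else 1) * th g p U i := by
  have h1 : ∏ k ∈ U.erase i, cc g D p k i = ∏ k ∈ U.erase i, Gk g p k i := by
    refine Finset.prod_congr rfl fun k hk => ?_
    unfold cc
    rw [if_neg (Finset.mem_erase.1 hk).1.symm]
  unfold th
  by_cases hi : i ∈ U
  · rw [← Finset.mul_prod_erase U _ hi, h1, if_pos hi, if_pos hi]
    unfold cc
    rw [if_pos rfl]
    ring
  · rw [if_neg hi, if_neg hi, one_mul, mul_one, ← h1, Finset.erase_eq_of_notMem hi]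

private theorem gtfam_isSquare_prod {κ F : Type} [Field F] (S : Finset κ) (f : κ → F) (h : ∀ x ∈ S, IsSquare (f x)) :
    IsSquare (∏ x ∈ S, f x) := by
  classical
  induction S using Finset.induction_on with
  | empty => simp
  | insert x s hx ih =>
    rw [Finset.prod_insert hx]
    exact (h x (Finset.mem_insert_self x s)).mul (ih fun y hy => h y (Finset.mem_insert_of_mem hy))

private theorem gtfam_isSquare_of_mul_sq {F : Type} [Field F] {x q : F} (hq : q ≠ 0) (h : IsSquare (x * q ^ 2)) :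
    IsSquare x := by
  obtain ⟨y, hy⟩ := h
  refine ⟨y / q, ?_⟩
  field_simp
  linear_combination hy

/-- gtfam_regrouping of the product over `i ∈ S` of the factorisations -/
private theorem gtfam_regroup {ι : Type} [Fintype ι] [DecidableEq ι] (e : OddSet ι → ℕ) (S : Finset ι) :
    ∏ i ∈ S, ∏ U : OddSet ι with i ∈ U.1, (e U : ℤ) =
      (∏ U : OddSet ι with Odd (S ∩ U.1).card, (e U : ℤ)) * (∏ U : OddSet ι, (e U : ℤ) ^ ((S ∩ U.1).card / 2)) ^ 2 := by
  have h1 : ∏ i ∈ S, ∏ U : OddSet ι with i ∈ U.1, (e U : ℤ) = ∏ U : OddSet ι, (e U : ℤ) ^ (S ∩ U.1).card := by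
    simp only [Finset.prod_filter]
    rw [Finset.prod_comm]
    refine Finset.prod_congr rfl fun U _ => ?_
    rw [← Finset.prod_filter, Finset.prod_const]
    congr 2
  rw [h1, Finset.prod_filter, ← Finset.prod_pow, ← Finset.prod_mul_distrib]
  refine Finset.prod_congr rfl fun U _ => ?_
  rw [← pow_mul]
  split_ifs with h
  · rw [← pow_succ']
    congr 1
    rw [Nat.odd_iff] at h
    omega
  · rw [one_mul]
    congr 1
    rw [Nat.not_odd_iff] at h
    omega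

theorem family_desc {ι : Type} [Fintype ι] [DecidableEq ι] [Nonempty ι] (g : ι → BQ) (hA : ∀ i, (g i).A ≠ 0)
    (hC : ∀ i, (g i).C ≠ 0) (hd : ∀ i, (g i).disc ≠ 0) (hR : ∀ i j, i ≠ j → (g i).res (g j) ≠ 0) (D : ℤ)
    (hD : Squarefree D) (h : Adelic g D) :
    ∃ (g0 : ℤ) (s : ι → ℤ) (e : OddSet ι → ℕ), g0.natAbs ∣ Rb g ∧ (∀ i, (s i).natAbs ∣ Rb g) ∧
      D = g0 * ∏ U, (e U : ℤ) ∧ Squarefree (∏ U, e U) ∧ Nat.Coprime (∏ U, e U) (Rb g) ∧
      LocG (theta g s) g e := by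
  classical
  have hD0 : D ≠ 0 := hD.ne_zero
  have hRb := Rb_ne g hA hC hd hR
  obtain ⟨z, z₀, hz, hz₀, horth⟩ := h
  -- the classes at the primes dividing `D`
  have hex : ∀ p : ℕ, ∃ (U : OddSet ι) (T : Finset ι), ∀ (_ : Fact p.Prime), ¬ p ∣ Rb g → (p : ℤ) ∣ D →
      (∀ k ∈ U.1, IsSquare (((g k).disc : ℤ) : ℚ_[p])) ∧
      ∀ i, IsSquare ((z p).cls i * (∏ k ∈ U.1, ((cc g D p k i : ℤ) : ℚ_[p])) *
        ∏ k ∈ T, ((RR g k i : ℤ) : ℚ_[p])) := by
    intro p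
    by_cases h : ∃ _ : Fact p.Prime, ¬ p ∣ Rb g ∧ (p : ℤ) ∣ D
    · obtain ⟨hp, hpR, hpD⟩ := h
      have hD2 : ¬ (p : ℤ) ^ 2 ∣ D := by
        intro h2
        obtain ⟨m, hm, hpm⟩ := gtfam_prime_split hp.out hD hpD
        rw [hm, pow_two] at h2
        exact hpm ((mul_dvd_mul_iff_left (by exact_mod_cast hp.out.ne_zero)).1 h2)
      obtain ⟨U, T, hU⟩ := cycle_ram g (good_of_not_dvd g hpR) D hpD hD2 hD0 (z p) (hz p)
      exact ⟨U, T, fun _ _ _ => hU⟩
    · refine ⟨⟨{Classical.arbitrary ι}, by simp⟩, ∅, fun hp hpR hpD => absurd ⟨hp, hpR, hpD⟩ h⟩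
  choose Up Tp hUp using hex
  -- the global integers
  have hdual : ∀ i, ∃ δ : ℤ, Squarefree δ ∧ ∀ (p : ℕ) [Fact p.Prime], IsSquare ((z p).cls i * (δ : ℚ_[p])) := by
    intro i
    refine dual (fun p _ => (z p).cls i) (z₀.cls i) (fun p _ => (z p).cls_ne hR hD0 i)
      (z₀.cls_ne hR hD0 i) (Rb g * D.natAbs).primeFactors ?_ (fun β hβ => horth i β hβ)
    intro p hp hpT
    have hne : Rb g * D.natAbs ≠ 0 := mul_ne_zero hRb (Int.natAbs_ne_zero.2 hD0)
    have hnd : ¬ p ∣ Rb g * D.natAbs := fun hd => hpT (Nat.mem_primeFactors.2 ⟨hp.out, hd, hne⟩)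
    have hpR : ¬ p ∣ Rb g := fun hd => hnd (hd.mul_right _)
    have hpD : ¬ (p : ℤ) ∣ D := fun hd => hnd ((Int.natCast_dvd.1 hd).mul_left _)
    exact cycle_unr g (good_of_not_dvd g hpR) hR D hpD hD0 (z p) i
  choose δ hδ hδsq using hdual
  -- the integers `δ_i ∏ cc ∏ RR` are squares
  have hsq : ∀ (p : ℕ) [hp : Fact p.Prime], ¬ p ∣ Rb g → (p : ℤ) ∣ D → ∀ i,
      IsSquare (((δ i * (∏ k ∈ (Up p).1, cc g D p k i) * ∏ k ∈ Tp p, RR g k i : ℤ)) : ℚ_[p]) := by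
    intro p hp hpR hpD i
    have h1 := ((hUp p hp hpR hpD).2 i).mul (hδsq i p)
    have hc : (z p).cls i ≠ 0 := (z p).cls_ne hR hD0 i
    refine gtfam_isSquare_of_mul_sq hc ?_
    have e : (((δ i * (∏ k ∈ (Up p).1, cc g D p k i) * ∏ k ∈ Tp p, RR g k i : ℤ)) : ℚ_[p]) *
        (z p).cls i ^ 2 =
        ((z p).cls i * (∏ k ∈ (Up p).1, ((cc g D p k i : ℤ) : ℚ_[p])) *
          ∏ k ∈ Tp p, ((RR g k i : ℤ) : ℚ_[p])) * ((z p).cls i * (δ i : ℚ_[p])) := by
      push_cast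
      ring
    rw [e]
    exact h1
  have hW : ∀ (p : ℕ) (hp : Fact p.Prime), ¬ p ∣ Rb g → ∀ (U : Finset ι),
      (∀ k ∈ U, IsSquare (((g k).disc : ℤ) : ℚ_[p])) → ∀ i : ι, ¬ (p : ℤ) ∣ th g p U i := by
    intro p hp hpR U hU i h
    have hg := good_of_not_dvd g hpR
    unfold th at h
    rcases (Nat.prime_iff_prime_int.1 hp.out).dvd_or_dvd h with h | h
    · exact gtfam_not_dvd_prod hp.out _ _ (fun k hk => Gk_unit g hg (Finset.mem_erase.1 hk).1.symm
        (root_dvd g hg k (hU k (Finset.mem_erase.1 hk).2))) h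
    · split_ifs at h with hi
      · exact gtfam_not_dvd_prod hp.out _ _ (fun l hl => Gk_unit g hg (Finset.mem_erase.1 hl).1
          (root_dvd g hg i (hU i hi))) h
      · exact (Nat.prime_iff_prime_int.1 hp.out).not_isUnit (isUnit_of_dvd_one h)
  have hT : ∀ (p : ℕ), p.Prime → ¬ p ∣ Rb g → ∀ (T : Finset ι) (i : ι),
      ¬ (p : ℤ) ∣ ∏ k ∈ T, RR g k i := fun p hp hpR T i =>
    gtfam_not_dvd_prod hp _ _ fun k _ => gtfam_RR_unit hp (good_of_not_dvd g hpR) k i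
  have h1 : ∀ p : ℕ, p.Prime → ¬ p ∣ Rb g → (p : ℤ) ∣ D → ∀ i, ((p : ℤ) ∣ δ i ↔ i ∈ (Up p).1) := by
    intro p hpp hpR hpD i
    have hF : Fact p.Prime := ⟨hpp⟩
    have h2 := hsq p hpR hpD i
    rw [gtfam_prod_cc] at h2
    have h3 : ¬ (p : ℤ) ∣ th g p (Up p).1 i * ∏ k ∈ Tp p, RR g k i := by
      intro h4
      rcases (Nat.prime_iff_prime_int.1 hpp).dvd_or_dvd h4 with h4 | h4
      · exact hW p hF hpR (Up p).1 (hUp p hF hpR hpD).1 i h4
      · exact hT p hpp hpR (Tp p) i h4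
    by_cases hi : i ∈ (Up p).1
    · refine ⟨fun _ => hi, fun _ => ?_⟩
      by_contra hnd
      obtain ⟨m, hm, hpm⟩ := gtfam_prime_split hpp hD hpD
      rw [if_pos hi] at h2
      have e : δ i * (D * th g p (Up p).1 i) * ∏ k ∈ Tp p, RR g k i =
          p * (m * (δ i * (th g p (Up p).1 i * ∏ k ∈ Tp p, RR g k i))) := by
        linear_combination (δ i * th g p (Up p).1 i * ∏ k ∈ Tp p, RR g k i) * hm
      rw [e] at h2
      refine gtfam_not_sq_p_mul ?_ h2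
      intro h4
      rcases (Nat.prime_iff_prime_int.1 hpp).dvd_or_dvd h4 with h4 | h4
      · exact hpm h4
      · rcases (Nat.prime_iff_prime_int.1 hpp).dvd_or_dvd h4 with h4 | h4
        · exact hnd h4
        · exact h3 h4
    · refine ⟨fun hd => ?_, fun hi' => absurd hi' hi⟩
      exfalso
      obtain ⟨m, hm, hpm⟩ := gtfam_prime_split hpp (hδ i) hd
      rw [if_neg hi, one_mul] at h2
      have e : δ i * th g p (Up p).1 i * ∏ k ∈ Tp p, RR g k i =
          p * (m * (th g p (Up p).1 i * ∏ k ∈ Tp p, RR g k i)) := by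
        linear_combination (th g p (Up p).1 i * ∏ k ∈ Tp p, RR g k i) * hm
      rw [e] at h2
      refine gtfam_not_sq_p_mul ?_ h2
      intro h4
      rcases (Nat.prime_iff_prime_int.1 hpp).dvd_or_dvd h4 with h4 | h4
      · exact hpm h4
      · exact h3 h4
  have h2 : ∀ p : ℕ, p.Prime → ¬ p ∣ Rb g → ¬ (p : ℤ) ∣ D → ∀ i, ¬ (p : ℤ) ∣ δ i := by
    intro p hpp hpR hpD i hd
    have : Fact p.Prime := ⟨hpp⟩
    obtain ⟨m, hm, hpm⟩ := gtfam_prime_split hpp (hδ i) hd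
    have h3 := cycle_unr g (good_of_not_dvd g hpR) hR D hpD hD0 (z p) i
    obtain ⟨y, hy⟩ := hδsq i p
    have hc : (z p).cls i ≠ 0 := (z p).cls_ne hR hD0 i
    have hδ0 : (δ i : ℚ_[p]) ≠ 0 := Int.cast_ne_zero.2 (hδ i).ne_zero
    have hy0 : y ≠ 0 := by
      rintro rfl
      rw [mul_zero] at hy
      exact mul_ne_zero hc hδ0 hy
    have h4 := congrArg Padic.valuation hy
    rw [Padic.valuation_mul hc hδ0, Padic.valuation_mul hy0 hy0, hm, gtfam_val_p_mul hpm] at h4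
    obtain ⟨t, ht⟩ := h3
    rw [ht] at h4
    omega
  obtain ⟨g0, s, e, hg0, hs, hDe, hδe, hsqf, hcop, hpe⟩ := glue (Rb g) hRb D hD δ hδ Up h1 h2
  refine ⟨g0, s, e, hg0, hs, hDe, hsqf, hcop, ?_⟩
  intro U p hpp hpU
  have hF : Fact p.Prime := ⟨hpp⟩
  obtain ⟨hpD, hpR, hpU'⟩ := (hpe U p hpp).1 hpU
  have hgood := good_of_not_dvd g hpR
  have hUsq : ∀ k ∈ U.1, IsSquare (((g k).disc : ℤ) : ℚ_[p]) := by
    rw [← hpU']
    exact (hUp p hF hpR hpD).1
  have hth : ∀ i, ¬ (p : ℤ) ∣ theta g s p U i := by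
    intro i hd
    unfold theta at hd
    rcases (Nat.prime_iff_prime_int.1 hpp).dvd_or_dvd hd with hd | hd
    · exact hpR ((Int.natCast_dvd.1 hd).trans (hs i))
    · exact hW p hF hpR U.1 hUsq i hd
  refine ⟨hpR, hth, ?_, ?_⟩
  · intro k hk
    exact (isSquare_int_iff hgood.two (g k).disc (hgood.disc k)).1 (hUsq k hk)
  · intro S hSK hS
    rw [← isSquare_int_iff hgood.two]
    · have h3 := gtfam_isSquare_prod S
        (fun i => (((δ i * (∏ k ∈ (Up p).1, cc g D p k i) * ∏ k ∈ Tp p, RR g k i : ℤ)) : ℚ_[p]))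
        (fun i _ => hsq p hpR hpD i)
      rw [← Int.cast_prod, hpU', Finset.prod_mul_distrib] at h3
      -- the product of the `RR` is a square
      have hQ : IsSquare (((∏ i ∈ S, ∏ k ∈ Tp p, RR g k i : ℤ)) : ℚ_[p]) := by
        rw [Finset.prod_comm, Int.cast_prod]
        refine gtfam_isSquare_prod _ _ fun k _ => ?_
        rw [isSquare_int_iff hgood.two]
        · exact (Finset.mem_filter.1 hSK).2 k
        · exact gtfam_not_dvd_prod hpp _ _ fun i _ => gtfam_RR_unit hpp hgood k i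
      have hQ0 : (((∏ i ∈ S, ∏ k ∈ Tp p, RR g k i : ℤ)) : ℚ_[p]) ≠ 0 := by
        rw [Int.cast_ne_zero]
        intro h4
        have h5 := gtfam_not_dvd_prod hpp S (fun i => ∏ k ∈ Tp p, RR g k i)
          fun i _ => hT p hpp hpR (Tp p) i
        apply h5
        rw [h4]
        exact dvd_zero _
      have h3' : IsSquare (((∏ i ∈ S, (δ i * ∏ k ∈ U.1, cc g D p k i) : ℤ)) : ℚ_[p]) := by
        refine gtfam_isSquare_of_mul_sq hQ0 ?_
        have h6 := h3.mul hQ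
        rw [Int.cast_mul] at h6
        have e1 : (((∏ i ∈ S, (δ i * ∏ k ∈ U.1, cc g D p k i) : ℤ)) : ℚ_[p]) *
            (((∏ i ∈ S, ∏ k ∈ Tp p, RR g k i : ℤ)) : ℚ_[p]) ^ 2 =
            (((∏ i ∈ S, (δ i * ∏ k ∈ U.1, cc g D p k i) : ℤ)) : ℚ_[p]) *
            (((∏ i ∈ S, ∏ k ∈ Tp p, RR g k i : ℤ)) : ℚ_[p]) *
            (((∏ i ∈ S, ∏ k ∈ Tp p, RR g k i : ℤ)) : ℚ_[p]) := by ring
        rw [e1]
        exact h6
      obtain ⟨t, ht⟩ := hS
      have hDS : ∏ i ∈ S, (if i ∈ U.1 then D else 1) = (D ^ t) ^ 2 := by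
        rw [← Finset.prod_filter, Finset.prod_const]
        have e1 : (S.filter fun x => x ∈ U.1) = S ∩ U.1 := by
          ext x
          simp
        rw [e1, ht, ← pow_mul]
        congr 1
        omega
      have key : ∏ i ∈ S, (δ i * ∏ k ∈ U.1, cc g D p k i) =
          ((∏ i ∈ S, theta g s p U i) * ∏ U' : OddSet ι with Odd (S ∩ U'.1).card, (e U' : ℤ)) *
            ((∏ U' : OddSet ι, (e U' : ℤ) ^ ((S ∩ U'.1).card / 2)) * D ^ t) ^ 2 := by
        have e2 : ∀ i ∈ S, δ i * ∏ k ∈ U.1, cc g D p k i = theta g s p U i *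
            (∏ U' : OddSet ι with i ∈ U'.1, (e U' : ℤ)) * (if i ∈ U.1 then D else 1) := by
          intro i _
          rw [gtfam_prod_cc, hδe i]
          unfold theta
          ring
        rw [Finset.prod_congr rfl e2, Finset.prod_mul_distrib, Finset.prod_mul_distrib, gtfam_regroup, hDS]
        ring
      rw [key, Int.cast_mul, Int.cast_pow] at h3'
      refine gtfam_isSquare_of_mul_sq ?_ h3'
      rw [Int.cast_ne_zero]
      refine mul_ne_zero (Finset.prod_ne_zero_iff.2 fun U' _ => pow_ne_zero _ ?_) (pow_ne_zero _ hD0)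
      have h5 : ∏ U, e U ≠ 0 := hsqf.ne_zero
      exact_mod_cast (Finset.prod_ne_zero_iff.1 h5) U' (Finset.mem_univ _)
    · intro hd
      rcases (Nat.prime_iff_prime_int.1 hpp).dvd_or_dvd hd with hd | hd
      · exact gtfam_not_dvd_prod hpp _ _ (fun i _ => hth i) hd
      · refine gtfam_not_dvd_prod hpp _ _ (fun U' hU' h4 => ?_) hd
        have h5 := ((hpe U' p hpp).1 (by exact_mod_cast h4)).2.2
        rw [hpU'] at h5
        rw [← h5] at hU'
        exact (Nat.not_odd_iff_even.2 hS) (Finset.mem_filter.1 hU').2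

end ZG
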