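import Pool.Agent.Lib.MP_1ad228_nt.GTDefs
import Pool.Agent.Lib.MP_10e784_ag.QHasse

/-! JOB GTLoc (short).  Weierstrass points.

`root_pt`: if `(g i).disc = c²` in the field `F` (`2 ≠ 0` in `F`, characteristic zero), then `(g i).ev x z = 0` for a point `(x, z) ≠ (0, 0)`: if `A ≠ 0` take `(c - B, 2A)` (`BQ.root_self`); if `A = 0` take `(1, 0)`.
Then `w = 0` gives a point of the curve over `F` itself; with coefficient `1` the degree is `1` (`Module.finrank_self`), see `ZFinal_pt`, `global_of_square` in `ZFinal.lean`.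
`local_cycles`: `disc (g i1) = 13 u²`, `disc (g i2) = 17 v²`, `disc (g i3) = 221 w²`: by `QT.root_padic` one of `13, 17, 221` is a square in `ℚ_p` (`x² = 13` or `17` or `221`), so the corresponding discriminant is a square in `ℚ_p`; over `ℝ` all three are squares (`13 u² = (√13 u)²`). -/

namespace ZG

open Finset

/-- a rational point gives a cycle of degree one -/
private theorem gtLoc_pt {F : Type} [Field F] {ι : Type} [Fintype ι] (g : ι → BQ) (D : ℤ) (x z w : F)
    (ne : ¬ (x = 0 ∧ z = 0)) (eq : (D : F) * w ^ 2 = ∏ i, (g i).ev x z) :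
    ∃ z : Cyc F g D, z.deg = 1 := by
  refine ⟨[(1, { K := F, x := x, z := z, w := w, ne := ne, eq := eq })], ?_⟩
  unfold Cyc.deg
  simp only [List.map_cons, List.map_nil, List.sum_cons, List.sum_nil, one_mul, add_zero]
  rw [Module.finrank_self]
  rfl

theorem cyc_of_square {F : Type} [Field F] [CharZero F] {ι : Type} [Fintype ι] (g : ι → BQ) (D : ℤ) (i : ι)
    (h : IsSquare ((g i).disc : F)) : ∃ z : Cyc F g D, z.deg = 1 := by
  obtain ⟨s, hs⟩ := h
  have hs2 : s ^ 2 = ((g i).disc : F) := by rw [hs]; ring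
  by_cases hA : (g i).A = 0
  · refine gtLoc_pt g D 1 0 0 (fun hh => one_ne_zero hh.1) ?_
    rw [zero_pow two_ne_zero, mul_zero, eq_comm]
    refine Finset.prod_eq_zero (Finset.mem_univ i) ?_
    unfold BQ.ev
    rw [hA]
    simp
  · refine gtLoc_pt g D (s - ((g i).B : F)) (2 * ((g i).A : F)) 0 (fun hh => ?_) ?_
    · have h2 : (2 : F) * ((g i).A : F) ≠ 0 := mul_ne_zero two_ne_zero (by exact_mod_cast hA)
      exact h2 hh.2
    · rw [zero_pow two_ne_zero, mul_zero, eq_comm]
      exact Finset.prod_eq_zero (Finset.mem_univ i) (BQ.root_self (g i) s hs2)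

theorem local_cycles {ι : Type} [Fintype ι] (g : ι → BQ) (i1 i2 i3 : ι) (u v w : ℤ)
    (h1 : (g i1).disc = 13 * u ^ 2) (h2 : (g i2).disc = 17 * v ^ 2) (h3 : (g i3).disc = 221 * w ^ 2) (D : ℤ) :
    (∀ (p : ℕ) [Fact p.Prime], ∃ z : Cyc ℚ_[p] g D, z.deg = 1) ∧ ∃ z : Cyc ℝ g D, z.deg = 1 := by
  constructor
  · intro p _
    obtain ⟨x, hx⟩ := QT.root_padic p
    rcases mul_eq_zero.mp hx with h | h
    · rcases mul_eq_zero.mp h with h | h
      · refine cyc_of_square g D i1 ⟨x * (u : ℚ_[p]), ?_⟩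
        rw [h1]
        push_cast
        linear_combination (-(u : ℚ_[p]) ^ 2) * h
      · refine cyc_of_square g D i2 ⟨x * (v : ℚ_[p]), ?_⟩
        rw [h2]
        push_cast
        linear_combination (-(v : ℚ_[p]) ^ 2) * h
    · refine cyc_of_square g D i3 ⟨x * (w : ℚ_[p]), ?_⟩
      rw [h3]
      push_cast
      linear_combination (-(w : ℚ_[p]) ^ 2) * h
  · have hs : Real.sqrt 13 * Real.sqrt 13 = 13 := Real.mul_self_sqrt (by norm_num)
    refine cyc_of_square g D i1 ⟨Real.sqrt 13 * (u : ℝ), ?_⟩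
    rw [h1]
    push_cast
    linear_combination (-(u : ℝ) ^ 2) * hs

end ZG
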