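import Pool.Agent.Lib.MP_1ad228_nt.GTMain
import Pool.Agent.Lib.MP_1ad228_nt.GTLoc

/-! The final form of the theorem on the twists of `w² = g_1 g_2 g_3`. -/

namespace ZG

open Finset

private theorem GTFinal_mono (N : ℕ) (P Q : ℤ → Prop) (h : ∀ D, P D → Q D) :
    Nat.card {D : ℤ // Squarefree D ∧ |D| ≤ (N : ℤ) ∧ P D} ≤
      Nat.card {D : ℤ // Squarefree D ∧ |D| ≤ (N : ℤ) ∧ Q D} := by
  have hfin : Finite {D : ℤ // Squarefree D ∧ |D| ≤ (N : ℤ) ∧ Q D} := by
    apply Set.Finite.to_subtype (s := {D : ℤ | Squarefree D ∧ |D| ≤ (N : ℤ) ∧ Q D})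
    apply (Set.finite_Icc (-(N : ℤ)) N).subset
    rintro D ⟨_, hD, _⟩
    exact abs_le.1 hD
  exact Nat.card_le_card_of_injective
    (fun x : {D : ℤ // Squarefree D ∧ |D| ≤ (N : ℤ) ∧ P D} =>
      (⟨x.1, x.2.1, x.2.2.1, h x.1 x.2.2.2⟩ : {D : ℤ // Squarefree D ∧ |D| ≤ (N : ℤ) ∧ Q D}))
    (fun x y hxy => by
      have := congrArg Subtype.val hxy
      exact Subtype.ext this)

theorem final (g : Fin 3 → BQ) (hR : ∀ i j, i ≠ j → (g i).res (g j) ≠ 0)
    (hex : ¬ ((∀ i, ¬ IsSquare (g i).disc) ∧ IsSquare (∏ i, (g i).disc) ∧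
      (∀ i j, i ≠ j → ¬ IsSquare ((g i).res (g j))) ∧
      IsSquare ((g 0).res (g 1) * (g 0).res (g 2) * (g 1).res (g 2)))) :
    (∃ C : ℝ, ∀ N : ℕ, 2 ≤ N →
      (Nat.card {D : ℤ // Squarefree D ∧ |D| ≤ (N : ℤ) ∧
        ¬ ((Adelic g D → Global g D) ∧ ((∀ i, ¬ IsSquare (g i).disc) → ¬ Adelic g D ∧ ¬ Global g D))} : ℝ)
        ≤ C * N / Real.log N ^ (1 / 2000 : ℝ)) := by
  by_cases hsq : ∀ i, ¬ IsSquare (g i).disc
  · have hex' : IsSquare ((g 0).disc * (g 1).disc * (g 2).disc) →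
        IsSquare ((g 0).res (g 1) * (g 0).res (g 2) * (g 1).res (g 2)) →
        IsSquare ((g 0).res (g 1)) ∨ IsSquare ((g 0).res (g 2)) ∨ IsSquare ((g 1).res (g 2)) := by
      intro h1 h2
      by_contra hcon
      push Not at hcon
      obtain ⟨h01, h02, h12⟩ := hcon
      apply hex
      refine ⟨hsq, ?_, ?_, h2⟩
      · rw [Fin.prod_univ_three]
        exact h1
      · intro i j hij
        fin_cases i <;> fin_cases j <;>
          first
          | exact absurd rfl hij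
          | exact h01
          | exact h02
          | exact h12
          | (rw [BQ.res_comm]; exact h01)
          | (rw [BQ.res_comm]; exact h02)
          | (rw [BQ.res_comm]; exact h12)
    obtain ⟨C, hC, hCb⟩ := main g hR hsq hex'
    refine ⟨C, fun N hN => ?_⟩
    have hN1 : (1 : ℝ) ≤ N := by exact_mod_cast (by omega : 1 ≤ N)
    have e : C * N / Real.log N ^ (1 / 2000 : ℝ) = C * N * Real.log N ^ (-(1 / 2000) : ℝ) := by
      rw [Real.rpow_neg (Real.log_nonneg hN1), div_eq_mul_inv]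
    rw [e]
    refine le_trans ?_ (hCb N hN)
    have h := GTFinal_mono N (fun D => ¬ ((Adelic g D → Global g D) ∧
        ((∀ i, ¬ IsSquare (g i).disc) → ¬ Adelic g D ∧ ¬ Global g D))) (fun D => Adelic g D ∨ Global g D)
      (fun D h => by
        by_contra hcon
        push Not at hcon
        exact h ⟨fun hA => absurd hA hcon.1, fun _ => hcon⟩)
    exact_mod_cast h
  · push Not at hsq
    obtain ⟨i₀, hi₀⟩ := hsq
    refine ⟨0, fun N _ => ?_⟩
    have hempty : IsEmpty {D : ℤ // Squarefree D ∧ |D| ≤ (N : ℤ) ∧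
        ¬ ((Adelic g D → Global g D) ∧ ((∀ i, ¬ IsSquare (g i).disc) → ¬ Adelic g D ∧ ¬ Global g D))} := by
      refine ⟨fun x => x.2.2.2 ⟨fun _ => ?_, fun h => absurd hi₀ (h i₀)⟩⟩
      refine cyc_of_square g x.1 i₀ ?_
      obtain ⟨c, hc⟩ := hi₀
      exact ⟨(c : ℚ), by rw [hc]; push_cast; ring⟩
    rw [Nat.card_of_isEmpty]
    simp

end ZG
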