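import Pool.Agent.Lib.MP_1ad228_nt.GTVal

/-! JOB GTInert.  Norms of elements of the quadratic subfield `ℚ_p(s)`.

`norm_inert`: let `F = ℚ_p(s) ⊆ K` (`IntermediateField.adjoin ℚ_[p] {s}`), `minpoly ℚ_[p] s = X² - C a` (irreducible because `a` is not a square, `X_pow_sub_C_irreducible_iff_of_prime`, `minpoly.eq_of_irreducible_of_monic`), so `[F : ℚ_p] = 2`
(`IntermediateField.adjoin.finrank`) and `n = [K : ℚ_p] = 2 [K : F]` (`Module.finrank_mul_finrank`).  For `y ∈ F`: `N_{K/ℚ_p}(y) = N_{F/ℚ_p}(N_{K/F}(y)) = N_{F/ℚ_p}(y)^[K:F]` (`Algebra.norm_norm`, `Algebra.norm_algebraMap`).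
`N_{F/ℚ_p}(α + β s) = α² - β² a`: if `β = 0` it is `α²` (`Algebra.norm_algebraMap`).  Otherwise `α + β s = β (c + s)` with `c = α/β`; `c + s` generates `F`, its minimal polynomial is `(X - c)² - a`
(`minpoly.add_algebraMap` or directly), and `N(c + s) = coeff 0 = c² - a` (degree 2, `Algebra.norm` of a generator: `IntermediateField.AdjoinSimple.norm_gen_eq_one`-like lemmas, `PowerBasis.norm_gen_eq_coeff_zero_minpoly`,
or `Algebra.norm_eq_...`).  Another way: compute the matrix of multiplication in the basis `1, s`; or use `LinearMap.det` on the basis of the power basis `IntermediateField.adjoin.powerBasis`.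

`norm_root`: `(g j).ev (s - B_k) (2 A_k) = α + β s` with the integers `α = A_j (a_k + B_k²) - 2 A_k B_j B_k + 4 A_k² C_j`, `β = 2 (A_k B_j - A_j B_k)`, `a_k = (g k).disc` (use `s² = a_k`), and `α² - β² a_k = 16 A_k² res (g_k, g_j)`
(`unfold BQ.disc BQ.res; ring` after substituting `a_k = B_k² - 4 A_k C_k`). -/

namespace ZG

open Finset ZC

variable {p : ℕ} [Fact p.Prime] {ι : Type}

private theorem gtinert_minpoly {K : Type} [Field K] [Algebra ℚ_[p] K] [FiniteDimensional ℚ_[p] K] (a : ℤ)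
    (ha : ¬ IsSquare ((a : ℤ) : ℚ_[p])) (s : K) (hs : s ^ 2 = (a : K)) :
    minpoly ℚ_[p] s = Polynomial.X ^ 2 - Polynomial.C ((a : ℤ) : ℚ_[p]) := by
  have hirr : Irreducible (Polynomial.X ^ 2 - Polynomial.C ((a : ℤ) : ℚ_[p])) := by
    rw [X_pow_sub_C_irreducible_iff_of_prime Nat.prime_two]
    intro b hb
    exact ha ⟨b, by rw [← hb, sq]⟩
  refine (minpoly.eq_of_irreducible_of_monic hirr ?_ (Polynomial.monic_X_pow_sub_C _ two_ne_zero)).symm
  simp [hs]

private theorem gtinert_shift {K : Type} [Field K] [Algebra ℚ_[p] K] [FiniteDimensional ℚ_[p] K] (a : ℤ)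
    (ha : ¬ IsSquare ((a : ℤ) : ℚ_[p])) (s : K) (hs : s ^ 2 = (a : K)) (c : ℚ_[p]) :
    Even (Module.finrank ℚ_[p] K) ∧ Algebra.norm ℚ_[p] (s + algebraMap ℚ_[p] K c) =
      (c ^ 2 - ((a : ℤ) : ℚ_[p])) ^ (Module.finrank ℚ_[p] K / 2) := by
  have hm : minpoly ℚ_[p] (s + algebraMap ℚ_[p] K c) =
      (Polynomial.X ^ 2 - Polynomial.C ((a : ℤ) : ℚ_[p])).comp (Polynomial.X - Polynomial.C c) := by
    rw [minpoly.add_algebraMap, gtinert_minpoly a ha s hs]
  set x := s + algebraMap ℚ_[p] K c with hx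
  have hint : IsIntegral ℚ_[p] x := Algebra.IsIntegral.isIntegral x
  have hdeg : (minpoly ℚ_[p] x).natDegree = 2 := by
    rw [hm, Polynomial.natDegree_comp, Polynomial.natDegree_X_pow_sub_C, Polynomial.natDegree_X_sub_C]
  have hc0 : (minpoly ℚ_[p] x).coeff 0 = c ^ 2 - ((a : ℤ) : ℚ_[p]) := by
    rw [hm, Polynomial.coeff_zero_eq_eval_zero, Polynomial.eval_comp]
    simp
  have hfr : Module.finrank ℚ_[p] (IntermediateField.adjoin ℚ_[p] {x}) = 2 := by
    rw [IntermediateField.adjoin.finrank hint, hdeg]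
  have htow : 2 * Module.finrank (IntermediateField.adjoin ℚ_[p] {x}) K = Module.finrank ℚ_[p] K := by
    rw [← hfr]
    exact Module.finrank_mul_finrank _ _ _
  have hn : Algebra.norm ℚ_[p] (IntermediateField.AdjoinSimple.gen ℚ_[p] x) = c ^ 2 - ((a : ℤ) : ℚ_[p]) := by
    have h1 := Algebra.PowerBasis.norm_gen_eq_coeff_zero_minpoly (IntermediateField.adjoin.powerBasis hint)
    rw [IntermediateField.adjoin.powerBasis_gen, IntermediateField.adjoin.powerBasis_dim,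
      IntermediateField.minpoly_gen, hdeg, hc0] at h1
    rw [h1]
    ring
  refine ⟨⟨Module.finrank (IntermediateField.adjoin ℚ_[p] {x}) K, by rw [← htow]; ring⟩, ?_⟩
  rw [Algebra.norm_eq_norm_adjoin, hn]
  congr 1
  omega

theorem norm_inert (K : Type) [Field K] [Algebra ℚ_[p] K] [FiniteDimensional ℚ_[p] K] (a : ℤ)
    (ha : ¬ IsSquare ((a : ℤ) : ℚ_[p])) (s : K) (hs : s ^ 2 = (a : K)) :
    Even (Module.finrank ℚ_[p] K) ∧ ∀ α β : ℤ, Algebra.norm ℚ_[p] ((α : K) + (β : K) * s) =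
      ((α ^ 2 - β ^ 2 * a : ℤ) : ℚ_[p]) ^ (Module.finrank ℚ_[p] K / 2) := by
  have hbase := gtinert_shift (p := p) a ha s hs 0
  refine ⟨hbase.1, ?_⟩
  intro α β
  obtain ⟨m, hm⟩ := hbase.1
  have hm2 : Module.finrank ℚ_[p] K / 2 = m := by omega
  by_cases hβ : β = 0
  · subst hβ
    have e : ((α : K) + ((0 : ℤ) : K) * s) = algebraMap ℚ_[p] K ((α : ℤ) : ℚ_[p]) := by
      rw [map_intCast]
      simp
    rw [e, Algebra.norm_algebraMap, hm2, hm, ← two_mul, pow_mul]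
    congr 1
    push_cast
    ring
  · have hβ' : ((β : ℤ) : ℚ_[p]) ≠ 0 := by exact_mod_cast hβ
    have hβK : algebraMap ℚ_[p] K ((β : ℤ) : ℚ_[p]) ≠ 0 := by
      rw [Ne, FaithfulSMul.algebraMap_eq_zero_iff]
      exact hβ'
    have h1 := (gtinert_shift (p := p) a ha s hs (((α : ℤ) : ℚ_[p]) / ((β : ℤ) : ℚ_[p]))).2
    have e : ((α : K) + (β : K) * s) = algebraMap ℚ_[p] K ((β : ℤ) : ℚ_[p]) *
        (s + algebraMap ℚ_[p] K (((α : ℤ) : ℚ_[p]) / ((β : ℤ) : ℚ_[p]))) := by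
      rw [map_div₀, mul_add, mul_div_cancel₀ _ hβK, map_intCast, map_intCast]
      ring
    rw [e, map_mul, h1, Algebra.norm_algebraMap, hm2, hm, ← two_mul, pow_mul, ← mul_pow]
    congr 1
    push_cast
    field_simp

theorem norm_root (g : ι → BQ) (K : Type) [Field K] [Algebra ℚ_[p] K] [FiniteDimensional ℚ_[p] K] (k j : ι)
    (ha : ¬ IsSquare (((g k).disc : ℤ) : ℚ_[p])) (s : K) (hs : s ^ 2 = ((g k).disc : K)) :
    Even (Module.finrank ℚ_[p] K) ∧ Algebra.norm ℚ_[p] ((g j).ev (s - ((g k).B : K)) (2 * ((g k).A : K))) =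
      ((16 * (g k).A ^ 2 * (g k).res (g j) : ℤ) : ℚ_[p]) ^ (Module.finrank ℚ_[p] K / 2) := by
  have hd : (g k).disc = (g k).B ^ 2 - 4 * (g k).A * (g k).C := rfl
  obtain ⟨hev, hn⟩ := norm_inert (p := p) K (g k).disc ha s hs
  refine ⟨hev, ?_⟩
  have h1 := hn ((g j).A * ((g k).disc + (g k).B ^ 2) - 2 * (g k).A * (g j).B * (g k).B + 4 * (g k).A ^ 2 * (g j).C)
    (2 * ((g k).A * (g j).B - (g j).A * (g k).B))
  have e1 : (g j).ev (s - ((g k).B : K)) (2 * ((g k).A : K)) =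
      (((g j).A * ((g k).disc + (g k).B ^ 2) - 2 * (g k).A * (g j).B * (g k).B + 4 * (g k).A ^ 2 * (g j).C : ℤ) : K) +
        ((2 * ((g k).A * (g j).B - (g j).A * (g k).B) : ℤ) : K) * s := by
    unfold BQ.ev
    push_cast
    linear_combination ((g j).A : K) * hs
  have e2 : ((g j).A * ((g k).disc + (g k).B ^ 2) - 2 * (g k).A * (g j).B * (g k).B + 4 * (g k).A ^ 2 * (g j).C) ^ 2 -
      (2 * ((g k).A * (g j).B - (g j).A * (g k).B)) ^ 2 * (g k).disc = 16 * (g k).A ^ 2 * (g k).res (g j) := by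
    rw [hd]
    unfold BQ.res
    ring
  rw [e1, h1, e2]

end ZG
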