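import Pool.Agent.Lib.MP_1ad228_nt.GTKer

/-! JOB GTLocF.  The local factor is nonnegative.

`YY I θ e p S` is multiplicative: for `S, T` with `|S ∩ U|`, `|T ∩ U|` even, `YY (symmDiff S T) = YY S * YY T` and all values are `±1` (see `YY_pm`, `YY_symm`, `YY_sum_nonneg` in `ZInner.lean`, with their auxiliary lemmas `stI_symm`, `prod_symm`, `jac_ne`, `jac_prod`: private, copy
them; note that `U ∉ I.filter (fun U' => Odd (S ∩ U'.1).card)` when `|S ∩ U|` is even).  The set `A = {S ∈ Kr g p, |S ∩ U| even}` is closed under `symmDiff` (`Kr_symm`, `odd_symm` in `ZInner.lean`).  If `YY T = -1` for some `T ∈ A`, the bijection `S ↦ symmDiff S T` of `A` changes the sign,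
so the sum is `0`; otherwise all values are `1` and the sum is the cardinality. -/

namespace ZG

open Finset

variable {ι : Type} [Fintype ι] [DecidableEq ι]

/-- the local character -/
def YY (I : Finset (OddSet ι)) (θ : ι → ℤ) (e : OddSet ι → ℕ) (p : ℕ) (S : Finset ι) : ℤ :=
  jacobiSym (∏ i ∈ S, θ i) p * ∏ U' ∈ I.filter (fun U' => Odd (S ∩ U'.1).card), jacobiSym (e U') p

private def gtlocf_st (I : Finset (OddSet ι)) (S : Finset ι) : Finset (OddSet ι) :=
  I.filter fun U' => Odd (S ∩ U'.1).card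

omit [Fintype ι] in
private theorem gtlocf_card_symm (A B : Finset ι) :
    (symmDiff A B).card + 2 * (A ∩ B).card = A.card + B.card := by
  have h1 : (symmDiff A B).card = (A \ B).card + (B \ A).card := by
    rw [symmDiff_def, sup_eq_union, Finset.card_union_of_disjoint]
    exact disjoint_sdiff_sdiff
  have h2 := Finset.card_sdiff_add_card_inter A B
  have h3 := Finset.card_sdiff_add_card_inter B A
  rw [Finset.inter_comm B A] at h3
  omega

omit [Fintype ι] in
private theorem gtlocf_inter_symm (S T U : Finset ι) :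
    symmDiff S T ∩ U = symmDiff (S ∩ U) (T ∩ U) := by
  ext x
  simp only [Finset.mem_inter, Finset.mem_symmDiff]
  tauto

omit [Fintype ι] in
private theorem gtlocf_odd_symm (S T U : Finset ι) :
    Odd (symmDiff S T ∩ U).card ↔ ¬ (Odd (S ∩ U).card ↔ Odd (T ∩ U).card) := by
  have h := gtlocf_card_symm (S ∩ U) (T ∩ U)
  rw [← gtlocf_inter_symm] at h
  rw [Nat.odd_iff, Nat.odd_iff, Nat.odd_iff]
  omega

omit [Fintype ι] in
private theorem gtlocf_st_symm (I : Finset (OddSet ι)) (S T : Finset ι) :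
    gtlocf_st I (symmDiff S T) = symmDiff (gtlocf_st I S) (gtlocf_st I T) := by
  ext U
  simp only [gtlocf_st, Finset.mem_filter, Finset.mem_symmDiff, gtlocf_odd_symm]
  tauto

private theorem gtlocf_ev_symm {g : ι → BQ} {p : ℕ} (hp : p.Prime) (hg : Good g p) {U : OddSet ι}
    {S T : Finset ι} (hS : S ∈ (Kr g p).filter (fun S => Even (S ∩ U.1).card))
    (hT : T ∈ (Kr g p).filter (fun S => Even (S ∩ U.1).card)) :
    symmDiff S T ∈ (Kr g p).filter (fun S => Even (S ∩ U.1).card) := by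
  rw [Finset.mem_filter] at *
  refine ⟨Kr_symm hp hg hS.1 hT.1, ?_⟩
  have h1 := hS.2
  have h2 := hT.2
  rw [← Nat.not_odd_iff_even] at *
  rw [gtlocf_odd_symm]
  tauto

private theorem gtlocf_jac_ne {p : ℕ} (hp : p.Prime) {n : ℤ} (h : ¬ (p : ℤ) ∣ n) :
    jacobiSym n p = 1 ∨ jacobiSym n p = -1 := by
  rcases jacobiSym.trichotomy n p with h1 | h1
  · exfalso
    rw [jacobiSym.eq_zero_iff] at h1
    apply h1.2
    have h2 : IsCoprime n (p : ℤ) :=
      ((Nat.prime_iff_prime_int.1 hp).coprime_iff_not_dvd.2 h).symm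
    rw [Int.isCoprime_iff_gcd_eq_one] at h2
    exact h2
  · exact h1

private theorem gtlocf_jac_prod {κ : Type} (S : Finset κ) (f : κ → ℤ) (p : ℕ) :
    jacobiSym (∏ i ∈ S, f i) p = ∏ i ∈ S, jacobiSym (f i) p := by
  classical
  induction S using Finset.induction_on with
  | empty => simp
  | insert a s ha ih => rw [Finset.prod_insert ha, Finset.prod_insert ha, jacobiSym.mul_left, ih]

private theorem gtlocf_prod_symm {κ : Type} [DecidableEq κ] (A B : Finset κ) (y : κ → ℤ)
    (h : ∀ x ∈ A ∩ B, y x = 1 ∨ y x = -1) :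
    ∏ x ∈ symmDiff A B, y x = (∏ x ∈ A, y x) * ∏ x ∈ B, y x := by
  have h1 : ∏ x ∈ symmDiff A B, y x = (∏ x ∈ A \ B, y x) * ∏ x ∈ B \ A, y x := by
    rw [symmDiff_def, sup_eq_union, Finset.prod_union]
    exact disjoint_sdiff_sdiff
  have h2 : ∏ x ∈ A, y x = (∏ x ∈ A \ B, y x) * ∏ x ∈ A ∩ B, y x := by
    rw [← Finset.prod_union (Finset.disjoint_sdiff_inter A B), Finset.sdiff_union_inter]
  have h3 : ∏ x ∈ B, y x = (∏ x ∈ B \ A, y x) * ∏ x ∈ A ∩ B, y x := by
    rw [Finset.inter_comm A B, ← Finset.prod_union (Finset.disjoint_sdiff_inter B A),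
      Finset.sdiff_union_inter]
  have h4 : (∏ x ∈ A ∩ B, y x) * ∏ x ∈ A ∩ B, y x = 1 := by
    rw [← Finset.prod_mul_distrib]
    refine Finset.prod_eq_one fun x hx => ?_
    rcases h x hx with h | h <;> rw [h] <;> norm_num
  rw [h1, h2, h3]
  linear_combination (-(∏ x ∈ A \ B, y x) * ∏ x ∈ B \ A, y x) * h4

private theorem gtlocf_pm (I : Finset (OddSet ι)) (U : OddSet ι) (θ : ι → ℤ) (e : OddSet ι → ℕ) {p : ℕ}
    (hp : p.Prime) (hθ : ∀ i, ¬ (p : ℤ) ∣ θ i) (he : ∀ U', U' ≠ U → ¬ p ∣ e U') {S : Finset ι}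
    (hS : Even (S ∩ U.1).card) : YY I θ e p S = 1 ∨ YY I θ e p S = -1 := by
  have key : ∀ {κ : Type} (A : Finset κ) (y : κ → ℤ), (∀ x ∈ A, y x = 1 ∨ y x = -1) →
      ∏ x ∈ A, y x = 1 ∨ ∏ x ∈ A, y x = -1 := by
    intro κ A y h
    classical
    induction A using Finset.induction_on with
    | empty => simp
    | insert a s ha ih =>
      rw [Finset.prod_insert ha]
      rcases h a (Finset.mem_insert_self a s) with h1 | h1 <;>
        rcases ih (fun x hx => h x (Finset.mem_insert_of_mem hx)) with h2 | h2 <;>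
        rw [h1, h2] <;> norm_num
  have h1 := key S (fun i => jacobiSym (θ i) p) fun i _ => gtlocf_jac_ne hp (hθ i)
  have h2 := key (gtlocf_st I S) (fun U' => jacobiSym (e U') p) fun U' hU' => by
    refine gtlocf_jac_ne hp ?_
    rw [Int.natCast_dvd_natCast]
    refine he U' ?_
    rintro rfl
    exact (Nat.not_odd_iff_even.2 hS) (Finset.mem_filter.1 hU').2
  have h3 : YY I θ e p S = (∏ i ∈ S, jacobiSym (θ i) p) * ∏ U' ∈ gtlocf_st I S, jacobiSym (e U') p := by
    unfold YY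
    rw [gtlocf_jac_prod]
    rfl
  rw [h3]
  rcases h1 with h1 | h1 <;> rcases h2 with h2 | h2 <;> rw [h1, h2] <;> norm_num

private theorem gtlocf_YY_symm (I : Finset (OddSet ι)) (U : OddSet ι) (θ : ι → ℤ) (e : OddSet ι → ℕ) {p : ℕ}
    (hp : p.Prime) (hθ : ∀ i, ¬ (p : ℤ) ∣ θ i) (he : ∀ U', U' ≠ U → ¬ p ∣ e U') {S T : Finset ι}
    (hS : Even (S ∩ U.1).card) :
    YY I θ e p (symmDiff S T) = YY I θ e p S * YY I θ e p T := by
  have h3 : ∀ S, YY I θ e p S = (∏ i ∈ S, jacobiSym (θ i) p) *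
      ∏ U' ∈ gtlocf_st I S, jacobiSym (e U') p := by
    intro S
    unfold YY
    rw [gtlocf_jac_prod]
    rfl
  rw [h3, h3, h3, gtlocf_st_symm, gtlocf_prod_symm, gtlocf_prod_symm]
  · ring
  · intro U' hU'
    refine gtlocf_jac_ne hp ?_
    rw [Int.natCast_dvd_natCast]
    refine he U' ?_
    rintro rfl
    have := (Finset.mem_inter.1 hU').1
    exact (Nat.not_odd_iff_even.2 hS) (Finset.mem_filter.1 this).2
  · intro i _
    exact gtlocf_jac_ne hp (hθ i)

theorem YY_sum_nonneg {g : ι → BQ} {p : ℕ} (hp : p.Prime) (hg : Good g p) (I : Finset (OddSet ι)) (U : OddSet ι)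
    (θ : ι → ℤ) (e : OddSet ι → ℕ) (hθ : ∀ i, ¬ (p : ℤ) ∣ θ i) (he : ∀ U', U' ≠ U → ¬ p ∣ e U') :
    0 ≤ ∑ S ∈ (Kr g p).filter (fun S => Even (S ∩ U.1).card), YY I θ e p S := by
  by_cases h : ∃ T ∈ (Kr g p).filter (fun S => Even (S ∩ U.1).card), YY I θ e p T = -1
  · obtain ⟨T, hT, hT1⟩ := h
    have h1 : ∑ S ∈ (Kr g p).filter (fun S => Even (S ∩ U.1).card), YY I θ e p S =
        ∑ S ∈ (Kr g p).filter (fun S => Even (S ∩ U.1).card), -YY I θ e p S := by
      refine Finset.sum_bij' (fun S _ => symmDiff S T) (fun S _ => symmDiff S T) ?_ ?_ ?_ ?_ ?_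
      · intro S hS
        exact gtlocf_ev_symm hp hg hS hT
      · intro S hS
        exact gtlocf_ev_symm hp hg hS hT
      · intro S _
        rw [symmDiff_symmDiff_cancel_right]
      · intro S _
        rw [symmDiff_symmDiff_cancel_right]
      · intro S hS
        rw [gtlocf_YY_symm I U θ e hp hθ he (Finset.mem_filter.1 hS).2, hT1]
        ring
    rw [Finset.sum_neg_distrib] at h1
    omega
  · refine Finset.sum_nonneg fun S hS => ?_
    rcases gtlocf_pm I U θ e hp hθ he (Finset.mem_filter.1 hS).2 with h1 | h1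
    · rw [h1]; norm_num
    · exact absurd ⟨S, hS, h1⟩ h

end ZG
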