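import Pool.Agent.Lib.MP_1ad228_nt.GTDefs
import Pool.Agent.Lib.MP_10e784_ag.QDefs

/-! Weights: the abstract conditions used by the counting argument, and the weights for three forms.  (Complete file.) -/

namespace ZG

open Finset

/-- the conditions on the weight `W` and the majorant `F` -/
structure Wt {ι : Type} [Fintype ι] [DecidableEq ι] (g : ι → BQ) (W F : ℕ → ℝ) (B η : ℝ) : Prop where
  W0 : ∀ p, 0 ≤ W p
  W8 : ∀ p, W p ≤ 8
  one : ∀ p, p.Prime → ¬ p ∣ Rb g → ∀ U : OddSet ι, (∀ k ∈ U.1, jacobiSym (g k).disc p = 1) →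
    2 * W p ≤ ((Kr g p).card : ℝ)
  sum : ∀ p, p.Prime → ¬ p ∣ Rb g →
    ((univ.filter fun U : OddSet ι => ∀ k ∈ U.1, jacobiSym (g k).disc p = 1).card : ℝ) * (2 * W p) ≤
      ((Kr g p).card : ℝ) * F p
  F0 : ∀ p, p.Prime → 0 ≤ F p
  B0 : 0 < B
  η0 : 0 ≤ η
  η1 : η ≤ 1
  bound : ∀ x : ℝ, 2 ≤ x → ∑ n ∈ (Icc 1 ⌊x⌋₊).filter Squarefree, QT.pf F n ≤ B * x * Real.log x ^ (-η)

/-- the number of split forms -/
def SN {ι : Type} [Fintype ι] (g : ι → BQ) (p : ℕ) : ℕ :=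
  (univ.filter fun i => jacobiSym (g i).disc p = 1).card

/-- the exponent `k(p)` -/
def ke {ι : Type} [Fintype ι] [DecidableEq ι] (g : ι → BQ) (p : ℕ) : ℤ :=
  (SN g p : ℤ) - (Nat.log 2 (Kr g p).card : ℤ)

/-- the weight -/
noncomputable def WW {ι : Type} [Fintype ι] [DecidableEq ι] (g : ι → BQ) (p : ℕ) : ℝ :=
  (49 / 96 : ℝ) ^ (ke g p)

/-- the majorant -/
noncomputable def FW {ι : Type} [Fintype ι] [DecidableEq ι] (g : ι → BQ) (p : ℕ) : ℝ :=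
  (49 / 48 : ℝ) ^ (ke g p)

end ZG
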