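import Pool.Agent.Lib.MP_1ad228_nt.GTEng
import Pool.Agent.Lib.MP_1ad228_nt.GTLocF
import Pool.Agent.Lib.MP_1ad228_nt.GTWt

/-! JOB GTInner.  The inner sum, for a set `I` of large classes containing all the singletons.

Model: `ZInner.lean` (read it first; same engine, here `engine_G`).  Differences:
* the sets `S` range over `Kr g p` (which depends on `p`), the coefficients `θ p U i` depend on `p`, and the vectors are counted with the weight `pf W (∏ e)`.
* Labels and system `Sys` as in `ZInner.lean` (`ZInnerLab`, `ZInner_sys` there are public in the namespace `ZC`: they can be used directly, or copy them).  Since `I` contains the singletons, the map `S ↦ stI I S = I.filter (fun U' => Odd (S ∩ U'.1).card)`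
  is injective: `i ∈ S ↔ {i} ∈ stI I S`.
* `ok U p := ¬ p ∣ Rb g ∧ (∀ i, ¬ (p:ℤ) ∣ θ p U i) ∧ ∀ k ∈ U, jacobiSym (g k).disc p = 1`.
  `u ℓ p = if p.Prime ∧ ok (idx ℓ) p then (2 * W p / (Kr g p).card) * ∑_{S ∈ Kr g p, |S ∩ U| even, stI I S = St ℓ} (∏_{i∈S} θ p U i / p) else 0`, `h U p = if p.Prime ∧ ¬ p ∣ Rb g ∧ ∀ k ∈ U, jacobiSym (g k).disc p = 1 then 2 * W p / (Kr g p).card else 0`
  (jacobi symbols as real numbers).  At most one `S` occurs in the sum, so `|u ℓ p| ≤ h (idx ℓ) p ≤ 1` by `Wt.one` (`(Kr g p).card > 0`: `Kr_empty`).  `u ℓ 2 = 0` because `2 ∣ Rb g`.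
* `∑_{U∈I} h U p ≤ #{U | ∀ k ∈ U, ..} * 2 W p / (Kr g p).card ≤ F p` by `Wt.sum` if `p` is a prime not dividing `Rb g`, and it is `0 ≤ F p` if `p ∣ Rb g` (`Wt.F0`).
* For a prime `p ∣ e U` (`e ∈ Box`, `p ∤ e U'` for `U' ≠ U`), with `Y_S = (∏_{i∈S} θ p U i / p) ∏_{U'∈stI I S} (e U' / p)` for `S ∈ Kr g p`, `|S ∩ U|` even:
  `∑_{ℓ : idx = U} u ℓ p ∏_{U'∈St ℓ} (e U'/p) = if ok U p then (2 W p / (Kr g p).card) ∑_S Y_S else 0`; `Y_S = YY I (θ p U) e p S` (file `GTLocF`); when `ok U p` the sum over `{S ∈ Kr g p, |S ∩ U| even}` is `≥ 0` (`YY_sum_nonneg`), and it is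
  `(Kr g p).card / 2` (`card_even`) if all the `Y_S` are `1`, i.e. if the conditions of the statement hold at `p`; then the local factor is `W p`.  So the product over all `U` and `p ∣ e U` is `≥ 0`, and it is `∏_{p ∣ ∏ e} W p = pf W (∏ e)` for the vectors of the statement
  (the `e U` are pairwise coprime: `(∏ U, e U).primeFactors` is the disjoint union of the `(e U).primeFactors`; for `U ∉ I` we have `e U = 1`). -/

namespace ZG

open Finset

section aux

variable {ι : Type} [Fintype ι] [DecidableEq ι]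

private def gtInner_st (I : Finset (OddSet ι)) (S : Finset ι) : Finset (OddSet ι) :=
  I.filter fun U' => Odd (S ∩ U'.1).card

omit [Fintype ι] in
private theorem gtInner_st_inj {I : Finset (OddSet ι)}
    (hI : ∀ i : ι, (⟨{i}, by simp⟩ : OddSet ι) ∈ I) {S S' : Finset ι}
    (h : gtInner_st I S = gtInner_st I S') : S = S' := by
  have key : ∀ (T : Finset ι) (i : ι), i ∈ T ↔ (⟨{i}, by simp⟩ : OddSet ι) ∈ gtInner_st I T := by
    intro T i
    rw [gtInner_st, Finset.mem_filter]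
    constructor
    · intro hi
      refine ⟨hI i, ?_⟩
      rw [Finset.inter_singleton_of_mem hi, Finset.card_singleton]
      exact odd_one
    · rintro ⟨-, h1⟩
      by_contra hi
      rw [Finset.inter_singleton_of_notMem hi, Finset.card_empty] at h1
      simp at h1
  ext i
  rw [key S i, h, ← key S' i]

/-- the labels -/
private abbrev gtInnerLab (I : Finset (OddSet ι)) :=
  {ℓ : OddSet ι × Finset (OddSet ι) // ℓ.1 ∈ I ∧ ∃ S : Finset ι, Even (S ∩ ℓ.1.1).card ∧
    (I.filter fun U' => Odd (S ∩ U'.1).card) = ℓ.2}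

/-- the label system -/
private def gtInner_sys (I : Finset (OddSet ι)) : QT.Sys (OddSet ι) (gtInnerLab I) where
  idx ℓ := ℓ.1.1
  St ℓ := ℓ.1.2
  I := I
  idx_mem ℓ := ℓ.2.1
  St_sub ℓ := by
    obtain ⟨S, -, hS⟩ := ℓ.2.2
    rw [← hS]
    exact Finset.filter_subset _ _
  not_mem ℓ h := by
    obtain ⟨S, hS, hS'⟩ := ℓ.2.2
    rw [← hS'] at h
    exact (Nat.not_odd_iff_even.2 hS) (Finset.mem_filter.1 h).2
  inj _ _ h1 h2 := Subtype.ext (Prod.ext h1 h2)

private theorem gtInner_label_sum (I : Finset (OddSet ι)) (U : OddSet ι) (hU : U ∈ I)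
    [Fintype (gtInnerLab I)] (A : Finset (Finset ι)) (hA : ∀ S ∈ A, Even (S ∩ U.1).card)
    (F : Finset ι → ℝ) (W : Finset (OddSet ι) → ℝ) :
    ∑ ℓ : gtInnerLab I with (gtInner_sys I).idx ℓ = U,
      (∑ S ∈ A with gtInner_st I S = (gtInner_sys I).St ℓ, F S) * W ((gtInner_sys I).St ℓ) =
    ∑ S ∈ A, F S * W (gtInner_st I S) := by
  have h1 : ∀ ℓ : gtInnerLab I,
      (∑ S ∈ A with gtInner_st I S = (gtInner_sys I).St ℓ, F S) * W ((gtInner_sys I).St ℓ) =
      ∑ S ∈ A, if gtInner_st I S = (gtInner_sys I).St ℓ then F S * W (gtInner_st I S) else 0 := by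
    intro ℓ
    rw [Finset.sum_mul, Finset.sum_filter]
    refine Finset.sum_congr rfl fun S _ => ?_
    split_ifs with h
    · rw [h]
    · rfl
  rw [Finset.sum_congr rfl fun ℓ _ => h1 ℓ, Finset.sum_comm]
  refine Finset.sum_congr rfl fun S hS => ?_
  obtain ⟨ℓ0, h01, h02⟩ : ∃ ℓ0 : gtInnerLab I, (gtInner_sys I).idx ℓ0 = U ∧
      (gtInner_sys I).St ℓ0 = gtInner_st I S :=
    ⟨⟨(U, gtInner_st I S), hU, S, hA S hS, rfl⟩, rfl, rfl⟩
  rw [Finset.sum_eq_single ℓ0]
  · rw [if_pos h02.symm]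
  · intro ℓ hℓ hne
    rw [if_neg]
    intro h
    apply hne
    exact (gtInner_sys I).inj ℓ ℓ0 (by rw [(Finset.mem_filter.1 hℓ).2, h01]) (by rw [← h, h02])
  · intro h
    exact (h (Finset.mem_filter.2 ⟨Finset.mem_univ _, h01⟩)).elim

private theorem gtInner_abs_jac_le (a : ℤ) (p : ℕ) : |(jacobiSym a p : ℝ)| ≤ 1 := by
  rcases jacobiSym.trichotomy a p with h | h | h <;> simp [h]

private theorem gtInner_jac_prod {κ : Type} (S : Finset κ) (f : κ → ℤ) (p : ℕ) :
    jacobiSym (∏ i ∈ S, f i) p = ∏ i ∈ S, jacobiSym (f i) p := by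
  classical
  induction S using Finset.induction_on with
  | empty => simp
  | insert a s ha ih => rw [Finset.prod_insert ha, Finset.prod_insert ha, jacobiSym.mul_left, ih]

private theorem gtInner_pf_prod (W : ℕ → ℝ) {κ : Type} [DecidableEq κ] (s : Finset κ) (e : κ → ℕ)
    (h : Squarefree (∏ i ∈ s, e i)) :
    QT.pf W (∏ i ∈ s, e i) = ∏ i ∈ s, ∏ p ∈ (e i).primeFactors, W p := by
  induction s using Finset.induction_on with
  | empty => simp [QT.pf]
  | insert a s ha ih =>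
    rw [Finset.prod_insert ha] at h ⊢
    rw [Finset.prod_insert ha]
    have hco : Nat.Coprime (e a) (∏ i ∈ s, e i) := Nat.coprime_of_squarefree_mul h
    rw [← ih (Squarefree.squarefree_of_dvd (Dvd.intro_left _ rfl) h)]
    unfold QT.pf
    rw [hco.primeFactors_mul, Finset.prod_union hco.disjoint_primeFactors]

end aux

open Classical in
theorem innerG {ι : Type} [Fintype ι] [DecidableEq ι] (g : ι → BQ) (I : Finset (OddSet ι))
    (hI : ∀ i : ι, (⟨{i}, by simp⟩ : OddSet ι) ∈ I) (hne : I.Nonempty) :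
    ∃ (C : ℝ) (K : ℕ), 0 < C ∧ ∀ (W F : ℕ → ℝ) (B η : ℝ), Wt g W F B η →
    ∀ (θ : ℕ → OddSet ι → ι → ℤ) (X : ℕ) (V τ : ℝ), 16 ≤ X → 1 ≤ V → V ^ K ≤ τ → V ^ K ≤ X →
    ∑ e ∈ (QT.Box (OddSet ι) X).filter (fun e => (∀ U ∉ I, e U = 1) ∧ (∀ U ∈ I, τ < e U) ∧
        (∀ U ∈ I, ∀ p : ℕ, p.Prime → p ∣ e U →
          ¬ p ∣ Rb g ∧ (∀ i, ¬ (p : ℤ) ∣ θ p U i) ∧ (∀ k ∈ U.1, jacobiSym (g k).disc p = 1) ∧
          ∀ S ∈ Kr g p, Even (S ∩ U.1).card →
            jacobiSym ((∏ i ∈ S, θ p U i) * ∏ U' ∈ I with Odd (S ∩ U'.1).card, (e U' : ℤ)) p = 1)),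
      QT.pf W (∏ U, e U) ≤
      C * X * ((1 + Real.log X) ^ K * V ^ (-(1 / 16) : ℝ) + B * Real.log X ^ (-η) * (1 + Real.log V) ^ K) := by
  obtain ⟨C, K, hC, hE⟩ := engine_G (gtInner_sys I)
  refine ⟨C, K, hC, ?_⟩
  intro W F B η hW θ X V τ hX hV hVτ hVX
  have hKpos : ∀ p, (0 : ℝ) < ((Kr g p).card : ℝ) := fun p => by
    exact_mod_cast Finset.card_pos.2 ⟨∅, Kr_empty g p⟩
  set c : ℕ → ℝ := fun p => 2 * W p / ((Kr g p).card : ℝ) with hc
  have hc0 : ∀ p, 0 ≤ c p := fun p => div_nonneg (mul_nonneg zero_le_two (hW.W0 p)) (hKpos p).le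
  set ok : OddSet ι → ℕ → Prop := fun U p =>
    p.Prime ∧ ¬ p ∣ Rb g ∧ (∀ i, ¬ (p : ℤ) ∣ θ p U i) ∧ ∀ k ∈ U.1, jacobiSym (g k).disc p = 1 with hok
  set evK : OddSet ι → ℕ → Finset (Finset ι) := fun U p =>
    (Kr g p).filter (fun S => Even (S ∩ U.1).card) with hevK
  set u : gtInnerLab I → ℕ → ℝ := fun ℓ p =>
    if ok ((gtInner_sys I).idx ℓ) p then
      c p * ∑ S ∈ evK ((gtInner_sys I).idx ℓ) p with gtInner_st I S = (gtInner_sys I).St ℓ,
        (jacobiSym (∏ i ∈ S, θ p ((gtInner_sys I).idx ℓ) i) p : ℝ) else 0 with hu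
  set h : OddSet ι → ℕ → ℝ := fun U p =>
    if p.Prime ∧ ¬ p ∣ Rb g ∧ ∀ k ∈ U.1, jacobiSym (g k).disc p = 1 then c p else 0 with hh
  have hh0 : ∀ U p, 0 ≤ h U p := by
    intro U p
    simp only [hh]
    split_ifs
    · exact hc0 p
    · exact le_rfl
  have hu_abs : ∀ ℓ p, |u ℓ p| ≤ h ((gtInner_sys I).idx ℓ) p := by
    intro ℓ p
    simp only [hu]
    split_ifs with h1
    · have h2 : h ((gtInner_sys I).idx ℓ) p = c p := by
        simp only [hh]
        rw [if_pos ⟨h1.1, h1.2.1, h1.2.2.2⟩]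
      rw [h2, abs_mul, abs_of_nonneg (hc0 p)]
      refine mul_le_of_le_one_right (hc0 p) ?_
      refine (Finset.abs_sum_le_sum_abs _ _).trans ?_
      refine (Finset.sum_le_card_nsmul _ _ 1 fun S _ => gtInner_abs_jac_le _ _).trans ?_
      rw [nsmul_eq_mul, mul_one]
      have h3 : ((evK ((gtInner_sys I).idx ℓ) p).filter
          fun S => gtInner_st I S = (gtInner_sys I).St ℓ).card ≤ 1 := by
        refine Finset.card_le_one.2 fun S hS S' hS' => ?_
        apply gtInner_st_inj hI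
        rw [(Finset.mem_filter.1 hS).2, (Finset.mem_filter.1 hS').2]
      exact_mod_cast h3
    · rw [abs_zero]
      exact hh0 _ _
  have hh1 : ∀ U p, h U p ≤ 1 := by
    intro U p
    simp only [hh]
    split_ifs with h1
    · rw [hc, div_le_one (hKpos p)]
      exact hW.one p h1.1 h1.2.1 U h1.2.2
    · norm_num
  have hsum : ∀ p, p.Prime → ∑ U ∈ I, h U p ≤ F p := by
    intro p hp
    by_cases hR : p ∣ Rb g
    · rw [Finset.sum_eq_zero]
      · exact hW.F0 p hp
      · intro U _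
        simp only [hh]
        rw [if_neg]
        rintro ⟨-, h1, -⟩
        exact h1 hR
    · have h1 : ∑ U ∈ I, h U p ≤
          ∑ U ∈ univ.filter (fun U : OddSet ι => ∀ k ∈ U.1, jacobiSym (g k).disc p = 1), c p := by
        rw [Finset.sum_filter]
        refine (Finset.sum_le_sum_of_subset_of_nonneg (Finset.subset_univ I)
          fun U _ _ => hh0 U p).trans ?_
        refine Finset.sum_le_sum fun U _ => ?_
        simp only [hh]
        by_cases h2 : ∀ k ∈ U.1, jacobiSym (g k).disc p = 1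
        · rw [if_pos h2, if_pos ⟨hp, hR, h2⟩]
        · rw [if_neg h2, if_neg fun h3 => h2 h3.2.2]
      refine h1.trans ?_
      rw [Finset.sum_const, nsmul_eq_mul, hc]
      have h2 := hW.sum p hp hR
      rw [← mul_div_assoc, div_le_iff₀ (hKpos p), mul_comm (F p)]
      exact h2
  -- the local factors
  have hval : ∀ (e : OddSet ι → ℕ) (U : OddSet ι), U ∈ I → ∀ p,
      ∑ ℓ with (gtInner_sys I).idx ℓ = U,
        u ℓ p * ∏ j ∈ (gtInner_sys I).St ℓ, (jacobiSym (e j) p : ℝ) =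
      if ok U p then c p * ((∑ S ∈ evK U p, YY I (θ p U) e p S : ℤ) : ℝ) else 0 := by
    intro e U hU p
    have h1 : ∑ ℓ with (gtInner_sys I).idx ℓ = U,
        u ℓ p * ∏ j ∈ (gtInner_sys I).St ℓ, (jacobiSym (e j) p : ℝ) =
        (if ok U p then c p else 0) * ∑ ℓ : gtInnerLab I with (gtInner_sys I).idx ℓ = U,
          (∑ S ∈ evK U p with gtInner_st I S = (gtInner_sys I).St ℓ,
            (jacobiSym (∏ i ∈ S, θ p U i) p : ℝ)) *
            (fun A : Finset (OddSet ι) => ∏ j ∈ A, (jacobiSym (e j) p : ℝ))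
              ((gtInner_sys I).St ℓ) := by
      rw [Finset.mul_sum]
      refine Finset.sum_congr rfl fun ℓ hℓ => ?_
      have hℓ' : (gtInner_sys I).idx ℓ = U := (Finset.mem_filter.1 hℓ).2
      simp only [hu, hℓ']
      split_ifs
      · ring
      · simp
    rw [h1, gtInner_label_sum I U hU (evK U p) (fun S hS => (Finset.mem_filter.1 hS).2)
      (fun S => (jacobiSym (∏ i ∈ S, θ p U i) p : ℝ))
      (fun A : Finset (OddSet ι) => ∏ j ∈ A, (jacobiSym (e j) p : ℝ))]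
    have h2 : ∑ S ∈ evK U p, (jacobiSym (∏ i ∈ S, θ p U i) p : ℝ) *
        ∏ j ∈ gtInner_st I S, (jacobiSym (e j) p : ℝ) =
        ((∑ S ∈ evK U p, YY I (θ p U) e p S : ℤ) : ℝ) := by
      push_cast [YY]
      rfl
    rw [h2]
    split_ifs <;> ring
  have hcop : ∀ e ∈ QT.Box (OddSet ι) X, ∀ U U' : OddSet ι, U' ≠ U → ∀ p : ℕ, p.Prime → p ∣ e U →
      ¬ p ∣ e U' := by
    intro e he U U' hne p hp h1 h2
    have hsqf : Squarefree (∏ U, e U) := (Finset.mem_filter.1 he).2.2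
    have h3 : p * p ∣ ∏ U, e U := by
      have h4 : e U * e U' ∣ ∏ U, e U := by
        rw [← Finset.mul_prod_erase univ e (Finset.mem_univ U)]
        exact mul_dvd_mul_left _ (Finset.dvd_prod_of_mem e (Finset.mem_erase.2 ⟨hne, Finset.mem_univ _⟩))
      exact (mul_dvd_mul h1 h2).trans h4
    have := hsqf p h3
    exact hp.one_lt.ne' (Nat.isUnit_iff.1 this)
  have hnn : ∀ e ∈ QT.Box (OddSet ι) X, 0 ≤ ∏ U, ∏ p ∈ (e U).primeFactors,
      ∑ ℓ with (gtInner_sys I).idx ℓ = U,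
        u ℓ p * ∏ j ∈ (gtInner_sys I).St ℓ, (jacobiSym (e j) p : ℝ) := by
    intro e he
    refine Finset.prod_nonneg fun U _ => Finset.prod_nonneg fun p hp => ?_
    have hpp : p.Prime := Nat.prime_of_mem_primeFactors hp
    have hpd : p ∣ e U := Nat.dvd_of_mem_primeFactors hp
    by_cases hU : U ∈ I
    · rw [hval e U hU]
      split_ifs with h1
      · refine mul_nonneg (hc0 p) ?_
        have := YY_sum_nonneg hpp (good_of_not_dvd g h1.2.1) I U (θ p U) e h1.2.2.1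
          (fun U' hU' => hcop e he U U' hU' p hpp hpd)
        exact_mod_cast this
      · exact le_rfl
    · rw [Finset.filter_eq_empty_iff.2, Finset.sum_empty]
      rintro ⟨⟨V, A⟩, h1, h2⟩ _ h3
      simp only [gtInner_sys] at h3
      subst h3
      exact hU h1
  have key := hE u h F B η V τ X
    (fun ℓ p => (hu_abs ℓ p).trans (hh1 _ _)) ?_ (fun ℓ p _ => hu_abs ℓ p) hh0 hsum hW.B0.le
    hW.η0 hW.η1 hW.bound hV hVτ hVX hX
  swap
  · intro ℓ
    simp only [hu]
    rw [if_neg]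
    rintro ⟨-, h1, -⟩
    exact h1 (two_dvd_Rb g)
  refine le_trans ?_ key
  refine le_trans ?_ (le_abs_self _)
  refine le_trans ?_ (Finset.sum_le_sum_of_subset_of_nonneg (s :=
    (QT.Box (OddSet ι) X).filter (fun e => (∀ U ∉ I, e U = 1) ∧ (∀ U ∈ I, τ < e U) ∧
        (∀ U ∈ I, ∀ p : ℕ, p.Prime → p ∣ e U →
          ¬ p ∣ Rb g ∧ (∀ i, ¬ (p : ℤ) ∣ θ p U i) ∧ (∀ k ∈ U.1, jacobiSym (g k).disc p = 1) ∧
          ∀ S ∈ Kr g p, Even (S ∩ U.1).card →
            jacobiSym ((∏ i ∈ S, θ p U i) * ∏ U' ∈ I with Odd (S ∩ U'.1).card, (e U' : ℤ)) p = 1)))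
    ?_ (fun e he _ => hnn e (Finset.mem_filter.1 he).1))
  · refine Finset.sum_le_sum fun e he => ?_
    obtain ⟨heB, hoff, hlarge, hloc⟩ := Finset.mem_filter.1 he
    have hsqf : Squarefree (∏ U, e U) := (Finset.mem_filter.1 heB).2.2
    rw [gtInner_pf_prod W univ e hsqf]
    refine le_of_eq ?_
    refine Finset.prod_congr rfl fun U _ => ?_
    by_cases hU : U ∈ I
    · refine Finset.prod_congr rfl fun p hp => ?_
      have hpp : p.Prime := Nat.prime_of_mem_primeFactors hp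
      have hpd : p ∣ e U := Nat.dvd_of_mem_primeFactors hp
      obtain ⟨hl0, hl1, hl2, hl3⟩ := hloc U hU p hpp hpd
      rw [hval e U hU, if_pos (show ok U p from ⟨hpp, hl0, hl1, hl2⟩)]
      have h1 : ∀ S ∈ evK U p, YY I (θ p U) e p S = 1 := by
        intro S hS
        have h2 := hl3 S (Finset.mem_filter.1 hS).1 (Finset.mem_filter.1 hS).2
        rw [jacobiSym.mul_left, gtInner_jac_prod, gtInner_jac_prod] at h2
        unfold YY
        rw [gtInner_jac_prod, ← h2]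
      have h3 := card_even hpp (good_of_not_dvd g hl0) U
      have h4 : ((evK U p).card : ℝ) * 2 = ((Kr g p).card : ℝ) := by exact_mod_cast h3
      rw [Finset.sum_congr rfl h1, Finset.sum_const, nsmul_eq_mul, mul_one]
      push_cast
      rw [hc]
      have h5 := (hKpos p).ne'
      simp only
      rw [← h4] at h5 ⊢
      have h6 : ((evK U p).card : ℝ) ≠ 0 := left_ne_zero_of_mul h5
      field_simp
    · rw [hoff U hU]
      simp
  · intro e he
    simp only [Finset.mem_filter] at he ⊢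
    exact ⟨he.1, he.2.2.1⟩

end ZG
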