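import Pool.Agent.Lib.MP_1ad228_nt.GTDefs

/-! JOB GTKer.  The group structure of `Kr g p` for a good prime.

`RR_unit`: a product of resultants prime to `p`.  `prod_jac`: for `S T`, `jacobiSym (∏_{i ∈ symmDiff S T} RR g k i) p = jacobiSym (∏_{i∈S} RR g k i) p * jacobiSym (∏_{i∈T} RR g k i) p` because every factor is `±1` (see `prod_symm`, `jac_ne`, `jac_prod`
in `ZInner.lean`, private lemmas: copy them).  `univ ∈ Kr g p`: `∏_i RR g k i = (∏_{l ≠ k} res (g k) (g l)) * ∏_{i ≠ k} res (g k) (g i)` is the square of an integer prime to `p`.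
`card_even`: for `U` odd, `S ↦ symmDiff S univ` is an involution of `Kr g p` exchanging the `S` with `|S ∩ U|` even and those with `|S ∩ U|` odd (`|univ ∩ U| = |U|` is odd), see `card_evS` in `ZInner.lean`. -/

namespace ZG

open Finset

variable {ι : Type} [Fintype ι] [DecidableEq ι]

omit [Fintype ι] in
private theorem gtker_card_symm (A B : Finset ι) : (symmDiff A B).card + 2 * (A ∩ B).card = A.card + B.card := by
  have h1 : (symmDiff A B).card = (A \ B).card + (B \ A).card := by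
    rw [symmDiff_def, sup_eq_union, Finset.card_union_of_disjoint]
    exact disjoint_sdiff_sdiff
  have h2 := Finset.card_sdiff_add_card_inter A B
  have h3 := Finset.card_sdiff_add_card_inter B A
  rw [Finset.inter_comm B A] at h3
  omega

omit [Fintype ι] in
private theorem gtker_inter_symm (S T U : Finset ι) : symmDiff S T ∩ U = symmDiff (S ∩ U) (T ∩ U) := by
  ext x
  simp only [Finset.mem_inter, Finset.mem_symmDiff]
  tauto

omit [Fintype ι] in
private theorem gtker_odd_symm (S T U : Finset ι) :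
    Odd (symmDiff S T ∩ U).card ↔ ¬ (Odd (S ∩ U).card ↔ Odd (T ∩ U).card) := by
  have h := gtker_card_symm (S ∩ U) (T ∩ U)
  rw [← gtker_inter_symm] at h
  rw [Nat.odd_iff, Nat.odd_iff, Nat.odd_iff]
  omega

private theorem gtker_jac_ne {p : ℕ} (hp : p.Prime) {n : ℤ} (h : ¬ (p : ℤ) ∣ n) :
    jacobiSym n p = 1 ∨ jacobiSym n p = -1 := by
  rcases jacobiSym.trichotomy n p with h1 | h1
  · exfalso
    rw [jacobiSym.eq_zero_iff] at h1
    apply h1.2
    have h2 : IsCoprime n (p : ℤ) :=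
      ((Nat.prime_iff_prime_int.1 hp).coprime_iff_not_dvd.2 h).symm
    rw [Int.isCoprime_iff_gcd_eq_one] at h2
    exact h2
  · exact h1

private theorem gtker_jac_prod {κ : Type} (S : Finset κ) (f : κ → ℤ) (p : ℕ) :
    jacobiSym (∏ i ∈ S, f i) p = ∏ i ∈ S, jacobiSym (f i) p := by
  classical
  induction S using Finset.induction_on with
  | empty => simp
  | insert a s ha ih => rw [Finset.prod_insert ha, Finset.prod_insert ha, jacobiSym.mul_left, ih]

private theorem gtker_prod_symm {κ : Type} [DecidableEq κ] (A B : Finset κ) (y : κ → ℤ)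
    (h : ∀ x ∈ A ∩ B, y x = 1 ∨ y x = -1) :
    ∏ x ∈ symmDiff A B, y x = (∏ x ∈ A, y x) * ∏ x ∈ B, y x := by
  have h1 : ∏ x ∈ symmDiff A B, y x = (∏ x ∈ A \ B, y x) * ∏ x ∈ B \ A, y x := by
    rw [symmDiff_def, sup_eq_union, Finset.prod_union]
    exact disjoint_sdiff_sdiff
  have h2 : ∏ x ∈ A, y x = (∏ x ∈ A \ B, y x) * ∏ x ∈ A ∩ B, y x := by
    rw [← Finset.prod_union (Finset.disjoint_sdiff_inter A B), Finset.sdiff_union_inter]
  have h3 : ∏ x ∈ B, y x = (∏ x ∈ B \ A, y x) * ∏ x ∈ A ∩ B, y x := by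
    rw [Finset.inter_comm A B, ← Finset.prod_union (Finset.disjoint_sdiff_inter B A),
      Finset.sdiff_union_inter]
  have h4 : (∏ x ∈ A ∩ B, y x) * ∏ x ∈ A ∩ B, y x = 1 := by
    rw [← Finset.prod_mul_distrib]
    refine Finset.prod_eq_one fun x hx => ?_
    rcases h x hx with h | h <;> rw [h] <;> norm_num
  rw [h1, h2, h3]
  linear_combination (-(∏ x ∈ A \ B, y x) * ∏ x ∈ B \ A, y x) * h4

omit [Fintype ι] [DecidableEq ι] in
private theorem gtker_dvd_prod {p : ℕ} (hp : p.Prime) (S : Finset ι) (f : ι → ℤ) (h : ∀ i ∈ S, ¬ (p : ℤ) ∣ f i) :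
    ¬ (p : ℤ) ∣ ∏ i ∈ S, f i := by
  intro hd
  obtain ⟨i, hi, hdi⟩ := (Nat.prime_iff_prime_int.1 hp).exists_mem_finset_dvd hd
  exact h i hi hdi

private theorem gtker_mem {g : ι → BQ} {p : ℕ} {S : Finset ι} :
    S ∈ Kr g p ↔ ∀ k, jacobiSym (∏ i ∈ S, RR g k i) p = 1 := by
  unfold Kr
  rw [Finset.mem_filter]
  exact ⟨fun h => h.2, fun h => ⟨Finset.mem_univ _, h⟩⟩

theorem RR_unit {g : ι → BQ} {p : ℕ} (hp : p.Prime) (hg : Good g p) (k i : ι) : ¬ (p : ℤ) ∣ RR g k i := by
  have hpp : Prime (p : ℤ) := Nat.prime_iff_prime_int.1 hp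
  unfold RR
  split_ifs with h
  · exact gtker_dvd_prod hp _ _ fun l hl => hg.res k l (Finset.mem_erase.1 hl).1.symm
  · exact hg.res k i fun h' => h h'.symm

theorem Kr_empty (g : ι → BQ) (p : ℕ) : ∅ ∈ Kr g p := by
  rw [gtker_mem]
  intro k
  simp

theorem Kr_univ {g : ι → BQ} {p : ℕ} (hp : p.Prime) (hg : Good g p) : univ ∈ Kr g p := by
  rw [gtker_mem]
  intro k
  have h1 : ∏ i ∈ univ, RR g k i = (∏ l ∈ univ.erase k, (g k).res (g l)) * ∏ l ∈ univ.erase k, (g k).res (g l) := by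
    rw [← Finset.mul_prod_erase univ (fun i => RR g k i) (Finset.mem_univ k)]
    congr 1
    · unfold RR
      rw [if_pos rfl]
    · refine Finset.prod_congr rfl fun i hi => ?_
      unfold RR
      rw [if_neg (Finset.mem_erase.1 hi).1]
  rw [h1, jacobiSym.mul_left]
  have h2 : ¬ (p : ℤ) ∣ ∏ l ∈ univ.erase k, (g k).res (g l) :=
    gtker_dvd_prod hp _ _ fun l hl => hg.res k l (Finset.mem_erase.1 hl).1.symm
  rcases gtker_jac_ne hp h2 with h | h <;> rw [h] <;> norm_num

theorem Kr_symm {g : ι → BQ} {p : ℕ} (hp : p.Prime) (hg : Good g p) {S T : Finset ι} (hS : S ∈ Kr g p)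
    (hT : T ∈ Kr g p) : symmDiff S T ∈ Kr g p := by
  rw [gtker_mem] at *
  intro k
  rw [gtker_jac_prod, gtker_prod_symm]
  · rw [← gtker_jac_prod, ← gtker_jac_prod, hS k, hT k, one_mul]
  · intro i _
    exact gtker_jac_ne hp (RR_unit hp hg k i)

theorem card_even {g : ι → BQ} {p : ℕ} (hp : p.Prime) (hg : Good g p) (U : OddSet ι) :
    ((Kr g p).filter fun S => Even (S ∩ U.1).card).card * 2 = (Kr g p).card := by
  have hU : (univ ∩ U.1).card = U.1.card := by rw [Finset.univ_inter]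
  have hUo : Odd (univ ∩ U.1).card := by rw [hU]; exact U.2
  have h1 : ((Kr g p).filter fun S => Even (S ∩ U.1).card).card =
      ((Kr g p).filter fun S => ¬ Even (S ∩ U.1).card).card := by
    refine Finset.card_bij' (fun S _ => symmDiff S univ) (fun S _ => symmDiff S univ) ?_ ?_ ?_ ?_
    · intro S hS
      rw [Finset.mem_filter] at hS ⊢
      refine ⟨Kr_symm hp hg hS.1 (Kr_univ hp hg), ?_⟩
      rw [Nat.not_even_iff_odd, gtker_odd_symm]
      have := hS.2
      rw [← Nat.not_odd_iff_even] at this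
      tauto
    · intro S hS
      rw [Finset.mem_filter] at hS ⊢
      refine ⟨Kr_symm hp hg hS.1 (Kr_univ hp hg), ?_⟩
      rw [← Nat.not_odd_iff_even, gtker_odd_symm]
      have := hS.2
      rw [Nat.not_even_iff_odd] at this
      tauto
    · intro S _
      rw [symmDiff_symmDiff_cancel_right]
    · intro S _
      rw [symmDiff_symmDiff_cancel_right]
  have h2 := Finset.card_filter_add_card_filter_not (s := Kr g p) (fun S => Even (S ∩ U.1).card)
  rw [← h1] at h2
  omega

end ZG
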