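import Pool.Agent.Lib.MP_1ad228_nt.GTWt
import Pool.Agent.Lib.MP_1ad228_nt.GTKer

/-! JOB GTPat.  Three forms: the possible values of `(Kr g p).card` and `ke g p` at a good prime.

Let `p` be a prime not dividing `Rb g`, `ρ k i = jacobiSym (RR g k i) p`.  Put `r01, r02, r12` for the symbols of the three resultants (`±1`, `BQ.res_comm`).  `RR g 0 0 = res 01 * res 02` etc. (`Finset.univ.erase 0 = {1, 2}`), so `ρ 0 0 = r01 r02`, `ρ 1 1 = r01 r12`,
`ρ 2 2 = r02 r12`, `ρ 0 1 = ρ 1 0 = r01`, ....  `S ∈ Kr g p ↔ ∀ k, ∏_{i∈S} ρ k i = 1` (`jac_prod` in `ZInner.lean`).  For each of the 8 possible sign triples the set is `univ.filter` of a decidable predicate: `decide` gives the cardinality: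
8 if all three symbols are `1`, 4 if exactly one is `-1`, and 2 otherwise.
`ke_formula`: `SN g p = ∑ (1 + α_i)/2` with `α_i = jacobiSym (g i).disc p = ±1`, and `Nat.log 2 8 = 3`, `Nat.log 2 4 = 2`, `Nat.log 2 2 = 1`: case by case.
`wt_one`: if `U` is odd, then `U` is nonempty, so `SN g p ≥ 1`.  Possible values: with `n = SN ∈ {1,2,3}`, `m = log_2 card ∈ {1,2,3}`, `2 (49/96)^(n - m) ≤ 2^m`: nine cases, `norm_num`.
`wt_sum`: the number of odd subsets of the set of split forms is `2^(n-1)` if `n ≥ 1` and `0` if `n = 0` (`decide`, for each of the 8 subsets); `2^(n-1) * 2 * (49/96)^(n-m) = 2^m (49/48)^(n-m)`.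
`ww_le`: `(49/96)^(ke) ≤ 8` for every `p` (also bad): `Nat.log 2 (Kr g p).card ≤ 3` because `Kr g p ⊆ univ` has at most 8 elements, so `ke ≥ -3` and `(96/49)^3 ≤ 8`. -/

namespace ZG

open Finset

private theorem gtpat_ne {p : ℕ} (hp : p.Prime) {n : ℤ} (h : ¬ (p : ℤ) ∣ n) :
    jacobiSym n p = 1 ∨ jacobiSym n p = -1 := by
  have : Fact p.Prime := ⟨hp⟩
  rcases jacobiSym.trichotomy n p with h0 | h0 | h0
  · exfalso
    rw [← jacobiSym.legendreSym.to_jacobiSym, legendreSym.eq_zero_iff,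
      ZMod.intCast_zmod_eq_zero_iff_dvd] at h0
    exact h h0
  · exact Or.inl h0
  · exact Or.inr h0

private theorem gtpat_jac_prod {κ : Type} (S : Finset κ) (f : κ → ℤ) (p : ℕ) :
    jacobiSym (∏ i ∈ S, f i) p = ∏ i ∈ S, jacobiSym (f i) p := by
  classical
  induction S using Finset.induction_on with
  | empty => simp
  | insert a s ha ih => rw [Finset.prod_insert ha, Finset.prod_insert ha, jacobiSym.mul_left, ih]

/-- the sign matrix -/
private def gtpat_M (a b c : ℤ) : Fin 3 → Fin 3 → ℤ :=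
  ![![a * b, a, b], ![a, a * c, c], ![b, c, b * c]]

private def gtpat_K (a b c : ℤ) : Finset (Finset (Fin 3)) :=
  univ.filter fun S => ∀ k, ∏ i ∈ S, gtpat_M a b c k i = 1

private theorem gtpat_RR (g : Fin 3 → BQ) (p : ℕ) (k i : Fin 3) :
    jacobiSym (RR g k i) p = gtpat_M (jacobiSym ((g 0).res (g 1)) p)
      (jacobiSym ((g 0).res (g 2)) p) (jacobiSym ((g 1).res (g 2)) p) k i := by
  have e0 : (univ : Finset (Fin 3)).erase 0 = {1, 2} := by decide
  have e1 : (univ : Finset (Fin 3)).erase 1 = {0, 2} := by decide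
  have e2 : (univ : Finset (Fin 3)).erase 2 = {0, 1} := by decide
  have h10 : (g 1).res (g 0) = (g 0).res (g 1) := BQ.res_comm _ _
  have h20 : (g 2).res (g 0) = (g 0).res (g 2) := BQ.res_comm _ _
  have h21 : (g 2).res (g 1) = (g 1).res (g 2) := BQ.res_comm _ _
  fin_cases k <;> fin_cases i <;>
    simp [RR, gtpat_M, e0, e1, e2, jacobiSym.mul_left, h10, h20, h21]

private theorem gtpat_Kr (g : Fin 3 → BQ) (p : ℕ) :
    Kr g p = gtpat_K (jacobiSym ((g 0).res (g 1)) p)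
      (jacobiSym ((g 0).res (g 2)) p) (jacobiSym ((g 1).res (g 2)) p) := by
  ext S
  unfold Kr gtpat_K
  simp only [Finset.mem_filter, Finset.mem_univ, true_and]
  apply forall_congr'
  intro k
  rw [gtpat_jac_prod, Finset.prod_congr rfl (fun i _ => gtpat_RR g p k i)]

private theorem gtpat_card {a b c : ℤ} (ha : a = 1 ∨ a = -1) (hb : b = 1 ∨ b = -1)
    (hc : c = 1 ∨ c = -1) :
    (gtpat_K a b c).card =
      if a = 1 ∧ b = 1 ∧ c = 1 then 8
      else if (a = 1 ∧ b = 1) ∨ (a = 1 ∧ c = 1) ∨ (b = 1 ∧ c = 1) then 4 else 2 := by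
  rcases ha with rfl | rfl <;> rcases hb with rfl | rfl <;> rcases hc with rfl | rfl <;> decide

private theorem gtpat_signs (g : Fin 3 → BQ) {p : ℕ} (hp : p.Prime) (h : ¬ p ∣ Rb g) :
    (jacobiSym ((g 0).res (g 1)) p = 1 ∨ jacobiSym ((g 0).res (g 1)) p = -1) ∧
    (jacobiSym ((g 0).res (g 2)) p = 1 ∨ jacobiSym ((g 0).res (g 2)) p = -1) ∧
    (jacobiSym ((g 1).res (g 2)) p = 1 ∨ jacobiSym ((g 1).res (g 2)) p = -1) := by
  have hg := good_of_not_dvd g h
  exact ⟨gtpat_ne hp (hg.res 0 1 (by decide)), gtpat_ne hp (hg.res 0 2 (by decide)),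
    gtpat_ne hp (hg.res 1 2 (by decide))⟩

private theorem gtpat_pow (g : Fin 3 → BQ) {p : ℕ} (hp : p.Prime) (h : ¬ p ∣ Rb g) :
    ∃ m : ℕ, 1 ≤ m ∧ m ≤ 3 ∧ (Kr g p).card = 2 ^ m ∧ Nat.log 2 (Kr g p).card = m := by
  obtain ⟨ha, hb, hc⟩ := gtpat_signs g hp h
  have h1 := gtpat_card ha hb hc
  rw [← gtpat_Kr] at h1
  rw [h1]
  split_ifs
  · exact ⟨3, by norm_num, by norm_num, by norm_num, by
      rw [show (8 : ℕ) = 2 ^ 3 by norm_num, Nat.log_pow (by norm_num)]⟩
  · exact ⟨2, by norm_num, by norm_num, by norm_num, by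
      rw [show (4 : ℕ) = 2 ^ 2 by norm_num, Nat.log_pow (by norm_num)]⟩
  · exact ⟨1, by norm_num, by norm_num, by norm_num, by
      have := Nat.log_pow (b := 2) (by norm_num) 1
      simpa using this⟩

private theorem gtpat_odd : ∀ P : Finset (Fin 3),
    (univ.filter fun U : OddSet (Fin 3) => ∀ k ∈ U.1, k ∈ P).card =
      if P.card = 0 then 0 else 2 ^ (P.card - 1) := by decide

theorem card_Kr (g : Fin 3 → BQ) {p : ℕ} (hp : p.Prime) (h : ¬ p ∣ Rb g) :
    (Kr g p).card =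
      if jacobiSym ((g 0).res (g 1)) p = 1 ∧ jacobiSym ((g 0).res (g 2)) p = 1 ∧ jacobiSym ((g 1).res (g 2)) p = 1 then 8
      else if (jacobiSym ((g 0).res (g 1)) p = 1 ∧ jacobiSym ((g 0).res (g 2)) p = 1) ∨
        (jacobiSym ((g 0).res (g 1)) p = 1 ∧ jacobiSym ((g 1).res (g 2)) p = 1) ∨
        (jacobiSym ((g 0).res (g 2)) p = 1 ∧ jacobiSym ((g 1).res (g 2)) p = 1) then 4 else 2 := by
  obtain ⟨ha, hb, hc⟩ := gtpat_signs g hp h
  rw [gtpat_Kr]
  exact gtpat_card ha hb hc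

theorem ke_formula (g : Fin 3 → BQ) {p : ℕ} (hp : p.Prime) (h : ¬ p ∣ Rb g) :
    ((ke g p : ℤ) : ℝ) = -1 / 8
      - 3 / 8 * ((jacobiSym ((g 0).res (g 1)) p : ℝ) + (jacobiSym ((g 0).res (g 2)) p : ℝ) +
        (jacobiSym ((g 1).res (g 2)) p : ℝ))
      - 1 / 8 * ((jacobiSym ((g 0).res (g 1)) p : ℝ) * (jacobiSym ((g 0).res (g 2)) p : ℝ) +
        (jacobiSym ((g 0).res (g 1)) p : ℝ) * (jacobiSym ((g 1).res (g 2)) p : ℝ) +
        (jacobiSym ((g 0).res (g 2)) p : ℝ) * (jacobiSym ((g 1).res (g 2)) p : ℝ))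
      + 1 / 8 * ((jacobiSym ((g 0).res (g 1)) p : ℝ) * (jacobiSym ((g 0).res (g 2)) p : ℝ) *
        (jacobiSym ((g 1).res (g 2)) p : ℝ))
      + 1 / 2 * ((jacobiSym (g 0).disc p : ℝ) + (jacobiSym (g 1).disc p : ℝ) + (jacobiSym (g 2).disc p : ℝ)) := by
  obtain ⟨ha, hb, hc⟩ := gtpat_signs g hp h
  have hgood := good_of_not_dvd g h
  have hSN : ((SN g p : ℕ) : ℝ) = 3 / 2 + 1 / 2 * ((jacobiSym (g 0).disc p : ℝ) +
      (jacobiSym (g 1).disc p : ℝ) + (jacobiSym (g 2).disc p : ℝ)) := by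
    unfold SN
    rw [Finset.card_filter]
    push_cast
    rw [Fin.sum_univ_three]
    have key : ∀ i : Fin 3, (if jacobiSym (g i).disc p = 1 then (1 : ℝ) else 0) =
        1 / 2 + 1 / 2 * (jacobiSym (g i).disc p : ℝ) := by
      intro i
      rcases gtpat_ne hp (hgood.disc i) with h1 | h1 <;> rw [h1] <;> norm_num
    rw [key 0, key 1, key 2]
    ring
  have hlog : ((Nat.log 2 (Kr g p).card : ℕ) : ℝ) = 13 / 8
      + 3 / 8 * ((jacobiSym ((g 0).res (g 1)) p : ℝ) + (jacobiSym ((g 0).res (g 2)) p : ℝ) +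
        (jacobiSym ((g 1).res (g 2)) p : ℝ))
      + 1 / 8 * ((jacobiSym ((g 0).res (g 1)) p : ℝ) * (jacobiSym ((g 0).res (g 2)) p : ℝ) +
        (jacobiSym ((g 0).res (g 1)) p : ℝ) * (jacobiSym ((g 1).res (g 2)) p : ℝ) +
        (jacobiSym ((g 0).res (g 2)) p : ℝ) * (jacobiSym ((g 1).res (g 2)) p : ℝ))
      - 1 / 8 * ((jacobiSym ((g 0).res (g 1)) p : ℝ) * (jacobiSym ((g 0).res (g 2)) p : ℝ) *
        (jacobiSym ((g 1).res (g 2)) p : ℝ)) := by
    have h1 := gtpat_card ha hb hc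
    rw [gtpat_Kr, h1]
    have l8 : Nat.log 2 8 = 3 := by
      rw [show (8 : ℕ) = 2 ^ 3 by norm_num, Nat.log_pow (by norm_num)]
    have l4 : Nat.log 2 4 = 2 := by
      rw [show (4 : ℕ) = 2 ^ 2 by norm_num, Nat.log_pow (by norm_num)]
    have l2 : Nat.log 2 2 = 1 := by
      have := Nat.log_pow (b := 2) (by norm_num) 1
      simpa using this
    generalize jacobiSym ((g 0).res (g 1)) p = a at *
    generalize jacobiSym ((g 0).res (g 2)) p = b at *
    generalize jacobiSym ((g 1).res (g 2)) p = c at *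
    rcases ha with rfl | rfl <;> rcases hb with rfl | rfl <;> rcases hc with rfl | rfl <;>
      norm_num [l8, l4, l2]
  unfold ke
  push_cast
  rw [hSN, hlog]
  ring

theorem wt_one (g : Fin 3 → BQ) {p : ℕ} (hp : p.Prime) (h : ¬ p ∣ Rb g) (U : OddSet (Fin 3))
    (hU : ∀ k ∈ U.1, jacobiSym (g k).disc p = 1) : 2 * WW g p ≤ ((Kr g p).card : ℝ) := by
  obtain ⟨m, hm1, hm3, hcard, hlog⟩ := gtpat_pow g hp h
  have hSN3 : SN g p ≤ 3 := by
    unfold SN
    exact (Finset.card_filter_le _ _).trans (by simp)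
  have hSN1 : 1 ≤ SN g p := by
    have hne : U.1.Nonempty := by
      rw [← Finset.card_pos]
      exact U.2.pos
    obtain ⟨k, hk⟩ := hne
    unfold SN
    exact Finset.card_pos.mpr ⟨k, Finset.mem_filter.mpr ⟨Finset.mem_univ _, hU k hk⟩⟩
  unfold WW ke
  rw [hlog, hcard]
  generalize SN g p = n at *
  interval_cases n <;> interval_cases m <;> norm_num [zpow_neg, zpow_natCast]

theorem wt_sum (g : Fin 3 → BQ) {p : ℕ} (hp : p.Prime) (h : ¬ p ∣ Rb g) :
    ((univ.filter fun U : OddSet (Fin 3) => ∀ k ∈ U.1, jacobiSym (g k).disc p = 1).card : ℝ) * (2 * WW g p) ≤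
      ((Kr g p).card : ℝ) * FW g p := by
  obtain ⟨m, hm1, hm3, hcard, hlog⟩ := gtpat_pow g hp h
  have hSN3 : SN g p ≤ 3 := by
    unfold SN
    exact (Finset.card_filter_le _ _).trans (by simp)
  have hcount : (univ.filter fun U : OddSet (Fin 3) => ∀ k ∈ U.1, jacobiSym (g k).disc p = 1).card =
      if SN g p = 0 then 0 else 2 ^ (SN g p - 1) := by
    have h1 := gtpat_odd (univ.filter fun i => jacobiSym (g i).disc p = 1)
    simp only [Finset.mem_filter, Finset.mem_univ, true_and] at h1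
    unfold SN
    exact h1
  rw [hcount]
  unfold WW FW ke
  rw [hlog, hcard]
  generalize SN g p = n at *
  interval_cases n <;> interval_cases m <;> norm_num [zpow_neg, zpow_natCast]

theorem ww_le (g : Fin 3 → BQ) (p : ℕ) : WW g p ≤ 8 := by
  have hlog : Nat.log 2 (Kr g p).card ≤ 3 := by
    have h1 : (Kr g p).card ≤ 8 := (Finset.card_le_univ _).trans (by simp)
    calc Nat.log 2 (Kr g p).card ≤ Nat.log 2 8 := Nat.log_mono_right h1
      _ = 3 := by rw [show (8 : ℕ) = 2 ^ 3 by norm_num, Nat.log_pow (by norm_num)]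
  have hke : -3 ≤ ke g p := by
    unfold ke
    omega
  unfold WW
  calc (49 / 96 : ℝ) ^ (ke g p) ≤ (49 / 96 : ℝ) ^ (-3 : ℤ) :=
        zpow_le_zpow_right_of_le_one₀ (by norm_num) (by norm_num) hke
    _ ≤ 8 := by norm_num [zpow_neg]

end ZG
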