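import Pool.Agent.Lib.MP_1ad228_nt.GTVal

/-! JOB GTRoot.  A point close to a root of `g_k`.

Proof.  `z ≠ 0`, `u = x / z`, `v u = 1`.  `(g j).ev u 1 = (g j).ev x z / z ^ 2` for every `j` (`BQ.ev_smul` or `field_simp`), so `v ((g k).ev u 1) < 1`.  By `BQ.four_A` (with `z = 1`)
`(2 A u + B)² - a = 4 A (g k).ev u 1` with `A = (g k).A`, `B = (g k).B`, `a = (g k).disc`; its absolute value is `< 1`, and `v a = 1`.  By `sq_of_close`, `(2 A u + B)² * a` is a square, and `2 A u + B ≠ 0` because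
`v ((2 A u + B)²) = v a = 1` (`v_eq_of_close`); so `a` is a square in `K`: `a = t²`.  `(2 A u + B - t) (2 A u + B + t)` has absolute value `< 1`, so one of the factors has absolute value `< 1`;
take `s = t` or `s = -t` such that `v (2 A u + B - s) < 1`.  `v s = 1`.
For `j ≠ k` with `v (g_j(x,z)) = ρ²`: put `Y = (g j).ev (2 A u) (2 A) = (2 A)² (g j).ev u 1`, `v Y = 1` (`v 2 = 1` by `v_two`), and `Y - (g j).ev (s - B) (2 A) = (2 A u + B - s) * (A_j (2 A u + s - B) + 2 A B_j)`, of absolute value `< 1`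
(the second factor has absolute value `≤ 1`).  So `v ((g j).ev (s - B) (2 A)) = 1` and `Y * (g j).ev (s - B) (2 A)` is a square; finally `Y = (2 A / z)² (g j).ev x z`. -/

namespace ZG

open Finset ZC

variable {p : ℕ} [Fact p.Prime] {ι : Type}

private lemma gtroot_pick {K : Type} [Field K] [Algebra ℚ_[p] K] (L : LVal p K) (T a : K)
    (hp : p ≠ 2) (ha : L.v a = 1) (h : L.v (T ^ 2 - a) < 1) :
    ∃ s : K, s ^ 2 = a ∧ L.v (T - s) < 1 := by
  have hv : L.v (T ^ 2) = 1 := by
    rw [← ha]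
    exact v_eq_of_close L (by rw [ha]; exact h)
  have hT0 : T ^ 2 ≠ 0 := by
    intro h0
    rw [h0, (L.zero_iff 0).2 rfl] at hv
    exact zero_ne_one hv
  have hsq : IsSquare (T ^ 2 * a) := sq_of_close L hp ha h
  have hsa : IsSquare a := by
    rw [mul_comm] at hsq
    exact isSquare_of_mul hsq ⟨T, by ring⟩ hT0
  obtain ⟨t, ht⟩ := hsa
  have hprod : L.v (T - t) * L.v (T + t) < 1 := by
    rw [← L.mul]
    have e : (T - t) * (T + t) = T ^ 2 - a := by rw [ht]; ring
    rw [e]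
    exact h
  rcases lt_or_ge (L.v (T - t)) 1 with h1 | h1
  · exact ⟨t, by rw [ht]; ring, h1⟩
  · refine ⟨-t, by rw [ht]; ring, ?_⟩
    rw [sub_neg_eq_add]
    by_contra h2
    push Not at h2
    nlinarith

theorem root_close (g : ι → BQ) (hg : Good g p) {K : Type} [Field K] [Algebra ℚ_[p] K] (L : LVal p K) (x z : K)
    (rho : ℝ) (hrho : 0 < rho) (hx : L.v x = rho) (hz : L.v z = rho) (k : ι) (hk : L.v ((g k).ev x z) < rho ^ 2) :
    ∃ s : K, s ^ 2 = ((g k).disc : K) ∧ ∀ j, L.v ((g j).ev x z) = rho ^ 2 →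
      L.v ((g j).ev (s - ((g k).B : K)) (2 * ((g k).A : K))) = 1 ∧
      IsSquare ((g j).ev x z * (g j).ev (s - ((g k).B : K)) (2 * ((g k).A : K))) := by
  have hz0 : z ≠ 0 := by
    intro h0
    rw [h0, (L.zero_iff 0).2 rfl] at hz
    exact hrho.ne hz
  set u : K := x / z with hu
  have hvu : L.v u = 1 := by rw [hu, v_div, hx, hz, div_self hrho.ne']
  have hxz : ∀ j, (g j).ev x z = z ^ 2 * (g j).ev u 1 := by
    intro j
    have h1 := BQ.ev_smul (g j) z u 1
    rw [← h1, mul_one]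
    congr 1
    rw [hu]
    field_simp
  have hev : ∀ j, L.v ((g j).ev x z) = rho ^ 2 * L.v ((g j).ev u 1) := by
    intro j
    rw [hxz, L.mul, v_pow, hz]
  have hr2 : 0 < rho ^ 2 := by positivity
  have hk1 : L.v ((g k).ev u 1) < 1 := by
    rw [hev k] at hk
    by_contra h
    push Not at h
    nlinarith
  have h2 : L.v (2 : K) = 1 := v_two L hg.two
  have hA : L.v ((g k).A : K) = 1 := v_int L (hg.A k)
  have hA0 : ((g k).A : K) ≠ 0 := by
    intro h0
    rw [h0, (L.zero_iff 0).2 rfl] at hA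
    exact zero_ne_one hA
  have h20 : (2 : K) ≠ 0 := by
    intro h0
    rw [h0, (L.zero_iff 0).2 rfl] at h2
    exact zero_ne_one h2
  have hB : L.v ((g k).B : K) ≤ 1 := v_int_le L _
  have ha : L.v ((g k).disc : K) = 1 := v_int L (hg.disc k)
  have hT : L.v ((2 * ((g k).A : K) * u + ((g k).B : K)) ^ 2 - ((g k).disc : K)) < 1 := by
    have h4 := BQ.four_A (g k) u (1 : K)
    rw [mul_one, one_pow, mul_one] at h4
    rw [← h4]
    have e : (4 : K) = 2 * 2 := by norm_num
    rw [L.mul, L.mul, e, L.mul, h2, hA]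
    linarith
  obtain ⟨s, hs, hTs⟩ := gtroot_pick L _ _ hg.two ha hT
  have hvs : L.v s = 1 := by
    have h5 : L.v s ^ 2 = 1 := by rw [← v_pow, hs, ha]
    have := L.nonneg s
    nlinarith [sq_nonneg (L.v s - 1)]
  refine ⟨s, hs, ?_⟩
  intro j hj
  have hju : L.v ((g j).ev u 1) = 1 := by
    rw [hev j] at hj
    have : rho ^ 2 * L.v ((g j).ev u 1) = rho ^ 2 * 1 := by rw [mul_one]; exact hj
    exact mul_left_cancel₀ hr2.ne' this
  set Y : K := (2 * ((g k).A : K)) ^ 2 * (g j).ev u 1 with hY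
  have hvA2 : L.v (2 * ((g k).A : K)) = 1 := by rw [L.mul, h2, hA, one_mul]
  have hvY : L.v Y = 1 := by rw [hY, L.mul, v_pow, hvA2, hju]; norm_num
  set E : K := (g j).ev (s - ((g k).B : K)) (2 * ((g k).A : K)) with hE
  have hdiff : Y - E = (2 * ((g k).A : K) * u + ((g k).B : K) - s) *
      (((g j).A : K) * (2 * ((g k).A : K) * u + s - ((g k).B : K)) + 2 * ((g k).A : K) * ((g j).B : K)) := by
    rw [hY, hE]
    unfold BQ.ev
    ring
  have hfac : L.v (((g j).A : K) * (2 * ((g k).A : K) * u + s - ((g k).B : K)) +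
      2 * ((g k).A : K) * ((g j).B : K)) ≤ 1 := by
    refine (L.add _ _).trans (max_le ?_ ?_)
    · rw [L.mul]
      have h6 : L.v (2 * ((g k).A : K) * u + s - ((g k).B : K)) ≤ 1 := by
        refine (v_sub L _ _).trans (max_le ?_ hB)
        refine (L.add _ _).trans (max_le ?_ hvs.le)
        rw [L.mul, hvA2, hvu, one_mul]
      have h7 := v_int_le L (g j).A
      exact mul_le_one₀ h7 (L.nonneg _) h6
    · rw [L.mul, hvA2, one_mul]
      exact v_int_le L _
  have hclose : L.v (Y - E) < 1 := by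
    rw [hdiff, L.mul]
    have h8 := L.nonneg (2 * ((g k).A : K) * u + ((g k).B : K) - s)
    calc L.v (2 * ((g k).A : K) * u + ((g k).B : K) - s) * L.v (((g j).A : K) *
          (2 * ((g k).A : K) * u + s - ((g k).B : K)) + 2 * ((g k).A : K) * ((g j).B : K))
        ≤ L.v (2 * ((g k).A : K) * u + ((g k).B : K) - s) * 1 := mul_le_mul_of_nonneg_left hfac h8
      _ < 1 := by rw [mul_one]; exact hTs
  have hvE : L.v E = 1 := by
    rw [← hvY]
    apply v_eq_of_close L
    rw [hvY, ← v_neg, neg_sub]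
    exact hclose
  refine ⟨hvE, ?_⟩
  have h9 : IsSquare (Y * E) := sq_of_close L hg.two hvE hclose
  have h10 : (g j).ev x z * E = (z / (2 * ((g k).A : K))) * (z / (2 * ((g k).A : K))) * (Y * E) := by
    rw [hxz j, hY]
    field_simp
  rw [h10]
  exact (IsSquare.mul_self _).mul h9

end ZG
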