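import Pool.Agent.Lib.MP_1ad228_nt.GTVal
import Pool.Agent.Lib.MP_1ad228_nt.ZHodd

/-! JOB GTSplit.  The integral root of `g_k` modulo `p`.

`root_dvd`: `isSquare_int_iff` (file `ZHodd`, namespace `ZC`) gives `jacobiSym (g k).disc p = 1`, hence a square root modulo `p` (`ZMod.isSquare_of_jacobiSym_eq_one` or `legendreSym.eq_one_iff`, then lift the root to `ℤ` by `.val` and
`ZMod.intCast_zmod_eq_zero_iff_dvd` / `ZMod.intCast_eq_intCast_iff_dvd_sub`); use `rootInt_spec`.
`Gk_unit`: by `BQ.root_prod_mod (g k) (g i) r`, `r = rootInt (g k).disc p`, `p` divides `Gk g p k i * (g i).ev (-r - B) (2 A) - 16 A² res`.  If `p ∣ Gk` then `p ∣ 16 A² res`, impossible (`p ≠ 2`, `p ∤ A`, `p ∤ res`).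
`split_close`: `(s - r)(s + r) = disc - r²` has absolute value `< 1` (`v_int_lt`), so `v (s - r) < 1` or `v (s + r) < 1`.
 Case `v (s - r) < 1`, take `ε = 0`: `(g j).ev (s - B) (2A) - (Gk g p k j : K) = (s - r) * (A_j (s + r - 2B) + 2 A B_j)` (by `BQ.ev_cast` the integer `Gk` is the value of the form at the casts), of absolute value `< 1`, `v (Gk) = 1`; `sq_of_close`.
 Case `v (s + r) < 1`, `ε = 1`: with `R = (g k).res (g j)`, `E = (g j).ev (s - B) (2A)`, `E' = (g j).ev (-r - B) (2A)`: `v (E - E') < 1`, and `Gk * E' - 16 A² R` is divisible by `p`, so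
 `E * Gk * R - 16 A² R² = (E - E') * Gk * R + (Gk * E' - 16 A² R) * R` has absolute value `< 1`, and `16 A² R²` has absolute value `1`; so `E * (Gk * R) * (4 A R)²` is a square (`sq_of_close`), and `4 A R ≠ 0` (`isSquare_of_mul`). -/

namespace ZG

open Finset ZC

variable {p : ℕ} [Fact p.Prime] {ι : Type}

theorem root_dvd (g : ι → BQ) (hg : Good g p) (k : ι) (hk : IsSquare (((g k).disc : ℤ) : ℚ_[p])) :
    (p : ℤ) ∣ rootInt (g k).disc p ^ 2 - (g k).disc := by
  have h1 := (isSquare_int_iff hg.two _ (hg.disc k)).1 hk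
  obtain ⟨s, hs⟩ := ZMod.isSquare_of_jacobiSym_eq_one h1
  apply rootInt_spec
  refine ⟨(s.val : ℤ), ?_⟩
  rw [← ZMod.intCast_zmod_eq_zero_iff_dvd]
  push_cast
  rw [ZMod.natCast_zmod_val, hs]
  ring

theorem Gk_unit (g : ι → BQ) (hg : Good g p) {k i : ι} (hik : i ≠ k)
    (hr : (p : ℤ) ∣ rootInt (g k).disc p ^ 2 - (g k).disc) : ¬ (p : ℤ) ∣ Gk g p k i := by
  intro h
  have hpp : Prime (p : ℤ) := Nat.prime_iff_prime_int.1 Fact.out
  have h1 : (p : ℤ) ∣ (g i).ev (rootInt (g k).disc p - (g k).B) (2 * (g k).A) *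
      (g i).ev (-rootInt (g k).disc p - (g k).B) (2 * (g k).A) - 16 * (g k).A ^ 2 * (g k).res (g i) :=
    hr.trans (BQ.root_prod_mod (g k) (g i) (rootInt (g k).disc p))
  have h2 : (p : ℤ) ∣ (g i).ev (rootInt (g k).disc p - (g k).B) (2 * (g k).A) *
      (g i).ev (-rootInt (g k).disc p - (g k).B) (2 * (g k).A) := by
    have h' : (p : ℤ) ∣ (g i).ev (rootInt (g k).disc p - (g k).B) (2 * (g k).A) := h
    exact h'.mul_right _
  have h3 : (p : ℤ) ∣ 16 * (g k).A ^ 2 * (g k).res (g i) := (dvd_sub_right h2).1 h1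
  rcases hpp.dvd_or_dvd h3 with h4 | h4
  · rcases hpp.dvd_or_dvd h4 with h5 | h5
    · have h6 : (p : ℤ) ∣ (2 : ℤ) ^ 4 := by norm_num; exact h5
      have h7 := hpp.dvd_of_dvd_pow h6
      have h8 : p ∣ 2 := by exact_mod_cast h7
      exact hg.two ((Nat.prime_dvd_prime_iff_eq Fact.out Nat.prime_two).1 h8)
    · exact hg.A k (hpp.dvd_of_dvd_pow h5)
  · exact hg.res k i hik.symm h4

theorem split_close (g : ι → BQ) (hg : Good g p) {K : Type} [Field K] [Algebra ℚ_[p] K] (L : LVal p K) (k : ι) (s : K)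
    (hs : s ^ 2 = ((g k).disc : K)) (hr : (p : ℤ) ∣ rootInt (g k).disc p ^ 2 - (g k).disc) :
    ∃ ε : ℕ, ∀ j, j ≠ k → IsSquare ((g j).ev (s - ((g k).B : K)) (2 * ((g k).A : K)) *
      ((Gk g p k j * (g k).res (g j) ^ ε : ℤ) : K)) := by
  set r : ℤ := rootInt (g k).disc p with hrdef
  have hlt : L.v ((s - (r : K)) * (s + (r : K))) < 1 := by
    have e : (s - (r : K)) * (s + (r : K)) = (((-(r ^ 2 - (g k).disc) : ℤ)) : K) := by
      push_cast
      linear_combination hs
    rw [e]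
    exact v_int_lt L ((dvd_neg).2 hr)
  have hGk : ∀ j, Gk g p k j = (g j).ev (r - (g k).B) (2 * (g k).A) := fun j => rfl
  -- the size of `s`
  have hvs : L.v s = 1 := by
    have h1 : L.v s ^ 2 = 1 := by rw [← v_pow, hs, v_int L (hg.disc k)]
    have h2 := L.nonneg s
    nlinarith [sq_nonneg (L.v s - 1)]
  have hcl : ∀ (t : K) (j : ι), L.v t ≤ 1 → ∀ t' : K, L.v t' ≤ 1 → L.v (t - t') < 1 →
      L.v ((g j).ev (t - ((g k).B : K)) (2 * ((g k).A : K)) - (g j).ev (t' - ((g k).B : K)) (2 * ((g k).A : K))) < 1 := by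
    intro t j ht t' ht' htt
    have e : (g j).ev (t - ((g k).B : K)) (2 * ((g k).A : K)) - (g j).ev (t' - ((g k).B : K)) (2 * ((g k).A : K)) =
        (t - t') * (((g j).A : K) * (t + t') + ((-2 * (g j).A * (g k).B + 2 * (g k).A * (g j).B : ℤ) : K)) := by
      unfold BQ.ev
      push_cast
      ring
    rw [e, L.mul]
    have h1 : L.v (((g j).A : K) * (t + t') + ((-2 * (g j).A * (g k).B + 2 * (g k).A * (g j).B : ℤ) : K)) ≤ 1 := by
      refine (L.add _ _).trans (max_le ?_ (v_int_le L _))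
      rw [L.mul]
      exact mul_le_one₀ (v_int_le L _) (L.nonneg _) ((L.add _ _).trans (max_le ht ht'))
    calc L.v (t - t') * _ ≤ L.v (t - t') * 1 := mul_le_mul_of_nonneg_left h1 (L.nonneg _)
      _ < 1 := by rw [mul_one]; exact htt
  have hr1 : L.v (r : K) ≤ 1 := v_int_le L r
  have hcast : ∀ (j : ι) (t : ℤ), (((g j).ev (t - (g k).B) (2 * (g k).A) : ℤ) : K) =
      (g j).ev ((t : K) - ((g k).B : K)) (2 * ((g k).A : K)) := by
    intro j t
    rw [BQ.ev_cast]
    push_cast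
    rfl
  have hor : L.v (s - (r : K)) < 1 ∨ L.v (s + (r : K)) < 1 := by
    by_contra hcon
    push Not at hcon
    rw [L.mul] at hlt
    have := one_le_mul_of_one_le_of_one_le hcon.1 hcon.2
    exact absurd hlt (not_lt.2 this)
  rcases hor with h | h
  · refine ⟨0, fun j hj => ?_⟩
    rw [pow_zero, mul_one]
    refine sq_of_close L hg.two (v_int L (Gk_unit g hg hj hr)) ?_
    rw [hGk, hcast]
    exact hcl s j hvs.le _ hr1 h
  · refine ⟨1, fun j hj => ?_⟩
    rw [pow_one]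
    have hGu := Gk_unit g hg hj hr
    have hRu := hg.res k j hj.symm
    have h2 : L.v ((g j).ev (s - ((g k).B : K)) (2 * ((g k).A : K)) -
        (((g j).ev (-r - (g k).B) (2 * (g k).A) : ℤ) : K)) < 1 := by
      rw [hcast]
      refine hcl s j hvs.le _ ?_ ?_
      · rw [Int.cast_neg, v_neg]
        exact hr1
      · rw [Int.cast_neg, sub_neg_eq_add]
        exact h
    set E := (g j).ev (s - ((g k).B : K)) (2 * ((g k).A : K)) with hE
    set E' : ℤ := (g j).ev (-r - (g k).B) (2 * (g k).A) with hE'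
    set G : ℤ := Gk g p k j with hG
    set R : ℤ := (g k).res (g j) with hR
    have h3 : (p : ℤ) ∣ G * E' - 16 * (g k).A ^ 2 * R := by
      rw [hG, hGk]
      exact hr.trans (BQ.root_prod_mod (g k) (g j) r)
    have h4A : ¬ (p : ℤ) ∣ 4 * (g k).A * R := by
      have hpp : Prime (p : ℤ) := Nat.prime_iff_prime_int.1 Fact.out
      intro h3
      rcases hpp.dvd_or_dvd h3 with h4 | h4
      · rcases hpp.dvd_or_dvd h4 with h5 | h5
        · have h6 : (p : ℤ) ∣ (2 : ℤ) ^ 2 := by norm_num; exact h5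
          have h7 := hpp.dvd_of_dvd_pow h6
          have h8 : p ∣ 2 := by exact_mod_cast h7
          exact hg.two ((Nat.prime_dvd_prime_iff_eq Fact.out Nat.prime_two).1 h8)
        · exact hg.A k h5
      · exact hRu h4
    have hv1 : L.v ((4 * (g k).A * R : ℤ) : K) = 1 := v_int L h4A
    have hv2 : L.v ((((4 * (g k).A * R) ^ 2 : ℤ)) : K) = 1 := by
      rw [Int.cast_pow, v_pow, hv1, one_pow]
    have h5 : L.v (E * ((G * R : ℤ) : K) - (((4 * (g k).A * R) ^ 2 : ℤ) : K)) < 1 := by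
      have e : E * ((G * R : ℤ) : K) - (((4 * (g k).A * R) ^ 2 : ℤ) : K) =
          (E - (E' : K)) * ((G * R : ℤ) : K) + (((G * E' - 16 * (g k).A ^ 2 * R) * R : ℤ) : K) := by
        push_cast
        ring
      rw [e]
      refine lt_of_le_of_lt (L.add _ _) (max_lt ?_ ?_)
      · rw [L.mul]
        calc L.v (E - (E' : K)) * L.v ((G * R : ℤ) : K) ≤ L.v (E - (E' : K)) * 1 :=
              mul_le_mul_of_nonneg_left (v_int_le L _) (L.nonneg _)
          _ < 1 := by rw [mul_one]; exact h2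
      · exact v_int_lt L (h3.mul_right _)
    have h6 := sq_of_close L hg.two hv2 h5
    refine isSquare_of_mul h6 ?_ ?_
    · rw [Int.cast_pow]
      exact IsSquare.sq _
    · intro h0
      rw [h0, (L.zero_iff 0).2 rfl] at hv2
      exact zero_ne_one hv2

end ZG
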