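import Pool.Agent.Lib.MP_1ad228_nt.GTData
import Pool.Agent.Lib.MP_1ad228_nt.GTRoot
import Pool.Agent.Lib.MP_1ad228_nt.GTSplit
import Pool.Agent.Lib.MP_1ad228_nt.GTInert

/-! JOB GTPtB.  A point close to a root of `g_k`, `p ∣ D`, `p² ∤ D`.

Compare case (B) in the proof of `ZC.point_ram` in `ZPoint.lean` (in particular the treatment of `val i` for `i = k`, `ZPoint_val_zero`).  Notation: `K = P.K`, `n = [K:ℚ_p]`, `v = L.v`, `g_j = (g j).ev P.x P.z`.
For `j ≠ k`: `val j = g_j ≠ 0`.  `root_close` gives `s ∈ K`, `s² = a_k`, `E_j = (g j).ev (s - B_k) (2 A_k)`, `v E_j = 1`, `g_j E_j` a square in `K` for `j ≠ k`.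
`val k * (D ∏_{j≠k} g_j)` is a square in `K` (if `g_k ≠ 0` it is `(D w)²`; if `g_k = 0` it is `(D ∏ g_j)²`).
(B1) `a_k` is a square in `ℚ_p`: `root_dvd`, `split_close` give `ε` with `E_j (Gk_j R_j^ε)` a square for `j ≠ k` (`Gk_j = Gk g p k j`, `R_j = (g k).res (g j)`), so `g_j (Gk_j R_j^ε)` is a square (`isSquare_trans`, `E_j ≠ 0`), and
 `val k * (D ∏_{j≠k} Gk_j * (∏_{j≠k} R_j)^ε)` is a square (multiply, the factor `(∏ g_j)²` is a nonzero square).  In other words for all `i`: `val i * ((cc g D p k i * RR g k i ^ ε : ℤ) : K)` is a square in `K`, and the integer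
 `cc g D p k i * RR g k i ^ ε` is not zero (`Gk_unit`, `D ≠ 0` since `p² ∤ D`, `hg.res`).  If `n` is even all `N(val i)` are squares (`norm_sq_even`): first alternative.  If `n` is odd: `norm_sq_odd`: second alternative.
(B2) `a_k` is not a square in `ℚ_p`: by `norm_root`, `n` is even and `N(E_j) = (16 A² R_j)^(n/2)` for all `j`, so `N(g_j) (16 A² R_j)^(n/2)` is a square for `j ≠ k` (norm of a square).
 If `n/2` is even: `N(g_j)` is a square for `j ≠ k` (`16 A² R_j ≠ 0` by `hg`) and `N(val k) N(D) ∏ N(g_j)` is a square with `N(D) = D^n` a nonzero square (`Algebra.norm_algebraMap`), `N(g_j) ≠ 0`, so `N(val k)` is a square: first alternative.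
 If `n/2` is odd: `(16 A² R_j)^(n/2) = R_j * (nonzero square)`, so `N(g_j) R_j` is a square for `j ≠ k`, and `N(val k) ∏_{j≠k} R_j` is a square: third alternative (`RR g k k = ∏_{l ≠ k} R_l`, `RR g k j = R_j`). -/

namespace ZG

open Finset ZC

variable {p : ℕ} [Fact p.Prime] {ι : Type} [Fintype ι] [DecidableEq ι]

private theorem gtptb_val_zero {F : Type} [Field F] {g : ι → BQ} {D : ℤ} (P : Pt F g D) (i : ι)
    (h : (g i).ev P.x P.z = 0) :
    P.val i = (D : P.K) * ∏ j ∈ univ.erase i, (g j).ev P.x P.z := by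
  unfold Pt.val
  rw [if_pos h]
  refine congrArg (fun t => (D : P.K) * t) (Finset.prod_congr ?_ fun _ _ => rfl)
  ext x
  exact (@Finset.mem_erase ι (fun a b => Classical.propDecidable (a = b)) x i univ).trans
    (Finset.mem_erase (a := x) (b := i) (s := univ)).symm

/-- `val k * (D ∏_{j ≠ k} g_j)` is a square -/
private theorem gtptb_sq {F : Type} [Field F] {g : ι → BQ} {D : ℤ} (P : Pt F g D) (k : ι) :
    IsSquare (P.val k * ((D : P.K) * ∏ j ∈ univ.erase k, (g j).ev P.x P.z)) := by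
  by_cases h : (g k).ev P.x P.z = 0
  · rw [gtptb_val_zero P k h]
    exact ⟨_, rfl⟩
  · unfold Pt.val
    rw [if_neg h]
    refine ⟨(D : P.K) * P.w, ?_⟩
    have := P.eq
    rw [← Finset.mul_prod_erase univ _ (Finset.mem_univ k)] at this
    linear_combination -(D : P.K) * this

private theorem gtptb_comb {F : Type} [Field F] {v D G M : F} (h1 : IsSquare (v * (D * G)))
    (h2 : IsSquare (G * M)) (hG : G ≠ 0) : IsSquare (v * (D * M)) := by
  have h := h1.mul h2
  have e : v * (D * G) * (G * M) = (v * (D * M)) * (G * G) := by ring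
  rw [e] at h
  exact isSquare_of_mul h ⟨G, rfl⟩ (mul_ne_zero hG hG)

theorem point_B (g : ι → BQ) (hg : Good g p) (D : ℤ) (hD0 : D ≠ 0)
    (P : Pt ℚ_[p] g D) (L : LVal p P.K) (rho : ℝ) (hrho : 0 < rho) (k : ι) (hk : L.v ((g k).ev P.x P.z) < rho ^ 2)
    (hx : L.v P.x = rho) (hz : L.v P.z = rho) (hj : ∀ j, j ≠ k → L.v ((g j).ev P.x P.z) = rho ^ 2) :
    (Even (Module.finrank ℚ_[p] P.K) ∧ ∀ i, IsSquare (Algebra.norm ℚ_[p] (P.val i))) ∨
    (Odd (Module.finrank ℚ_[p] P.K) ∧ IsSquare (((g k).disc : ℤ) : ℚ_[p]) ∧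
      ∃ ε : ℕ, ∀ i, IsSquare (Algebra.norm ℚ_[p] (P.val i) * ((cc g D p k i * RR g k i ^ ε : ℤ) : ℚ_[p]))) ∨
    (Even (Module.finrank ℚ_[p] P.K) ∧
      ∀ i, IsSquare (Algebra.norm ℚ_[p] (P.val i) * ((RR g k i : ℤ) : ℚ_[p]))) := by
  have hval : ∀ i, L.v ((g i).ev P.x P.z) = rho ^ 2 → P.val i = (g i).ev P.x P.z ∧
      (g i).ev P.x P.z ≠ 0 := by
    intro i hi
    have h0 : (g i).ev P.x P.z ≠ 0 := fun h => by
      rw [h, (L.zero_iff 0).2 rfl] at hi
      exact (pow_pos hrho 2).ne hi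
    refine ⟨?_, h0⟩
    unfold Pt.val
    rw [if_neg h0]
  have hG0 : ∏ j ∈ univ.erase k, (g j).ev P.x P.z ≠ 0 :=
    Finset.prod_ne_zero_iff.2 fun j hj' => (hval j (hj j (Finset.mem_erase.1 hj').1)).2
  have hsq := gtptb_sq P k
  obtain ⟨s, hs, hE⟩ := root_close g hg L P.x P.z rho hrho hx hz k hk
  have hres : ∀ j, j ≠ k → (g k).res (g j) ≠ 0 := fun j hjk h => hg.res k j hjk.symm (by rw [h]; exact dvd_zero _)
  by_cases ha : IsSquare (((g k).disc : ℤ) : ℚ_[p])
  · have hr := root_dvd g hg k ha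
    obtain ⟨ε, hε⟩ := split_close g hg L k s hs hr
    have hgj : ∀ j, j ≠ k → IsSquare ((g j).ev P.x P.z *
        ((Gk g p k j * (g k).res (g j) ^ ε : ℤ) : P.K)) := by
      intro j hjk
      have hE1 := hE j (hj j hjk)
      refine isSquare_trans hE1.2 (hε j hjk) ?_
      intro h0
      have := hE1.1
      rw [h0, (L.zero_iff 0).2 rfl] at this
      exact zero_ne_one this
    have hGk : ∀ j, j ≠ k → Gk g p k j ≠ 0 := fun j hjk h => Gk_unit g hg hjk hr (by rw [h]; exact dvd_zero _)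
    have hall : ∀ i, IsSquare (P.val i * ((cc g D p k i * RR g k i ^ ε : ℤ) : P.K)) := by
      intro i
      by_cases hik : i = k
      · subst hik
        have hcc : cc g D p i i = D * ∏ l ∈ univ.erase i, Gk g p i l := by
          unfold cc
          rw [if_pos rfl]
        have hRR : RR g i i = ∏ l ∈ univ.erase i, (g i).res (g l) := by
          unfold RR
          rw [if_pos rfl]
        have h2 : IsSquare ((∏ j ∈ univ.erase i, (g j).ev P.x P.z) *
            ∏ j ∈ univ.erase i, ((Gk g p i j * (g i).res (g j) ^ ε : ℤ) : P.K)) := by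
          rw [← Finset.prod_mul_distrib]
          exact isSquare_prod _ _ fun j hj' => hgj j (Finset.mem_erase.1 hj').1
        have h3 := gtptb_comb hsq h2 hG0
        rw [hcc, hRR]
        have e : ((D * ∏ l ∈ univ.erase i, Gk g p i l) * (∏ l ∈ univ.erase i, (g i).res (g l)) ^ ε : ℤ) =
            D * ∏ j ∈ univ.erase i, (Gk g p i j * (g i).res (g j) ^ ε) := by
          rw [Finset.prod_mul_distrib, Finset.prod_pow]
          ring
        rw [e, Int.cast_mul, Int.cast_prod]
        exact h3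
      · have hcc : cc g D p k i = Gk g p k i := by
          unfold cc
          rw [if_neg hik]
        have hRR : RR g k i = (g k).res (g i) := by
          unfold RR
          rw [if_neg hik]
        rw [hcc, hRR, (hval i (hj i hik)).1]
        exact hgj i hik
    have hne : ∀ i, cc g D p k i * RR g k i ^ ε ≠ 0 := by
      intro i
      by_cases hik : i = k
      · subst hik
        unfold cc RR
        rw [if_pos rfl, if_pos rfl]
        refine mul_ne_zero (mul_ne_zero hD0 ?_) (pow_ne_zero _ ?_)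
        · exact Finset.prod_ne_zero_iff.2 fun j hj' => hGk j (Finset.mem_erase.1 hj').1
        · exact Finset.prod_ne_zero_iff.2 fun j hj' => hres j (Finset.mem_erase.1 hj').1
      · unfold cc RR
        rw [if_neg hik, if_neg hik]
        exact mul_ne_zero (hGk i hik) (pow_ne_zero _ (hres i hik))
    rcases Nat.even_or_odd (Module.finrank ℚ_[p] P.K) with hn | hn
    · exact Or.inl ⟨hn, fun i => norm_sq_even (hall i) (hne i) hn⟩
    · exact Or.inr (Or.inl ⟨hn, ha, ε, fun i => norm_sq_odd (hall i) (hne i) hn⟩)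
  · have hn : Even (Module.finrank ℚ_[p] P.K) := (norm_root g P.K k k ha s hs).1
    have hA : (g k).A ≠ 0 := fun h => hg.A k (by rw [h]; exact dvd_zero _)
    have hc0 : ∀ j, j ≠ k → ((16 * (g k).A ^ 2 * (g k).res (g j) : ℤ) : ℚ_[p]) ≠ 0 := by
      intro j hjk
      have : (16 * (g k).A ^ 2 * (g k).res (g j) : ℤ) ≠ 0 :=
        mul_ne_zero (mul_ne_zero (by norm_num) (pow_ne_zero 2 hA)) (hres j hjk)
      exact_mod_cast this
    have hN : ∀ j, j ≠ k → IsSquare (Algebra.norm ℚ_[p] ((g j).ev P.x P.z) *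
        ((16 * (g k).A ^ 2 * (g k).res (g j) : ℤ) : ℚ_[p]) ^ (Module.finrank ℚ_[p] P.K / 2)) := by
      intro j hjk
      have h1 := (hE j (hj j hjk)).2.map (Algebra.norm ℚ_[p])
      rw [map_mul, (norm_root g P.K k j ha s hs).2] at h1
      exact h1
    have hNk : IsSquare (Algebra.norm ℚ_[p] (P.val k) *
        ((D : ℚ_[p]) ^ Module.finrank ℚ_[p] P.K * ∏ j ∈ univ.erase k, Algebra.norm ℚ_[p] ((g j).ev P.x P.z))) := by
      have h1 := hsq.map (Algebra.norm ℚ_[p])
      have e : (D : P.K) = algebraMap ℚ_[p] P.K (D : ℚ_[p]) := by rw [map_intCast]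
      rw [map_mul, map_mul, map_prod, e, Algebra.norm_algebraMap] at h1
      exact h1
    have hNg0 : ∀ j, j ≠ k → Algebra.norm ℚ_[p] ((g j).ev P.x P.z) ≠ 0 := fun j hjk =>
      Algebra.norm_ne_zero_iff.2 (hval j (hj j hjk)).2
    have hNG0 : ∏ j ∈ univ.erase k, Algebra.norm ℚ_[p] ((g j).ev P.x P.z) ≠ 0 :=
      Finset.prod_ne_zero_iff.2 fun j hj' => hNg0 j (Finset.mem_erase.1 hj').1
    have hDq : (D : ℚ_[p]) ^ Module.finrank ℚ_[p] P.K ≠ 0 := pow_ne_zero _ (by exact_mod_cast hD0)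
    have hDsq : IsSquare ((D : ℚ_[p]) ^ Module.finrank ℚ_[p] P.K) := hn.isSquare_pow _
    rcases Nat.even_or_odd (Module.finrank ℚ_[p] P.K / 2) with hm | hm
    · refine Or.inl ⟨hn, ?_⟩
      have hsj : ∀ j, j ≠ k → IsSquare (Algebra.norm ℚ_[p] ((g j).ev P.x P.z)) := fun j hjk =>
        isSquare_of_mul (hN j hjk) (hm.isSquare_pow _) (pow_ne_zero _ (hc0 j hjk))
      intro i
      by_cases hik : i = k
      · subst hik
        refine isSquare_of_mul hNk (hDsq.mul ?_) (mul_ne_zero hDq hNG0)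
        exact isSquare_prod _ _ fun j hj' => hsj j (Finset.mem_erase.1 hj').1
      · rw [(hval i (hj i hik)).1]
        exact hsj i hik
    · refine Or.inr (Or.inr ⟨hn, ?_⟩)
      have hsj : ∀ j, j ≠ k → IsSquare (Algebra.norm ℚ_[p] ((g j).ev P.x P.z) *
          (((g k).res (g j) : ℤ) : ℚ_[p])) := by
        intro j hjk
        obtain ⟨m, hm⟩ := hm
        have h1 := hN j hjk
        rw [hm] at h1
        have hAq : ((g k).A : ℚ_[p]) ≠ 0 := by exact_mod_cast hA
        have e : Algebra.norm ℚ_[p] ((g j).ev P.x P.z) *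
            ((16 * (g k).A ^ 2 * (g k).res (g j) : ℤ) : ℚ_[p]) ^ (2 * m + 1) =
            (Algebra.norm ℚ_[p] ((g j).ev P.x P.z) * (((g k).res (g j) : ℤ) : ℚ_[p])) *
            (4 * ((g k).A : ℚ_[p]) * ((16 * (g k).A ^ 2 * (g k).res (g j) : ℤ) : ℚ_[p]) ^ m) ^ 2 := by
          push_cast
          ring
        rw [e] at h1
        refine isSquare_of_mul h1 (IsSquare.sq _) (pow_ne_zero 2 ?_)
        exact mul_ne_zero (mul_ne_zero (by norm_num) hAq) (pow_ne_zero _ (hc0 j hjk))
      intro i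
      by_cases hik : i = k
      · subst hik
        have hRR : RR g i i = ∏ l ∈ univ.erase i, (g i).res (g l) := by
          unfold RR
          rw [if_pos rfl]
        have h2 : IsSquare ((∏ j ∈ univ.erase i, Algebra.norm ℚ_[p] ((g j).ev P.x P.z)) *
            ∏ j ∈ univ.erase i, (((g i).res (g j) : ℤ) : ℚ_[p])) := by
          rw [← Finset.prod_mul_distrib]
          exact isSquare_prod _ _ fun j hj' => hsj j (Finset.mem_erase.1 hj').1
        have h3 := gtptb_comb hNk h2 hNG0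
        rw [hRR, Int.cast_prod]
        refine isSquare_of_mul (y := (D : ℚ_[p]) ^ Module.finrank ℚ_[p] P.K) ?_ hDsq hDq
        convert h3 using 1
        ring
      · have hRR : RR g k i = (g k).res (g i) := by
          unfold RR
          rw [if_neg hik]
        rw [hRR, (hval i (hj i hik)).1]
        exact hsj i hik

end ZG
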