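import Pool.Agent.Lib.MP_1ad228_nt.GTPtA
import Pool.Agent.Lib.MP_1ad228_nt.GTPtB

/-! The class of one point over a finite extension of `ℚ_p`, `p` good, `p ∣ D`, `p² ∤ D` (complete file). -/

namespace ZG

open Finset ZC

variable {p : ℕ} [Fact p.Prime] {ι : Type} [Fintype ι] [DecidableEq ι]

theorem point_ram (g : ι → BQ) (hg : Good g p) (D : ℤ) (hD : (p : ℤ) ∣ D) (hD2 : ¬ (p : ℤ) ^ 2 ∣ D)
    (P : Pt ℚ_[p] g D) :
    (Even (Module.finrank ℚ_[p] P.K) ∧ ∀ i, IsSquare (Algebra.norm ℚ_[p] (P.val i))) ∨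
    (∃ k, Odd (Module.finrank ℚ_[p] P.K) ∧ IsSquare (((g k).disc : ℤ) : ℚ_[p]) ∧
      ∃ ε : ℕ, ∀ i, IsSquare (Algebra.norm ℚ_[p] (P.val i) * ((cc g D p k i * RR g k i ^ ε : ℤ) : ℚ_[p]))) ∨
    (∃ k, Even (Module.finrank ℚ_[p] P.K) ∧
      ∀ i, IsSquare (Algebra.norm ℚ_[p] (P.val i) * ((RR g k i : ℤ) : ℚ_[p]))) := by
  obtain ⟨L⟩ := exists_lval p P.K
  obtain ⟨rho, lam, hrho, hlam, hle, hdich⟩ := data g D hg P L
  have hD0 : D ≠ 0 := by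
    rintro rfl
    exact hD2 (dvd_zero _)
  rcases hdich with hA | ⟨k, hk, hx, hz, hj⟩
  · exact Or.inl (point_A g hg.two D hD hD2 P L rho lam hrho hlam hA)
  · rcases point_B g hg D hD0 P L rho hrho k hk hx hz hj with h | h | h
    · exact Or.inl h
    · exact Or.inr (Or.inl ⟨k, h⟩)
    · exact Or.inr (Or.inr ⟨k, h⟩)

end ZG
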