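import Pool.Agent.Lib.MP_1ad228_nt.GTData

/-! JOB GTPtA (short).  A point all of whose values `g_i` have the maximal size, `p ∣ D`, `p² ∤ D`.

Copy of case (A) in the proof of `ZC.point_ram` in `ZPoint.lean`: `v D = 1/p`, `v D * v(w)² = ρ^(2r)` (`r = card ι`), `w' = w/λ^r` has `v(w')² = p`; `val j = g_j`, `u = g_j/λ²` has `v u = 1`; `N(u)` is a square by `norm_isSquare_of_ram` (file `ZRam`) and
`N(g_j) = N(u) N(λ)²`.  `n` is even because `‖N(w')‖² = v(w')^(2n) = p^n` and `‖N w'‖` is an integral power of `p`. -/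

namespace ZG

open Finset ZC

variable {p : ℕ} [Fact p.Prime] {ι : Type} [Fintype ι]

theorem point_A (g : ι → BQ) (hp : p ≠ 2) (D : ℤ) (hD : (p : ℤ) ∣ D) (hD2 : ¬ (p : ℤ) ^ 2 ∣ D)
    (P : Pt ℚ_[p] g D) (L : LVal p P.K) (rho : ℝ) (lam : P.K) (hrho : 0 < rho) (hlam : L.v lam = rho)
    (hA : ∀ i, L.v ((g i).ev P.x P.z) = rho ^ 2) :
    Even (Module.finrank ℚ_[p] P.K) ∧ ∀ i, IsSquare (Algebra.norm ℚ_[p] (P.val i)) := by
  classical
  have hp0 : (0 : ℝ) < p := by exact_mod_cast (Fact.out : p.Prime).pos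
  have hp1 : (1 : ℝ) < p := by exact_mod_cast (Fact.out : p.Prime).one_lt
  have hlam0 : lam ≠ 0 := fun h => by
    rw [h, (L.zero_iff 0).2 rfl] at hlam
    exact hrho.ne hlam
  have hvD : L.v (D : P.K) = (p : ℝ)⁻¹ := by
    obtain ⟨D', rfl⟩ := hD
    have hD' : ¬ (p : ℤ) ∣ D' := fun ⟨e, he⟩ => hD2 ⟨e, by rw [he]; ring⟩
    rw [Int.cast_mul, L.mul, v_int L hD', mul_one, Int.cast_natCast, v_p]
  have hval : ∀ i, L.v ((g i).ev P.x P.z) = rho ^ 2 → P.val i = (g i).ev P.x P.z ∧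
      (g i).ev P.x P.z ≠ 0 := by
    intro i hi
    have h0 : (g i).ev P.x P.z ≠ 0 := fun h => by
      rw [h, (L.zero_iff 0).2 rfl] at hi
      exact (pow_pos hrho 2).ne hi
    refine ⟨?_, h0⟩
    unfold Pt.val
    rw [if_neg h0]
  set r := Fintype.card ι with hr
  have hw : L.v (P.w / lam ^ r) ^ 2 = p := by
    have h1 : L.v ((D : P.K) * P.w ^ 2) = rho ^ (2 * r) := by
      rw [P.eq, v_prod]
      simp_rw [hA]
      rw [Finset.prod_const, Finset.card_univ, ← pow_mul]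
    rw [L.mul, v_pow, hvD] at h1
    rw [v_div, v_pow, hlam, div_pow, ← pow_mul, mul_comm r 2, ← h1]
    have hw0 : L.v P.w ^ 2 ≠ 0 := by
      intro h
      rw [h, mul_zero] at h1
      exact (pow_pos hrho _).ne h1
    rw [mul_comm (p : ℝ)⁻¹, ← div_div, div_self hw0, one_div, inv_inv]
  have hw0 : P.w / lam ^ r ≠ 0 := fun h => by
    rw [h, (L.zero_iff 0).2 rfl] at hw
    norm_num at hw
    exact hp0.ne hw
  constructor
  · have hN : Algebra.norm ℚ_[p] (P.w / lam ^ r) ≠ 0 := Algebra.norm_ne_zero_iff.2 hw0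
    have h1 := L.norm (P.w / lam ^ r)
    have h2 : ‖Algebra.norm ℚ_[p] (P.w / lam ^ r)‖ ^ 2 = (p : ℝ) ^ Module.finrank ℚ_[p] P.K := by
      rw [h1, ← pow_mul, mul_comm, pow_mul, hw]
    rw [Padic.norm_eq_zpow_neg_valuation hN] at h2
    have h2' : (p : ℝ) ^ (-(Algebra.norm ℚ_[p] (P.w / lam ^ r)).valuation * 2) =
        (p : ℝ) ^ ((Module.finrank ℚ_[p] P.K : ℕ) : ℤ) := by
      rw [zpow_mul, zpow_natCast]
      exact_mod_cast h2
    have h3 := zpow_right_injective₀ hp0 hp1.ne' h2'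
    have h4 : Even ((Module.finrank ℚ_[p] P.K : ℕ) : ℤ) := by
      refine ⟨-(Algebra.norm ℚ_[p] (P.w / lam ^ r)).valuation, ?_⟩
      linarith
    exact (Int.even_coe_nat _).1 h4
  · intro i
    obtain ⟨e, h0⟩ := hval i (hA i)
    rw [e]
    have hu : L.v ((g i).ev P.x P.z / lam ^ 2) = 1 := by
      rw [v_div, hA, v_pow, hlam, div_self (pow_pos hrho 2).ne']
    have h1 := norm_isSquare_of_ram p hp P.K L _ hw _ hu
    have h2 : (g i).ev P.x P.z = (g i).ev P.x P.z / lam ^ 2 * (lam * lam) := by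
      field_simp
    rw [h2, map_mul, map_mul]
    exact h1.mul ⟨_, rfl⟩

end ZG
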