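import Pool.Agent.Lib.MP_1ad228_nt.GTChi
import Pool.Agent.Lib.MP_1ad228_nt.GTEul

/-! JOB GTUbA (short).

`QT.charB_chi` (file `QCharB`) gives the upper bound `5 + log |b|` of the series and its multiplicativity etc. (`QT.CharB`); `log_L` the positivity and the comparison of the logarithm with the sum over the primes; `chi_lower` the lower bound `c`.  So
`-2 + log c ≤ ∑_p ≤ 2 + log (5 + log |b|)`; take `C = 2 + |log c| + |log (5 + log |b|)|`. -/

namespace ZG

open Finset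

theorem chi_sum (b : ℤ) (hb : ¬ IsSquare b) : ∃ C : ℝ, ∀ σ : ℝ, 1 < σ → σ ≤ 2 →
    |∑' p : Nat.Primes, QT.chi b p * ((p : ℕ) : ℝ) ^ (-σ)| ≤ C := by
  have hB := QT.charB_chi b hb
  have hL : ∀ σ : ℝ, 1 < σ → _ := fun σ hσ =>
    log_L (QT.chi b) hB.zero hB.one hB.mul hB.le σ hσ
  obtain ⟨c, hc, hlow⟩ := chi_lower b hb (fun σ hσ => (hL σ hσ).1)
  refine ⟨2 + |Real.log c| + |Real.log (5 + Real.log b.natAbs)|, ?_⟩
  intro σ hσ hσ2
  obtain ⟨h1, h2⟩ := hL σ hσ
  have h3 := hlow σ hσ hσ2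
  have h4 := hB.bound σ hσ
  have h5 : Real.log c ≤ Real.log (∑' n : ℕ, QT.chi b n * (n : ℝ) ^ (-σ)) := Real.log_le_log hc h3
  have h6 : Real.log (∑' n : ℕ, QT.chi b n * (n : ℝ) ^ (-σ)) ≤ Real.log (5 + Real.log b.natAbs) :=
    Real.log_le_log h1 h4
  have h7 := abs_le.1 h2
  have h8 := neg_abs_le (Real.log c)
  have h9 := le_abs_self (Real.log (5 + Real.log b.natAbs))
  have h10 := abs_nonneg (Real.log c)
  have h11 := abs_nonneg (Real.log (5 + Real.log b.natAbs))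
  rw [abs_le]
  constructor
  · linarith
  · linarith

end ZG
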