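import Pool.Agent.Lib.MP_1ad228_nt.ZInner

/-! JOB ZCase.  Vectors whose set of coordinates `> τ` is exactly `I`, `I` nonempty.

Model: `QT.case_I` in `Pool/Agent/Lib/MP_10e784_ag/QCaseA.lean` (the same freezing of the small coordinates).
Let `f` be `e` with the entries in `I` replaced by `1`, `e'` be `e` with the entries off `I` replaced by `1` (`e = f * e'` pointwise); the entries of `f` are in `[1, ⌊τ⌋]`, `∏ f ≤ τ^n`, `n = card (OddSet ι)`;
`X = N / ∏ f` (natural division), `∏ e' ≤ X`.  Let `θ' U i = θ U i * ∏_{U' ∉ I, i ∈ U'} f U'`.  For `U ∈ I`, `p ∣ e U`: `p ∤ f U'` (`e ∈ Box`: pairwise coprime), so `p ∤ θ' U i`; for `|S ∩ U|` even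
`∏_{i∈S} θ' U i = ∏_{i∈S} θ U i · ∏_{U'∉I} f U' ^ |S ∩ U'| = ∏_{i∈S} θ U i · ∏_{U' ∉ I, |S∩U'| odd} f U' · (square prime to p)`, so `LocZ θ a e` gives the condition of `innerZ` for `θ'` and `e'`.
Therefore the count is at most `∑_f (count of innerZ with θ', X = N/∏f)`.  `∑_f N/∏f ≤ N (1 + log τ)^n` (`harmonic` sums, see `QCaseA`).
`X ≥ N^(1/4)` and `X ≥ 16`: from `N ≥ 65536` and `τ^(2n) ≤ N` we get `N/∏f ≥ √N ≥ 256`, `X ≥ √N/2 ≥ N^(1/4)`; so `log X ≥ (log N)/4`, `log X ≤ log N` and `V^K₀ ≤ τ ≤ N^(1/4) ≤ X`.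
Take `K` large (`K ≥ K₀ + n + 2`, `K ≥ 2n`, `K ≥ 4`).

`case_empty` (all coordinates `≤ τ`): the number of vectors is at most `τ^n ≤ √N`-ish: with `K ≥ 2n`, `τ^(2n) ≤ N`, the count is `≤ (⌊τ⌋)^n ≤ τ^n ≤ √N ≤ C N (log N)^(-1/4)`. -/

namespace ZC

open Finset

private lemma harm_le (τ : ℝ) (hτ : 1 ≤ τ) :
    ∑ m ∈ Icc 1 ⌊τ⌋₊, (1 / (m : ℝ)) ≤ 1 + Real.log τ := by
  have h0 : 0 < ⌊τ⌋₊ := Nat.floor_pos.2 hτ
  have h1 : ∑ m ∈ Icc 1 ⌊τ⌋₊, (1 / (m : ℝ)) = (harmonic ⌊τ⌋₊ : ℝ) := by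
    rw [harmonic_eq_sum_Icc]
    push_cast
    exact Finset.sum_congr rfl fun m _ => by rw [one_div]
  rw [h1]
  refine (harmonic_le_one_add_log _).trans ?_
  have h2 : Real.log ⌊τ⌋₊ ≤ Real.log τ :=
    Real.log_le_log (by exact_mod_cast h0) (Nat.floor_le (by linarith))
  linarith

private lemma sum_inv_prod {ι : Type} [Fintype ι] [DecidableEq ι] (τ : ℝ) (hτ : 1 ≤ τ) :
    ∑ f ∈ Fintype.piFinset (fun _ : ι => Icc 1 ⌊τ⌋₊), ∏ i, (1 / (f i : ℝ)) ≤
      (1 + Real.log τ) ^ Fintype.card ι := by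
  rw [Finset.sum_prod_piFinset (Icc 1 ⌊τ⌋₊) (fun (_ : ι) (m : ℕ) => (1 / (m : ℝ)))]
  rw [Finset.prod_const, Finset.card_univ]
  exact pow_le_pow_left₀ (Finset.sum_nonneg fun _ _ => by positivity) (harm_le τ hτ) _

/-- facts about the reduced box size -/
private lemma X_facts (n K K₀ : ℕ) (N P : ℕ) (V τ : ℝ) (hN : 65536 ≤ N) (hV : 1 ≤ V)
    (hVτ : V ^ K ≤ τ) (hτN : τ ^ K ≤ N) (hKn : 2 * n ≤ K) (hK4 : 4 ≤ K) (hKK : K₀ ≤ K)
    (hP0 : 0 < P) (hP : (P : ℝ) ≤ τ ^ n) :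
    16 ≤ N / P ∧ V ^ K₀ ≤ τ ∧ V ^ K₀ ≤ ((N / P : ℕ) : ℝ) ∧
      Real.log N / 4 ≤ Real.log ((N / P : ℕ) : ℝ) := by
  have hτ1 : 1 ≤ τ := (one_le_pow₀ hV).trans hVτ
  have hN' : (65536 : ℝ) ≤ N := by exact_mod_cast hN
  have hN0 : (0 : ℝ) ≤ N := Nat.cast_nonneg _
  set s : ℝ := Real.sqrt N with hs
  set q : ℝ := Real.sqrt s with hq
  have hs0 : 0 ≤ s := Real.sqrt_nonneg _
  have hss : s ^ 2 = N := Real.sq_sqrt hN0
  have hqq : q ^ 2 = s := Real.sq_sqrt hs0
  have hq0 : 0 ≤ q := Real.sqrt_nonneg _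
  have hq4 : q ^ 4 = N := by rw [← hss, ← hqq]; ring
  have hq16 : 16 ≤ q := by
    by_contra h
    push Not at h
    have h1 : q ^ 4 < 16 ^ 4 := pow_lt_pow_left₀ h hq0 (by norm_num)
    rw [hq4] at h1
    norm_num at h1
    linarith
  have hPs : (P : ℝ) ≤ q ^ 2 := by
    refine hP.trans ?_
    by_contra h
    push Not at h
    have h1 : (q ^ 2) ^ 2 < (τ ^ n) ^ 2 := pow_lt_pow_left₀ h (by positivity) (by norm_num)
    have h2 : (τ ^ n) ^ 2 ≤ τ ^ K := by
      rw [← pow_mul]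
      exact pow_le_pow_right₀ hτ1 (by omega)
    have h3 : (q ^ 2) ^ 2 = N := by rw [← hq4]; ring
    rw [h3] at h1
    linarith
  have hτq : τ ≤ q := by
    by_contra h
    push Not at h
    have h1 : q ^ 4 < τ ^ 4 := pow_lt_pow_left₀ h hq0 (by norm_num)
    have h2 : τ ^ 4 ≤ τ ^ K := pow_le_pow_right₀ hτ1 hK4
    rw [hq4] at h1
    linarith
  have hlt : (N : ℝ) < (((N / P : ℕ) : ℝ) + 1) * P := by
    have h1 : N < (N / P + 1) * P := by
      rw [add_mul, one_mul]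
      exact Nat.lt_div_mul_add hP0
    exact_mod_cast h1
  have hXq : q ^ 2 < ((N / P : ℕ) : ℝ) + 1 := by
    by_contra h
    push Not at h
    have h1 : (((N / P : ℕ) : ℝ) + 1) * P ≤ q ^ 2 * q ^ 2 := by
      have hP0' : (0 : ℝ) ≤ P := Nat.cast_nonneg _
      have : (0 : ℝ) ≤ ((N / P : ℕ) : ℝ) + 1 := by positivity
      gcongr
    have h2 : q ^ 2 * q ^ 2 = N := by rw [← hq4]; ring
    linarith
  have hXq' : q ≤ ((N / P : ℕ) : ℝ) := by nlinarith
  have hVK : V ^ K₀ ≤ τ := (pow_le_pow_right₀ hV hKK).trans hVτ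
  refine ⟨?_, hVK, hVK.trans (hτq.trans hXq'), ?_⟩
  · have : (16 : ℝ) ≤ ((N / P : ℕ) : ℝ) := hq16.trans hXq'
    exact_mod_cast this
  · have h1 : Real.log N = 4 * Real.log q := by
      rw [← hq4, Real.log_pow]
      norm_num
    rw [h1]
    have h2 : Real.log q ≤ Real.log ((N / P : ℕ) : ℝ) := Real.log_le_log (by linarith) hXq'
    linarith

private lemma log_rpow_le (a b : ℝ) (ha : 0 < a) (hab : a / 4 ≤ b) :
    b ^ (-(1 / 4) : ℝ) ≤ 2 * a ^ (-(1 / 4) : ℝ) := by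
  have hb : 0 < b := by linarith
  have h1 : b ^ (-(1 / 4) : ℝ) ≤ (a / 4) ^ (-(1 / 4) : ℝ) :=
    Real.rpow_le_rpow_of_nonpos (by linarith) hab (by norm_num)
  refine h1.trans ?_
  rw [Real.div_rpow ha.le (by norm_num), div_eq_mul_inv, mul_comm]
  refine mul_le_mul_of_nonneg_right ?_ (Real.rpow_nonneg ha.le _)
  rw [← Real.rpow_neg (by norm_num)]
  calc (4 : ℝ) ^ (-(-(1 / 4)) : ℝ) ≤ (4 : ℝ) ^ (1 / 2 : ℝ) :=
        Real.rpow_le_rpow_of_exponent_le (by norm_num) (by norm_num)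
    _ = 2 := by
        rw [← Real.sqrt_eq_rpow, show (4 : ℝ) = 2 ^ 2 by norm_num]
        exact Real.sqrt_sq (by norm_num)

private lemma jac_prod {α : Type} (S : Finset α) (g : α → ℤ) (p : ℕ) :
    jacobiSym (∏ i ∈ S, g i) p = ∏ i ∈ S, jacobiSym (g i) p := by
  classical
  induction S using Finset.induction_on with
  | empty => simp [jacobiSym.one_left]
  | insert b s hb ih => rw [Finset.prod_insert hb, Finset.prod_insert hb, jacobiSym.mul_left, ih]

open Classical in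
/-- the identity of characters behind the freezing of the small coordinates -/
private lemma jac_freeze {ι : Type} [Fintype ι] [DecidableEq ι] (I : Finset (OddSet ι))
    (t : ι → ℤ) (e f e' : OddSet ι → ℕ) (S : Finset ι) (p : ℕ)
    (hf : ∀ U ∉ I, f U = e U) (he' : ∀ U ∈ I, e' U = e U)
    (hcop : ∀ U ∉ I, Int.gcd (e U : ℤ) p = 1) :
    jacobiSym ((∏ i ∈ S, (t i * ∏ U' : OddSet ι with U' ∉ I ∧ i ∈ U'.1, (f U' : ℤ))) *
      ∏ U' ∈ I with Odd (S ∩ U'.1).card, (e' U' : ℤ)) p =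
    jacobiSym ((∏ i ∈ S, t i) * ∏ U' : OddSet ι with Odd (S ∩ U'.1).card, (e U' : ℤ)) p := by
  rw [Finset.prod_mul_distrib]
  have h1 : ∏ i ∈ S, ∏ U' : OddSet ι with U' ∉ I ∧ i ∈ U'.1, (f U' : ℤ) =
      ∏ U' : OddSet ι with U' ∉ I, (e U' : ℤ) ^ (S ∩ U'.1).card := by
    have h2 : ∀ i ∈ S, ∏ U' : OddSet ι with U' ∉ I ∧ i ∈ U'.1, (f U' : ℤ) =
        ∏ U' : OddSet ι with U' ∉ I, if i ∈ U'.1 then (e U' : ℤ) else 1 := by
      intro i _
      rw [← Finset.filter_filter, Finset.prod_filter]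
      refine Finset.prod_congr rfl fun U hU => ?_
      rw [hf U (Finset.mem_filter.1 hU).2]
    rw [Finset.prod_congr rfl h2, Finset.prod_comm]
    refine Finset.prod_congr rfl fun U _ => ?_
    rw [← Finset.prod_filter, Finset.prod_const]
    congr 2
  have h3 : ∏ U' ∈ I with Odd (S ∩ U'.1).card, (e' U' : ℤ) =
      ∏ U' ∈ I with Odd (S ∩ U'.1).card, (e U' : ℤ) := by
    refine Finset.prod_congr rfl fun U hU => ?_
    rw [he' U (Finset.mem_filter.1 hU).1]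
  have h4 : ∏ U' : OddSet ι with Odd (S ∩ U'.1).card, (e U' : ℤ) =
      (∏ U' ∈ I with Odd (S ∩ U'.1).card, (e U' : ℤ)) *
        ∏ U' : OddSet ι with U' ∉ I ∧ Odd (S ∩ U'.1).card, (e U' : ℤ) := by
    rw [← Finset.prod_union]
    · refine Finset.prod_congr ?_ fun _ _ => rfl
      ext U
      simp only [Finset.mem_filter, Finset.mem_union, Finset.mem_univ, true_and]
      tauto
    · rw [Finset.disjoint_left]
      intro U hU hU'
      simp only [Finset.mem_filter, Finset.mem_univ, true_and] at hU hU'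
      exact hU'.1 hU.1
  rw [h1, h3, h4]
  simp only [jacobiSym.mul_left]
  have h5 : jacobiSym (∏ U' : OddSet ι with U' ∉ I, (e U' : ℤ) ^ (S ∩ U'.1).card) p =
      jacobiSym (∏ U' : OddSet ι with U' ∉ I ∧ Odd (S ∩ U'.1).card, (e U' : ℤ)) p := by
    rw [jac_prod, jac_prod, ← Finset.filter_filter, Finset.prod_filter (s := Finset.filter _ _)]
    refine Finset.prod_congr rfl fun U hU => ?_
    have hU' : U ∉ I := (Finset.mem_filter.1 hU).2
    have hsq1 : jacobiSym (e U : ℤ) p ^ 2 = 1 := jacobiSym.sq_one (hcop U hU')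
    rw [jacobiSym.pow_left]
    split_ifs with hodd
    · obtain ⟨k, hk⟩ := hodd
      rw [hk, pow_succ, pow_mul, hsq1, one_pow, one_mul]
    · obtain ⟨k, hk⟩ := Nat.not_odd_iff_even.1 hodd
      rw [hk, ← two_mul, pow_mul, hsq1, one_pow]
  rw [h5]
  ring

open Classical in
theorem case_Z {ι : Type} [Fintype ι] [DecidableEq ι] (θ : OddSet ι → ι → ℤ) (a : ι → ℤ)
    (hsq : ∀ i, ¬ IsSquare (a i)) (I : Finset (OddSet ι)) (hI : I.Nonempty) :
    ∃ (C : ℝ) (K : ℕ), 0 < C ∧ ∀ (N : ℕ) (V τ : ℝ), 65536 ≤ N → 1 ≤ V → V ^ K ≤ τ → τ ^ K ≤ N →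
    (((QT.Box (OddSet ι) N).filter fun e => Odd (∏ U, e U) ∧ (∀ U, τ < e U ↔ U ∈ I) ∧ LocZ θ a e).card : ℝ) ≤
      C * N * ((1 + Real.log N) ^ K * V ^ (-(1 / 16) : ℝ) +
        Real.log N ^ (-(1 / 4) : ℝ)) * (1 + Real.log τ) ^ K := by
  obtain ⟨C₀, K₀, hC₀, hin⟩ := innerZ I hI a hsq
  set n := Fintype.card (OddSet ι) with hn
  set K : ℕ := K₀ + 2 * n + 4 with hK
  refine ⟨2 * C₀, K, by positivity, ?_⟩
  intro N V τ hN hV hVτ hτN
  have hτ1 : 1 ≤ τ := (one_le_pow₀ hV).trans hVτ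
  have hlogτ : 0 ≤ Real.log τ := Real.log_nonneg hτ1
  have hN' : (65536 : ℝ) ≤ N := by exact_mod_cast hN
  have hlogN : 0 < Real.log N := Real.log_pos (by linarith)
  have hlogV : 0 ≤ Real.log V := Real.log_nonneg hV
  have hVτ' : V ≤ τ := by
    refine le_trans ?_ hVτ
    calc V = V ^ 1 := (pow_one V).symm
      _ ≤ V ^ K := pow_le_pow_right₀ hV (by omega)
  have hlogVτ : Real.log V ≤ Real.log τ := Real.log_le_log (by linarith) hVτ'
  set S := (QT.Box (OddSet ι) N).filter fun e => Odd (∏ U, e U) ∧ (∀ U, τ < e U ↔ U ∈ I) ∧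
    LocZ θ a e with hS
  set F : Finset (OddSet ι → ℕ) := Fintype.piFinset (fun _ : OddSet ι => Icc 1 ⌊τ⌋₊) with hF
  -- the frozen part, the large part
  set fo : (OddSet ι → ℕ) → (OddSet ι → ℕ) := fun e i => if i ∈ I then 1 else e i with hfo
  set eo : (OddSet ι → ℕ) → (OddSet ι → ℕ) := fun e i => if i ∈ I then e i else 1 with heo
  have hmul : ∀ e : OddSet ι → ℕ, ∏ i, e i = (∏ i, fo e i) * ∏ i, eo e i := by
    intro e
    rw [← Finset.prod_mul_distrib]
    refine Finset.prod_congr rfl fun i _ => ?_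
    simp only [hfo, heo]
    split_ifs <;> simp
  set R : (OddSet ι → ℕ) → Finset (OddSet ι → ℕ) := fun f => S.filter fun e => fo e = f with hR
  have hSmem : ∀ e ∈ S, (∀ i, 1 ≤ e i) ∧ ∏ i, e i ≤ N ∧ Squarefree (∏ i, e i) ∧
      Odd (∏ i, e i) ∧ (∀ i, τ < e i ↔ i ∈ I) ∧ LocZ θ a e := by
    intro e he
    obtain ⟨h1, h2, h3, h4⟩ := Finset.mem_filter.1 he
    obtain ⟨h6, h7, h8⟩ := Finset.mem_filter.1 h1
    exact ⟨fun i => (Finset.mem_Icc.1 (Fintype.mem_piFinset.1 h6 i)).1, h7, h8, h2, h3, h4⟩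
  have hfoF : ∀ e ∈ S, fo e ∈ F := by
    intro e he
    obtain ⟨h1, -, -, -, h6, -⟩ := hSmem e he
    rw [hF, Fintype.mem_piFinset]
    intro i
    rw [Finset.mem_Icc]
    simp only [hfo]
    split_ifs with hi
    · exact ⟨le_rfl, Nat.floor_pos.2 hτ1⟩
    · refine ⟨h1 i, Nat.le_floor ?_⟩
      by_contra h
      push Not at h
      exact hi ((h6 i).1 h)
  -- covering
  have hcover : S ⊆ F.biUnion R := by
    intro e he
    rw [Finset.mem_biUnion]
    exact ⟨fo e, hfoF e he, Finset.mem_filter.2 ⟨he, rfl⟩⟩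
  -- the bound for one class
  set E : ℝ := (1 + Real.log N) ^ K₀ * V ^ (-(1 / 16) : ℝ) +
    2 * Real.log N ^ (-(1 / 4) : ℝ) * (1 + Real.log τ) ^ K₀ with hE
  have hVr : 0 ≤ V ^ (-(1 / 16) : ℝ) := Real.rpow_nonneg (by linarith) _
  have hLr : 0 ≤ Real.log N ^ (-(1 / 4) : ℝ) := Real.rpow_nonneg hlogN.le _
  have hE0 : 0 ≤ E := by positivity
  have hclass : ∀ f ∈ F, ((R f).card : ℝ) ≤
      C₀ * N * E * ∏ i, (1 / (f i : ℝ)) := by
    intro f hf
    have hf1 : ∀ i, 1 ≤ f i ∧ (f i : ℝ) ≤ τ := by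
      intro i
      have h1 := Finset.mem_Icc.1 (Fintype.mem_piFinset.1 hf i)
      exact ⟨h1.1, (Nat.cast_le.2 h1.2).trans (Nat.floor_le (by linarith))⟩
    have hprod0 : 0 ≤ ∏ i, (1 / (f i : ℝ)) := Finset.prod_nonneg fun _ _ => by positivity
    set P : ℕ := ∏ i, f i with hPdef
    have hP0 : 0 < P := Finset.prod_pos fun i _ => (hf1 i).1
    have hPτ : (P : ℝ) ≤ τ ^ n := by
      rw [hPdef, Nat.cast_prod]
      calc ∏ i, (f i : ℝ) ≤ ∏ _i : OddSet ι, τ :=
            Finset.prod_le_prod (fun _ _ => Nat.cast_nonneg _) fun i _ => (hf1 i).2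
        _ = τ ^ n := by rw [Finset.prod_const, Finset.card_univ]
    obtain ⟨hX16, hVK₀, hVX, hlogX⟩ := X_facts n K K₀ N P V τ hN hV hVτ hτN (by omega)
      (by omega) (by omega) hP0 hPτ
    set X : ℕ := N / P with hXdef
    have hb := hin (fun U i => θ U i * ∏ U' : OddSet ι with U' ∉ I ∧ i ∈ U'.1, (f U' : ℤ)) X V τ
      hX16 hV hVK₀ hVX
    have hcard : (R f).card ≤ ((QT.Box (OddSet ι) X).filter fun e => Odd (∏ U, e U) ∧
        (∀ U ∉ I, e U = 1) ∧ (∀ U ∈ I, τ < e U) ∧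
        (∀ U ∈ I, ∀ p : ℕ, p.Prime → p ∣ e U →
          (∀ i, ¬ (p : ℤ) ∣ (fun U i => θ U i * ∏ U' : OddSet ι with U' ∉ I ∧ i ∈ U'.1,
            (f U' : ℤ)) U i) ∧ (∀ k ∈ U.1, jacobiSym (a k) p = 1) ∧
          ∀ S : Finset ι, Even (S ∩ U.1).card →
            jacobiSym ((∏ i ∈ S, (fun U i => θ U i * ∏ U' : OddSet ι with U' ∉ I ∧ i ∈ U'.1,
            (f U' : ℤ)) U i) * ∏ U' ∈ I with Odd (S ∩ U'.1).card, (e U' : ℤ)) p = 1)).card := by
      refine Finset.card_le_card_of_injOn eo ?_ ?_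
      · intro e he
        simp only [hR] at he
        obtain ⟨heS, hfe⟩ := Finset.mem_filter.1 (Finset.mem_coe.1 he)
        obtain ⟨h1, h2, h3, h4, h6, h7⟩ := hSmem e heS
        have hdvd : ∏ i, eo e i ∣ ∏ i, e i := by
          rw [hmul e]
          exact Dvd.intro_left _ rfl
        have heo1 : ∀ i, 1 ≤ eo e i := by
          intro i
          simp only [heo]
          split_ifs
          · exact h1 i
          · exact le_rfl
        have hle : ∏ i, eo e i ≤ X := by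
          rw [hXdef, Nat.le_div_iff_mul_le hP0, mul_comm, hPdef, ← hfe, ← hmul e]
          exact h2
        have hfe' : ∀ U ∉ I, f U = e U := by
          intro U hU
          rw [← hfe]
          simp [hfo, hU]
        have hee' : ∀ U ∈ I, eo e U = e U := by
          intro U hU
          simp [heo, hU]
        refine Finset.mem_coe.2 (Finset.mem_filter.2 ⟨Finset.mem_filter.2 ⟨?_, hle, ?_⟩,
          ?_, ?_, ?_, ?_⟩)
        · rw [Fintype.mem_piFinset]
          intro i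
          rw [Finset.mem_Icc]
          refine ⟨heo1 i, le_trans ?_ hle⟩
          exact Finset.single_le_prod' (f := fun i => eo e i) (fun j _ => heo1 j)
            (Finset.mem_univ i)
        · exact h3.squarefree_of_dvd hdvd
        · exact Odd.of_dvd_nat h4 hdvd
        · intro i hi
          simp [heo, hi]
        · intro i hi
          simp only [heo, if_pos hi]
          exact (h6 i).2 hi
        · intro U hU p hp hpe
          rw [hee' U hU] at hpe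
          obtain ⟨h8, h9, h10⟩ := h7 U p hp hpe
          -- `p` does not divide the other entries
          have hnd : ∀ U', U' ≠ U → ¬ p ∣ e U' := by
            intro U' hne hd
            have h11 : p * p ∣ ∏ i, e i := by
              rw [← Finset.mul_prod_erase _ _ (Finset.mem_univ U),
                ← Finset.mul_prod_erase _ _ (Finset.mem_erase.2 ⟨hne, Finset.mem_univ U'⟩)]
              exact mul_dvd_mul hpe (Dvd.dvd.mul_right hd _)
            exact hp.not_isUnit (h3 p h11)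
          have hcop : ∀ U' ∉ I, Int.gcd (e U' : ℤ) p = 1 := by
            intro U' hU'
            rw [Int.gcd_natCast_natCast]
            exact ((Nat.Prime.coprime_iff_not_dvd hp).2
              (hnd U' (fun h => hU' (h ▸ hU)))).symm
          refine ⟨?_, h9, ?_⟩
          · intro i hd
            have hpI : Prime (p : ℤ) := Nat.prime_iff_prime_int.1 hp
            rcases hpI.dvd_or_dvd hd with hd | hd
            · exact h8 i hd
            · obtain ⟨U', hU', hd'⟩ := (hpI.dvd_finsetProd_iff _).1 hd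
              have hU'I : U' ∉ I := (Finset.mem_filter.1 hU').2.1
              rw [hfe' U' hU'I] at hd'
              exact hnd U' (fun h => hU'I (h ▸ hU)) (by exact_mod_cast hd')
          · intro T hT
            have h12 := jac_freeze I (θ U) e f (eo e) T p hfe' hee' hcop
            exact h12.trans (h10 T hT)
      · intro e he e' he' hee
        simp only [hR] at he he'
        obtain ⟨-, hfe⟩ := Finset.mem_filter.1 (Finset.mem_coe.1 he)
        obtain ⟨-, hfe'⟩ := Finset.mem_filter.1 (Finset.mem_coe.1 he')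
        funext i
        by_cases hi : i ∈ I
        · have := congrFun hee i
          simpa [heo, hi] using this
        · have := congrFun (hfe.trans hfe'.symm) i
          simpa [hfo, hi] using this
    have hcard' : ((R f).card : ℝ) ≤ C₀ * X * ((1 + Real.log X) ^ K₀ * V ^ (-(1 / 16) : ℝ) +
        Real.log X ^ (-(1 / 4) : ℝ) * (1 + Real.log V) ^ K₀) :=
      (Nat.cast_le.2 hcard).trans hb
    refine hcard'.trans ?_
    have hXN : (X : ℝ) ≤ N * ∏ i, (1 / (f i : ℝ)) := by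
      have h1 : (X : ℝ) ≤ (N : ℝ) / P := Nat.cast_div_le
      refine h1.trans (le_of_eq ?_)
      rw [hPdef, Nat.cast_prod, div_eq_mul_inv]
      congr 1
      rw [← Finset.prod_inv_distrib]
      exact Finset.prod_congr rfl fun i _ => (one_div _).symm
    have hX0 : (0 : ℝ) ≤ X := Nat.cast_nonneg _
    have hX16' : (16 : ℝ) ≤ X := by exact_mod_cast hX16
    have hXleN : (X : ℝ) ≤ N := by
      have : X ≤ N := Nat.div_le_self _ _
      exact_mod_cast this
    have hlogXN : Real.log X ≤ Real.log N := Real.log_le_log (by linarith) hXleN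
    have hlogX0 : 0 ≤ Real.log X := Real.log_nonneg (by linarith)
    have hLX : Real.log X ^ (-(1 / 4) : ℝ) ≤ 2 * Real.log N ^ (-(1 / 4) : ℝ) :=
      log_rpow_le _ _ hlogN hlogX
    have hLX0 : 0 ≤ Real.log X ^ (-(1 / 4) : ℝ) := Real.rpow_nonneg hlogX0 _
    have hterm : (1 + Real.log X) ^ K₀ * V ^ (-(1 / 16) : ℝ) +
        Real.log X ^ (-(1 / 4) : ℝ) * (1 + Real.log V) ^ K₀ ≤ E := by
      rw [hE]
      gcongr
    have hterm0 : 0 ≤ (1 + Real.log X) ^ K₀ * V ^ (-(1 / 16) : ℝ) +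
        Real.log X ^ (-(1 / 4) : ℝ) * (1 + Real.log V) ^ K₀ := by
      positivity
    calc C₀ * X * ((1 + Real.log X) ^ K₀ * V ^ (-(1 / 16) : ℝ) +
        Real.log X ^ (-(1 / 4) : ℝ) * (1 + Real.log V) ^ K₀) ≤
          C₀ * (N * ∏ i, (1 / (f i : ℝ))) * E := by
          gcongr
      _ = _ := by ring
  -- summation
  have hfin : (S.card : ℝ) ≤ C₀ * N * E * (1 + Real.log τ) ^ n := by
    have h1 : S.card ≤ ∑ f ∈ F, (R f).card :=
      (Finset.card_le_card hcover).trans Finset.card_biUnion_le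
    calc (S.card : ℝ) ≤ ((∑ f ∈ F, (R f).card : ℕ) : ℝ) := by exact_mod_cast h1
      _ = ∑ f ∈ F, ((R f).card : ℝ) := by push_cast; rfl
      _ ≤ ∑ f ∈ F, C₀ * N * E * ∏ i, (1 / (f i : ℝ)) := Finset.sum_le_sum fun f hf => hclass f hf
      _ = C₀ * N * E * ∑ f ∈ F, ∏ i, (1 / (f i : ℝ)) := by rw [← Finset.mul_sum]
      _ ≤ C₀ * N * E * (1 + Real.log τ) ^ n := by
          gcongr
          exact sum_inv_prod τ hτ1
  refine hfin.trans ?_
  set G := (1 + Real.log N) ^ K * V ^ (-(1 / 16) : ℝ) + Real.log N ^ (-(1 / 4) : ℝ) with hGdef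
  have hG0 : 0 ≤ G := by positivity
  have hE' : E ≤ 2 * G * (1 + Real.log τ) ^ K₀ := by
    have h1 : (1 + Real.log N) ^ K₀ ≤ (1 + Real.log N) ^ K :=
      pow_le_pow_right₀ (by linarith) (by omega)
    have h2 : 1 ≤ (1 + Real.log τ) ^ K₀ := one_le_pow₀ (by linarith)
    set α := (1 + Real.log N) ^ K * V ^ (-(1 / 16) : ℝ) with hα
    set l := Real.log N ^ (-(1 / 4) : ℝ) with hl
    set r := (1 + Real.log τ) ^ K₀ with hr
    have ha0 : 0 ≤ α := by positivity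
    have h3 : (1 + Real.log N) ^ K₀ * V ^ (-(1 / 16) : ℝ) ≤ α := by
      rw [hα]
      gcongr
    have h4 : α ≤ α * r := le_mul_of_one_le_right ha0 h2
    have h6 : 0 ≤ α * r := by positivity
    rw [hE, hGdef]
    nlinarith
  have hpow : (1 + Real.log τ) ^ K₀ * (1 + Real.log τ) ^ n ≤ (1 + Real.log τ) ^ K := by
    rw [← pow_add]
    exact pow_le_pow_right₀ (by linarith) (by omega)
  have hN0 : (0 : ℝ) ≤ N := Nat.cast_nonneg _
  have hL0 : 0 ≤ 1 + Real.log τ := by linarith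
  calc C₀ * N * E * (1 + Real.log τ) ^ n
      ≤ C₀ * N * (2 * G * (1 + Real.log τ) ^ K₀) * (1 + Real.log τ) ^ n := by
        gcongr
    _ = 2 * C₀ * N * G * ((1 + Real.log τ) ^ K₀ * (1 + Real.log τ) ^ n) := by ring
    _ ≤ 2 * C₀ * N * G * (1 + Real.log τ) ^ K := by
        gcongr

open Classical in
theorem case_empty {ι : Type} [Fintype ι] [DecidableEq ι] :
    ∃ (C : ℝ) (K : ℕ), 0 < C ∧ ∀ (N : ℕ) (V τ : ℝ), 65536 ≤ N → 1 ≤ V → V ^ K ≤ τ → τ ^ K ≤ N →
    (((QT.Box (OddSet ι) N).filter fun e => ∀ U, ¬ τ < (e U : ℝ)).card : ℝ) ≤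
      C * N * ((1 + Real.log N) ^ K * V ^ (-(1 / 16) : ℝ) +
        Real.log N ^ (-(1 / 4) : ℝ)) * (1 + Real.log τ) ^ K := by
  set n := Fintype.card (OddSet ι) with hn
  set K : ℕ := 2 * n with hK
  refine ⟨1, K, by positivity, ?_⟩
  intro N V τ hN hV hVτ hτN
  have hτ1 : 1 ≤ τ := (one_le_pow₀ hV).trans hVτ
  have hlogτ : 0 ≤ Real.log τ := Real.log_nonneg hτ1
  have hN' : (65536 : ℝ) ≤ N := by exact_mod_cast hN
  have hN0 : (0 : ℝ) < N := by linarith
  have hlogN : 0 < Real.log N := Real.log_pos (by linarith)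
  have hcard : ((QT.Box (OddSet ι) N).filter fun e => ∀ U, ¬ τ < (e U : ℝ)).card ≤
      ⌊τ⌋₊ ^ n := by
    have h1 : ((QT.Box (OddSet ι) N).filter fun e => ∀ U, ¬ τ < (e U : ℝ)) ⊆
        Fintype.piFinset (fun _ : OddSet ι => Icc 1 ⌊τ⌋₊) := by
      intro e he
      obtain ⟨h1, h2⟩ := Finset.mem_filter.1 he
      obtain ⟨h6, h7, h8⟩ := Finset.mem_filter.1 h1
      rw [Fintype.mem_piFinset]
      intro i
      rw [Finset.mem_Icc]
      exact ⟨(Finset.mem_Icc.1 (Fintype.mem_piFinset.1 h6 i)).1, Nat.le_floor (not_lt.1 (h2 i))⟩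
    refine (Finset.card_le_card h1).trans (le_of_eq ?_)
    rw [Fintype.card_piFinset, Finset.prod_const, Nat.card_Icc, Finset.card_univ]
    simp [hn]
  have h2 : ((((QT.Box (OddSet ι) N).filter fun e => ∀ U, ¬ τ < (e U : ℝ)).card : ℕ) : ℝ) ≤
      τ ^ n := by
    refine (Nat.cast_le.2 hcard).trans ?_
    rw [Nat.cast_pow]
    exact pow_le_pow_left₀ (Nat.cast_nonneg _) (Nat.floor_le (by linarith)) _
  have h3 : τ ^ n ≤ Real.sqrt N := by
    refine Real.le_sqrt_of_sq_le ?_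
    rw [← pow_mul, mul_comm]
    exact hτN
  have h4 : Real.sqrt N ≤ N * Real.log N ^ (-(1 / 4) : ℝ) := by
    have h5 : Real.log N ≤ N := (Real.log_le_sub_one_of_pos hN0).trans (by linarith)
    have h6 : (N : ℝ) ^ (-(1 / 4) : ℝ) ≤ Real.log N ^ (-(1 / 4) : ℝ) :=
      Real.rpow_le_rpow_of_nonpos hlogN h5 (by norm_num)
    calc Real.sqrt N = (N : ℝ) ^ (1 / 2 : ℝ) := Real.sqrt_eq_rpow _
      _ ≤ (N : ℝ) ^ (3 / 4 : ℝ) := Real.rpow_le_rpow_of_exponent_le (by linarith) (by norm_num)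
      _ = N * (N : ℝ) ^ (-(1 / 4) : ℝ) := by
          rw [show (3 / 4 : ℝ) = 1 + (-(1 / 4)) by norm_num, Real.rpow_add hN0, Real.rpow_one]
      _ ≤ _ := by gcongr
  refine h2.trans (h3.trans (h4.trans ?_))
  have hVr : 0 ≤ V ^ (-(1 / 16) : ℝ) := Real.rpow_nonneg (by linarith) _
  have hLr : 0 ≤ Real.log N ^ (-(1 / 4) : ℝ) := Real.rpow_nonneg hlogN.le _
  have h7 : 1 ≤ (1 + Real.log τ) ^ K := one_le_pow₀ (by linarith)
  have h8 : Real.log N ^ (-(1 / 4) : ℝ) ≤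
      (1 + Real.log N) ^ K * V ^ (-(1 / 16) : ℝ) + Real.log N ^ (-(1 / 4) : ℝ) := by
    have : 0 ≤ (1 + Real.log N) ^ K * V ^ (-(1 / 16) : ℝ) := by positivity
    linarith
  calc (N : ℝ) * Real.log N ^ (-(1 / 4) : ℝ) ≤
      N * ((1 + Real.log N) ^ K * V ^ (-(1 / 16) : ℝ) + Real.log N ^ (-(1 / 4) : ℝ)) := by gcongr
    _ ≤ N * ((1 + Real.log N) ^ K * V ^ (-(1 / 16) : ℝ) + Real.log N ^ (-(1 / 4) : ℝ)) *
        (1 + Real.log τ) ^ K := le_mul_of_one_le_right (by positivity) h7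
    _ = _ := by ring

end ZC
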