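import Pool.Agent.Lib.MP_1ad228_nt.ZPoint

/-! JOB ZCycle.  The class of a zero-cycle of degree one over `ℚ_p`, `p` a good odd prime.

`cycle_ram_aux`: induction on the list.  `[]`: `U = ∅`.  `(m, P) :: z`, `n = [P.K:ℚ_p]`, `U` from the induction hypothesis: by `point_ram` either `n` is even and all `N(val i)` are squares: keep `U`;
or there is `k`.  If `n m` is even: `N(val i)^m * cc^(n m)` is a square and `cc^(n m)` is a square, keep `U`.  If `n m` is odd: `n`, `m` are odd, `a_k` is a square, `cc^(n m) = cc * square`; take `U' = symmDiff U {k}`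
(if `k ∈ U` remove it: `cc a D k i` occurs twice, a square).  Parity of the cardinality: changes by one.  (`N(val i) ≠ 0`, `cc ≠ 0` are not needed for the squares, except to divide: `IsSquare (x * c^n)` with `c ≠ 0`; `cc ≠ 0` since `D ≠ 0` and `a` is injective.)
`cycle_ram`: degree `1` is odd, so `U.card` is odd.
`cycle_unr`: `Padic.valuation_mul`, `valuation_zpow`, induction on the list. -/

namespace ZC

open Finset

variable {p : ℕ} [Fact p.Prime] {ι : Type} [Fintype ι] [DecidableEq ι]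

private theorem ZCycle_sq_zpow {F : Type} [Field F] {x : F} (h : IsSquare x) (m : ℤ) : IsSquare (x ^ m) := by
  obtain ⟨s, rfl⟩ := h
  exact ⟨s ^ m, mul_zpow s s m⟩

private theorem ZCycle_sq_div {F : Type} [Field F] {x y : F} (h : IsSquare (x * y)) (hy : IsSquare y)
    (hy0 : y ≠ 0) : IsSquare x := by
  have e : x = (x * y) / y := by field_simp
  rw [e]
  exact h.div hy

private theorem ZCycle_sq_even {F : Type} [Field F] {c : F} {m : ℤ} (h : Even m) : IsSquare (c ^ m) := by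
  by_cases hc : c = 0
  · subst hc
    by_cases hm : m = 0
    · subst hm; exact ⟨1, by simp⟩
    · rw [zero_zpow m hm]; exact ⟨0, by simp⟩
  obtain ⟨r, rfl⟩ := h
  exact ⟨c ^ r, zpow_add₀ hc r r⟩

private theorem ZCycle_cc_ne (a : ι → ℤ) (ha : Function.Injective a) (D : ℤ) (hD0 : D ≠ 0) (k i : ι) :
    cc a D k i ≠ 0 := by
  unfold cc
  split_ifs with h
  · apply mul_ne_zero hD0
    apply Finset.prod_ne_zero_iff.2
    intro l hl
    rw [Finset.mem_erase] at hl
    intro h0
    exact hl.1 (ha (by omega))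
  · intro h0
    exact h (ha (by omega))

private theorem ZCycle_inj (a : ι → ℤ) (hd : ∀ i j, i ≠ j → ¬ (p : ℤ) ∣ a i - a j) :
    Function.Injective a := by
  intro i j h
  by_contra hne
  exact hd i j hne (by rw [h, sub_self]; exact dvd_zero _)

theorem cycle_ram_aux (hp : p ≠ 2) (a : ι → ℤ) (D : ℤ) (ha : ∀ i, ¬ (p : ℤ) ∣ a i)
    (hd : ∀ i j, i ≠ j → ¬ (p : ℤ) ∣ a i - a j) (hD : (p : ℤ) ∣ D) (hD2 : ¬ (p : ℤ) ^ 2 ∣ D) (hD0 : D ≠ 0)
    (z : Cyc ℚ_[p] a D) :
    ∃ U : Finset ι, (Odd z.deg ↔ Odd U.card) ∧ (∀ k ∈ U, IsSquare ((a k : ℤ) : ℚ_[p])) ∧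
      ∀ i, IsSquare (z.cls i * ∏ k ∈ U, ((cc a D k i : ℤ) : ℚ_[p])) := by
  have hinj := ZCycle_inj a hd
  induction z with
  | nil =>
    refine ⟨∅, ?_, ?_, ?_⟩
    · simp [Cyc.deg]
    · intro k hk; simp at hk
    · intro i; simp [Cyc.cls]
  | cons q z ih =>
    obtain ⟨U, hU1, hU2, hU3⟩ := ih
    obtain ⟨m, P⟩ := q
    have hdeg : Cyc.deg ((m, P) :: z : Cyc ℚ_[p] a D) = m * (Module.finrank ℚ_[p] P.K : ℤ) + Cyc.deg z := by
      simp [Cyc.deg]
    have hcls : ∀ i, Cyc.cls ((m, P) :: z : Cyc ℚ_[p] a D) i =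
        (Algebra.norm ℚ_[p] (P.val i)) ^ m * Cyc.cls z i := by
      intro i
      simp [Cyc.cls]
    set n : ℕ := Module.finrank ℚ_[p] P.K with hn
    rcases point_ram hp a D ha hd hD hD2 P with ⟨he, hsq⟩ | ⟨k, hk1, hk2⟩
    · refine ⟨U, ?_, hU2, ?_⟩
      · rw [hdeg, ← hU1]
        have h1 : Even (m * (n : ℤ)) := by
          apply Even.mul_left
          exact_mod_cast he
        rw [Int.odd_add']
        exact ⟨fun h => h.2 h1, fun h => ⟨fun _ => h1, fun _ => h⟩⟩
      · intro i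
        rw [hcls, mul_assoc]
        exact (ZCycle_sq_zpow (hsq i) m).mul (hU3 i)
    · -- c is nonzero
      have hc0 : ∀ i, ((cc a D k i : ℤ) : ℚ_[p]) ≠ 0 := fun i =>
        Int.cast_ne_zero.2 (ZCycle_cc_ne a hinj D hD0 k i)
      have hxc : ∀ i, IsSquare ((Algebra.norm ℚ_[p] (P.val i)) ^ m *
          ((cc a D k i : ℤ) : ℚ_[p]) ^ ((n : ℤ) * m)) := by
        intro i
        have h1 := ZCycle_sq_zpow (hk2 i) m
        rw [mul_zpow, ← zpow_natCast, ← zpow_mul] at h1
        exact h1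
      rcases Int.even_or_odd ((n : ℤ) * m) with hev | hod
      · refine ⟨U, ?_, hU2, ?_⟩
        · rw [hdeg, ← hU1, mul_comm m]
          rw [Int.odd_add']
          exact ⟨fun h => h.2 hev, fun h => ⟨fun _ => hev, fun _ => h⟩⟩
        · intro i
          rw [hcls, mul_assoc]
          exact (ZCycle_sq_div (hxc i) (ZCycle_sq_even hev) (zpow_ne_zero _ (hc0 i))).mul (hU3 i)
      · have hnodd : Odd n := by
          have h1 := (Int.odd_mul.1 hod).1
          exact_mod_cast h1
        -- x ^ m * c is a square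
        have hxc' : ∀ i, IsSquare ((Algebra.norm ℚ_[p] (P.val i)) ^ m *
            ((cc a D k i : ℤ) : ℚ_[p])) := by
          intro i
          have h1 := hxc i
          have h2 : ((cc a D k i : ℤ) : ℚ_[p]) ^ ((n : ℤ) * m) =
              ((cc a D k i : ℤ) : ℚ_[p]) * ((cc a D k i : ℤ) : ℚ_[p]) ^ ((n : ℤ) * m - 1) := by
            rw [zpow_sub_one₀ (hc0 i)]
            field_simp [hc0 i]
          rw [h2, ← mul_assoc] at h1
          refine ZCycle_sq_div h1 (ZCycle_sq_even ?_) (zpow_ne_zero _ (hc0 i))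
          exact Odd.sub_odd hod odd_one
        by_cases hkU : k ∈ U
        · refine ⟨U.erase k, ?_, ?_, ?_⟩
          · rw [hdeg, mul_comm m, Finset.card_erase_of_mem hkU]
            have hcard : 0 < U.card := Finset.card_pos.2 ⟨k, hkU⟩
            rw [Int.odd_add]
            have h3 : Odd (U.card - 1) ↔ ¬ Odd U.card := by
              constructor
              · intro h h'
                obtain ⟨r, hr⟩ := h
                obtain ⟨s, hs⟩ := h'
                omega
              · intro h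
                rw [Nat.not_odd_iff_even] at h
                obtain ⟨r, hr⟩ := h
                exact ⟨r - 1, by omega⟩
            rw [h3, ← hU1, Int.not_odd_iff_even]
            exact ⟨fun h => h.1 hod, fun h => ⟨fun _ => h, fun _ => hod⟩⟩
          · intro l hl
            exact hU2 l (Finset.mem_of_mem_erase hl)
          · intro i
            rw [hcls]
            have h4 := (hxc' i).mul (hU3 i)
            rw [← Finset.mul_prod_erase U _ hkU] at h4
            have h5 : (Algebra.norm ℚ_[p] (P.val i)) ^ m * ((cc a D k i : ℤ) : ℚ_[p]) *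
                (Cyc.cls z i * (((cc a D k i : ℤ) : ℚ_[p]) *
                  ∏ x ∈ U.erase k, ((cc a D x i : ℤ) : ℚ_[p]))) =
                ((Algebra.norm ℚ_[p] (P.val i)) ^ m * Cyc.cls z i *
                  ∏ x ∈ U.erase k, ((cc a D x i : ℤ) : ℚ_[p])) *
                (((cc a D k i : ℤ) : ℚ_[p]) * ((cc a D k i : ℤ) : ℚ_[p])) := by ring
            rw [h5] at h4
            exact ZCycle_sq_div h4 ⟨_, rfl⟩ (mul_ne_zero (hc0 i) (hc0 i))
        · refine ⟨insert k U, ?_, ?_, ?_⟩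
          · rw [hdeg, mul_comm m, Finset.card_insert_of_notMem hkU]
            rw [Int.odd_add]
            have h3 : Odd (U.card + 1) ↔ ¬ Odd U.card := by
              rw [Nat.odd_add_one]
            rw [h3, ← hU1, Int.not_odd_iff_even]
            exact ⟨fun h => h.1 hod, fun h => ⟨fun _ => h, fun _ => hod⟩⟩
          · intro l hl
            rcases Finset.mem_insert.1 hl with rfl | hl
            · exact hk1 hnodd
            · exact hU2 l hl
          · intro i
            rw [hcls, Finset.prod_insert hkU]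
            have h4 := (hxc' i).mul (hU3 i)
            have h5 : (Algebra.norm ℚ_[p] (P.val i)) ^ m * ((cc a D k i : ℤ) : ℚ_[p]) *
                (Cyc.cls z i * ∏ x ∈ U, ((cc a D x i : ℤ) : ℚ_[p])) =
                (Algebra.norm ℚ_[p] (P.val i)) ^ m * Cyc.cls z i *
                  (((cc a D k i : ℤ) : ℚ_[p]) * ∏ x ∈ U, ((cc a D x i : ℤ) : ℚ_[p])) := by ring
            rw [h5] at h4
            exact h4

theorem cycle_ram (hp : p ≠ 2) (a : ι → ℤ) (D : ℤ) (ha : ∀ i, ¬ (p : ℤ) ∣ a i)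
    (hd : ∀ i j, i ≠ j → ¬ (p : ℤ) ∣ a i - a j) (hD : (p : ℤ) ∣ D) (hD2 : ¬ (p : ℤ) ^ 2 ∣ D) (hD0 : D ≠ 0)
    (z : Cyc ℚ_[p] a D) (hz : z.deg = 1) :
    ∃ U : OddSet ι, (∀ k ∈ U.1, IsSquare ((a k : ℤ) : ℚ_[p])) ∧
      ∀ i, IsSquare (z.cls i * ∏ k ∈ U.1, ((cc a D k i : ℤ) : ℚ_[p])) := by
  obtain ⟨U, h1, h2, h3⟩ := cycle_ram_aux hp a D ha hd hD hD2 hD0 z
  exact ⟨⟨U, h1.1 (by rw [hz]; exact odd_one)⟩, h2, h3⟩

theorem cycle_unr (hp : p ≠ 2) (a : ι → ℤ) (D : ℤ) (ha : ∀ i, ¬ (p : ℤ) ∣ a i)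
    (hd : ∀ i j, i ≠ j → ¬ (p : ℤ) ∣ a i - a j) (hD : ¬ (p : ℤ) ∣ D) (hD0 : D ≠ 0)
    (z : Cyc ℚ_[p] a D) (i : ι) : Even (z.cls i).valuation := by
  have hinj := ZCycle_inj a hd
  induction z with
  | nil => simp [Cyc.cls]
  | cons q z ih =>
    obtain ⟨m, P⟩ := q
    have hcls : Cyc.cls ((m, P) :: z : Cyc ℚ_[p] a D) i =
        (Algebra.norm ℚ_[p] (P.val i)) ^ m * Cyc.cls z i := by
      simp [Cyc.cls]
    have hz0 : Cyc.cls z i ≠ 0 := Cyc.cls_ne hinj hD0 z i
    have hN0 : Algebra.norm ℚ_[p] (P.val i) ≠ 0 := Algebra.norm_ne_zero_iff.2 (P.val_ne hinj hD0 i)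
    rw [hcls, Padic.valuation_mul (zpow_ne_zero _ hN0) hz0, Padic.valuation_zpow]
    exact (Even.mul_left (point_unr hp a D ha hd hD P i) m).add ih

end ZC
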