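import Pool.Agent.Lib.MP_1ad228_nt.ZDual
import Pool.Agent.Lib.MP_1ad228_nt.ZCycle
import Pool.Agent.Lib.MP_1ad228_nt.ZGlue

/-! JOB ZFam.  From an orthogonal family to the factorisation data.

Let `z`, `z₀` be the family, `R = Rb a` (nonzero: `a i ≠ 0` and `a` injective), even.  A prime `p ∤ R` is odd and satisfies the hypotheses `ha`, `hd` of `ZCycle`.
* For a prime `p ∤ R`, `p ∣ D`: `p² ∤ D` (`D` squarefree); `cycle_ram` gives `Up p : OddSet ι` with `a_k` a square in `ℚ_p` for `k ∈ Up p` and `IsSquare (cls_i * ∏_{k∈Up p} cc a D k i)`.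
* For a prime `p ∤ R`, `p ∤ D`: `cls_i` has even valuation (`cycle_unr`).
* `dual` (for each `i`, `T = (R * D.natAbs).primeFactors`): `δ_i` squarefree with `IsSquare (cls_i(p) * δ_i)` in every `ℚ_p` (`Cyc.cls_ne` for the nonvanishing).
* so for `p ∤ R`: `δ_i ≡ cls_i` mod squares.  If `p ∤ D`: `v_p(δ_i)` is even, `δ_i` squarefree, so `p ∤ δ_i`.  If `p ∣ D`: `v_p(δ_i) ≡ v_p(∏_{k∈U} cc a D k i)`, and `v_p(cc a D k i) = 0` for `i ≠ k`, `= v_p(D) = 1` for `i = k`; so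
  `p ∣ δ_i` iff `i ∈ Up p`.  Apply `glue` (`Up` extended arbitrarily, e.g. by a fixed singleton; `ι` is nonempty).
* `s i ≠ 0` since `δ i ≠ 0`.  `LocZ (theta a s) a e`: let `p ∣ e U`, so `p ∣ D`, `p ∤ R`, `Up p = U`.  `p ∤ theta a s U i`: `s i ∣ R` and the other factors are differences `a_k - a_i`, prime to `p`.
  `jacobiSym (a k) p = 1` for `k ∈ U` by `isSquare_int_iff`.  For `|S ∩ U|` even: in `ℚ_p` every `δ_i ∏_{k∈U} cc a D k i` is a square (product of the two facts), hence so is the product over `i ∈ S`: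
  `∏_{i∈S} s_i · ∏_{i∈S} ∏_{U'∋i} e_{U'} · ∏_{i∈S} ∏_{k∈U\i} (a_k - a_i) · ∏_{i∈S∩U} D ∏_{l≠i} (a_i - a_l) = ∏_{i∈S} theta a s U i · ∏_{U'} e_{U'}^{|S∩U'|} · D^{|S∩U|}`
  and, as `|S ∩ U|` is even, `∏_{U'} e_{U'}^{|S∩U'|} = ∏_{|S∩U'| odd} e_{U'} · square`.  So `M = ∏_{i∈S} theta · ∏_{|S∩U'| odd} e_{U'}` is a square in `ℚ_p`, and it is prime to `p` (`U` itself is not among the `U'`, and the `e_{U'}` are
  pairwise coprime).  `isSquare_int_iff`. -/

namespace ZC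

open Finset

private theorem Rb_ne {ι : Type} [Fintype ι] [DecidableEq ι] (a : ι → ℤ) (ha : Function.Injective a)
    (ha0 : ∀ i, a i ≠ 0) : Rb a ≠ 0 := by
  unfold Rb
  refine mul_ne_zero (mul_ne_zero two_ne_zero ?_) ?_
  · exact Finset.prod_ne_zero_iff.2 fun i _ => Int.natAbs_ne_zero.2 (ha0 i)
  · refine Finset.prod_ne_zero_iff.2 fun i _ => Finset.prod_ne_zero_iff.2 fun j hj => ?_
    rw [Int.natAbs_ne_zero, sub_ne_zero]
    intro h
    exact (Finset.mem_erase.1 hj).1 (ha h).symm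

private theorem Rb_two {ι : Type} [Fintype ι] [DecidableEq ι] (a : ι → ℤ) {p : ℕ} (hpR : ¬ p ∣ Rb a) : p ≠ 2 := by
  rintro rfl
  apply hpR
  unfold Rb
  rw [mul_assoc]
  exact dvd_mul_right _ _

private theorem Rb_a {ι : Type} [Fintype ι] [DecidableEq ι] (a : ι → ℤ) {p : ℕ} (hpR : ¬ p ∣ Rb a) (i : ι) :
    ¬ (p : ℤ) ∣ a i := by
  intro h
  apply hpR
  rw [Int.natCast_dvd] at h
  unfold Rb
  exact ((h.trans (Finset.dvd_prod_of_mem (fun i => (a i).natAbs) (Finset.mem_univ i))).mul_left 2).mul_right _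

private theorem Rb_d {ι : Type} [Fintype ι] [DecidableEq ι] (a : ι → ℤ) {p : ℕ} (hpR : ¬ p ∣ Rb a) (i j : ι)
    (hij : i ≠ j) : ¬ (p : ℤ) ∣ a i - a j := by
  intro h
  apply hpR
  rw [Int.natCast_dvd] at h
  unfold Rb
  have h1 : p ∣ ∏ j ∈ univ.erase i, (a i - a j).natAbs :=
    h.trans (Finset.dvd_prod_of_mem (fun j => (a i - a j).natAbs) (Finset.mem_erase.2 ⟨hij.symm, Finset.mem_univ j⟩))
  exact (h1.trans (Finset.dvd_prod_of_mem (fun i => ∏ j ∈ univ.erase i, (a i - a j).natAbs)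
    (Finset.mem_univ i))).mul_left _

private theorem val_p_mul {p : ℕ} [hp : Fact p.Prime] {m : ℤ} (hm : ¬ (p : ℤ) ∣ m) :
    (((p * m : ℤ) : ℤ) : ℚ_[p]).valuation = 1 := by
  have h1 : ((p : ℤ) : ℚ_[p]) ≠ 0 := by
    exact_mod_cast hp.out.ne_zero
  have h2 : (m : ℚ_[p]) ≠ 0 := by
    rw [Int.cast_ne_zero]
    rintro rfl
    exact hm (dvd_zero _)
  rw [Int.cast_mul, Padic.valuation_mul h1 h2, Int.cast_natCast, Padic.valuation_p,
    Padic.valuation_intCast, padicValInt.eq_zero_of_not_dvd hm]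
  norm_num

private theorem not_sq_p_mul {p : ℕ} [hp : Fact p.Prime] {m : ℤ} (hm : ¬ (p : ℤ) ∣ m) :
    ¬ IsSquare (((p * m : ℤ) : ℤ) : ℚ_[p]) := by
  rintro ⟨y, hy⟩
  have h1 := val_p_mul hm
  have hy0 : y ≠ 0 := by
    rintro rfl
    rw [hy] at h1
    simp at h1
  rw [hy, Padic.valuation_mul hy0 hy0] at h1
  omega

private theorem prime_split {p : ℕ} (hp : p.Prime) {n : ℤ} (hn : Squarefree n) (h : (p : ℤ) ∣ n) :
    ∃ m, n = p * m ∧ ¬ (p : ℤ) ∣ m := by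
  obtain ⟨m, hm⟩ := h
  refine ⟨m, hm, ?_⟩
  rintro ⟨k, hk⟩
  have h1 : (p : ℤ) * p ∣ n := ⟨k, by rw [hm, hk]; ring⟩
  have h2 := hn _ h1
  exact (Nat.prime_iff_prime_int.1 hp).not_isUnit h2

private theorem not_dvd_prod {κ : Type} {p : ℕ} (hp : p.Prime) (S : Finset κ) (f : κ → ℤ)
    (h : ∀ x ∈ S, ¬ (p : ℤ) ∣ f x) : ¬ (p : ℤ) ∣ ∏ x ∈ S, f x := by
  intro h1
  obtain ⟨x, hx, h2⟩ := (Nat.prime_iff_prime_int.1 hp).exists_mem_finset_dvd h1
  exact h x hx h2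

/-- the product of the constants at `i` -/
private theorem prod_cc {ι : Type} [Fintype ι] [DecidableEq ι] (a : ι → ℤ) (D : ℤ) (U : Finset ι) (i : ι) :
    ∏ k ∈ U, cc a D k i = (if i ∈ U then D else 1) *
      ((∏ k ∈ U.erase i, (a k - a i)) * (if i ∈ U then ∏ l ∈ univ.erase i, (a i - a l) else 1)) := by
  have h1 : ∏ k ∈ U.erase i, cc a D k i = ∏ k ∈ U.erase i, (a k - a i) := by
    refine Finset.prod_congr rfl fun k hk => ?_
    unfold cc
    rw [if_neg (Finset.mem_erase.1 hk).1.symm]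
  by_cases hi : i ∈ U
  · rw [← Finset.mul_prod_erase U _ hi, h1, if_pos hi, if_pos hi]
    unfold cc
    rw [if_pos rfl]
    ring
  · rw [if_neg hi, if_neg hi, one_mul, mul_one, ← h1, Finset.erase_eq_of_notMem hi]

private theorem isSquare_prod {κ F : Type} [Field F] (S : Finset κ) (f : κ → F) (h : ∀ x ∈ S, IsSquare (f x)) :
    IsSquare (∏ x ∈ S, f x) := by
  classical
  induction S using Finset.induction_on with
  | empty => simp
  | insert x s hx ih =>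
    rw [Finset.prod_insert hx]
    exact (h x (Finset.mem_insert_self x s)).mul (ih fun y hy => h y (Finset.mem_insert_of_mem hy))

private theorem isSquare_of_mul_sq {F : Type} [Field F] {x q : F} (hq : q ≠ 0) (h : IsSquare (x * q ^ 2)) :
    IsSquare x := by
  obtain ⟨y, hy⟩ := h
  refine ⟨y / q, ?_⟩
  field_simp
  linear_combination hy

/-- regrouping of the product over `i ∈ S` of the factorisations -/
private theorem regroup {ι : Type} [Fintype ι] [DecidableEq ι] (e : OddSet ι → ℕ) (S : Finset ι) :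
    ∏ i ∈ S, ∏ U : OddSet ι with i ∈ U.1, (e U : ℤ) =
      (∏ U : OddSet ι with Odd (S ∩ U.1).card, (e U : ℤ)) * (∏ U : OddSet ι, (e U : ℤ) ^ ((S ∩ U.1).card / 2)) ^ 2 := by
  have h1 : ∏ i ∈ S, ∏ U : OddSet ι with i ∈ U.1, (e U : ℤ) = ∏ U : OddSet ι, (e U : ℤ) ^ (S ∩ U.1).card := by
    simp only [Finset.prod_filter]
    rw [Finset.prod_comm]
    refine Finset.prod_congr rfl fun U _ => ?_
    rw [← Finset.prod_filter, Finset.prod_const]
    congr 2
  rw [h1, Finset.prod_filter, ← Finset.prod_pow, ← Finset.prod_mul_distrib]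
  refine Finset.prod_congr rfl fun U _ => ?_
  rw [← pow_mul]
  split_ifs with h
  · rw [← pow_succ']
    congr 1
    rw [Nat.odd_iff] at h
    omega
  · rw [one_mul]
    congr 1
    rw [Nat.not_odd_iff] at h
    omega

theorem family_desc {ι : Type} [Fintype ι] [DecidableEq ι] [Nonempty ι] (a : ι → ℤ) (ha : Function.Injective a)
    (ha0 : ∀ i, a i ≠ 0) (D : ℤ) (hD : Squarefree D) (h : Adelic a D) :
    ∃ (g : ℤ) (s : ι → ℤ) (e : OddSet ι → ℕ), g.natAbs ∣ Rb a ∧ (∀ i, (s i).natAbs ∣ Rb a) ∧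
      D = g * ∏ U, (e U : ℤ) ∧ Squarefree (∏ U, e U) ∧ Nat.Coprime (∏ U, e U) (Rb a) ∧
      LocZ (theta a s) a e := by
  classical
  have hD0 : D ≠ 0 := hD.ne_zero
  have hR := Rb_ne a ha ha0
  obtain ⟨z, z₀, hz, hz₀, horth⟩ := h
  -- the classes at the primes dividing `D`
  have hex : ∀ p : ℕ, ∃ U : OddSet ι, ∀ (_ : Fact p.Prime), ¬ p ∣ Rb a → (p : ℤ) ∣ D →
      (∀ k ∈ U.1, IsSquare ((a k : ℤ) : ℚ_[p])) ∧
      ∀ i, IsSquare ((z p).cls i * ∏ k ∈ U.1, ((cc a D k i : ℤ) : ℚ_[p])) := by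
    intro p
    by_cases h : ∃ _ : Fact p.Prime, ¬ p ∣ Rb a ∧ (p : ℤ) ∣ D
    · obtain ⟨hp, hpR, hpD⟩ := h
      have hD2 : ¬ (p : ℤ) ^ 2 ∣ D := by
        intro h2
        obtain ⟨m, hm, hpm⟩ := prime_split hp.out hD hpD
        rw [hm, pow_two] at h2
        exact hpm ((mul_dvd_mul_iff_left (by exact_mod_cast hp.out.ne_zero)).1 h2)
      obtain ⟨U, hU⟩ := cycle_ram (Rb_two a hpR) a D (Rb_a a hpR) (Rb_d a hpR) hpD hD2 hD0 (z p) (hz p)
      exact ⟨U, fun _ _ _ => hU⟩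
    · refine ⟨⟨{Classical.arbitrary ι}, by simp⟩, fun hp hpR hpD => absurd ⟨hp, hpR, hpD⟩ h⟩
  choose Up hUp using hex
  -- the global integers
  have hdual : ∀ i, ∃ δ : ℤ, Squarefree δ ∧ ∀ (p : ℕ) [Fact p.Prime], IsSquare ((z p).cls i * (δ : ℚ_[p])) := by
    intro i
    refine dual (fun p _ => (z p).cls i) (z₀.cls i) (fun p _ => (z p).cls_ne ha hD0 i)
      (z₀.cls_ne ha hD0 i) (Rb a * D.natAbs).primeFactors ?_ (fun β hβ => horth i β hβ)
    intro p hp hpT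
    have hne : Rb a * D.natAbs ≠ 0 := mul_ne_zero hR (Int.natAbs_ne_zero.2 hD0)
    have hnd : ¬ p ∣ Rb a * D.natAbs := fun hd => hpT (Nat.mem_primeFactors.2 ⟨hp.out, hd, hne⟩)
    have hpR : ¬ p ∣ Rb a := fun hd => hnd (hd.mul_right _)
    have hpD : ¬ (p : ℤ) ∣ D := fun hd => hnd ((Int.natCast_dvd.1 hd).mul_left _)
    exact cycle_unr (Rb_two a hpR) a D (Rb_a a hpR) (Rb_d a hpR) hpD hD0 (z p) i
  choose δ hδ hδsq using hdual
  -- the integers `δ_i ∏ cc` are squares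
  have hsq : ∀ (p : ℕ) [hp : Fact p.Prime], ¬ p ∣ Rb a → (p : ℤ) ∣ D → ∀ i,
      IsSquare (((δ i * ∏ k ∈ (Up p).1, cc a D k i : ℤ)) : ℚ_[p]) := by
    intro p hp hpR hpD i
    have h1 := ((hUp p hp hpR hpD).2 i).mul (hδsq i p)
    have hc : (z p).cls i ≠ 0 := (z p).cls_ne ha hD0 i
    refine isSquare_of_mul_sq hc ?_
    have e : (((δ i * ∏ k ∈ (Up p).1, cc a D k i : ℤ)) : ℚ_[p]) * (z p).cls i ^ 2 =
        ((z p).cls i * ∏ k ∈ (Up p).1, ((cc a D k i : ℤ) : ℚ_[p])) * ((z p).cls i * (δ i : ℚ_[p])) := by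
      push_cast
      ring
    rw [e]
    exact h1
  have hW : ∀ (p : ℕ), p.Prime → ¬ p ∣ Rb a → ∀ (U : Finset ι) (i : ι),
      ¬ (p : ℤ) ∣ (∏ k ∈ U.erase i, (a k - a i)) * (if i ∈ U then ∏ l ∈ univ.erase i, (a i - a l) else 1) := by
    intro p hp hpR U i h
    rcases (Nat.prime_iff_prime_int.1 hp).dvd_or_dvd h with h | h
    · exact not_dvd_prod hp _ _ (fun k hk => Rb_d a hpR k i (Finset.mem_erase.1 hk).1) h
    · split_ifs at h with hi
      · exact not_dvd_prod hp _ _ (fun l hl => Rb_d a hpR i l (Finset.mem_erase.1 hl).1.symm) h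
      · exact (Nat.prime_iff_prime_int.1 hp).not_isUnit (isUnit_of_dvd_one h)
  have h1 : ∀ p : ℕ, p.Prime → ¬ p ∣ Rb a → (p : ℤ) ∣ D → ∀ i, ((p : ℤ) ∣ δ i ↔ i ∈ (Up p).1) := by
    intro p hpp hpR hpD i
    have : Fact p.Prime := ⟨hpp⟩
    have h2 := hsq p hpR hpD i
    rw [prod_cc] at h2
    have h3 := hW p hpp hpR (Up p).1 i
    by_cases hi : i ∈ (Up p).1
    · refine ⟨fun _ => hi, fun _ => ?_⟩
      by_contra hnd
      obtain ⟨m, hm, hpm⟩ := prime_split hpp hD hpD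
      rw [if_pos hi] at h2
      set W := (∏ k ∈ (Up p).1.erase i, (a k - a i)) *
        (if i ∈ (Up p).1 then ∏ l ∈ univ.erase i, (a i - a l) else 1) with hWdef
      have e : δ i * (D * W) = p * (m * (δ i * W)) := by rw [hm]; ring
      rw [e] at h2
      refine not_sq_p_mul ?_ h2
      intro h4
      rcases (Nat.prime_iff_prime_int.1 hpp).dvd_or_dvd h4 with h4 | h4
      · exact hpm h4
      · rcases (Nat.prime_iff_prime_int.1 hpp).dvd_or_dvd h4 with h4 | h4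
        · exact hnd h4
        · exact h3 h4
    · refine ⟨fun hd => ?_, fun hi' => absurd hi' hi⟩
      exfalso
      obtain ⟨m, hm, hpm⟩ := prime_split hpp (hδ i) hd
      rw [if_neg hi, one_mul] at h2
      set W := (∏ k ∈ (Up p).1.erase i, (a k - a i)) *
        (if i ∈ (Up p).1 then ∏ l ∈ univ.erase i, (a i - a l) else 1) with hWdef
      have e : δ i * W = p * (m * W) := by rw [hm]; ring
      rw [e] at h2
      refine not_sq_p_mul ?_ h2
      intro h4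
      rcases (Nat.prime_iff_prime_int.1 hpp).dvd_or_dvd h4 with h4 | h4
      · exact hpm h4
      · exact h3 h4
  have h2 : ∀ p : ℕ, p.Prime → ¬ p ∣ Rb a → ¬ (p : ℤ) ∣ D → ∀ i, ¬ (p : ℤ) ∣ δ i := by
    intro p hpp hpR hpD i hd
    have : Fact p.Prime := ⟨hpp⟩
    obtain ⟨m, hm, hpm⟩ := prime_split hpp (hδ i) hd
    have h3 := cycle_unr (Rb_two a hpR) a D (Rb_a a hpR) (Rb_d a hpR) hpD hD0 (z p) i
    obtain ⟨y, hy⟩ := hδsq i p
    have hc : (z p).cls i ≠ 0 := (z p).cls_ne ha hD0 i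
    have hδ0 : (δ i : ℚ_[p]) ≠ 0 := Int.cast_ne_zero.2 (hδ i).ne_zero
    have hy0 : y ≠ 0 := by
      rintro rfl
      rw [mul_zero] at hy
      exact mul_ne_zero hc hδ0 hy
    have h4 := congrArg Padic.valuation hy
    rw [Padic.valuation_mul hc hδ0, Padic.valuation_mul hy0 hy0, hm, val_p_mul hpm] at h4
    obtain ⟨t, ht⟩ := h3
    rw [ht] at h4
    omega
  obtain ⟨g, s, e, hg, hs, hDe, hδe, hsqf, hcop, hpe⟩ := glue (Rb a) hR D hD δ hδ Up h1 h2
  refine ⟨g, s, e, hg, hs, hDe, hsqf, hcop, ?_⟩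
  intro U p hpp hpU
  have : Fact p.Prime := ⟨hpp⟩
  obtain ⟨hpD, hpR, hpU'⟩ := (hpe U p hpp).1 hpU
  have hth : ∀ i, ¬ (p : ℤ) ∣ theta a s U i := by
    intro i hd
    unfold theta at hd
    rw [mul_assoc] at hd
    rcases (Nat.prime_iff_prime_int.1 hpp).dvd_or_dvd hd with hd | hd
    · exact hpR ((Int.natCast_dvd.1 hd).trans (hs i))
    · exact hW p hpp hpR U.1 i hd
  refine ⟨hth, ?_, ?_⟩
  · intro k hk
    rw [← hpU'] at hk
    exact (isSquare_int_iff (Rb_two a hpR) (a k) (Rb_a a hpR k)).1 ((hUp p ⟨hpp⟩ hpR hpD).1 k hk)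
  · intro S hS
    rw [← isSquare_int_iff (Rb_two a hpR)]
    · have h3 := isSquare_prod S (fun i => (((δ i * ∏ k ∈ (Up p).1, cc a D k i : ℤ)) : ℚ_[p]))
        (fun i _ => hsq p hpR hpD i)
      rw [← Int.cast_prod, hpU'] at h3
      obtain ⟨t, ht⟩ := hS
      have hDS : ∏ i ∈ S, (if i ∈ U.1 then D else 1) = (D ^ t) ^ 2 := by
        rw [← Finset.prod_filter, Finset.prod_const]
        have e1 : (S.filter fun x => x ∈ U.1) = S ∩ U.1 := by
          ext x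
          simp
        rw [e1, ht, ← pow_mul]
        congr 1
        omega
      have key : ∏ i ∈ S, (δ i * ∏ k ∈ U.1, cc a D k i) =
          ((∏ i ∈ S, theta a s U i) * ∏ U' : OddSet ι with Odd (S ∩ U'.1).card, (e U' : ℤ)) *
            ((∏ U' : OddSet ι, (e U' : ℤ) ^ ((S ∩ U'.1).card / 2)) * D ^ t) ^ 2 := by
        have e2 : ∀ i ∈ S, δ i * ∏ k ∈ U.1, cc a D k i = theta a s U i *
            (∏ U' : OddSet ι with i ∈ U'.1, (e U' : ℤ)) * (if i ∈ U.1 then D else 1) := by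
          intro i _
          rw [prod_cc, hδe i]
          unfold theta
          ring
        rw [Finset.prod_congr rfl e2, Finset.prod_mul_distrib, Finset.prod_mul_distrib, regroup, hDS]
        ring
      rw [key, Int.cast_mul, Int.cast_pow] at h3
      refine isSquare_of_mul_sq ?_ h3
      rw [Int.cast_ne_zero]
      refine mul_ne_zero (Finset.prod_ne_zero_iff.2 fun U' _ => pow_ne_zero _ ?_) (pow_ne_zero _ hD0)
      have h5 : ∏ U, e U ≠ 0 := hsqf.ne_zero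
      exact_mod_cast (Finset.prod_ne_zero_iff.1 h5) U' (Finset.mem_univ _)
    · intro hd
      rcases (Nat.prime_iff_prime_int.1 hpp).dvd_or_dvd hd with hd | hd
      · exact not_dvd_prod hpp _ _ (fun i _ => hth i) hd
      · refine not_dvd_prod hpp _ _ (fun U' hU' h4 => ?_) hd
        have h5 := ((hpe U' p hpp).1 (by exact_mod_cast h4)).2.2
        rw [hpU'] at h5
        rw [← h5] at hU'
        exact (Nat.not_odd_iff_even.2 hS) (Finset.mem_filter.1 hU').2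

end ZC
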