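import Pool.Agent.Lib.MP_1ad228_nt.ZMain
import Pool.Agent.Lib.MP_10e784_ag.QHasse

/-! JOB ZFinal.  The final form.

`global_of_square`: if `a i₀ = c²`, the point `(c, 1, 0)` over `K = F` itself, with coefficient `1`, has degree `1` (`Module.finrank_self`).
`local_cycles`: for `13, 17, 221` among the `a_i`: `QT.local_soluble` gives a point over `ℚ_p` and over `ℝ` (coordinates `x, y, w`, `y` is our `z`), use it with `K = F`, coefficient `1`.
`final`: part 1: if some `a_i` is a square then `Global a D` always holds and the set is empty; otherwise the set is contained in `{D | Adelic a D ∨ Global a D}`.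
`C N (log N)^(-η) = C N / (log N)^η` (`Real.rpow_neg`, `Real.log N ≥ 0`).  Part 2: `main`.  (`r ≥ 1`: `Nonempty (Fin r)`.) -/

namespace ZC

open Finset

/-- a rational point gives a cycle of degree one -/
private theorem ZFinal_pt {F : Type} [Field F] {ι : Type} [Fintype ι] (a : ι → ℤ) (D : ℤ) (x z w : F)
    (ne : ¬ (x = 0 ∧ z = 0)) (eq : (D : F) * w ^ 2 = ∏ i, (x ^ 2 - (a i : F) * z ^ 2)) :
    ∃ z : Cyc F a D, z.deg = 1 := by
  refine ⟨[(1, { K := F, x := x, z := z, w := w, ne := ne, eq := eq })], ?_⟩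
  unfold Cyc.deg
  simp only [List.map_cons, List.map_nil, List.sum_cons, List.sum_nil, one_mul, add_zero]
  rw [Module.finrank_self]
  rfl

theorem global_of_square {F : Type} [Field F] {ι : Type} [Fintype ι] (a : ι → ℤ) (D : ℤ) (i₀ : ι)
    (h : IsSquare (a i₀)) : ∃ z : Cyc F a D, z.deg = 1 := by
  obtain ⟨c, hc⟩ := h
  refine ZFinal_pt a D (c : F) 1 0 (fun hh => one_ne_zero hh.2) ?_
  rw [zero_pow two_ne_zero, mul_zero, eq_comm]
  refine Finset.prod_eq_zero (Finset.mem_univ i₀) ?_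
  rw [hc]
  push_cast
  ring

theorem local_cycles {r : ℕ} (a : Fin r → ℤ) (h13 : ∃ i, a i = 13) (h17 : ∃ i, a i = 17)
    (h221 : ∃ i, a i = 221) (D : ℤ) :
    (∀ (p : ℕ) [Fact p.Prime], ∃ z : Cyc ℚ_[p] a D, z.deg = 1) ∧ ∃ z : Cyc ℝ a D, z.deg = 1 := by
  obtain ⟨i1, h1⟩ := h13
  obtain ⟨i2, h2⟩ := h17
  obtain ⟨i3, h3⟩ := h221
  obtain ⟨hp, hr⟩ := QT.local_soluble a i1 i2 i3 h1 h2 h3 D
  constructor
  · intro p _
    obtain ⟨x, y, w, hne, he⟩ := hp p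
    exact ZFinal_pt a D x y w (fun hh => hne (by rw [hh.1, hh.2])) he
  · obtain ⟨x, y, w, hne, he⟩ := hr
    exact ZFinal_pt a D x y w (fun hh => hne (by rw [hh.1, hh.2])) he

private theorem ZFinal_mono (N : ℕ) (P Q : ℤ → Prop) (h : ∀ D, P D → Q D) :
    Nat.card {D : ℤ // Squarefree D ∧ |D| ≤ (N : ℤ) ∧ P D} ≤
      Nat.card {D : ℤ // Squarefree D ∧ |D| ≤ (N : ℤ) ∧ Q D} := by
  have hfin : Finite {D : ℤ // Squarefree D ∧ |D| ≤ (N : ℤ) ∧ Q D} := by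
    apply Set.Finite.to_subtype (s := {D : ℤ | Squarefree D ∧ |D| ≤ (N : ℤ) ∧ Q D})
    apply (Set.finite_Icc (-(N : ℤ)) N).subset
    rintro D ⟨_, hD, _⟩
    exact abs_le.1 hD
  exact Nat.card_le_card_of_injective
    (fun x : {D : ℤ // Squarefree D ∧ |D| ≤ (N : ℤ) ∧ P D} =>
      (⟨x.1, x.2.1, x.2.2.1, h x.1 x.2.2.2⟩ : {D : ℤ // Squarefree D ∧ |D| ≤ (N : ℤ) ∧ Q D}))
    (fun x y hxy => by
      have := congrArg Subtype.val hxy
      exact Subtype.ext this)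

theorem final (r : ℕ) (hr : 1 ≤ r) (a : Fin r → ℤ) (ha : Function.Injective a) (η : ℝ) (hη0 : 0 < η) (hη : η < 1 / 4) :
    (∃ C : ℝ, ∀ N : ℕ, 2 ≤ N →
      (Nat.card {D : ℤ // Squarefree D ∧ |D| ≤ (N : ℤ) ∧ ¬ (Adelic a D → Global a D)} : ℝ) ≤ C * N / Real.log N ^ η) ∧
    ((∀ i, ¬ IsSquare (a i)) → ∃ C : ℝ, ∀ N : ℕ, 2 ≤ N →
      (Nat.card {D : ℤ // Squarefree D ∧ |D| ≤ (N : ℤ) ∧ (Adelic a D ∨ Global a D)} : ℝ) ≤ C * N / Real.log N ^ η) := by
  have hne : Nonempty (Fin r) := ⟨⟨0, by omega⟩⟩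
  have part2 : (∀ i, ¬ IsSquare (a i)) → ∃ C : ℝ, ∀ N : ℕ, 2 ≤ N →
      (Nat.card {D : ℤ // Squarefree D ∧ |D| ≤ (N : ℤ) ∧ (Adelic a D ∨ Global a D)} : ℝ) ≤
        C * N / Real.log N ^ η := by
    intro hsq
    obtain ⟨C, hC, hCb⟩ := main η hη0.le hη a ha hsq
    refine ⟨C, fun N hN => (hCb N hN).trans (le_of_eq ?_)⟩
    have hN1 : (1 : ℝ) ≤ N := by exact_mod_cast (by omega : 1 ≤ N)
    rw [Real.rpow_neg (Real.log_nonneg hN1), div_eq_mul_inv]
  refine ⟨?_, part2⟩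
  by_cases hsq : ∀ i, ¬ IsSquare (a i)
  · obtain ⟨C, hC⟩ := part2 hsq
    refine ⟨C, fun N hN => le_trans ?_ (hC N hN)⟩
    have h := ZFinal_mono N (fun D => ¬ (Adelic a D → Global a D)) (fun D => Adelic a D ∨ Global a D)
      (fun D h => by
        by_contra hcon
        push Not at hcon
        exact h fun hA => absurd hA hcon.1)
    exact_mod_cast h
  · push Not at hsq
    obtain ⟨i₀, hi₀⟩ := hsq
    refine ⟨0, fun N _ => ?_⟩
    have hempty : IsEmpty {D : ℤ // Squarefree D ∧ |D| ≤ (N : ℤ) ∧ ¬ (Adelic a D → Global a D)} := by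
      refine ⟨fun x => x.2.2.2 fun _ => ?_⟩
      exact global_of_square a x.1 i₀ hi₀
    rw [Nat.card_of_isEmpty]
    simp

end ZC
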