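import Pool.Agent.Lib.MP_1ad228_nt.ZBase
import Pool.Agent.Lib.MP_1ad228_nt.ZRecip

/-! JOB ZGlob.  A global zero-cycle of degree one gives an orthogonal family of local ones.

`cyc_base`: a zero-cycle over `F` gives one over `F'` of the same degree whose classes are the images.  Induction on the list: `(m, P) :: z`: for `l` from `base_change F F' P.K`, every `E ∈ l` gives the point
`⟨E.L, φ x, φ z, φ w⟩` (injectivity of `φ` for `ne`, `map_prod`, `map_intCast` for `eq`), its `val i` is `φ (P.val i)` (the same branch of the `if` since `φ` is injective).  Attach the coefficient `m` to all of them;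
degree `m ∑ [E.L:F'] = m [P.K:F]`, class `∏ N(φ (val i))^m = (algebraMap (N (val i)))^m`.  (`List.attach` or `List.pmap` if the membership `E ∈ l` is needed; the points themselves need no condition on `E` except for nothing:
`φ` is a ring homomorphism, `φ (D : K) = D`.)
`glob`: apply it to `ℚ → ℚ_[p]` and `ℚ → ℝ`.  The classes are the images of `u_i = z.cls i ∈ ℚ`, nonzero (`Cyc.cls_ne`); `SumZero` is `recip u_i β`. -/

namespace ZC

open Finset

/-- the image of a point under a homomorphism of its field of definition -/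
private def zglobPt {F F' : Type} [Field F] [Field F'] {ι : Type} [Fintype ι] {a : ι → ℤ} {D : ℤ}
    (P : Pt F a D) (E : FExt P.K F') : Pt F' a D where
  K := E.L
  x := E.φ P.x
  z := E.φ P.z
  w := E.φ P.w
  ne := by
    rintro ⟨hx, hz⟩
    exact P.ne ⟨(map_eq_zero E.φ).1 hx, (map_eq_zero E.φ).1 hz⟩
  eq := by
    have h := congrArg E.φ P.eq
    simpa only [map_mul, map_pow, map_prod, map_sub, map_intCast] using h

open Classical in
/-- the value up to squares, in terms of the coordinates -/
private noncomputable def zglobVal {K ι : Type} [Field K] [Fintype ι] (a : ι → ℤ) (D : ℤ) (x z : K) (i : ι) : K :=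
  if x ^ 2 - (a i : K) * z ^ 2 = 0 then (D : K) * ∏ j ∈ univ.erase i, (x ^ 2 - (a j : K) * z ^ 2)
  else x ^ 2 - (a i : K) * z ^ 2

private theorem zglobVal_map {K L ι : Type} [Field K] [Field L] [Fintype ι] (φ : K →+* L) (a : ι → ℤ) (D : ℤ)
    (x z : K) (i : ι) : zglobVal a D (φ x) (φ z) i = φ (zglobVal a D x z i) := by
  classical
  have e : ∀ j : ι, φ x ^ 2 - (a j : L) * φ z ^ 2 = φ (x ^ 2 - (a j : K) * z ^ 2) := by
    intro j
    simp only [map_mul, map_pow, map_sub, map_intCast]
  unfold zglobVal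
  simp only [e]
  by_cases h : x ^ 2 - (a i : K) * z ^ 2 = 0
  · rw [if_pos ((map_eq_zero φ).2 h), if_pos h, map_mul, map_prod, map_intCast]
  · rw [if_neg (fun h' => h ((map_eq_zero φ).1 h')), if_neg h]

private theorem zglobPt_val {F F' : Type} [Field F] [Field F'] {ι : Type} [Fintype ι] {a : ι → ℤ} {D : ℤ}
    (P : Pt F a D) (E : FExt P.K F') (i : ι) : (zglobPt P E).val i = E.φ (P.val i) :=
  zglobVal_map E.φ a D P.x P.z i

private theorem zglob_deg {F F' : Type} [Field F] [Field F'] {ι : Type} [Fintype ι] {a : ι → ℤ} {D : ℤ}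
    (P : Pt F a D) (m : ℤ) (l : List (FExt P.K F')) :
    (List.map (fun q : ℤ × Pt F' a D => q.1 * (Module.finrank F' q.2.K : ℤ))
      (l.map fun E => (m, zglobPt P E))).sum = m * ((l.map fun E => Module.finrank F' E.L).sum : ℕ) := by
  induction l with
  | nil => simp
  | cons E l ih =>
    simp only [List.map_cons, List.sum_cons, Nat.cast_add, mul_add]
    rw [ih]
    rfl

private theorem zglob_cls {F F' : Type} [Field F] [Field F'] {ι : Type} [Fintype ι] {a : ι → ℤ} {D : ℤ}
    (P : Pt F a D) (m : ℤ) (l : List (FExt P.K F')) (i : ι) :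
    (List.map (fun q : ℤ × Pt F' a D => (Algebra.norm F' (q.2.val i)) ^ q.1)
      (l.map fun E => (m, zglobPt P E))).prod = (l.map fun E => Algebra.norm F' (E.φ (P.val i))).prod ^ m := by
  induction l with
  | nil => simp
  | cons E l ih =>
    simp only [List.map_cons, List.prod_cons, mul_zpow]
    rw [ih, zglobPt_val]
    rfl

theorem cyc_base (F F' : Type) [Field F] [Field F'] [CharZero F] [Algebra F F'] {ι : Type} [Fintype ι] {a : ι → ℤ}
    {D : ℤ} (z : Cyc F a D) :
    ∃ z' : Cyc F' a D, z'.deg = z.deg ∧ ∀ i, z'.cls i = algebraMap F F' (z.cls i) := by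
  induction z with
  | nil =>
    refine ⟨[], ?_, fun i => ?_⟩
    · simp [Cyc.deg]
    · simp [Cyc.cls]
  | cons q z ih =>
    obtain ⟨z', hd, hc⟩ := ih
    obtain ⟨m, P⟩ := q
    obtain ⟨l, -, h2, h3⟩ := base_change F F' P.K
    refine ⟨(l.map fun E => (m, zglobPt P E)) ++ z', ?_, fun i => ?_⟩
    · unfold Cyc.deg at hd ⊢
      rw [List.map_append, List.sum_append, zglob_deg, h2, hd, List.map_cons, List.sum_cons]
    · unfold Cyc.cls at hc ⊢
      rw [List.map_append, List.prod_append, zglob_cls, h3, hc, List.map_cons, List.prod_cons, map_mul, map_zpow₀]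

theorem glob {ι : Type} [Fintype ι] {a : ι → ℤ} (ha : Function.Injective a) {D : ℤ} (hD : D ≠ 0)
    (h : Global a D) : Adelic a D := by
  obtain ⟨z, hz⟩ := h
  refine ⟨fun p _ => (cyc_base ℚ ℚ_[p] z).choose, (cyc_base ℚ ℝ z).choose, ?_, ?_, ?_⟩
  · intro p _
    exact (cyc_base ℚ ℚ_[p] z).choose_spec.1.trans hz
  · exact (cyc_base ℚ ℝ z).choose_spec.1.trans hz
  · intro i β hβ
    have h0 : z.cls i ≠ 0 := z.cls_ne ha hD i
    have h1 : ∀ (p : ℕ) [Fact p.Prime], (cyc_base ℚ ℚ_[p] z).choose.cls i = ((z.cls i : ℚ) : ℚ_[p]) := by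
      intro p _
      rw [(cyc_base ℚ ℚ_[p] z).choose_spec.2 i, eq_ratCast]
    have h2 : (cyc_base ℚ ℝ z).choose.cls i = ((z.cls i : ℚ) : ℝ) := by
      rw [(cyc_base ℚ ℝ z).choose_spec.2 i, eq_ratCast]
    have h3 := recip (z.cls i) β h0 hβ
    simp only [h1, h2]
    exact h3

end ZC
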