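import Pool.Agent.Lib.MP_1ad228_nt.ZDefs

/-! General facts on the conics `u x² + β y² = z²` over a field. -/

namespace ZC

variable {F : Type} [Field F]

theorem split_comm (u β : F) : Split F u β ↔ Split F β u := by
  constructor <;>
  · rintro ⟨x, y, z, h, e⟩
    exact ⟨y, x, z, fun h' => h ⟨h'.2.1, h'.1, h'.2.2⟩, by linear_combination e⟩

theorem split_mul_sq (u β s : F) (hs : s ≠ 0) : Split F (u * s ^ 2) β ↔ Split F u β := by
  constructor
  · rintro ⟨x, y, z, h, e⟩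
    refine ⟨s * x, y, z, fun h' => h ⟨?_, h'.2.1, h'.2.2⟩, by linear_combination e⟩
    exact (mul_eq_zero.1 h'.1).resolve_left hs
  · rintro ⟨x, y, z, h, e⟩
    refine ⟨x / s, y, z, fun h' => h ⟨?_, h'.2.1, h'.2.2⟩, ?_⟩
    · exact (div_eq_zero_iff.1 h'.1).resolve_right hs
    · rw [← e]
      field_simp

theorem split_of_isSquare (u β : F) (h : IsSquare u) : Split F u β := by
  obtain ⟨s, hs⟩ := h
  exact ⟨1, 0, s, fun h' => one_ne_zero h'.1, by rw [hs]; ring⟩

/-- `(u, β) = (-uβ, β)` -/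
theorem split_twist (u β : F) (hβ : β ≠ 0) : Split F u β ↔ Split F (-(u * β)) β := by
  have key : ∀ v : F, Split F v β → Split F (-(v * β)) β := by
    rintro v ⟨x, y, z, h, e⟩
    refine ⟨x, z, β * y, fun h' => h ⟨h'.1, ?_, h'.2.1⟩, by linear_combination (-β) * e⟩
    exact (mul_eq_zero.1 h'.2.2).resolve_left hβ
  constructor
  · exact key u
  · intro h
    have h1 := key _ h
    have e : -(-(u * β) * β) = u * β ^ 2 := by ring
    rw [e, split_mul_sq _ _ _ hβ] at h1
    exact h1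

/-- the real Hilbert symbol -/
theorem split_real (u β : ℝ) (hu : u ≠ 0) (hβ : β ≠ 0) : Split ℝ u β ↔ 0 < u ∨ 0 < β := by
  constructor
  · rintro ⟨x, y, z, h, e⟩
    by_contra hn
    push Not at hn
    have h1 : u < 0 := lt_of_le_of_ne hn.1 hu
    have h2 : β < 0 := lt_of_le_of_ne hn.2 hβ
    have h3 : u * x ^ 2 ≤ 0 := mul_nonpos_of_nonpos_of_nonneg h1.le (sq_nonneg x)
    have h4 : β * y ^ 2 ≤ 0 := mul_nonpos_of_nonpos_of_nonneg h2.le (sq_nonneg y)
    have h5 := sq_nonneg z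
    have hz : z ^ 2 = 0 := by linarith
    have hx : u * x ^ 2 = 0 := by linarith
    have hy : β * y ^ 2 = 0 := by linarith
    apply h
    refine ⟨?_, ?_, ?_⟩
    · exact pow_eq_zero_iff two_ne_zero |>.1 ((mul_eq_zero.1 hx).resolve_left hu)
    · exact pow_eq_zero_iff two_ne_zero |>.1 ((mul_eq_zero.1 hy).resolve_left hβ)
    · exact pow_eq_zero_iff two_ne_zero |>.1 hz
  · rintro (h | h)
    · exact ⟨1, 0, Real.sqrt u, fun h' => one_ne_zero h'.1, by
        rw [Real.sq_sqrt h.le]; ring⟩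
    · exact ⟨0, 1, Real.sqrt β, fun h' => one_ne_zero h'.2.1, by
        rw [Real.sq_sqrt h.le]; ring⟩

theorem split_mul_real (u u' β : ℝ) (hu : u ≠ 0) (hu' : u' ≠ 0) (hβ : β ≠ 0) :
    Split ℝ (u * u') β ↔ (Split ℝ u β ↔ Split ℝ u' β) := by
  rw [split_real _ _ (mul_ne_zero hu hu') hβ, split_real _ _ hu hβ, split_real _ _ hu' hβ]
  rcases lt_or_gt_of_ne hu with h1 | h1 <;> rcases lt_or_gt_of_ne hu' with h2 | h2 <;>
    rcases lt_or_gt_of_ne hβ with h3 | h3
  · have := mul_pos_of_neg_of_neg h1 h2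
    simp [this, h1.not_gt, h2.not_gt]
  · simp [h3]
  · have := mul_neg_of_neg_of_pos h1 h2
    simp [this.not_gt, h1.not_gt, h2, h3.not_gt]
  · simp [h3]
  · have := mul_neg_of_pos_of_neg h1 h2
    simp [this.not_gt, h1, h2.not_gt, h3.not_gt]
  · simp [h3]
  · have := mul_pos h1 h2
    simp [this, h1, h2]
  · simp [h3]

end ZC
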