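import Pool.Agent.Lib.MP_1ad228_nt.ZFam
import Pool.Agent.Lib.MP_1ad228_nt.ZCount
import Pool.Agent.Lib.MP_1ad228_nt.ZGlob

/-! JOB ZMain.  The main theorem.

Proof.  `a i ≠ 0` because `0` is a square.  `R = Rb a ≠ 0`, `2 ∣ R`.  By `glob` (for `D ≠ 0`) `Global` implies `Adelic`, so only `Adelic` matters.  By `family_desc` every `D` in the set is `g * ∏ e_U` with `g ∈ [-R, R]`,
`s ∈ [-R,R]^ι`, `e` in the set of `countZ` for `θ = theta a s`: `∏ e_U ≤ |D| ≤ N` (`g ≠ 0` because `D ≠ 0`), `Odd (∏ e_U)` because it is coprime to `R`, `e U ≥ 1`, `e ∈ Box`.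
So the set of `D` is contained in the union over the finitely many `(g, s)` of the images of these sets under `e ↦ g * ∏ e`.  Sum the bounds of `countZ`.  See `QT.tu` (file `MP_10e784_ag/QTU.lean`) for the same
argument. -/

namespace ZC

open Finset

private theorem ZMain_Rb {ι : Type} [Fintype ι] [DecidableEq ι] (a : ι → ℤ) (ha : Function.Injective a)
    (ha0 : ∀ i, a i ≠ 0) : Rb a ≠ 0 := by
  unfold Rb
  refine mul_ne_zero (mul_ne_zero two_ne_zero ?_) ?_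
  · exact Finset.prod_ne_zero_iff.2 fun i _ => Int.natAbs_ne_zero.2 (ha0 i)
  · refine Finset.prod_ne_zero_iff.2 fun i _ => Finset.prod_ne_zero_iff.2 fun j hj => ?_
    rw [Int.natAbs_ne_zero]
    intro h
    have hji : j ≠ i := (Finset.mem_erase.1 hj).1
    exact hji (ha (by omega))

/-- the data of one twist -/
private theorem ZMain_data {ι : Type} [Fintype ι] [DecidableEq ι] [Nonempty ι] (a : ι → ℤ)
    (ha : Function.Injective a) (ha0 : ∀ i, a i ≠ 0) (N : ℕ) (D : ℤ) (hDN : |D| ≤ (N : ℤ))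
    (hD : Squarefree D) (h : Adelic a D) :
    ∃ (g : ℤ) (s : ι → ℤ) (e : OddSet ι → ℕ), g.natAbs ∣ Rb a ∧ (∀ i, (s i).natAbs ∣ Rb a) ∧
      D = g * ∏ U, (e U : ℤ) ∧ e ∈ QT.Box (OddSet ι) N ∧ Odd (∏ U, e U) ∧ LocZ (theta a s) a e := by
  obtain ⟨g, s, e, hg, hs, hDg, hsqf, hcop, hloc⟩ := family_desc a ha ha0 D hD h
  have hD0 : D ≠ 0 := hD.ne_zero
  have hg0 : g ≠ 0 := by
    rintro rfl
    rw [zero_mul] at hDg
    exact hD0 hDg
  have hpos : ∀ U, 1 ≤ e U := by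
    intro U
    rw [Nat.one_le_iff_ne_zero]
    intro h0
    exact hsqf.ne_zero (Finset.prod_eq_zero (Finset.mem_univ U) h0)
  have hodd : Odd (∏ U, e U) := by
    rw [← Nat.not_even_iff_odd, even_iff_two_dvd]
    intro h2
    have h2R : 2 ∣ Rb a := by
      unfold Rb
      rw [mul_assoc]
      exact Dvd.intro _ rfl
    exact Nat.Prime.not_coprime_iff_dvd.2 ⟨2, Nat.prime_two, h2, h2R⟩ hcop
  have hprodN : ∏ U, e U ≤ N := by
    have h1 : ((∏ U, e U : ℕ) : ℤ) ≤ |D| := by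
      rw [hDg, abs_mul]
      have h2 : (1 : ℤ) ≤ |g| := Int.one_le_abs hg0
      have h3 : |∏ U, (e U : ℤ)| = ((∏ U, e U : ℕ) : ℤ) := by
        rw [abs_of_nonneg (Finset.prod_nonneg fun i _ => Int.natCast_nonneg _)]
        push_cast
        rfl
      rw [h3]
      nlinarith [Int.natCast_nonneg (∏ U, e U)]
    exact_mod_cast h1.trans hDN
  refine ⟨g, s, e, hg, hs, hDg, ?_, hodd, hloc⟩
  unfold QT.Box
  rw [Finset.mem_filter, Fintype.mem_piFinset]
  refine ⟨fun U => ?_, hprodN, hsqf⟩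
  rw [Finset.mem_Icc]
  refine ⟨hpos U, ?_⟩
  have : e U ∣ ∏ U, e U := Finset.dvd_prod_of_mem e (Finset.mem_univ U)
  exact (Nat.le_of_dvd (Finset.prod_pos fun i _ => hpos i) this).trans hprodN

open Classical in
private theorem ZMain_card {ι : Type} [Fintype ι] [DecidableEq ι] [Nonempty ι] (η : ℝ) (hη0 : 0 ≤ η)
    (hη : η < 1 / 4) (a : ι → ℤ) (ha : Function.Injective a) (hsq : ∀ i, ¬ IsSquare (a i)) :
    ∃ C : ℝ, 0 < C ∧ ∀ N : ℕ, 2 ≤ N →
      (((Finset.Icc (-(N : ℤ)) N).filter fun D => Squarefree D ∧ Adelic a D).card : ℝ) ≤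
        C * N * Real.log N ^ (-η) := by
  have ha0 : ∀ i, a i ≠ 0 := by
    intro i h0
    apply hsq i
    rw [h0]
    exact IsSquare.zero
  have hR : Rb a ≠ 0 := ZMain_Rb a ha ha0
  set R : ℕ := Rb a with hRdef
  set GS : Finset ℤ := Finset.Icc (-(R : ℤ)) R with hGS
  set CS : Finset (ι → ℤ) := Fintype.piFinset fun _ : ι => Finset.Icc (-(R : ℤ)) R with hCS
  choose Cc hCc hCb using fun s : ι → ℤ => countZ η hη0 hη (theta a s) a hsq
  refine ⟨(2 * R + 1) * ∑ c ∈ CS, Cc c + 1, ?_, ?_⟩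
  · have : 0 ≤ ∑ c ∈ CS, Cc c := Finset.sum_nonneg fun c _ => (hCc c).le
    positivity
  intro N hN
  have hN2 : (2 : ℝ) ≤ N := by exact_mod_cast hN
  have hlog : 0 ≤ Real.log N ^ (-η) :=
    Real.rpow_nonneg (Real.log_nonneg (by linarith)) _
  set T : (ι → ℤ) → Finset (OddSet ι → ℕ) := fun s => (QT.Box (OddSet ι) N).filter fun e =>
    Odd (∏ U, e U) ∧ LocZ (theta a s) a e with hT
  set SS := (Finset.Icc (-(N : ℤ)) N).filter fun D => Squarefree D ∧ Adelic a D with hSS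
  have hsub : SS ⊆ GS.biUnion fun g => CS.biUnion fun s => (T s).image fun e => g * ∏ U, (e U : ℤ) := by
    intro D hD
    rw [hSS, Finset.mem_filter, Finset.mem_Icc] at hD
    obtain ⟨⟨hD1, hD2⟩, hsqD, hA⟩ := hD
    obtain ⟨g, s, e, hg, hs, hDe, hbox, hodd, hloc⟩ :=
      ZMain_data a ha ha0 N D (abs_le.2 ⟨hD1, hD2⟩) hsqD hA
    have hle : ∀ z : ℤ, z.natAbs ∣ R → z ∈ Finset.Icc (-(R : ℤ)) R := by
      intro z hz
      have h1 : z.natAbs ≤ R := Nat.le_of_dvd (Nat.pos_of_ne_zero hR) hz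
      rw [Finset.mem_Icc, ← abs_le, Int.abs_eq_natAbs]
      exact_mod_cast h1
    rw [Finset.mem_biUnion]
    refine ⟨g, hle g hg, ?_⟩
    rw [Finset.mem_biUnion]
    refine ⟨s, ?_, ?_⟩
    · rw [hCS, Fintype.mem_piFinset]
      exact fun i => hle _ (hs i)
    · rw [Finset.mem_image]
      refine ⟨e, ?_, hDe.symm⟩
      rw [hT]
      simp only [Finset.mem_filter]
      exact ⟨hbox, hodd, hloc⟩
  have hcard : (SS.card : ℝ) ≤ ∑ _g ∈ GS, ∑ c ∈ CS, ((T c).card : ℝ) := by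
    have h1 : SS.card ≤ ∑ _g ∈ GS, ∑ c ∈ CS, (T c).card := by
      refine (Finset.card_le_card hsub).trans (Finset.card_biUnion_le.trans ?_)
      apply Finset.sum_le_sum
      intro g _
      refine Finset.card_biUnion_le.trans ?_
      apply Finset.sum_le_sum
      intro c _
      exact Finset.card_image_le
    exact_mod_cast h1
  refine hcard.trans ?_
  have h2 : ∑ c ∈ CS, ((T c).card : ℝ) ≤ (∑ c ∈ CS, Cc c) * (N * Real.log N ^ (-η)) := by
    rw [Finset.sum_mul]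
    apply Finset.sum_le_sum
    intro c _
    have := hCb c N hN
    rw [hT]
    linarith
  rw [Finset.sum_const, nsmul_eq_mul]
  have h3 : (GS.card : ℝ) = 2 * R + 1 := by
    rw [hGS, Int.card_Icc]
    have : ((R : ℤ) + 1 - -(R : ℤ)).toNat = 2 * R + 1 := by omega
    rw [this]
    push_cast
    ring
  rw [h3]
  have h4 : (0 : ℝ) ≤ N * Real.log N ^ (-η) := by positivity
  calc (2 * (R : ℝ) + 1) * ∑ c ∈ CS, ((T c).card : ℝ)
      ≤ (2 * (R : ℝ) + 1) * ((∑ c ∈ CS, Cc c) * (N * Real.log N ^ (-η))) := by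
        apply mul_le_mul_of_nonneg_left h2
        positivity
    _ ≤ ((2 * (R : ℝ) + 1) * ∑ c ∈ CS, Cc c + 1) * (N * Real.log N ^ (-η)) := by
        nlinarith
    _ = ((2 * (R : ℝ) + 1) * ∑ c ∈ CS, Cc c + 1) * N * Real.log N ^ (-η) := by ring

theorem main {ι : Type} [Fintype ι] [DecidableEq ι] [Nonempty ι] (η : ℝ) (hη0 : 0 ≤ η) (hη : η < 1 / 4)
    (a : ι → ℤ) (ha : Function.Injective a) (hsq : ∀ i, ¬ IsSquare (a i)) :
    ∃ C : ℝ, 0 < C ∧ ∀ N : ℕ, 2 ≤ N →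
      (Nat.card {D : ℤ // Squarefree D ∧ |D| ≤ (N : ℤ) ∧ (Adelic a D ∨ Global a D)} : ℝ) ≤
        C * N * Real.log N ^ (-η) := by
  classical
  obtain ⟨C, hC, hCb⟩ := ZMain_card η hη0 hη a ha hsq
  refine ⟨C, hC, fun N hN => le_trans ?_ (hCb N hN)⟩
  have h1 : Nat.card {D : ℤ // Squarefree D ∧ |D| ≤ (N : ℤ) ∧ (Adelic a D ∨ Global a D)} ≤
      ((Finset.Icc (-(N : ℤ)) N).filter fun D => Squarefree D ∧ Adelic a D).card := by
    have h2 : ∀ D : ℤ, (Squarefree D ∧ |D| ≤ (N : ℤ) ∧ (Adelic a D ∨ Global a D)) →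
        D ∈ (Finset.Icc (-(N : ℤ)) N).filter fun D => Squarefree D ∧ Adelic a D := by
      rintro D ⟨hD, hDN, hA⟩
      rw [Finset.mem_filter, Finset.mem_Icc, ← abs_le]
      refine ⟨hDN, hD, ?_⟩
      rcases hA with hA | hA
      · exact hA
      · exact glob ha hD.ne_zero hA
    have h3 := Nat.card_le_card_of_injective
      (fun x : {D : ℤ // Squarefree D ∧ |D| ≤ (N : ℤ) ∧ (Adelic a D ∨ Global a D)} =>
        (⟨x.1, h2 x.1 x.2⟩ : ((Finset.Icc (-(N : ℤ)) N).filter fun D => Squarefree D ∧ Adelic a D :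
          Finset ℤ))) (fun x y hxy => by
        have := congrArg Subtype.val hxy
        exact Subtype.ext this)
    rw [Nat.card_eq_fintype_card (α := ((Finset.Icc (-(N : ℤ)) N).filter fun D =>
      Squarefree D ∧ Adelic a D : Finset ℤ)), Fintype.card_coe] at h3
    exact h3
  exact_mod_cast h1

end ZC
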