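import Pool.Agent.Lib.MP_1ad228_nt.ZRam

/-! JOB ZPoint.  The class of one point over a finite extension of `ℚ_p`, `p` a good odd prime.

Notation: `K = P.K`, `n = [K:ℚ_p]`, `L` from `exists_lval`, `v = L.v`, `g_j = x² - a_j z²`, `ρ = max (v x) (v z) > 0`.  An integer prime to `p` has `v = 1`.
* `v g_j ≤ ρ²`, and for `i ≠ j`: `max (v g_i) (v g_j) = ρ²`, because `g_i - g_j = (a_j - a_i) z²` and `a_j g_i - a_i g_j = (a_j - a_i) x²`.
So either (A) all `v g_j = ρ²` or (B) there is exactly one `k` with `v g_k < ρ²`, and `v g_j = ρ²` for `j ≠ k`.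
(`r = card ι`; if `ι` is empty the statements still hold: then only (A).)
Let `λ ∈ {x, z}` with `v λ = ρ`.

`point_ram` (`p ∣ D`, `p² ∤ D`; so `v D = 1/p`).
(A): `v D * v(w)² = ρ^(2r)`; `w' = w/λ^r` has `v(w')² = p`.  `val j = g_j` and `u = g_j/λ²` has `v u = 1`; by `norm_isSquare_of_ram` `N(u)` is a square, `N(g_j) = N(u) N(λ)²`.  `n` is even: `‖N(w')‖² = v(w')^(2n) = p^n`
   and `‖N w'‖` is an integral power of `p`.  First alternative.
(B): `v z = ρ` (if `v z < ρ` then `v x = ρ` and `v g_k = ρ²`).  For `j ≠ k`: `g_j = (a_k - a_j) z² + g_k = (a_k - a_j) z² (1 + t)` with `v t < 1`; `1 + t` is a square in `K` (`one_unit`), so `g_j (a_k - a_j)` is a square in `K`, hence `N(g_j) (a_k - a_j)^n` is a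
   square in `ℚ_p` (`Algebra.norm_algebraMap`).  `val j = g_j` here.
   `val k * (D ∏_{j≠k} g_j)` is a square in `K`: if `g_k ≠ 0` it is `D ∏ g_j = (D w)²`; if `g_k = 0` trivial.  Take norms and combine with the previous: `N(val k) (D ∏_{j≠k}(a_k - a_j))^n` is a square.
   `x² = a_k z² (1 + t)`, `v t < 1`, so `a_k` is a square in `K`, `a_k^n` is a square in `ℚ_p`, and so is `a_k` if `n` is odd.  Second alternative.
`point_unr` (`p ∤ D`): (A): `v(g_i) = v(λ)²`, so `‖N(g_i)‖ = ‖N(λ)‖²` and the valuation of `N(g_i)` is twice the valuation of `N(λ)`.  (B): `i ≠ k`: the same with `λ = z`.  `i = k`: if `g_k ≠ 0`: `v(w)² = v(g_k) ρ^(2(r-1))`,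
   `v(g_k) = v(w/z^(r-1))²`; if `g_k = 0`: `v(val k) = ρ^(2(r-1))`.
   (Valuation and norm in `ℚ_p`: `Padic.norm_eq_zpow_neg_valuation`.) -/

namespace ZC

open Finset

variable {p : ℕ} [Fact p.Prime] {ι : Type} [Fintype ι] [DecidableEq ι]


section aux

variable {K : Type} [Field K] [Algebra ℚ_[p] K]

private theorem v_one (L : LVal p K) : L.v 1 = 1 := by
  have h := L.mul 1 1
  have h0 : L.v 1 ≠ 0 := fun h0 => one_ne_zero ((L.zero_iff 1).1 h0)
  rw [mul_one] at h
  exact (mul_left_cancel₀ h0 (by rw [mul_one]; exact h)).symm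

/-- the absolute value as a monoid hom -/
private noncomputable def vh (L : LVal p K) : K →* ℝ where
  toFun := L.v
  map_one' := v_one L
  map_mul' := L.mul

private theorem v_pow (L : LVal p K) (x : K) (n : ℕ) : L.v (x ^ n) = L.v x ^ n := map_pow (vh L) x n

private theorem v_prod (L : LVal p K) {κ : Type} (s : Finset κ) (f : κ → K) :
    L.v (∏ i ∈ s, f i) = ∏ i ∈ s, L.v (f i) := map_prod (vh L) f s

private theorem v_neg (L : LVal p K) (x : K) : L.v (-x) = L.v x := by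
  have h1 : L.v (-1) ^ 2 = 1 := by rw [← v_pow]; norm_num [v_one]
  have h2 : L.v (-1) = 1 := by
    have := L.nonneg (-1)
    nlinarith [sq_nonneg (L.v (-1) - 1)]
  rw [← neg_one_mul, L.mul, h2, one_mul]

private theorem v_sub (L : LVal p K) (x y : K) : L.v (x - y) ≤ max (L.v x) (L.v y) := by
  rw [sub_eq_add_neg, ← v_neg L y]
  exact L.add x (-y)

private theorem v_inv (L : LVal p K) (x : K) : L.v (x⁻¹) = (L.v x)⁻¹ := by
  by_cases hx : x = 0
  · subst hx
    rw [inv_zero, (L.zero_iff 0).2 rfl, inv_zero]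
  · have h := L.mul x x⁻¹
    rw [mul_inv_cancel₀ hx, v_one] at h
    exact eq_inv_of_mul_eq_one_right h.symm

private theorem v_div (L : LVal p K) (x y : K) : L.v (x / y) = L.v x / L.v y := by
  rw [div_eq_mul_inv, L.mul, v_inv, div_eq_mul_inv]

private theorem v_int_le (L : LVal p K) (m : ℤ) : L.v (m : K) ≤ 1 := by
  have := L.ext (m : ℚ_[p])
  rw [map_intCast] at this
  rw [this]
  exact Padic.norm_int_le_one m

private theorem v_int (L : LVal p K) {m : ℤ} (hm : ¬ (p : ℤ) ∣ m) : L.v (m : K) = 1 := by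
  have := L.ext (m : ℚ_[p])
  rw [map_intCast] at this
  rw [this]
  refine le_antisymm (Padic.norm_int_le_one m) ?_
  by_contra h
  exact hm (Padic.norm_intCast_lt_one_iff.1 (not_le.1 h))

private theorem v_p (L : LVal p K) : L.v (p : K) = (p : ℝ)⁻¹ := by
  have := L.ext (p : ℚ_[p])
  rw [map_natCast] at this
  rw [this, Padic.norm_p]

/-- equal absolute value of norm -/
private theorem even_val (L : LVal p K) [FiniteDimensional ℚ_[p] K] {y l : K} (hy : y ≠ 0) (hl : l ≠ 0)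
    (h : L.v y = L.v l ^ 2) : Even (Algebra.norm ℚ_[p] y).valuation := by
  have hy' : Algebra.norm ℚ_[p] y ≠ 0 := Algebra.norm_ne_zero_iff.2 hy
  have hl' : Algebra.norm ℚ_[p] l ≠ 0 := Algebra.norm_ne_zero_iff.2 hl
  have h1 : ‖Algebra.norm ℚ_[p] y‖ = ‖Algebra.norm ℚ_[p] l‖ ^ 2 := by
    rw [L.norm, L.norm, h, ← pow_mul, ← pow_mul, mul_comm]
  have hp1 : (1 : ℝ) < p := by exact_mod_cast (Fact.out : p.Prime).one_lt
  rw [Padic.norm_eq_zpow_neg_valuation hy', Padic.norm_eq_zpow_neg_valuation hl', ← zpow_natCast,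
    ← zpow_mul] at h1
  have h2 := zpow_right_injective₀ (zero_lt_one.trans hp1) hp1.ne' h1
  refine ⟨(Algebra.norm ℚ_[p] l).valuation, ?_⟩
  push_cast at h2
  linarith

end aux

/-- everything about the point -/
private structure Data (a : ι → ℤ) (D : ℤ) (P : Pt ℚ_[p] a D) (L : LVal p P.K) (rho : ℝ) (lam : P.K) : Prop where
  rho_pos : 0 < rho
  v_lam : L.v lam = rho
  le : ∀ i, L.v (P.x ^ 2 - (a i : P.K) * P.z ^ 2) ≤ rho ^ 2
  dich : (∀ i, L.v (P.x ^ 2 - (a i : P.K) * P.z ^ 2) = rho ^ 2) ∨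
    ∃ k, L.v (P.x ^ 2 - (a k : P.K) * P.z ^ 2) < rho ^ 2 ∧ L.v P.z = rho ∧
      ∀ j, j ≠ k → L.v (P.x ^ 2 - (a j : P.K) * P.z ^ 2) = rho ^ 2

omit [DecidableEq ι] in
private theorem data (a : ι → ℤ) (D : ℤ) (ha : ∀ i, ¬ (p : ℤ) ∣ a i)
    (hd : ∀ i j, i ≠ j → ¬ (p : ℤ) ∣ a i - a j) (P : Pt ℚ_[p] a D) (L : LVal p P.K) :
    ∃ rho lam, Data a D P L rho lam := by
  set rho := max (L.v P.x) (L.v P.z) with hrho
  have hpos : 0 < rho := by
    by_contra h
    have h1 : L.v P.x ≤ 0 := (le_max_left _ _).trans (not_lt.1 h)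
    have h2 : L.v P.z ≤ 0 := (le_max_right _ _).trans (not_lt.1 h)
    exact P.ne ⟨(L.zero_iff _).1 (le_antisymm h1 (L.nonneg _)), (L.zero_iff _).1 (le_antisymm h2 (L.nonneg _))⟩
  have hxr : L.v P.x ≤ rho := le_max_left _ _
  have hzr : L.v P.z ≤ rho := le_max_right _ _
  have hx0 := L.nonneg P.x
  have hz0 := L.nonneg P.z
  have hvx2 : L.v (P.x ^ 2) ≤ rho ^ 2 := by rw [v_pow]; exact pow_le_pow_left₀ hx0 hxr 2
  have hvz2 : L.v (P.z ^ 2) ≤ rho ^ 2 := by rw [v_pow]; exact pow_le_pow_left₀ hz0 hzr 2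
  have haz : ∀ i, L.v ((a i : P.K) * P.z ^ 2) = L.v P.z ^ 2 := fun i => by
    rw [L.mul, v_int L (ha i), one_mul, v_pow]
  have hle : ∀ i, L.v (P.x ^ 2 - (a i : P.K) * P.z ^ 2) ≤ rho ^ 2 := by
    intro i
    refine (v_sub L _ _).trans (max_le hvx2 ?_)
    rw [haz, ← v_pow]; exact hvz2
  have hge : ∀ i j, i ≠ j → rho ^ 2 ≤ max (L.v (P.x ^ 2 - (a i : P.K) * P.z ^ 2)) (L.v (P.x ^ 2 - (a j : P.K) * P.z ^ 2)) := by
    intro i j hij
    have e1 : L.v P.z ^ 2 ≤ max (L.v (P.x ^ 2 - (a i : P.K) * P.z ^ 2)) (L.v (P.x ^ 2 - (a j : P.K) * P.z ^ 2)) := by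
      have e : P.x ^ 2 - (a i : P.K) * P.z ^ 2 - (P.x ^ 2 - (a j : P.K) * P.z ^ 2) = ((a j - a i : ℤ) : P.K) * P.z ^ 2 := by
        push_cast; ring
      have := v_sub L (P.x ^ 2 - (a i : P.K) * P.z ^ 2) (P.x ^ 2 - (a j : P.K) * P.z ^ 2)
      rw [e, L.mul, v_int L (hd j i hij.symm), one_mul, v_pow] at this
      exact this
    have e2 : L.v P.x ^ 2 ≤ max (L.v (P.x ^ 2 - (a i : P.K) * P.z ^ 2)) (L.v (P.x ^ 2 - (a j : P.K) * P.z ^ 2)) := by
      have e : (a j : P.K) * (P.x ^ 2 - (a i : P.K) * P.z ^ 2) - (a i : P.K) * (P.x ^ 2 - (a j : P.K) * P.z ^ 2) =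
          ((a j - a i : ℤ) : P.K) * P.x ^ 2 := by
        push_cast; ring
      have := v_sub L ((a j : P.K) * (P.x ^ 2 - (a i : P.K) * P.z ^ 2)) ((a i : P.K) * (P.x ^ 2 - (a j : P.K) * P.z ^ 2))
      rw [e, L.mul, L.mul, L.mul, v_int L (hd j i hij.symm), v_int L (ha i), v_int L (ha j), one_mul, one_mul, one_mul, v_pow] at this
      exact this
    rcases max_choice (L.v P.x) (L.v P.z) with h | h
    · rw [← hrho] at h; rw [h]; exact e2
    · rw [← hrho] at h; rw [h]; exact e1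
  obtain ⟨lam, hlam⟩ : ∃ lam, L.v lam = rho := by
    rcases max_choice (L.v P.x) (L.v P.z) with h | h
    · exact ⟨P.x, by rw [hrho, h]⟩
    · exact ⟨P.z, by rw [hrho, h]⟩
  refine ⟨rho, lam, hpos, hlam, hle, ?_⟩
  by_cases hA : ∀ i, L.v (P.x ^ 2 - (a i : P.K) * P.z ^ 2) = rho ^ 2
  · exact Or.inl hA
  · push Not at hA
    obtain ⟨k, hk⟩ := hA
    have hk' := lt_of_le_of_ne (hle k) hk
    refine Or.inr ⟨k, hk', ?_, ?_⟩
    · by_contra hz
      have hz' : L.v P.z < rho := lt_of_le_of_ne hzr hz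
      have hx : L.v P.x = rho := by
        rcases max_choice (L.v P.x) (L.v P.z) with h | h
        · rw [hrho, h]
        · exact absurd (by rw [hrho, h]) hz
      have h1 : L.v (P.x ^ 2) ≤ max (L.v (P.x ^ 2 - (a k : P.K) * P.z ^ 2)) (L.v ((a k : P.K) * P.z ^ 2)) := by
        have := L.add (P.x ^ 2 - (a k : P.K) * P.z ^ 2) ((a k : P.K) * P.z ^ 2)
        rwa [sub_add_cancel] at this
      rw [v_pow, hx, haz] at h1
      have h2 : L.v P.z ^ 2 < rho ^ 2 := pow_lt_pow_left₀ hz' hz0 two_ne_zero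
      exact absurd h1 (not_le.2 (max_lt hk' h2))
    · intro j hj
      refine le_antisymm (hle j) ?_
      have := hge j k hj
      rcases le_max_iff.1 this with h | h
      · exact h
      · exact absurd h (not_le.2 hk')

/-- squares in `K` give squares of norms -/
private theorem norm_sq {K : Type} [Field K] [Algebra ℚ_[p] K] [FiniteDimensional ℚ_[p] K] {y : K} {c : ℤ}
    (h : IsSquare (y * (c : K))) :
    IsSquare (Algebra.norm ℚ_[p] y * ((c : ℤ) : ℚ_[p]) ^ Module.finrank ℚ_[p] K) := by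
  have := h.map (Algebra.norm ℚ_[p])
  rw [map_mul] at this
  have e : (c : K) = algebraMap ℚ_[p] K (c : ℚ_[p]) := by rw [map_intCast]
  rw [e, Algebra.norm_algebraMap] at this
  exact this

private theorem isSquare_prod {K : Type} [Field K] {κ : Type} (s : Finset κ) (f : κ → K) (h : ∀ i ∈ s, IsSquare (f i)) :
    IsSquare (∏ i ∈ s, f i) := by
  classical
  induction s using Finset.induction_on with
  | empty => simp
  | insert i s hi ih =>
    rw [Finset.prod_insert hi]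
    exact (h i (Finset.mem_insert_self i s)).mul (ih fun j hj => h j (Finset.mem_insert_of_mem hj))

private theorem ZPoint_val_zero {F : Type} [Field F] {a : ι → ℤ} {D : ℤ} (P : Pt F a D) (i : ι)
    (h : P.x ^ 2 - (a i : P.K) * P.z ^ 2 = 0) :
    P.val i = (D : P.K) * ∏ j ∈ univ.erase i, (P.x ^ 2 - (a j : P.K) * P.z ^ 2) := by
  unfold Pt.val
  rw [if_pos h]
  refine congrArg (fun t => (D : P.K) * t) (Finset.prod_congr ?_ fun _ _ => rfl)
  ext x
  exact (@Finset.mem_erase ι (fun a b => Classical.propDecidable (a = b)) x i univ).trans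
    (Finset.mem_erase (a := x) (b := i) (s := univ)).symm

theorem point_ram (hp : p ≠ 2) (a : ι → ℤ) (D : ℤ) (ha : ∀ i, ¬ (p : ℤ) ∣ a i)
    (hd : ∀ i j, i ≠ j → ¬ (p : ℤ) ∣ a i - a j) (hD : (p : ℤ) ∣ D) (hD2 : ¬ (p : ℤ) ^ 2 ∣ D) (P : Pt ℚ_[p] a D) :
    (Even (Module.finrank ℚ_[p] P.K) ∧ ∀ i, IsSquare (Algebra.norm ℚ_[p] (P.val i))) ∨
    ∃ k, (Odd (Module.finrank ℚ_[p] P.K) → IsSquare ((a k : ℤ) : ℚ_[p])) ∧
      ∀ i, IsSquare (Algebra.norm ℚ_[p] (P.val i) * ((cc a D k i : ℤ) : ℚ_[p]) ^ Module.finrank ℚ_[p] P.K) := by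
  obtain ⟨L⟩ := exists_lval p P.K
  obtain ⟨rho, lam, hrho, hlam, hle, hdich⟩ := data a D ha hd P L
  have hp0 : (0 : ℝ) < p := by exact_mod_cast (Fact.out : p.Prime).pos
  have hp1 : (1 : ℝ) < p := by exact_mod_cast (Fact.out : p.Prime).one_lt
  have hlam0 : lam ≠ 0 := fun h => by
    rw [h, (L.zero_iff 0).2 rfl] at hlam
    exact hrho.ne hlam
  have hvD : L.v (D : P.K) = (p : ℝ)⁻¹ := by
    obtain ⟨D', rfl⟩ := hD
    have hD' : ¬ (p : ℤ) ∣ D' := fun ⟨e, he⟩ => hD2 ⟨e, by rw [he]; ring⟩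
    rw [Int.cast_mul, L.mul, v_int L hD', mul_one, Int.cast_natCast, v_p]
  have hval : ∀ i, L.v (P.x ^ 2 - (a i : P.K) * P.z ^ 2) = rho ^ 2 → P.val i = P.x ^ 2 - (a i : P.K) * P.z ^ 2 ∧
      P.x ^ 2 - (a i : P.K) * P.z ^ 2 ≠ 0 := by
    intro i hi
    have h0 : P.x ^ 2 - (a i : P.K) * P.z ^ 2 ≠ 0 := fun h => by
      rw [h, (L.zero_iff 0).2 rfl] at hi
      exact (pow_pos hrho 2).ne hi
    refine ⟨?_, h0⟩
    unfold Pt.val
    rw [if_neg h0]
  rcases hdich with hA | ⟨k, hk, hz, hj⟩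
  · left
    set r := Fintype.card ι with hr
    have hw : L.v (P.w / lam ^ r) ^ 2 = p := by
      have h1 : L.v ((D : P.K) * P.w ^ 2) = rho ^ (2 * r) := by
        rw [P.eq, v_prod]
        simp_rw [hA]
        rw [Finset.prod_const, Finset.card_univ, ← pow_mul]
      rw [L.mul, v_pow, hvD] at h1
      rw [v_div, v_pow, hlam, div_pow, ← pow_mul, mul_comm r 2, ← h1]
      have hw0 : L.v P.w ^ 2 ≠ 0 := by
        intro h
        rw [h, mul_zero] at h1
        exact (pow_pos hrho _).ne h1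
      rw [mul_comm (p : ℝ)⁻¹, ← div_div, div_self hw0, one_div, inv_inv]
    have hw0 : P.w / lam ^ r ≠ 0 := fun h => by
      rw [h, (L.zero_iff 0).2 rfl] at hw
      norm_num at hw
      exact hp0.ne hw
    constructor
    · have hN : Algebra.norm ℚ_[p] (P.w / lam ^ r) ≠ 0 := Algebra.norm_ne_zero_iff.2 hw0
      have h1 := L.norm (P.w / lam ^ r)
      have h2 : ‖Algebra.norm ℚ_[p] (P.w / lam ^ r)‖ ^ 2 = (p : ℝ) ^ Module.finrank ℚ_[p] P.K := by
        rw [h1, ← pow_mul, mul_comm, pow_mul, hw]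
      rw [Padic.norm_eq_zpow_neg_valuation hN] at h2
      have h2' : (p : ℝ) ^ (-(Algebra.norm ℚ_[p] (P.w / lam ^ r)).valuation * 2) =
          (p : ℝ) ^ ((Module.finrank ℚ_[p] P.K : ℕ) : ℤ) := by
        rw [zpow_mul, zpow_natCast]
        exact_mod_cast h2
      have h3 := zpow_right_injective₀ hp0 hp1.ne' h2'
      have h4 : Even ((Module.finrank ℚ_[p] P.K : ℕ) : ℤ) := by
        refine ⟨-(Algebra.norm ℚ_[p] (P.w / lam ^ r)).valuation, ?_⟩
        push_cast at h3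
        linarith
      exact (Int.even_coe_nat _).1 h4
    · intro i
      obtain ⟨e, h0⟩ := hval i (hA i)
      rw [e]
      have hu : L.v ((P.x ^ 2 - (a i : P.K) * P.z ^ 2) / lam ^ 2) = 1 := by
        rw [v_div, hA, v_pow, hlam, div_self (pow_pos hrho 2).ne']
      have h1 := norm_isSquare_of_ram p hp P.K L _ hw _ hu
      have h2 : P.x ^ 2 - (a i : P.K) * P.z ^ 2 = (P.x ^ 2 - (a i : P.K) * P.z ^ 2) / lam ^ 2 * (lam * lam) := by
        field_simp
      rw [h2, map_mul, map_mul]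
      exact h1.mul ⟨_, rfl⟩
  · right
    have hz0 : P.z ≠ 0 := fun h => by
      rw [h, (L.zero_iff 0).2 rfl] at hz
      exact hrho.ne hz
    have hK : ∀ m : ℤ, ¬ (p : ℤ) ∣ m → (m : P.K) ≠ 0 := fun m hm h => by
      have := v_int L hm
      rw [h, (L.zero_iff 0).2 rfl] at this
      exact zero_ne_one this
    have hsq : ∀ m : ℤ, ¬ (p : ℤ) ∣ m → IsSquare (1 + (P.x ^ 2 - (a k : P.K) * P.z ^ 2) / ((m : P.K) * P.z ^ 2)) := by
      intro m hm
      apply L.one_unit hp
      rw [add_sub_cancel_left, v_div, L.mul, v_int L hm, v_pow, hz, one_mul, div_lt_one (pow_pos hrho 2)]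
      exact hk
    have hgj : ∀ j, j ≠ k → IsSquare ((P.x ^ 2 - (a j : P.K) * P.z ^ 2) * ((a k - a j : ℤ) : P.K)) := by
      intro j hjk
      obtain ⟨s, hs⟩ := hsq _ (hd k j hjk.symm)
      have h0 := hK _ (hd k j hjk.symm)
      refine ⟨s * (((a k - a j : ℤ) : P.K) * P.z), ?_⟩
      have e : P.x ^ 2 - (a j : P.K) * P.z ^ 2 = (((a k - a j : ℤ) : P.K) * P.z ^ 2) *
          (1 + (P.x ^ 2 - (a k : P.K) * P.z ^ 2) / (((a k - a j : ℤ) : P.K) * P.z ^ 2)) := by
        rw [mul_add, mul_one, mul_div_cancel₀ _ (mul_ne_zero h0 (pow_ne_zero 2 hz0))]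
        push_cast
        ring
      rw [e, hs]
      ring
    refine ⟨k, ?_, ?_⟩
    · intro hodd
      obtain ⟨s, hs⟩ := hsq _ (ha k)
      have h0 := hK _ (ha k)
      have e : P.x ^ 2 = ((a k : P.K) * P.z ^ 2) *
          (1 + (P.x ^ 2 - (a k : P.K) * P.z ^ 2) / ((a k : P.K) * P.z ^ 2)) := by
        rw [mul_add, mul_one, mul_div_cancel₀ _ (mul_ne_zero h0 (pow_ne_zero 2 hz0))]
        ring
      rw [hs] at e
      have hs0 : s ≠ 0 := by
        intro h
        rw [h, mul_zero, mul_zero] at e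
        have hx : P.x = 0 := pow_eq_zero_iff (two_ne_zero) |>.1 e
        rw [hx] at hk
        have : L.v (0 ^ 2 - (a k : P.K) * P.z ^ 2) = rho ^ 2 := by
          rw [show (0 : P.K) ^ 2 - (a k : P.K) * P.z ^ 2 = -((a k : P.K) * P.z ^ 2) by ring, v_neg, L.mul,
            v_int L (ha k), v_pow, hz, one_mul]
        rw [this] at hk
        exact lt_irrefl _ hk
      have hK2 : IsSquare ((1 : P.K) * (a k : P.K)) := by
        refine ⟨P.x / (P.z * s), ?_⟩
        field_simp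
        rw [e]
        ring
      have h1 := norm_sq (p := p) hK2
      rw [map_one, one_mul] at h1
      obtain ⟨m, hm⟩ := hodd
      rw [hm] at h1
      have hq : ((a k : ℤ) : ℚ_[p]) ≠ 0 := by
        intro h
        apply h0
        have := congrArg (algebraMap ℚ_[p] P.K) h
        rwa [map_intCast, map_zero] at this
      obtain ⟨t, ht⟩ := h1
      refine ⟨t / ((a k : ℤ) : ℚ_[p]) ^ m, ?_⟩
      field_simp
      rw [pow_two t, ← ht]
      ring
    · intro i
      apply norm_sq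
      by_cases hik : i = k
      · subst hik
        have hcc : cc a D i i = D * ∏ l ∈ univ.erase i, (a i - a l) := by
          unfold cc
          rw [if_pos rfl]
        rw [hcc]
        have hG0 : ∏ j ∈ univ.erase i, (P.x ^ 2 - (a j : P.K) * P.z ^ 2) ≠ 0 :=
          Finset.prod_ne_zero_iff.2 fun j hj' => (hval j (hj j (Finset.mem_erase.1 hj').1)).2
        have h1 : IsSquare (P.val i * ((D : P.K) * ∏ j ∈ univ.erase i, (P.x ^ 2 - (a j : P.K) * P.z ^ 2))) := by
          by_cases h : P.x ^ 2 - (a i : P.K) * P.z ^ 2 = 0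
          · rw [ZPoint_val_zero P i h]
            exact ⟨_, rfl⟩
          · unfold Pt.val
            rw [if_neg h]
            refine ⟨(D : P.K) * P.w, ?_⟩
            have := P.eq
            rw [← Finset.mul_prod_erase univ _ (Finset.mem_univ i)] at this
            linear_combination -(D : P.K) * this
        have h2 : IsSquare ((∏ j ∈ univ.erase i, (P.x ^ 2 - (a j : P.K) * P.z ^ 2)) *
            ∏ j ∈ univ.erase i, ((a i - a j : ℤ) : P.K)) := by
          rw [← Finset.prod_mul_distrib]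
          exact isSquare_prod _ _ fun j hj' => hgj j (Finset.mem_erase.1 hj').1
        obtain ⟨s, hs⟩ := h1
        obtain ⟨t, ht⟩ := h2
        refine ⟨s * t / ∏ j ∈ univ.erase i, (P.x ^ 2 - (a j : P.K) * P.z ^ 2), ?_⟩
        have e : P.val i * ((D * ∏ l ∈ univ.erase i, (a i - a l) : ℤ) : P.K) =
            P.val i * ((D : P.K) * ∏ j ∈ univ.erase i, ((a i - a j : ℤ) : P.K)) := by
          push_cast
          ring
        rw [e]
        generalize (∏ j ∈ univ.erase i, (P.x ^ 2 - (a j : P.K) * P.z ^ 2)) = G at hG0 hs ht ⊢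
        generalize (∏ j ∈ univ.erase i, ((a i - a j : ℤ) : P.K)) = A at ht ⊢
        have e2 : s * t / G * (s * t / G) = (s * s) * (t * t) / (G * G) := by ring
        rw [e2, ← hs, ← ht]
        field_simp
      · have hcc : cc a D k i = a k - a i := by
          unfold cc
          rw [if_neg hik]
        rw [hcc, (hval i (hj i hik)).1]
        exact hgj i hik

theorem point_unr (hp : p ≠ 2) (a : ι → ℤ) (D : ℤ) (ha : ∀ i, ¬ (p : ℤ) ∣ a i)
    (hd : ∀ i j, i ≠ j → ¬ (p : ℤ) ∣ a i - a j) (hD : ¬ (p : ℤ) ∣ D) (P : Pt ℚ_[p] a D) (i : ι) :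
    Even (Algebra.norm ℚ_[p] (P.val i)).valuation := by
  have _ := hp
  obtain ⟨L⟩ := exists_lval p P.K
  obtain ⟨rho, lam, hrho, hlam, hle, hdich⟩ := data a D ha hd P L
  have hlam0 : lam ≠ 0 := fun h => by
    rw [h, (L.zero_iff 0).2 rfl] at hlam
    exact hrho.ne hlam
  have hvD : L.v (D : P.K) = 1 := v_int L hD
  have hval : ∀ i, L.v (P.x ^ 2 - (a i : P.K) * P.z ^ 2) = rho ^ 2 → P.val i = P.x ^ 2 - (a i : P.K) * P.z ^ 2 ∧
      P.x ^ 2 - (a i : P.K) * P.z ^ 2 ≠ 0 := by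
    intro i hi
    have h0 : P.x ^ 2 - (a i : P.K) * P.z ^ 2 ≠ 0 := fun h => by
      rw [h, (L.zero_iff 0).2 rfl] at hi
      exact (pow_pos hrho 2).ne hi
    refine ⟨?_, h0⟩
    unfold Pt.val
    rw [if_neg h0]
  have hgood : L.v (P.x ^ 2 - (a i : P.K) * P.z ^ 2) = rho ^ 2 → Even (Algebra.norm ℚ_[p] (P.val i)).valuation := by
    intro hi
    obtain ⟨e, h0⟩ := hval i hi
    rw [e]
    exact even_val L h0 hlam0 (by rw [hi, hlam])
  rcases hdich with hA | ⟨k, hk, hz, hj⟩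
  · exact hgood (hA i)
  · by_cases hik : i = k
    · subst hik
      have hz0 : P.z ≠ 0 := fun h => by
        rw [h, (L.zero_iff 0).2 rfl] at hz
        exact hrho.ne hz
      have hprod : L.v (∏ j ∈ univ.erase i, (P.x ^ 2 - (a j : P.K) * P.z ^ 2)) =
          rho ^ (2 * (univ.erase i).card) := by
        rw [v_prod, Finset.prod_congr rfl fun j hj' => hj j (Finset.mem_erase.1 hj').1, Finset.prod_const,
          ← pow_mul]
      by_cases h : P.x ^ 2 - (a i : P.K) * P.z ^ 2 = 0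
      · have e : P.val i = (D : P.K) * ∏ j ∈ univ.erase i, (P.x ^ 2 - (a j : P.K) * P.z ^ 2) :=
          ZPoint_val_zero P i h
        rw [e]
        have hv : L.v ((D : P.K) * ∏ j ∈ univ.erase i, (P.x ^ 2 - (a j : P.K) * P.z ^ 2)) =
            L.v (P.z ^ (univ.erase i).card) ^ 2 := by
          rw [L.mul, hvD, one_mul, hprod, v_pow, hz, ← pow_mul, mul_comm]
        refine even_val L ?_ (pow_ne_zero _ hz0) hv
        intro h'
        rw [h', (L.zero_iff 0).2 rfl, v_pow, hz, ← pow_mul] at hv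
        exact (pow_pos hrho _).ne hv
      · have e : P.val i = P.x ^ 2 - (a i : P.K) * P.z ^ 2 := by
          unfold Pt.val
          rw [if_neg h]
        rw [e]
        have h1 : L.v ((D : P.K) * P.w ^ 2) = L.v (P.x ^ 2 - (a i : P.K) * P.z ^ 2) *
            rho ^ (2 * (univ.erase i).card) := by
          rw [P.eq, ← Finset.mul_prod_erase univ _ (Finset.mem_univ i), L.mul, hprod]
        rw [L.mul, hvD, one_mul, v_pow] at h1
        have hv : L.v (P.x ^ 2 - (a i : P.K) * P.z ^ 2) = L.v (P.w / P.z ^ (univ.erase i).card) ^ 2 := by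
          rw [v_div, v_pow, hz, div_pow, h1, ← pow_mul, mul_comm (univ.erase i).card 2]
          field_simp
        refine even_val L h ?_ hv
        intro h'
        rw [h', (L.zero_iff 0).2 rfl] at hv
        have : L.v (P.x ^ 2 - (a i : P.K) * P.z ^ 2) = 0 := by rw [hv]; norm_num
        exact h ((L.zero_iff _).1 this)
    · exact hgood (hj i hik)

end ZC
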