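import Pool.Agent.Lib.MP_1ad228_nt.ZDefs

/-! JOB ZVal.  The absolute value of a finite extension of `ℚ_p`.

`exists_lval`: take `v = spectralNorm ℚ_[p] K` (Mathlib.Analysis.Normed.Unbundled.SpectralNorm: `spectralNorm.normedField`, `spectralNorm_mul`, `isNonarchimedean_spectralNorm`,
`spectralNorm_extends`, `spectralNorm_zero_lt`, `spectralNorm.completeSpace`, ...).
`norm`: `spectralNorm_eq_norm_coeff_zero_rpow` (the spectral norm is `‖coeff 0 of the minimal polynomial‖^(1/deg)`) and `Algebra.norm x = ± (coeff 0)^(n/deg)`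
(`Algebra.norm_eq_...`, `Algebra.norm_gen_eq_coeff_zero_minpoly`, tower `ℚ_p ⊆ ℚ_p(x) ⊆ K`), or: the norm is the product of the conjugates in a splitting field and all the conjugates
have the same spectral norm (`Algebra.norm_eq_prod_embeddings`, `spectralNorm_eq_of_equiv`).
`one_unit`: for `v (x - 1) < 1`, `p ≠ 2`, `x` is a square.  Either Hensel / Newton iteration in the complete field `K` (`s ↦ s - (s² - x)/(2 s)`), or this trick: if `x` is not a square, let `L = K(s)`, `s² = x`
(`AdjoinRoot (X^2 - C x)`); the automorphism `σ s = -s` over `K` preserves the absolute value of `L` (uniqueness: `spectralNorm_eq_of_equiv`), so `|s - 1| = |-s - 1| = |s + 1|`, the product is `v (x - 1) < 1`,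
so both are `< 1` and `|2| = |(s+1) - (s-1)| < 1`, contradiction with `p ≠ 2`.
`two_classes`: the residue field `{v ≤ 1}/{v < 1}` is finite (`K` is finite dimensional over `ℚ_p`, hence locally compact; Mathlib: `FiniteDimensional.proper`,
`Valued.integer.compactSpace_iff...finite_residueField` for `NontriviallyNormedField` with `IsUltrametricDist`; or: the residue field is algebraic of bounded degree over `ZMod p`) of odd order, in a finite field of odd order the product of two
non-squares is a square; and two elements of absolute value 1 with the same residue differ by a factor `t` with `v (t - 1) < 1`, a square by `one_unit`. -/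

namespace ZC

open Polynomial in
/-- an element close to `1` is a square -/
private theorem zval_one_unit (p : ℕ) [Fact p.Prime] (hp : p ≠ 2) (K : Type) [Field K]
    [Algebra ℚ_[p] K] [FiniteDimensional ℚ_[p] K] (x : K) (hx : spectralNorm ℚ_[p] K (x - 1) < 1) :
    IsSquare x := by
  by_contra hns
  have hirr : Irreducible (X ^ 2 - C x : K[X]) := by
    rw [X_pow_sub_C_irreducible_iff_of_prime Nat.prime_two]
    intro b hb
    exact hns ⟨b, by rw [← hb]; ring⟩
  have : Fact (Irreducible (X ^ 2 - C x : K[X])) := ⟨hirr⟩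
  set L := AdjoinRoot (X ^ 2 - C x : K[X]) with hL
  have hne : (X ^ 2 - C x : K[X]) ≠ 0 := hirr.ne_zero
  have : FiniteDimensional K L := (AdjoinRoot.powerBasis hne).finite
  have : FiniteDimensional ℚ_[p] L := FiniteDimensional.trans ℚ_[p] K L
  set s : L := AdjoinRoot.root (X ^ 2 - C x : K[X]) with hs
  have hs2 : s ^ 2 = algebraMap K L x := by
    have h := AdjoinRoot.eval₂_root (X ^ 2 - C x : K[X])
    simp only [eval₂_sub, eval₂_pow, eval₂_X, eval₂_C] at h
    exact sub_eq_zero.1 h
  have hσ : aeval (-s) (X ^ 2 - C x : K[X]) = 0 := by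
    simp only [map_sub, map_pow, aeval_X, aeval_C, neg_sq]
    rw [hs2, sub_self]
  let σ : L →ₐ[K] L := AdjoinRoot.liftAlgHom (X ^ 2 - C x : K[X]) (Algebra.ofId K L) (-s)
    (by simpa [aeval_def, Algebra.ofId] using hσ)
  have hσs : σ s = -s := AdjoinRoot.liftAlgHom_root (X ^ 2 - C x : K[X]) _ _ _
  have hinv : ∀ y : L, spectralNorm ℚ_[p] L (σ y) = spectralNorm ℚ_[p] L y := by
    intro y
    unfold spectralNorm
    rw [show minpoly ℚ_[p] (σ y) = minpoly ℚ_[p] y from
      minpoly.algHom_eq (σ.restrictScalars ℚ_[p]) σ.injective y]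
  set w : L → ℝ := spectralNorm ℚ_[p] L with hw
  have wmul : ∀ a b, w (a * b) = w a * w b := fun a b => spectralAlgNorm_mul a b
  have wneg : ∀ a, w (-a) = w a := fun a => spectralNorm_neg (Algebra.IsAlgebraic.isAlgebraic a)
  have wnn : ∀ a, 0 ≤ w a := fun a => spectralNorm_nonneg a
  have h1 : w (s - 1) = w (s + 1) := by
    rw [← hinv (s - 1), map_sub, hσs, map_one, ← wneg]
    congr 1
    ring
  have h2 : w (s - 1) * w (s + 1) < 1 := by
    rw [← wmul]
    have e : (s - 1) * (s + 1) = algebraMap K L (x - 1) := by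
      rw [map_sub, ← hs2, map_one]
      ring
    rw [e]
    have := spectralNorm.eq_of_tower (K := ℚ_[p]) (E := K) (L := L) (x - 1)
    rw [hw, ← this]
    exact hx
  have h3 : w (s + 1) < 1 := by
    rw [h1] at h2
    nlinarith [wnn (s + 1)]
  have h4 : w (2 : L) < 1 := by
    have e : (2 : L) = (s + 1) + -(s - 1) := by ring
    rw [e]
    refine lt_of_le_of_lt (isNonarchimedean_spectralNorm (K := ℚ_[p]) (L := L) (s + 1) (-(s - 1))) ?_
    refine max_lt h3 ?_
    have := wneg (s - 1)
    rw [hw] at this
    rw [this]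
    have h5 := h1
    rw [hw] at h5 h3
    rw [h5]
    exact h3
  have h5 : w (2 : L) = ‖(2 : ℚ_[p])‖ := by
    have := spectralNorm_extends (K := ℚ_[p]) (L := L) 2
    rw [map_ofNat] at this
    exact this
  have h6 : ‖(2 : ℚ_[p])‖ = 1 := by
    have : ‖((2 : ℕ) : ℚ_[p])‖ = 1 := by
      rw [Padic.norm_natCast_eq_one_iff]
      exact (Nat.coprime_primes (Fact.out) Nat.prime_two).2 hp
    simpa using this
  rw [h5, h6] at h4
  exact lt_irrefl _ h4

/-- the multiplicative group of the (finite) residue field modulo squares has at most two elements -/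
private theorem zval_residue {K : Type} [NormedField K] [IsUltrametricDist K] [ProperSpace K]
    (h2 : ‖(2 : K)‖ = 1) (h1u : ∀ x : K, ‖x - 1‖ < 1 → IsSquare x) (u c : K) (hu : ‖u‖ = 1)
    (hc : ‖c‖ = 1) (hns : ¬ IsSquare c) : IsSquare u ∨ IsSquare (u * c) := by
  classical
  set V : Valuation K NNReal := NormedField.valuation with hV
  have hVle : ∀ x : K, V x ≤ 1 ↔ ‖x‖ ≤ 1 := fun x => by
    rw [hV, NormedField.valuation_apply, ← NNReal.coe_le_coe]; rfl
  have hVlt : ∀ x : K, V x < 1 ↔ ‖x‖ < 1 := fun x => by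
    rw [hV, NormedField.valuation_apply, ← NNReal.coe_lt_coe]; rfl
  let O := V.valuationSubring
  have hmem : ∀ x : K, x ∈ V.valuationSubring ↔ ‖x‖ ≤ 1 := fun x => by
    rw [Valuation.mem_valuationSubring_iff, hVle]
  let k := IsLocalRing.ResidueField O
  let res : O →+* k := IsLocalRing.residue O
  have hres0 : ∀ a : O, res a = 0 ↔ ‖(a : K)‖ < 1 := by
    intro a
    rw [IsLocalRing.residue_eq_zero_iff, Valuation.mem_maximalIdeal_iff, hVlt]
  have hfin : Finite k := by
    have hcomp : IsCompact (Metric.closedBall (0 : K) 1) := isCompact_closedBall 0 1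
    obtain ⟨t, hts, htf, htc⟩ := hcomp.finite_cover_balls (e := 1) one_pos
    have : Finite t := htf
    have hmemt : ∀ a : t, (a : K) ∈ V.valuationSubring := by
      intro a
      rw [hmem]
      simpa using hts a.2
    apply Finite.of_surjective (fun a : t => res ⟨(a : K), hmemt a⟩)
    intro y
    obtain ⟨b, rfl⟩ := IsLocalRing.residue_surjective (R := O) y
    have hb : ‖(b : K)‖ ≤ 1 := (hmem _).1 b.2
    have : (b : K) ∈ ⋃ x ∈ t, Metric.ball x 1 := htc (by simpa using hb)
    simp only [Set.mem_iUnion, Metric.mem_ball] at this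
    obtain ⟨a, ha, hd⟩ := this
    refine ⟨⟨a, ha⟩, ?_⟩
    have h0 : res (⟨a, hmemt ⟨a, ha⟩⟩ - b) = 0 := by
      rw [hres0]
      rw [dist_comm, dist_eq_norm] at hd
      exact hd
    rw [map_sub, sub_eq_zero] at h0
    exact h0
  have : Fintype k := Fintype.ofFinite k
  have hchar : ringChar k ≠ 2 := by
    intro h
    have h0 : ((2 : ℕ) : k) = 0 := by
      rw [ringChar.spec, h]
    have h1 : res ((2 : ℕ) : O) = 0 := by
      rw [map_natCast]; exact h0
    rw [hres0] at h1
    have h3 : (((2 : ℕ) : O) : K) = 2 := by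
      have h4 := map_natCast O.subtype 2
      exact h4.trans (by norm_num)
    rw [h3, h2] at h1
    exact lt_irrefl _ h1
  -- lifting squares
  have lift : ∀ a : O, ‖(a : K)‖ = 1 → IsSquare (res a) → IsSquare (a : K) := by
    rintro a ha ⟨r, hr⟩
    obtain ⟨s, rfl⟩ := IsLocalRing.residue_surjective (R := O) r
    have hd : res (a - s * s) = 0 := by
      rw [map_sub, map_mul, hr]
      exact sub_self _
    rw [hres0] at hd
    have hd' : ‖(a : K) - (s : K) * (s : K)‖ < 1 := hd
    have hs1 : ‖(s : K)‖ ≤ 1 := (hmem _).1 s.2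
    have hs : ‖(s : K)‖ = 1 := by
      by_contra hne
      have hlt : ‖(s : K)‖ < 1 := lt_of_le_of_ne hs1 hne
      have h3 : ‖(s : K) * (s : K)‖ < 1 := by
        rw [norm_mul]
        nlinarith [norm_nonneg (s : K)]
      have h4 : ‖(a : K)‖ < 1 := by
        have e : (a : K) = ((a : K) - (s : K) * (s : K)) + (s : K) * (s : K) := by ring
        rw [e]
        exact lt_of_le_of_lt (IsUltrametricDist.norm_add_le_max _ _) (max_lt hd' h3)
      rw [ha] at h4
      exact lt_irrefl _ h4
    have hs0 : (s : K) ≠ 0 := by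
      intro h
      rw [h, norm_zero] at hs
      exact zero_ne_one hs
    have h5 : ‖(a : K) / ((s : K) * (s : K)) - 1‖ < 1 := by
      have e : (a : K) / ((s : K) * (s : K)) - 1 = ((a : K) - (s : K) * (s : K)) /
          ((s : K) * (s : K)) := by
        field_simp
      rw [e, norm_div, norm_mul, hs, mul_one, div_one]
      exact hd'
    obtain ⟨q, hq⟩ := h1u _ h5
    refine ⟨s * q, ?_⟩
    have : (a : K) = (q * q) * ((s : K) * (s : K)) := by
      rw [← hq]
      field_simp
    rw [this]
    ring
  let u' : O := ⟨u, (hmem _).2 hu.le⟩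
  let c' : O := ⟨c, (hmem _).2 hc.le⟩
  have hu0 : res u' ≠ 0 := by
    intro h
    rw [hres0] at h
    exact absurd hu (ne_of_lt h)
  have hc0 : res c' ≠ 0 := by
    intro h
    rw [hres0] at h
    exact absurd hc (ne_of_lt h)
  have hcn : ¬ IsSquare (res c') := fun h => hns (lift c' hc h)
  have hcp : (res c') ^ (Fintype.card k / 2) = -1 :=
    (FiniteField.pow_dichotomy hchar hc0).resolve_left
      (fun h => hcn ((FiniteField.isSquare_iff hchar hc0).2 h))
  rcases FiniteField.pow_dichotomy hchar hu0 with h | h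
  · left
    exact lift u' hu ((FiniteField.isSquare_iff hchar hu0).2 h)
  · right
    have h6 : IsSquare (res (u' * c')) := by
      rw [map_mul, FiniteField.isSquare_iff hchar (mul_ne_zero hu0 hc0), mul_pow, h, hcp]
      ring
    exact lift (u' * c') (by show ‖u * c‖ = 1; rw [norm_mul, hu, hc, one_mul]) h6

private theorem zval_norm (p : ℕ) [Fact p.Prime] (K : Type) [Field K] [Algebra ℚ_[p] K]
    [FiniteDimensional ℚ_[p] K] (x : K) :
    ‖Algebra.norm ℚ_[p] x‖ = spectralNorm ℚ_[p] K x ^ Module.finrank ℚ_[p] K := by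
  have hint : IsIntegral ℚ_[p] x := Algebra.IsIntegral.isIntegral x
  rw [Algebra.norm_eq_norm_adjoin, spectralNorm.spectralNorm_eq_norm_coeff_zero_rpow]
  have h1 : Algebra.norm ℚ_[p] (IntermediateField.AdjoinSimple.gen ℚ_[p] x) =
      (-1) ^ (minpoly ℚ_[p] x).natDegree * (minpoly ℚ_[p] x).coeff 0 := by
    have := Algebra.PowerBasis.norm_gen_eq_coeff_zero_minpoly (IntermediateField.adjoin.powerBasis hint)
    rw [IntermediateField.adjoin.powerBasis_gen hint, IntermediateField.adjoin.powerBasis_dim,
      IntermediateField.minpoly_gen] at this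
    exact this
  rw [h1, norm_pow, norm_mul, norm_pow, norm_neg, norm_one, one_pow, one_mul]
  have h2 : Module.finrank ℚ_[p] K = (minpoly ℚ_[p] x).natDegree *
      Module.finrank (IntermediateField.adjoin ℚ_[p] {x}) K := by
    rw [← IntermediateField.adjoin.finrank hint, Module.finrank_mul_finrank]
  rw [h2, pow_mul]
  congr 1
  have hd : (minpoly ℚ_[p] x).natDegree ≠ 0 := (minpoly.natDegree_pos hint).ne'
  rw [one_div, Real.rpow_inv_natCast_pow (norm_nonneg _) hd]

/-- the absolute value of a finite extension of `ℚ_p`, with the properties we use -/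
structure LVal (p : ℕ) [Fact p.Prime] (K : Type) [Field K] [Algebra ℚ_[p] K] where
  v : K → ℝ
  nonneg : ∀ x, 0 ≤ v x
  zero_iff : ∀ x, v x = 0 ↔ x = 0
  mul : ∀ x y, v (x * y) = v x * v y
  add : ∀ x y, v (x + y) ≤ max (v x) (v y)
  ext : ∀ c : ℚ_[p], v (algebraMap ℚ_[p] K c) = ‖c‖
  norm : ∀ x, ‖Algebra.norm ℚ_[p] x‖ = v x ^ Module.finrank ℚ_[p] K
  one_unit : p ≠ 2 → ∀ x, v (x - 1) < 1 → IsSquare x
  two_classes : p ≠ 2 → ∀ u c, v u = 1 → v c = 1 → ¬ IsSquare c → IsSquare u ∨ IsSquare (u * c)

theorem exists_lval (p : ℕ) [Fact p.Prime] (K : Type) [Field K] [Algebra ℚ_[p] K]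
    [FiniteDimensional ℚ_[p] K] : Nonempty (LVal p K) := by
  have hmul : ∀ x y : K, spectralNorm ℚ_[p] K (x * y) =
      spectralNorm ℚ_[p] K x * spectralNorm ℚ_[p] K y := fun a b => spectralAlgNorm_mul a b
  refine ⟨{
    v := spectralNorm ℚ_[p] K
    nonneg := fun x => spectralNorm_nonneg x
    zero_iff := ?_
    mul := hmul
    add := fun x y => isNonarchimedean_spectralNorm x y
    ext := fun c => spectralNorm_extends c
    norm := fun x => zval_norm p K x
    one_unit := fun hp x hx => zval_one_unit p hp K x hx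
    two_classes := ?_ }⟩
  · intro x
    constructor
    · intro h
      exact eq_zero_of_map_spectralNorm_eq_zero h (Algebra.IsAlgebraic.isAlgebraic x)
    · rintro rfl
      exact spectralNorm_zero
  · intro hp u c hu hc hns
    let : NontriviallyNormedField K := spectralNorm.nontriviallyNormedField ℚ_[p] K
    let : NormedSpace ℚ_[p] K := spectralNorm.normedSpace ℚ_[p] K
    have : IsUltrametricDist K := by
      apply IsUltrametricDist.isUltrametricDist_of_isNonarchimedean_norm
      exact isNonarchimedean_spectralNorm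
    have : ProperSpace K := FiniteDimensional.proper ℚ_[p] K
    have h2 : ‖(2 : K)‖ = 1 := by
      have h6 : ‖(2 : ℚ_[p])‖ = 1 := by
        have : ‖((2 : ℕ) : ℚ_[p])‖ = 1 := by
          rw [Padic.norm_natCast_eq_one_iff]
          exact (Nat.coprime_primes (Fact.out) Nat.prime_two).2 hp
        simpa using this
      have := spectralNorm_extends (K := ℚ_[p]) (L := K) 2
      rw [h6, map_ofNat] at this
      exact this
    exact zval_residue h2 (fun x hx => zval_one_unit p hp K x hx) u c hu hc hns

end ZC
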